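import Pool.Agent.GO3.Arc

/-! GO3 / Ang: angular inequalities.

`fourier_low`: `f` is `C¹`, `f (χ + T) = e^{i κ T} f (χ)`. Put `g = e^{-iκχ} f`, `T`-periodic, Fourier series
`g = Σ g_k e^{2πikχ/T}`; `∫_0^T |f'|² = T Σ |κ + 2πk/T|² |g_k|² ≥ d² ∫_0^T |f|²` if `d ≤ |κ + 2πk/T|` for all
integers `k` (Parseval, Mathlib: `fourierCoeffOn_of_hasDerivAt`, `tsum_sq_fourierCoeffOn`; apply to `g` and to
`g' + iκ g = e^{-iκχ} f'`).
`ang`: apply to `f χ = wt χ e^{i β χ} ...`: with `v χ = w (pt r χ) e^{-i (B (r, χ) - β χ)}` one has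
`v' - i β v = D_χ w e^{...}`, i.e. `|(v e^{-iβχ})'| = |D_χ w|`, and `v (χ + 2α) = e^{2iα} v (χ)`, so
`f = v e^{-iβχ} = wt` satisfies `f (χ + 2α) = e^{i (1-β) 2α} f (χ)`, `T = 2α`, `2π/T = m`, `κ = 1 - β`.
`wirtinger`: `T = 2π`, `κ = 0`, mean zero (componentwise; the `k = 0` coefficient vanishes). -/

open MeasureTheory Filter Topology Set
open scoped ContDiff Real

noncomputable section

namespace GO3

private theorem ang_memLp {g : ℝ → ℂ} (hg : Continuous g) (T : ℝ) :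
    MemLp g 2 (volume.restrict (Ioc 0 T)) := by
  obtain ⟨C, hC⟩ := (isCompact_Icc (a := (0 : ℝ)) (b := T)).exists_bound_of_continuousOn hg.continuousOn
  refine MemLp.of_bound hg.aestronglyMeasurable C ?_
  rw [ae_restrict_iff' measurableSet_Ioc]
  exact Eventually.of_forall fun x hx => hC x ⟨hx.1.le, hx.2⟩

private theorem ang_coef_sub {T : ℝ} (hT : 0 < T) {f g : ℝ → ℂ} (hf : Continuous f) (hg : Continuous g) (k : ℤ) :
    fourierCoeffOn hT (fun x => f x - g x) k = fourierCoeffOn hT f k - fourierCoeffOn hT g k := by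
  have hk : Continuous fun x : ℝ => fourier (-k) (x : AddCircle (T - 0)) :=
    (map_continuous (fourier (T := T - 0) (-k))).comp (AddCircle.continuous_mk' _)
  rw [fourierCoeffOn_eq_integral, fourierCoeffOn_eq_integral, fourierCoeffOn_eq_integral, ← smul_sub,
    ← intervalIntegral.integral_sub]
  · simp_rw [smul_sub]
  · exact (hk.smul hf).intervalIntegrable _ _
  · exact (hk.smul hg).intervalIntegrable _ _

private theorem ang_coef_deriv {T : ℝ} (hT : 0 < T) {g g' : ℝ → ℂ} (hg : ∀ x, HasDerivAt g (g' x) x)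
    (hc : Continuous g') (hper : g T = g 0) (k : ℤ) :
    fourierCoeffOn hT g' k = Complex.I * (2 * π * k / T) * fourierCoeffOn hT g k := by
  by_cases hk : k = 0
  · subst hk
    rw [fourierCoeffOn_eq_integral]
    simp only [neg_zero, fourier_zero, one_smul, Int.cast_zero, mul_zero, zero_div, zero_mul]
    rw [intervalIntegral.integral_eq_sub_of_hasDerivAt (fun x _ => hg x) (hc.intervalIntegrable _ _), hper,
      sub_self, smul_zero]
  · have h := fourierCoeffOn_of_hasDerivAt hT hk (fun x _ => hg x) (hc.intervalIntegrable 0 T)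
    rw [hper, sub_self, mul_zero, zero_sub] at h
    have hk' : (k : ℂ) ≠ 0 := by exact_mod_cast hk
    have hT' : (T : ℂ) ≠ 0 := by exact_mod_cast hT.ne'
    have hpi : (π : ℂ) ≠ 0 := by exact_mod_cast Real.pi_ne_zero
    rw [h]
    simp only [Complex.ofReal_zero, sub_zero]
    field_simp

theorem fourier_low {f f' : ℝ → ℂ} (hf : ∀ x, HasDerivAt f (f' x) x) (hc : Continuous f')
    {T κ d : ℝ} (hT : 0 < T)
    (hper : ∀ x, f (x + T) = Complex.exp ((κ * T : ℝ) * Complex.I) * f x) (hd0 : 0 ≤ d)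
    (hd : ∀ k : ℤ, d ≤ |κ + 2 * π * k / T|) :
    d ^ 2 * ∫ x in (0 : ℝ)..T, ‖f x‖ ^ 2 ≤ ∫ x in (0 : ℝ)..T, ‖f' x‖ ^ 2 := by
  have hcf : Continuous f := continuous_iff_continuousAt.2 fun x => (hf x).continuousAt
  set e : ℝ → ℂ := fun x => Complex.exp (((-(κ * x) : ℝ) : ℂ) * Complex.I) with he
  have hce : Continuous e := by
    rw [he]
    fun_prop
  have hne : ∀ x, ‖e x‖ = 1 := fun x => Complex.norm_exp_ofReal_mul_I _
  have hde : ∀ x, HasDerivAt e (e x * (-(κ : ℂ) * Complex.I)) x := by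
    intro x
    have h1 : HasDerivAt (fun x : ℝ => -(κ * x)) (-κ) x := by
      have h0 := ((hasDerivAt_id x).const_mul (-κ))
      refine (h0.congr_deriv (by ring)).congr_of_eventuallyEq (Eventually.of_forall fun y => ?_)
      simp
    have h2 := (h1.ofReal_comp.mul_const Complex.I).cexp
    refine h2.congr_deriv ?_
    simp only [he]
    push_cast
    ring
  set g : ℝ → ℂ := fun x => e x * f x with hg
  set G : ℝ → ℂ := fun x => e x * f' x with hG
  have hcg : Continuous g := hce.mul hcf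
  have hcG : Continuous G := hce.mul hc
  have hdg : ∀ x, HasDerivAt g (G x - Complex.I * κ * g x) x := by
    intro x
    refine ((hde x).mul (hf x)).congr_deriv ?_
    simp only [hG, hg]
    ring
  have hcc : Continuous fun x => Complex.I * κ * g x := by fun_prop
  have hgT : g T = g 0 := by
    have h1 := hper 0
    rw [zero_add] at h1
    simp only [hg, he]
    rw [h1, ← mul_assoc, ← Complex.exp_add]
    have : ((-(κ * T) : ℝ) : ℂ) * Complex.I + ((κ * T : ℝ) : ℂ) * Complex.I = 0 := by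
      push_cast
      ring
    rw [this]
    simp
  have hcoef : ∀ k : ℤ, fourierCoeffOn hT G k = Complex.I * (κ + 2 * π * k / T) * fourierCoeffOn hT g k := by
    intro k
    have h1 := ang_coef_deriv hT hdg (hcG.sub hcc) hgT k
    rw [ang_coef_sub hT hcG hcc, fourierCoeffOn.const_mul] at h1
    linear_combination h1
  have hP1 := hasSum_sq_fourierCoeffOn hT (ang_memLp hcg T)
  have hP2 := hasSum_sq_fourierCoeffOn hT (ang_memLp hcG T)
  have hle : ∀ k : ℤ, d ^ 2 * ‖fourierCoeffOn hT g k‖ ^ 2 ≤ ‖fourierCoeffOn hT G k‖ ^ 2 := by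
    intro k
    rw [hcoef k, norm_mul, norm_mul, Complex.norm_I, one_mul, mul_pow]
    refine mul_le_mul_of_nonneg_right ?_ (sq_nonneg _)
    have h1 : ‖((κ : ℂ) + 2 * π * k / T)‖ = |κ + 2 * π * k / T| := by
      have h2 : ((κ : ℂ) + 2 * π * k / T) = ((κ + 2 * π * k / T : ℝ) : ℂ) := by push_cast; ring
      rw [h2, Complex.norm_real, Real.norm_eq_abs]
    rw [h1]
    exact pow_le_pow_left₀ hd0 (hd k) 2
  have h1 := hasSum_le hle (hP1.mul_left (d ^ 2)) hP2
  simp only [sub_zero, smul_eq_mul] at h1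
  have e1 : ∀ x, ‖g x‖ = ‖f x‖ := fun x => by simp only [hg]; rw [norm_mul, hne, one_mul]
  have e2 : ∀ x, ‖G x‖ = ‖f' x‖ := fun x => by simp only [hG]; rw [norm_mul, hne, one_mul]
  simp_rw [e1, e2] at h1
  have h2 : T⁻¹ * (d ^ 2 * ∫ x in (0 : ℝ)..T, ‖f x‖ ^ 2) ≤ T⁻¹ * ∫ x in (0 : ℝ)..T, ‖f' x‖ ^ 2 := by
    linarith
  exact le_of_mul_le_mul_left h2 (inv_pos.2 hT)

/-- Wirtinger inequality for a periodic function with mean zero -/
theorem wirtinger {f f' : ℝ → ℝ} (hf : ∀ x, HasDerivAt f (f' x) x) (hc : Continuous f')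
    (hper : ∀ x, f (x + 2 * π) = f x) (hmean : ∫ x in (0 : ℝ)..2 * π, f x = 0) :
    ∫ x in (0 : ℝ)..2 * π, f x ^ 2 ≤ ∫ x in (0 : ℝ)..2 * π, f' x ^ 2 := by
  have hT : (0 : ℝ) < 2 * π := by positivity
  have hcf : Continuous f := continuous_iff_continuousAt.2 fun x => (hf x).continuousAt
  have hdg : ∀ x, HasDerivAt (fun x => (f x : ℂ)) ((f' x : ℝ) : ℂ) x := fun x => (hf x).ofReal_comp
  have hcg : Continuous fun x => (f x : ℂ) := Complex.continuous_ofReal.comp hcf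
  have hcG : Continuous fun x => (f' x : ℂ) := Complex.continuous_ofReal.comp hc
  have hgT : ((f (2 * π) : ℝ) : ℂ) = ((f 0 : ℝ) : ℂ) := by
    have := hper 0
    rw [zero_add] at this
    rw [this]
  have hcoef := ang_coef_deriv hT hdg hcG hgT
  have hz : fourierCoeffOn hT (fun x => (f x : ℂ)) 0 = 0 := by
    rw [fourierCoeffOn_eq_integral]
    simp only [neg_zero, fourier_zero, one_smul]
    rw [intervalIntegral.integral_ofReal, hmean, Complex.ofReal_zero, smul_zero]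
  have hP1 := hasSum_sq_fourierCoeffOn hT (ang_memLp hcg (2 * π))
  have hP2 := hasSum_sq_fourierCoeffOn hT (ang_memLp hcG (2 * π))
  have hle : ∀ k : ℤ, ‖fourierCoeffOn hT (fun x => (f x : ℂ)) k‖ ^ 2 ≤
      ‖fourierCoeffOn hT (fun x => (f' x : ℂ)) k‖ ^ 2 := by
    intro k
    by_cases hk : k = 0
    · rw [hk, hz, norm_zero, zero_pow two_ne_zero]
      exact sq_nonneg _
    · rw [hcoef k, norm_mul, norm_mul, Complex.norm_I, one_mul, mul_pow]
      refine le_mul_of_one_le_left (sq_nonneg _) ?_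
      have h1 : (2 * π * k / ((2 * π : ℝ) : ℂ) : ℂ) = ((k : ℝ) : ℂ) := by
        have hpi : (π : ℂ) ≠ 0 := by exact_mod_cast Real.pi_ne_zero
        push_cast
        field_simp
      rw [h1, Complex.norm_real, Real.norm_eq_abs, sq_abs]
      have h2 : (1 : ℤ) ≤ k ^ 2 := by
        have : 0 < k ^ 2 := by positivity
        omega
      exact_mod_cast h2
  have h1 := hasSum_le hle hP1 hP2
  simp only [sub_zero, smul_eq_mul, Complex.norm_real, Real.norm_eq_abs, sq_abs] at h1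
  exact le_of_mul_le_mul_left h1 (inv_pos.2 hT)

namespace Cf

variable {c : Cf} {n : ℕ}

private theorem ang_cpt (r : ℝ) : Continuous fun χ : ℝ => pt r χ :=
  continuous_pt.comp (by fun_prop : Continuous fun χ : ℝ => (r, χ))

private theorem ang_period {f : ℝ → ℝ} (hn : 0 < n) (hc : Continuous f) (hf : ∀ χ, f (χ + 2 * al n) = f χ) :
    ∫ χ in (0 : ℝ)..2 * π, f χ = (n : ℝ) ^ 3 * ∫ χ in (0 : ℝ)..2 * al n, f χ := by
  have h := Function.Periodic.intervalIntegral_add_zsmul_eq (f := f) (T := 2 * al n) hf ((n : ℤ) ^ 3) 0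
    (fun t₁ t₂ => hc.intervalIntegrable _ _)
  have hn' : (0 : ℝ) < n := by exact_mod_cast hn
  have e : (0 : ℝ) + ((n : ℤ) ^ 3) • (2 * al n) = 2 * π := by
    rw [zsmul_eq_mul]
    push_cast
    unfold al
    field_simp
    ring
  rw [e, zero_add, zsmul_eq_mul] at h
  push_cast at h
  exact h

/-- `∫ |D_χ w|² ≥ d² ∫ |w|²` if `d ≤ |1 + k m - β|` for all integers `k` -/
theorem ang (hn : 0 < n) (hc : c.Adm n) (r : ℝ) {d : ℝ} (hd0 : 0 ≤ d)
    (hd : ∀ k : ℤ, d ≤ |1 + k * (n : ℝ) ^ 3 - c.beta n r|) :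
    d ^ 2 * ∫ χ in (0 : ℝ)..2 * π, ‖c.w (pt r χ)‖ ^ 2 ≤
      ∫ χ in (0 : ℝ)..2 * π, ‖c.Dw (pt r χ) (Complex.I * pt r χ)‖ ^ 2 := by
  have hα := al_pos hn
  have hn' : (0 : ℝ) < n := by exact_mod_cast hn
  have hcpt := ang_cpt r
  have hcDw : Continuous fun χ => c.Dw (pt r χ) (Complex.I * pt r χ) :=
    (Adm.contDiff_Dw hc).continuous.comp (by fun_prop : Continuous fun χ : ℝ => (pt r χ, Complex.I * pt r χ))
  have hcw : Continuous fun χ => c.w (pt r χ) := hc.sw.continuous.comp hcpt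
  have hcB : Continuous fun χ => c.B r χ :=
    (Adm.contDiff_B hc).continuous.comp (by fun_prop : Continuous fun χ : ℝ => (r, χ))
  have hT : 0 < 2 * al n := by positivity
  have hper : ∀ x, c.wt r (x + 2 * al n) =
      Complex.exp (((1 - c.beta n r) * (2 * al n) : ℝ) * Complex.I) * c.wt r x := by
    intro x
    unfold wt
    rw [← ze_mul_pt, hc.rw, Adm.B_rot hn hc, ze_eq]
    unfold er
    have e1 : Complex.exp (-((c.B r x + 2 * al n * c.beta n r : ℝ) : ℂ) * Complex.I) =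
        Complex.exp (-((2 * al n * c.beta n r : ℝ) : ℂ) * Complex.I) * Complex.exp (-(c.B r x : ℂ) * Complex.I) := by
      rw [← Complex.exp_add]
      congr 1
      push_cast
      ring
    have e2 : Complex.exp (((1 - c.beta n r) * (2 * al n) : ℝ) * Complex.I) =
        Complex.exp ((2 * al n : ℝ) * Complex.I) * Complex.exp (-((2 * al n * c.beta n r : ℝ) : ℂ) * Complex.I) := by
      rw [← Complex.exp_add]
      congr 1
      push_cast
      ring
    rw [e1, e2]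
    ring
  have hnD : ∀ χ, ‖c.Dw (pt r χ) (Complex.I * pt r χ) * Complex.exp (-(c.B r χ : ℂ) * Complex.I)‖ =
      ‖c.Dw (pt r χ) (Complex.I * pt r χ)‖ := fun χ => by
    rw [norm_mul]
    have : -(c.B r χ : ℂ) * Complex.I = ((-c.B r χ : ℝ) : ℂ) * Complex.I := by push_cast; ring
    rw [this, Complex.norm_exp_ofReal_mul_I, mul_one]
  have h1 := fourier_low (fun χ => hasDerivAt_wt hc r χ) (hcDw.mul (by fun_prop)) hT hper hd0 (fun k => by
    have h2 := hd k
    have e : 1 - c.beta n r + 2 * π * k / (2 * al n) = 1 + k * (n : ℝ) ^ 3 - c.beta n r := by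
      have hpi := Real.pi_pos
      unfold al
      field_simp
      ring
    rw [e]
    exact h2)
  simp_rw [norm_wt, hnD] at h1
  have p1 : ∀ χ, ‖c.w (pt r (χ + 2 * al n))‖ ^ 2 = ‖c.w (pt r χ)‖ ^ 2 := fun χ => by
    rw [← ze_mul_pt, hc.rw, norm_mul, norm_ze, one_mul]
  have p2 : ∀ χ, ‖c.Dw (pt r (χ + 2 * al n)) (Complex.I * pt r (χ + 2 * al n))‖ ^ 2 =
      ‖c.Dw (pt r χ) (Complex.I * pt r χ)‖ ^ 2 := fun χ => by
    rw [← ze_mul_pt]
    have : Complex.I * (ze n * pt r χ) = ze n * (Complex.I * pt r χ) := by ring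
    rw [this, Adm.Dw_rot hc, norm_mul, norm_ze, one_mul]
  have q1 := ang_period (f := fun χ => ‖c.w (pt r χ)‖ ^ 2) hn (hcw.norm.pow 2) p1
  have q2 := ang_period (f := fun χ => ‖c.Dw (pt r χ) (Complex.I * pt r χ)‖ ^ 2) hn (hcDw.norm.pow 2) p2
  rw [q1, q2]
  have h3 := mul_le_mul_of_nonneg_left h1 (by positivity : 0 ≤ (n : ℝ) ^ 3)
  refine le_trans (le_of_eq ?_) h3
  ring

/-- hence `∫ |w|² ≤ Xo / d²` -/
theorem ang_Xo (hn : 0 < n) (hc : c.Adm n) (r : ℝ) {d : ℝ} (hd0 : 0 < d)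
    (hd : ∀ k : ℤ, d ≤ |1 + k * (n : ℝ) ^ 3 - c.beta n r|) :
    ∫ χ in (0 : ℝ)..2 * π, ‖c.w (pt r χ)‖ ^ 2 ≤ c.Xo r / d ^ 2 := by
  have hcpt := ang_cpt r
  have hcDw : Continuous fun χ => c.Dw (pt r χ) (Complex.I * pt r χ) :=
    (Adm.contDiff_Dw hc).continuous.comp (by fun_prop : Continuous fun χ : ℝ => (pt r χ, Complex.I * pt r χ))
  have hcn : Continuous fun χ => c.nsq (pt r χ) (Complex.I * pt r χ) := by
    have h2 : Continuous fun χ : ℝ => (pt r χ, Complex.I * pt r χ) := by fun_prop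
    have h3 := (Adm.contDiff_nsq hc).continuous.comp h2
    exact h3
  rw [le_div_iff₀ (by positivity)]
  have h1 := ang hn hc r hd0.le hd
  have h2 : ∫ χ in (0 : ℝ)..2 * π, ‖c.Dw (pt r χ) (Complex.I * pt r χ)‖ ^ 2 ≤ c.Xo r := by
    unfold Xo
    exact intervalIntegral.integral_mono_on (by positivity) ((hcDw.norm.pow 2).intervalIntegrable _ _)
      (hcn.intervalIntegrable _ _) fun χ _ => c.norm_Dw_le _ _
  linarith

/-- if `|β| ≤ s < 1` then `d = 1 - s` is admissible in `ang` (`n ≥ 2`) -/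
theorem dist_small (hn : 2 ≤ n) {β s : ℝ} (h : |β| ≤ s) (hs : s < 1) (k : ℤ) :
    1 - s ≤ |1 + k * (n : ℝ) ^ 3 - β| := by
  have hne : (1 : ℤ) + k * (n : ℤ) ^ 3 ≠ 0 := by
    intro h0
    have h1 : ((n : ℤ) ^ 3) ∣ 1 := ⟨-k, by linarith⟩
    have h2 := Int.le_of_dvd one_pos h1
    have h3 : (2 : ℤ) ^ 3 ≤ (n : ℤ) ^ 3 := pow_le_pow_left₀ (by norm_num) (by exact_mod_cast hn) 3
    omega
  have h1 : (1 : ℤ) ≤ |1 + k * (n : ℤ) ^ 3| := Int.one_le_abs hne
  have h2 : (1 : ℝ) ≤ |1 + k * (n : ℝ) ^ 3| := by exact_mod_cast h1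
  have h3 := abs_sub_abs_le_abs_sub (1 + k * (n : ℝ) ^ 3) β
  linarith

/-- if `l + 1 ≤ β ≤ m + 1 - l` then `d = l` is admissible in `ang` -/
theorem dist_mid {β l : ℝ} (h1 : 1 + l ≤ β) (h2 : β ≤ (n : ℝ) ^ 3 + 1 - l) (k : ℤ) :
    l ≤ |1 + k * (n : ℝ) ^ 3 - β| := by
  have hn3 : (0 : ℝ) ≤ (n : ℝ) ^ 3 := by positivity
  rcases le_or_gt k 0 with hk | hk
  · have hk' : (k : ℝ) ≤ 0 := by exact_mod_cast hk
    have h3 : (k : ℝ) * (n : ℝ) ^ 3 ≤ 0 := mul_nonpos_of_nonpos_of_nonneg hk' hn3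
    have h4 := neg_abs_le (1 + k * (n : ℝ) ^ 3 - β)
    linarith
  · have hk' : (1 : ℝ) ≤ k := by exact_mod_cast hk
    have h3 : (n : ℝ) ^ 3 ≤ (k : ℝ) * (n : ℝ) ^ 3 := le_mul_of_one_le_left hn3 hk'
    have h4 := le_abs_self (1 + k * (n : ℝ) ^ 3 - β)
    linarith

end Cf

end GO3
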