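import Pool.Agent.GO3.Rd

/-! GO3 / Arc: estimates on one arc `0 ≤ χ ≤ α` (every gauge).

Proofs. Put `wt χ = w (pt r χ) e^{-i B (r, χ)}`. Then `∂_χ wt = D_χ w e^{-iB}`, so for
`χ₁, χ₂ ∈ [0, α]` the vectors `(wt, h)` satisfy `|·(χ₁) - ·(χ₂)| ≤ ∫_0^α |D_χ φ| ≤ (α X)^{1/2}` (`osc`).
`wt 0 = w (pt r 0)` is real, so `|Im V| ≤ |V - wt 0| ≤ (α X)^{1/2}`.
`wt α = y e^{iα} e^{-i α β} = y e^{-i a}` with `y` real, so `|Im (V e^{i a})| ≤ |V e^{ia} - y| ≤ (α X)^{1/2}` and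
`Im (V e^{ia}) = Re V sin a + Im V cos a`, whence `|Re V sin a| ≤ 2 (α X)^{1/2}`.
`1 - cc² - |V|²` is the variance `avg |(wt, h) - avg|²` because `|wt|² + h² = 1`; it is at most `osc²`.
`sup_w`: `|w (pt r χ)|² = |wt χ|² ≤ 2 |wt χ₁|² + 2 α X`, average over `χ₁`; symmetry for all `χ`. -/

open MeasureTheory Filter Topology Set
open scoped ContDiff Real

noncomputable section

namespace GO3

private theorem arc_cpt (r : ℝ) : Continuous fun χ : ℝ => pt r χ :=
  continuous_pt.comp (by fun_prop : Continuous fun χ : ℝ => (r, χ))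

private theorem arc_sq {g : ℝ → ℝ} (hg : Continuous g) (a b m : ℝ) :
    ∫ x in a..b, (g x - m) ^ 2 = (∫ x in a..b, g x ^ 2) - 2 * m * (∫ x in a..b, g x) + m ^ 2 * (b - a) := by
  have e : ∀ x, (g x - m) ^ 2 = g x ^ 2 - 2 * m * g x + m ^ 2 := fun x => by ring
  simp_rw [e]
  rw [intervalIntegral.integral_add, intervalIntegral.integral_sub, intervalIntegral.integral_const_mul,
    intervalIntegral.integral_const, smul_eq_mul]
  · ring
  · exact (by fun_prop : Continuous fun x => g x ^ 2).intervalIntegrable _ _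
  · exact (by fun_prop : Continuous fun x => 2 * m * g x).intervalIntegrable _ _
  · exact (by fun_prop : Continuous fun x => g x ^ 2 - 2 * m * g x).intervalIntegrable _ _
  · exact intervalIntegrable_const

/-- Cauchy-Schwarz -/
private theorem arc_cs {g : ℝ → ℝ} (hg : Continuous g) {a b : ℝ} (hab : a ≤ b) :
    (∫ x in a..b, g x) ^ 2 ≤ (b - a) * ∫ x in a..b, g x ^ 2 := by
  rcases hab.eq_or_lt with h | h
  · subst h
    simp
  have hb : 0 < b - a := sub_pos.2 h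
  have h1 : 0 ≤ ∫ x in a..b, (g x - (∫ x in a..b, g x) / (b - a)) ^ 2 :=
    intervalIntegral.integral_nonneg hab fun x _ => sq_nonneg _
  rw [arc_sq hg] at h1
  have h2 := mul_nonneg hb.le h1
  have h3 : (b - a) * ((∫ x in a..b, g x ^ 2) - 2 * ((∫ x in a..b, g x) / (b - a)) * (∫ x in a..b, g x) +
      ((∫ x in a..b, g x) / (b - a)) ^ 2 * (b - a)) =
      (b - a) * (∫ x in a..b, g x ^ 2) - (∫ x in a..b, g x) ^ 2 := by
    field_simp
    ring
  linarith

private theorem arc_cs_norm {g : ℝ → ℂ} (hg : Continuous g) {a b : ℝ} (hab : a ≤ b) :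
    ‖∫ x in a..b, g x‖ ^ 2 ≤ (b - a) * ∫ x in a..b, ‖g x‖ ^ 2 := by
  have h1 : ‖∫ x in a..b, g x‖ ≤ ∫ x in a..b, ‖g x‖ := intervalIntegral.norm_integral_le_integral_norm hab
  exact (pow_le_pow_left₀ (norm_nonneg _) h1 2).trans (arc_cs hg.norm hab)

namespace Cf

variable {c : Cf} {n : ℕ}

/-- the parallel transported `w` along the arc -/
def wt (c : Cf) (r χ : ℝ) : ℂ := c.w (pt r χ) * Complex.exp (-(c.B r χ : ℂ) * Complex.I)

private theorem arc_cb (hc : c.Adm n) (r : ℝ) : Continuous fun χ => c.b r χ :=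
  (Adm.contDiff_b hc).continuous.comp (by fun_prop : Continuous fun χ : ℝ => (r, χ))

theorem hasDerivAt_wt (hc : c.Adm n) (r χ : ℝ) : HasDerivAt (fun χ => c.wt r χ)
    (c.Dw (pt r χ) (Complex.I * pt r χ) * Complex.exp (-(c.B r χ : ℂ) * Complex.I)) χ := by
  have h1 : HasDerivAt (fun χ => c.w (pt r χ)) (fderiv ℝ c.w (pt r χ) (Complex.I * pt r χ)) χ :=
    ((hc.sw.differentiable (by simp)).differentiableAt.hasFDerivAt).comp_hasDerivAt χ (hasDerivAt_pt_chi r χ)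
  have h2 : HasDerivAt (fun χ => c.B r χ) (c.b r χ) χ :=
    ((arc_cb hc r).integral_hasStrictDerivAt 0 χ).hasDerivAt
  have h3 : HasDerivAt (fun χ => Complex.exp (-(c.B r χ : ℂ) * Complex.I))
      (Complex.exp (-(c.B r χ : ℂ) * Complex.I) * (-(c.b r χ : ℂ) * Complex.I)) χ :=
    ((h2.ofReal_comp.neg).mul_const Complex.I).cexp
  refine (h1.mul h3).congr_deriv ?_
  rw [Dw_chi]
  ring

theorem norm_wt (c : Cf) (r χ : ℝ) : ‖c.wt r χ‖ = ‖c.w (pt r χ)‖ := by
  unfold wt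
  rw [norm_mul]
  have : -(c.B r χ : ℂ) * Complex.I = ((-c.B r χ : ℝ) : ℂ) * Complex.I := by push_cast; ring
  rw [this, Complex.norm_exp_ofReal_mul_I, mul_one]

private theorem arc_cwt (hc : c.Adm n) (r : ℝ) : Continuous fun χ => c.wt r χ :=
  continuous_iff_continuousAt.2 fun χ => (hasDerivAt_wt hc r χ).continuousAt

private theorem arc_cDw (hc : c.Adm n) (r : ℝ) :
    Continuous fun χ => c.Dw (pt r χ) (Complex.I * pt r χ) := by
  have h := arc_cpt r
  exact (Adm.contDiff_Dw hc).continuous.comp (by fun_prop : Continuous fun χ : ℝ => (pt r χ, Complex.I * pt r χ))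

private theorem arc_cdh (hc : c.Adm n) (r : ℝ) :
    Continuous fun χ => c.dh (pt r χ) (Complex.I * pt r χ) := by
  have h := arc_cpt r
  exact (Adm.contDiff_dh hc).continuous.comp (by fun_prop : Continuous fun χ : ℝ => (pt r χ, Complex.I * pt r χ))

private theorem arc_cnsq (hc : c.Adm n) (r : ℝ) :
    Continuous fun χ => c.nsq (pt r χ) (Complex.I * pt r χ) := by
  have h := arc_cpt r
  have h2 : Continuous fun χ : ℝ => (pt r χ, Complex.I * pt r χ) := by fun_prop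
  have h3 := (Adm.contDiff_nsq hc).continuous.comp h2
  exact h3

private theorem arc_ch (hc : c.Adm n) (r : ℝ) : Continuous fun χ => c.h (pt r χ) :=
  hc.sh.continuous.comp (arc_cpt r)

private theorem arc_cw (hc : c.Adm n) (r : ℝ) : Continuous fun χ => c.w (pt r χ) :=
  hc.sw.continuous.comp (arc_cpt r)

private theorem arc_osc (hn : 0 < n) (hc : c.Adm n) (r : ℝ) {χ₁ χ₂ : ℝ} (h1 : 0 ≤ χ₁)
    (h2 : χ₂ ≤ al n) (h12 : χ₁ ≤ χ₂) : ‖c.wt r χ₂ - c.wt r χ₁‖ ^ 2 +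
      (c.h (pt r χ₂) - c.h (pt r χ₁)) ^ 2 ≤ al n * c.X n r := by
  have hα := al_pos hn
  set f' : ℝ → ℂ := fun χ => c.Dw (pt r χ) (Complex.I * pt r χ) * Complex.exp (-(c.B r χ : ℂ) * Complex.I) with hf'
  have hcB : Continuous fun χ => c.B r χ :=
    (Adm.contDiff_B hc).continuous.comp (by fun_prop : Continuous fun χ : ℝ => (r, χ))
  have hcf' : Continuous f' := (arc_cDw hc r).mul (by fun_prop)
  have e1 : ∫ χ in χ₁..χ₂, f' χ = c.wt r χ₂ - c.wt r χ₁ :=
    intervalIntegral.integral_eq_sub_of_hasDerivAt (fun χ _ => hasDerivAt_wt hc r χ) (hcf'.intervalIntegrable _ _)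
  have hdh : ∀ χ, HasDerivAt (fun χ => c.h (pt r χ)) (c.dh (pt r χ) (Complex.I * pt r χ)) χ := fun χ =>
    ((hc.sh.differentiable (by simp)).differentiableAt.hasFDerivAt).comp_hasDerivAt χ (hasDerivAt_pt_chi r χ)
  have e2 : ∫ χ in χ₁..χ₂, c.dh (pt r χ) (Complex.I * pt r χ) = c.h (pt r χ₂) - c.h (pt r χ₁) :=
    intervalIntegral.integral_eq_sub_of_hasDerivAt (fun χ _ => hdh χ) ((arc_cdh hc r).intervalIntegrable _ _)
  have hnf : ∀ χ, ‖f' χ‖ = ‖c.Dw (pt r χ) (Complex.I * pt r χ)‖ := fun χ => by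
    rw [hf', norm_mul]
    have : -(c.B r χ : ℂ) * Complex.I = ((-c.B r χ : ℝ) : ℂ) * Complex.I := by push_cast; ring
    rw [this, Complex.norm_exp_ofReal_mul_I, mul_one]
  have h3 := arc_cs_norm hcf' h12
  have h4 := arc_cs (arc_cdh hc r) h12
  rw [e1] at h3
  rw [e2] at h4
  simp_rw [hnf] at h3
  have h5 : (∫ χ in χ₁..χ₂, ‖c.Dw (pt r χ) (Complex.I * pt r χ)‖ ^ 2) +
      (∫ χ in χ₁..χ₂, c.dh (pt r χ) (Complex.I * pt r χ) ^ 2) =
      ∫ χ in χ₁..χ₂, c.nsq (pt r χ) (Complex.I * pt r χ) := by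
    rw [← intervalIntegral.integral_add]
    · rfl
    · exact ((arc_cDw hc r).norm.pow 2).intervalIntegrable _ _
    · exact ((arc_cdh hc r).pow 2).intervalIntegrable _ _
  have h6 : ∫ χ in χ₁..χ₂, c.nsq (pt r χ) (Complex.I * pt r χ) ≤ c.X n r := by
    unfold X
    exact intervalIntegral.integral_mono_interval h1 h12 h2
      (Eventually.of_forall fun χ => c.nsq_nonneg _ _) ((arc_cnsq hc r).intervalIntegrable _ _)
  have h7 : 0 ≤ ∫ χ in χ₁..χ₂, c.nsq (pt r χ) (Complex.I * pt r χ) :=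
    intervalIntegral.integral_nonneg h12 fun χ _ => c.nsq_nonneg _ _
  have h8 : (χ₂ - χ₁) * ∫ χ in χ₁..χ₂, c.nsq (pt r χ) (Complex.I * pt r χ) ≤ al n * c.X n r :=
    mul_le_mul (by linarith) h6 h7 hα.le
  rw [← h5, mul_add] at h8
  linarith

theorem osc (hn : 0 < n) (hc : c.Adm n) (r : ℝ) {χ₁ χ₂ : ℝ} (h1 : χ₁ ∈ Icc 0 (al n))
    (h2 : χ₂ ∈ Icc 0 (al n)) : ‖c.wt r χ₁ - c.wt r χ₂‖ ^ 2 +
      (c.h (pt r χ₁) - c.h (pt r χ₂)) ^ 2 ≤ al n * c.X n r := by
  rcases le_total χ₁ χ₂ with h | h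
  · have := arc_osc hn hc r h1.1 h2.2 h
    rw [norm_sub_rev] at this
    have e : (c.h (pt r χ₂) - c.h (pt r χ₁)) ^ 2 = (c.h (pt r χ₁) - c.h (pt r χ₂)) ^ 2 := by ring
    rw [e] at this
    exact this
  · exact arc_osc hn hc r h2.1 h1.2 h

private theorem arc_V (c : Cf) (n : ℕ) (r : ℝ) : c.V n r = ((1 / al n : ℝ) : ℂ) * ∫ χ in (0 : ℝ)..al n, c.wt r χ := rfl

/-- distance of the average from a point -/
private theorem arc_V_sub (hn : 0 < n) (hc : c.Adm n) (r : ℝ) {q : ℂ} {M : ℝ}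
    (h : ∀ χ ∈ Icc 0 (al n), ‖c.wt r χ - q‖ ^ 2 ≤ M) : ‖c.V n r - q‖ ^ 2 ≤ M := by
  have hα := al_pos hn
  have hM : 0 ≤ M := le_trans (sq_nonneg _) (h 0 ⟨le_rfl, hα.le⟩)
  have hcw := arc_cwt hc r
  have e : c.V n r - q = ((1 / al n : ℝ) : ℂ) * ∫ χ in (0 : ℝ)..al n, (c.wt r χ - q) := by
    rw [arc_V, intervalIntegral.integral_sub (hcw.intervalIntegrable _ _) intervalIntegrable_const,
      intervalIntegral.integral_const, mul_sub, sub_zero, Complex.real_smul]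
    have h1 : ((1 / al n : ℝ) : ℂ) * ((al n : ℂ) * q) = q := by
      rw [← mul_assoc, ← Complex.ofReal_mul, one_div, inv_mul_cancel₀ hα.ne', Complex.ofReal_one, one_mul]
    rw [h1]
  have h2 : ‖∫ χ in (0 : ℝ)..al n, (c.wt r χ - q)‖ ≤ Real.sqrt M * |al n - 0| := by
    refine intervalIntegral.norm_integral_le_of_norm_le_const fun χ hχ => ?_
    rw [uIoc_of_le hα.le] at hχ
    exact Real.le_sqrt_of_sq_le (h χ ⟨hχ.1.le, hχ.2⟩)
  rw [sub_zero, abs_of_pos hα] at h2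
  have h3 : ‖c.V n r - q‖ ≤ Real.sqrt M := by
    rw [e, norm_mul, Complex.norm_real, Real.norm_of_nonneg (by positivity)]
    calc 1 / al n * ‖∫ χ in (0 : ℝ)..al n, (c.wt r χ - q)‖ ≤ 1 / al n * (Real.sqrt M * al n) := by gcongr
      _ = Real.sqrt M := by field_simp
  calc ‖c.V n r - q‖ ^ 2 ≤ Real.sqrt M ^ 2 := pow_le_pow_left₀ (norm_nonneg _) h3 2
    _ = M := Real.sq_sqrt hM

private theorem arc_cc_sub (hn : 0 < n) (hc : c.Adm n) (r : ℝ) {q M : ℝ}
    (h : ∀ χ ∈ Icc 0 (al n), (c.h (pt r χ) - q) ^ 2 ≤ M) : (c.cc n r - q) ^ 2 ≤ M := by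
  have hα := al_pos hn
  have hM : 0 ≤ M := le_trans (sq_nonneg _) (h 0 ⟨le_rfl, hα.le⟩)
  have hcw := arc_ch hc r
  have e : c.cc n r - q = (1 / al n) * ∫ χ in (0 : ℝ)..al n, (c.h (pt r χ) - q) := by
    unfold cc
    rw [intervalIntegral.integral_sub (hcw.intervalIntegrable _ _) intervalIntegrable_const,
      intervalIntegral.integral_const, smul_eq_mul, sub_zero]
    field_simp
  have h2 : ‖∫ χ in (0 : ℝ)..al n, (c.h (pt r χ) - q)‖ ≤ Real.sqrt M * |al n - 0| := by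
    refine intervalIntegral.norm_integral_le_of_norm_le_const fun χ hχ => ?_
    rw [uIoc_of_le hα.le] at hχ
    rw [Real.norm_eq_abs]
    exact Real.abs_le_sqrt (h χ ⟨hχ.1.le, hχ.2⟩)
  rw [sub_zero, abs_of_pos hα, Real.norm_eq_abs] at h2
  have h3 : |c.cc n r - q| ≤ Real.sqrt M := by
    rw [e, abs_mul, abs_of_pos (by positivity)]
    calc 1 / al n * |∫ χ in (0 : ℝ)..al n, (c.h (pt r χ) - q)| ≤ 1 / al n * (Real.sqrt M * al n) := by gcongr
      _ = Real.sqrt M := by field_simp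
  calc (c.cc n r - q) ^ 2 = |c.cc n r - q| ^ 2 := (sq_abs _).symm
    _ ≤ Real.sqrt M ^ 2 := pow_le_pow_left₀ (abs_nonneg _) h3 2
    _ = M := Real.sq_sqrt hM

private theorem arc_V_sub_wt (hn : 0 < n) (hc : c.Adm n) (r : ℝ) {χ : ℝ} (hχ : χ ∈ Icc 0 (al n)) :
    ‖c.V n r - c.wt r χ‖ ^ 2 ≤ al n * c.X n r :=
  arc_V_sub hn hc r fun χ' hχ' => by
    have := osc hn hc r hχ' hχ
    have h2 := sq_nonneg (c.h (pt r χ') - c.h (pt r χ))
    linarith

theorem im_V (hn : 0 < n) (hc : c.Adm n) (r : ℝ) : (c.V n r).im ^ 2 ≤ al n * c.X n r := by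
  have hα := al_pos hn
  have h1 := arc_V_sub_wt hn hc r (χ := 0) ⟨le_rfl, hα.le⟩
  have h2 : (c.wt r 0).im = 0 := by
    have : c.B r 0 = 0 := by unfold B; simp
    unfold wt
    rw [this, Complex.ofReal_zero, neg_zero, zero_mul, Complex.exp_zero, mul_one]
    exact Adm.w_ray0 hc r
  have h3 : |(c.V n r - c.wt r 0).im| ≤ ‖c.V n r - c.wt r 0‖ := Complex.abs_im_le_norm _
  rw [Complex.sub_im, h2, sub_zero] at h3
  calc (c.V n r).im ^ 2 = |(c.V n r).im| ^ 2 := (sq_abs _).symm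
    _ ≤ ‖c.V n r - c.wt r 0‖ ^ 2 := pow_le_pow_left₀ (abs_nonneg _) h3 2
    _ ≤ _ := h1

theorem re_V_sin (hn : 0 < n) (hc : c.Adm n) (r : ℝ) :
    ((c.V n r).re * Real.sin (c.aa n r)) ^ 2 ≤ 4 * (al n * c.X n r) := by
  have hα := al_pos hn
  have h1 := arc_V_sub_wt hn hc r (χ := al n) ⟨hα.le, le_rfl⟩
  obtain ⟨y, hy⟩ := Adm.w_ray1 hn hc r
  have hB : c.B r (al n) = al n * c.beta n r := by
    unfold beta
    field_simp
  have h2 : c.wt r (al n) * Complex.exp (c.aa n r * Complex.I) = y := by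
    unfold wt
    rw [hy, hB]
    unfold er aa
    rw [mul_right_comm, mul_right_comm (Complex.exp _), ← Complex.exp_add, mul_right_comm, ← Complex.exp_add]
    have : (al n : ℂ) * Complex.I + ((al n * (c.beta n r - 1) : ℝ) : ℂ) * Complex.I +
        -((al n * c.beta n r : ℝ) : ℂ) * Complex.I = 0 := by
      push_cast
      ring
    rw [this, Complex.exp_zero, one_mul]
  have h3 : ‖c.V n r * Complex.exp (c.aa n r * Complex.I) - y‖ ^ 2 ≤ al n * c.X n r := by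
    rw [← h2, ← sub_mul, norm_mul, Complex.norm_exp_ofReal_mul_I, mul_one]
    exact h1
  have h4 : |(c.V n r * Complex.exp (c.aa n r * Complex.I) - y).im| ≤
      ‖c.V n r * Complex.exp (c.aa n r * Complex.I) - y‖ := Complex.abs_im_le_norm _
  have h5 : (c.V n r * Complex.exp (c.aa n r * Complex.I) - y).im =
      (c.V n r).re * Real.sin (c.aa n r) + (c.V n r).im * Real.cos (c.aa n r) := by
    rw [Complex.sub_im, Complex.ofReal_im, sub_zero, Complex.mul_im, Complex.exp_ofReal_mul_I_re,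
      Complex.exp_ofReal_mul_I_im]
  rw [h5] at h4
  have h6 : ((c.V n r).re * Real.sin (c.aa n r) + (c.V n r).im * Real.cos (c.aa n r)) ^ 2 ≤ al n * c.X n r := by
    rw [← sq_abs]
    exact (pow_le_pow_left₀ (abs_nonneg _) h4 2).trans h3
  have h7 := im_V hn hc r
  have h8 : ((c.V n r).im * Real.cos (c.aa n r)) ^ 2 ≤ al n * c.X n r := by
    refine le_trans ?_ h7
    rw [mul_pow]
    have := Real.cos_sq_le_one (c.aa n r)
    nlinarith [sq_nonneg (c.V n r).im]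
  nlinarith [sq_nonneg ((c.V n r).re * Real.sin (c.aa n r) + (c.V n r).im * Real.cos (c.aa n r) + (c.V n r).im * Real.cos (c.aa n r))]

/-- the averages as real integrals -/
private theorem arc_re (hc : c.Adm n) (r : ℝ) : (c.V n r).re = 1 / al n * ∫ χ in (0 : ℝ)..al n, (c.wt r χ).re := by
  rw [arc_V, Complex.re_ofReal_mul]
  congr 1
  exact (intervalIntegral.intervalIntegral_re ((arc_cwt hc r).intervalIntegrable _ _)).symm

private theorem arc_im (hc : c.Adm n) (r : ℝ) : (c.V n r).im = 1 / al n * ∫ χ in (0 : ℝ)..al n, (c.wt r χ).im := by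
  rw [arc_V, Complex.im_ofReal_mul]
  congr 1
  exact (intervalIntegral.intervalIntegral_im ((arc_cwt hc r).intervalIntegrable _ _)).symm

private theorem arc_one (hc : c.Adm n) (r χ : ℝ) :
    (c.wt r χ).re ^ 2 + (c.wt r χ).im ^ 2 + c.h (pt r χ) ^ 2 = 1 := by
  have h1 : ‖c.wt r χ‖ ^ 2 = (c.wt r χ).re ^ 2 + (c.wt r χ).im ^ 2 := by
    rw [Complex.sq_norm, Complex.normSq_apply]
    ring
  rw [← h1, norm_wt]
  exact hc.unit _

private theorem arc_nV (c : Cf) (n : ℕ) (r : ℝ) : ‖c.V n r‖ ^ 2 = (c.V n r).re ^ 2 + (c.V n r).im ^ 2 := by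
  rw [Complex.sq_norm, Complex.normSq_apply]
  ring

private theorem arc_avg_sq (hn : 0 < n) {g : ℝ → ℝ} (hg : Continuous g) :
    (1 / al n * ∫ χ in (0 : ℝ)..al n, g χ) ^ 2 ≤ 1 / al n * ∫ χ in (0 : ℝ)..al n, g χ ^ 2 := by
  have hα := al_pos hn
  have h := arc_cs hg hα.le
  rw [sub_zero] at h
  rw [mul_pow]
  calc (1 / al n) ^ 2 * (∫ χ in (0 : ℝ)..al n, g χ) ^ 2
      ≤ (1 / al n) ^ 2 * (al n * ∫ χ in (0 : ℝ)..al n, g χ ^ 2) := by gcongr
    _ = 1 / al n * ∫ χ in (0 : ℝ)..al n, g χ ^ 2 := by field_simp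

theorem var_nonneg (hn : 0 < n) (hc : c.Adm n) (r : ℝ) :
    0 ≤ 1 - c.cc n r ^ 2 - ‖c.V n r‖ ^ 2 := by
  have hα := al_pos hn
  have hw := arc_cwt hc r
  have c1 : Continuous fun χ => (c.wt r χ).re := Complex.continuous_re.comp hw
  have c2 : Continuous fun χ => (c.wt r χ).im := Complex.continuous_im.comp hw
  have c3 := arc_ch hc r
  have h1 := arc_avg_sq hn c1
  have h2 := arc_avg_sq hn c2
  have h3 := arc_avg_sq hn c3
  rw [← arc_re hc] at h1
  rw [← arc_im hc] at h2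
  have h4 : (c.cc n r) ^ 2 ≤ 1 / al n * ∫ χ in (0 : ℝ)..al n, c.h (pt r χ) ^ 2 := h3
  have h5 : (∫ χ in (0 : ℝ)..al n, (c.wt r χ).re ^ 2) + (∫ χ in (0 : ℝ)..al n, (c.wt r χ).im ^ 2) +
      (∫ χ in (0 : ℝ)..al n, c.h (pt r χ) ^ 2) = al n := by
    have i1 : IntervalIntegrable (fun χ => (c.wt r χ).re ^ 2) volume 0 (al n) := (c1.pow 2).intervalIntegrable _ _
    have i2 : IntervalIntegrable (fun χ => (c.wt r χ).im ^ 2) volume 0 (al n) := (c2.pow 2).intervalIntegrable _ _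
    have i3 : IntervalIntegrable (fun χ => c.h (pt r χ) ^ 2) volume 0 (al n) := (c3.pow 2).intervalIntegrable _ _
    rw [← intervalIntegral.integral_add i1 i2, ← intervalIntegral.integral_add (i1.add i2) i3]
    simp_rw [arc_one hc r]
    simp
  have h6 : 1 / al n * (∫ χ in (0 : ℝ)..al n, (c.wt r χ).re ^ 2) + 1 / al n * (∫ χ in (0 : ℝ)..al n, (c.wt r χ).im ^ 2) +
      1 / al n * (∫ χ in (0 : ℝ)..al n, c.h (pt r χ) ^ 2) = 1 := by
    rw [← mul_add, ← mul_add, h5]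
    field_simp
  rw [arc_nV]
  linarith

theorem var_le (hn : 0 < n) (hc : c.Adm n) (r : ℝ) :
    1 - c.cc n r ^ 2 - ‖c.V n r‖ ^ 2 ≤ al n * c.X n r := by
  have hα := al_pos hn
  have hw := arc_cwt hc r
  have c1 : Continuous fun χ => (c.wt r χ).re := Complex.continuous_re.comp hw
  have c2 : Continuous fun χ => (c.wt r χ).im := Complex.continuous_im.comp hw
  have c3 := arc_ch hc r
  have h0 := arc_one hc r 0
  have e : ∫ χ in (0 : ℝ)..al n, ((c.wt r χ).re * (c.wt r 0).re + (c.wt r χ).im * (c.wt r 0).im +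
      c.h (pt r χ) * c.h (pt r 0)) = al n * ((c.V n r).re * (c.wt r 0).re + (c.V n r).im * (c.wt r 0).im +
      c.cc n r * c.h (pt r 0)) := by
    rw [intervalIntegral.integral_add, intervalIntegral.integral_add, intervalIntegral.integral_mul_const,
      intervalIntegral.integral_mul_const, intervalIntegral.integral_mul_const, arc_re hc, arc_im hc]
    · unfold cc
      field_simp
    · exact (c1.mul continuous_const).intervalIntegrable _ _
    · exact (c2.mul continuous_const).intervalIntegrable _ _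
    · exact ((c1.mul continuous_const).add (c2.mul continuous_const)).intervalIntegrable _ _
    · exact (c3.mul continuous_const).intervalIntegrable _ _
  have h1 : ∫ χ in (0 : ℝ)..al n, (1 - al n * c.X n r / 2) ≤
      ∫ χ in (0 : ℝ)..al n, ((c.wt r χ).re * (c.wt r 0).re + (c.wt r χ).im * (c.wt r 0).im +
      c.h (pt r χ) * c.h (pt r 0)) := by
    refine intervalIntegral.integral_mono_on hα.le intervalIntegrable_const
      (((c1.mul continuous_const).add (c2.mul continuous_const)).add (c3.mul continuous_const) |>.intervalIntegrable _ _)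
      fun χ hχ => ?_
    have h2 := osc hn hc r hχ (⟨le_rfl, hα.le⟩ : (0 : ℝ) ∈ Icc 0 (al n))
    have h3 := arc_one hc r χ
    rw [Complex.sq_norm, Complex.normSq_apply, Complex.sub_re, Complex.sub_im] at h2
    nlinarith
  rw [e, intervalIntegral.integral_const, smul_eq_mul, sub_zero] at h1
  have h2 := le_of_mul_le_mul_left h1 hα
  rw [arc_nV]
  nlinarith [sq_nonneg ((c.V n r).re - (c.wt r 0).re), sq_nonneg ((c.V n r).im - (c.wt r 0).im),
    sq_nonneg (c.cc n r - c.h (pt r 0))]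

private theorem arc_red (hn : 0 < n) (hc : c.Adm n) (r χ : ℝ) : ∃ χ' ∈ Icc 0 (al n),
    ‖c.w (pt r χ)‖ = ‖c.w (pt r χ')‖ ∧ c.h (pt r χ) = c.h (pt r χ') := by
  have hα := al_pos hn
  have hper : Function.Periodic (fun χ => (‖c.w (pt r χ)‖, c.h (pt r χ))) (2 * al n) := by
    intro χ
    simp only
    rw [← ze_mul_pt, hc.rw, hc.rh, norm_mul, norm_ze, one_mul]
  obtain ⟨y, hy, hyy⟩ := hper.exists_mem_Ico (by positivity) χ (-al n)
  have h1 : ‖c.w (pt r χ)‖ = ‖c.w (pt r y)‖ := congrArg Prod.fst hyy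
  have h2 : c.h (pt r χ) = c.h (pt r y) := congrArg Prod.snd hyy
  rcases le_total 0 y with h | h
  · exact ⟨y, ⟨h, by linarith [hy.2]⟩, h1, h2⟩
  · refine ⟨-y, ⟨by linarith, by linarith [hy.1]⟩, ?_, ?_⟩
    · rw [h1, ← star_pt, hc.cw, norm_star]
    · rw [h2, ← star_pt, hc.ch]

/-- `sup_{circle} |w|² ≤ 2 avg |w|² + 2 α X` -/
theorem sup_w (hn : 0 < n) (hc : c.Adm n) (r χ : ℝ) : ‖c.w (pt r χ)‖ ^ 2 ≤
    2 * ((1 / (2 * π)) * ∫ t in (0 : ℝ)..2 * π, ‖c.w (pt r t)‖ ^ 2) + 2 * (al n * c.X n r) := by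
  have hα := al_pos hn
  have cw := arc_cw hc r
  obtain ⟨χ', hχ', h1, -⟩ := arc_red hn hc r χ
  rw [h1]
  have h2 : ∫ t in (0 : ℝ)..2 * π, ‖c.w (pt r t)‖ ^ 2 = 2 * (n : ℝ) ^ 3 * ∫ t in (0 : ℝ)..al n, ‖c.w (pt r t)‖ ^ 2 := by
    refine wedge_circle hn _ (cw.norm.pow 2) (fun χ => ?_) (fun χ => ?_)
    · rw [← ze_mul_pt, hc.rw, norm_mul, norm_ze, one_mul]
    · rw [← star_pt, hc.cw, norm_star]
  have h3 : ∫ t in (0 : ℝ)..al n, ‖c.w (pt r χ')‖ ^ 2 ≤
      ∫ t in (0 : ℝ)..al n, (2 * ‖c.w (pt r t)‖ ^ 2 + 2 * (al n * c.X n r)) := by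
    refine intervalIntegral.integral_mono_on hα.le intervalIntegrable_const
      (((cw.norm.pow 2).const_mul 2).add continuous_const |>.intervalIntegrable _ _) fun t ht => ?_
    have h4 := osc hn hc r hχ' ht
    have h5 : ‖c.wt r χ'‖ ≤ ‖c.wt r t‖ + ‖c.wt r χ' - c.wt r t‖ := by
      have := norm_add_le (c.wt r t) (c.wt r χ' - c.wt r t)
      rwa [add_sub_cancel] at this
    rw [norm_wt, norm_wt] at h5
    have h6 := norm_nonneg (c.w (pt r χ'))
    have h7 := norm_nonneg (c.w (pt r t))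
    have h8 := norm_nonneg (c.wt r χ' - c.wt r t)
    nlinarith [sq_nonneg (c.h (pt r χ') - c.h (pt r t)), sq_nonneg (‖c.w (pt r t)‖ - ‖c.wt r χ' - c.wt r t‖),
      pow_le_pow_left₀ h6 h5 2]
  have i1 : IntervalIntegrable (fun t => 2 * ‖c.w (pt r t)‖ ^ 2) volume 0 (al n) :=
    ((cw.norm.pow 2).const_mul 2).intervalIntegrable _ _
  rw [intervalIntegral.integral_const, smul_eq_mul, sub_zero, intervalIntegral.integral_add
    i1 intervalIntegrable_const,
    intervalIntegral.integral_const_mul, intervalIntegral.integral_const, smul_eq_mul, sub_zero] at h3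
  rw [h2]
  have h4 : 1 / (2 * π) * (2 * (n : ℝ) ^ 3 * ∫ t in (0 : ℝ)..al n, ‖c.w (pt r t)‖ ^ 2) =
      (∫ t in (0 : ℝ)..al n, ‖c.w (pt r t)‖ ^ 2) / al n := by
    have hn' : (0 : ℝ) < n := by exact_mod_cast hn
    have hpi := Real.pi_pos
    unfold al
    field_simp
  rw [h4]
  refine le_of_mul_le_mul_left ?_ hα
  refine h3.trans (le_of_eq ?_)
  field_simp

theorem cc_sub_h (hn : 0 < n) (hc : c.Adm n) (r χ : ℝ) :
    (c.cc n r - c.h (pt r χ)) ^ 2 ≤ al n * c.X n r := by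
  obtain ⟨χ', hχ', -, h1⟩ := arc_red hn hc r χ
  rw [h1]
  refine arc_cc_sub hn hc r fun t ht => ?_
  have h4 := osc hn hc r ht hχ'
  have := sq_nonneg ‖c.wt r t - c.wt r χ'‖
  linarith

/-- two configurations with the same potential which agree at one point of the arc -/
theorem diff_arc {c' : Cf} (hn : 0 < n) (hc : c.Adm n) (hc' : c'.Adm n) (hA : c'.A = c.A) (r : ℝ)
    {χ : ℝ} (hχ : χ ∈ Icc 0 (al n)) (hw : c'.w (pt r χ) = c.w (pt r χ))
    (hh : c'.h (pt r χ) = c.h (pt r χ)) :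
    (c'.cc n r - c.cc n r) ^ 2 ≤ 2 * al n * (c.X n r + c'.X n r) ∧
    ‖c'.V n r - c.V n r‖ ^ 2 ≤ 2 * al n * (c.X n r + c'.X n r) := by
  have hwt : c'.wt r χ = c.wt r χ := by
    unfold wt B b
    rw [hA, hw]
  constructor
  · have h1 := cc_sub_h hn hc r χ
    have h2 := cc_sub_h hn hc' r χ
    rw [hh] at h2
    nlinarith [sq_nonneg ((c'.cc n r - c.h (pt r χ)) + (c.cc n r - c.h (pt r χ)))]
  · have h1 := arc_V_sub_wt hn hc r hχ
    have h2 := arc_V_sub_wt hn hc' r hχ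
    rw [hwt] at h2
    have h3 : ‖c'.V n r - c.V n r‖ ≤ ‖c'.V n r - c.wt r χ‖ + ‖c.V n r - c.wt r χ‖ := by
      have := norm_sub_le (c'.V n r - c.wt r χ) (c.V n r - c.wt r χ)
      rwa [sub_sub_sub_cancel_right] at this
    nlinarith [sq_nonneg (‖c'.V n r - c.wt r χ‖ - ‖c.V n r - c.wt r χ‖),
      pow_le_pow_left₀ (norm_nonneg _) h3 2]

end Cf

end GO3
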