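import Pool.Agent.GO3.Grh

/-! GO3 / Gro: uniform growth for almost minimisers (G7 of the proof text). MAIN THEOREM OF PART G.

Fix `n ≥ n₀` (`locmin_of_alm`, and `K / n ≤ 10⁻⁵`), `α = al n`. All constants may depend on `K, n, r₀`.
(a) `q = 0`: `R₀ = min r₀ (rz K n) ≤ 1`; `growth_iter` with `R = R₀` (`beta_half`): for `r ≤ R₀`
`e₀(r) ≤ C₀ r^kap + 4 δ`; for `R₀ ≤ r` trivially `e₀(r) ≤ E ≤ K n² ≤ C r^kap`; so for ALL `r > 0`
`e_0(r) ≤ C₀ r^kap + 4 δ` (also for `r > 1` since `C₀ R₀^kap ≥ K n²`).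
(b) `q = pt ρ (k α)`, `ρ > 0`: `R_q = min 1 (ρ sin α)`, good disc (`ball_Sec`), `e_q(R_q) ≤ K/n ≤ 10⁻⁵`
(`ee_small`), and also `e_q(R_q) ≤ e_0(2ρ) ≤ C₀ (2ρ)^kap + 4 δ`. If `ρ sin α ≤ 1`: for `r ≤ R_q`
`e_q(r) ≤ 2 (r/R_q)^kap (C₀ (2ρ)^kap + 4δ + C_n R_q²) + 4δ ≤ C r^kap + 12 δ` (`ρ / R_q = 1/ sin α`,
`R_q² ≤ R_q^kap`). If `ρ sin α > 1`: `R_q = 1`, `e_q(r) ≤ 2 r^kap (10⁻⁵ + C_n) + 4 δ`. For `R_q < r` (so
`R_q = ρ sin α < r`): `ball q r ⊆ ball 0 (r + ρ) ⊆ ball 0 (C r)`, use (a). So for all `r ∈ (0, 3]`: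
`e_q(r) ≤ C₁ r^kap + 12 δ` (for `1 < r ≤ 3` trivially with `C₁ ≥ K n²`).
(c) general `q = pt ρ (k α + θ)`, `0 < |θ| ≤ α/2` (`exists_ray`; `θ = 0` is (b)): `R_q = min 1 (ρ sin |θ|)`, good disc
(`ball_Sec'`), `q' = pt ρ (k α)`, `|q - q'| = 2 ρ sin(|θ|/2) ≤ 2 ρ sin |θ|`. If `ρ sin|θ| ≤ 1` then for `r ≤ R_q`
`e_q(R_q) ≤ e_{q'}(3 R_q) ≤ C₁ (3R_q)^kap + 12 δ` and `growth_iter`; for `r > R_q`: `ball q r ⊆ ball q' (3 r)`.
If `ρ sin |θ| > 1`: as in (b). -/

open MeasureTheory Filter Topology Set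
open scoped ContDiff Real

noncomputable section

namespace GO3

private theorem gro_sub {n : ℕ} {c : Cf} (hc : c.Adm n) {q p : ℂ} {s t : ℝ} (h : s + ‖q - p‖ ≤ t) :
    c.ee q s ≤ c.ee p t := by
  unfold Cf.ee
  have h1 : ∫ z in Metric.ball q s, c.grad z ≤ ∫ z in Metric.ball p t, c.grad z :=
    setIntegral_mono_set (Cf.Adm.int_grad hc).integrableOn (Eventually.of_forall fun z => c.grad_nonneg z)
      (Metric.ball_subset_ball' (by rw [dist_eq_norm]; exact h)).eventuallyLE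
  linarith

private theorem gro_le {n : ℕ} {c : Cf} (hc : c.Adm n) {M : ℝ} (hE : c.E ≤ M) (q : ℂ) (s : ℝ) :
    c.ee q s ≤ M := by
  unfold Cf.ee
  have h1 : ∫ z in Metric.ball q s, c.grad z ≤ ∫ z, c.grad z :=
    setIntegral_le_integral (Cf.Adm.int_grad hc) (Eventually.of_forall fun z => c.grad_nonneg z)
  have h3 := Cf.Adm.E_eq hc
  have h4 : 0 ≤ ∫ z, c.F z ^ 2 := integral_nonneg fun z => sq_nonneg _
  have h5 : 0 ≤ ∫ z, (1 - c.h z) ^ 2 := integral_nonneg fun z => sq_nonneg _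
  linarith

private theorem kap0 : (0 : ℝ) ≤ kap := by unfold kap; norm_num
private theorem kap1 : kap ≤ 1 := by unfold kap; norm_num
private theorem kap2 : kap ≤ 2 := by unfold kap; norm_num

private theorem gro_step {K : ℝ} (hK : 1 ≤ K) {n : ℕ} (hn : 2 ≤ n) {c : Cf} (hc : c.Adm n) (hr : c.Rad)
    (hE : c.E ≤ K * n ^ 2) {q p : ℂ} {x L δ C₁ c₁ : ℝ} (hx : 0 < x) (hL : 0 ≤ L) (hδ : 0 ≤ δ)
    (hC : 0 ≤ C₁) (hc₁ : 0 ≤ c₁) (hq : q ≠ 0) (hqp : ‖q - p‖ ≤ L * x)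
    (hmin : c.LocMin n q (min 1 x) δ) (he : c.ee q (min 1 x) ≤ 1 / 100000)
    (hp : ∀ r, 0 < r → c.ee p r ≤ C₁ * r ^ kap + c₁ * δ) :
    ∀ r, 0 < r → c.ee q r ≤
      (2 * C₁ * (L + 1) + 200 * (K * n ^ 2) + 2 + K * n ^ 2) * r ^ kap + (2 * c₁ + 4) * δ := by
  intro r hr0
  have hM : 0 ≤ K * (n : ℝ) ^ 2 := by positivity
  have hrk : 0 < r ^ kap := Real.rpow_pos_of_pos hr0 _
  have hL1 : (L + 1) ^ kap ≤ L + 1 := by
    calc (L + 1) ^ kap ≤ (L + 1) ^ (1 : ℝ) := Real.rpow_le_rpow_of_exponent_le (by linarith) kap1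
      _ = L + 1 := Real.rpow_one _
  have hcδ : 0 ≤ c₁ * δ := mul_nonneg hc₁ hδ
  have a1 : 0 ≤ C₁ * (L + 1) * r ^ kap := by positivity
  have a2 : 0 ≤ K * (n : ℝ) ^ 2 * r ^ kap := by positivity
  have hgi := growth_iter hK hn hc hr hE (R := min 1 x) (lt_min one_pos hx) hδ hmin he
    (fun h => absurd h hq) r hr0
  rcases le_or_gt x 1 with hx1 | hx1
  · rw [min_eq_right hx1] at hgi
    rcases le_or_gt r x with hrx | hrx
    · have h1 := hgi hrx
      have h2 : c.ee q x ≤ C₁ * ((L + 1) * x) ^ kap + c₁ * δ :=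
        (gro_sub hc (by linarith : x + ‖q - p‖ ≤ (L + 1) * x)).trans (hp _ (by positivity))
      have h3 : (r / x) ^ kap * ((L + 1) * x) ^ kap ≤ (L + 1) * r ^ kap := by
        rw [← Real.mul_rpow (by positivity) (by positivity)]
        have e : r / x * ((L + 1) * x) = (L + 1) * r := by field_simp
        rw [e, Real.mul_rpow (by linarith) hr0.le]
        exact mul_le_mul_of_nonneg_right hL1 hrk.le
      have h4 : (r / x) ^ kap * x ^ 2 ≤ r ^ kap := by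
        have e : r ^ kap = (r / x) ^ kap * x ^ kap := by
          rw [← Real.mul_rpow (by positivity) hx.le]
          congr 1
          field_simp
        rw [e]
        refine mul_le_mul_of_nonneg_left ?_ (by positivity)
        rw [← Real.rpow_natCast]
        exact Real.rpow_le_rpow_of_exponent_ge hx hx1 (by exact_mod_cast kap2)
      have h5 : (r / x) ^ kap ≤ 1 := Real.rpow_le_one (by positivity) ((div_le_one hx).2 hrx) kap0
      have h6 : 0 ≤ (r / x) ^ kap := by positivity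
      have h7 : 2 * (r / x) ^ kap * (c.ee q x + 100 * K * n ^ 2 * x ^ 2) ≤
          2 * (C₁ * ((r / x) ^ kap * ((L + 1) * x) ^ kap)) + 2 * ((r / x) ^ kap * (c₁ * δ)) +
            200 * (K * n ^ 2) * ((r / x) ^ kap * x ^ 2) := by
        have h8 := mul_le_mul_of_nonneg_left h2 h6
        linarith
      have h9 : C₁ * ((r / x) ^ kap * ((L + 1) * x) ^ kap) ≤ C₁ * ((L + 1) * r ^ kap) :=
        mul_le_mul_of_nonneg_left h3 hC
      have h10 : (r / x) ^ kap * (c₁ * δ) ≤ 1 * (c₁ * δ) := mul_le_mul_of_nonneg_right h5 hcδ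
      have h11 : 200 * (K * n ^ 2) * ((r / x) ^ kap * x ^ 2) ≤ 200 * (K * n ^ 2) * r ^ kap :=
        mul_le_mul_of_nonneg_left h4 (by positivity)
      linarith
    · have h2 : c.ee q r ≤ C₁ * ((L + 1) * r) ^ kap + c₁ * δ := by
        have h3 : L * x ≤ L * r := mul_le_mul_of_nonneg_left hrx.le hL
        exact (gro_sub hc (by linarith : r + ‖q - p‖ ≤ (L + 1) * r)).trans (hp _ (by positivity))
      rw [Real.mul_rpow (by linarith) hr0.le] at h2
      have h3 : C₁ * ((L + 1) ^ kap * r ^ kap) ≤ C₁ * ((L + 1) * r ^ kap) :=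
        mul_le_mul_of_nonneg_left (mul_le_mul_of_nonneg_right hL1 hrk.le) hC
      linarith
  · rw [min_eq_left hx1.le] at hgi he
    rcases le_or_gt r 1 with hr1 | hr1
    · have h1 := hgi hr1
      rw [div_one] at h1
      have h2 : 2 * r ^ kap * (c.ee q 1 + 100 * K * n ^ 2 * 1 ^ 2) ≤
          2 * r ^ kap * (1 / 100000 + 100 * K * n ^ 2 * 1 ^ 2) :=
        mul_le_mul_of_nonneg_left (by linarith) (by positivity)
      linarith
    · have h1 := gro_le hc hE q r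
      have h2 : 1 ≤ r ^ kap := Real.one_le_rpow hr1.le kap0
      have h3 : K * (n : ℝ) ^ 2 ≤ K * (n : ℝ) ^ 2 * r ^ kap := le_mul_of_one_le_right hM h2
      linarith

private theorem gro_dist {ρ φ θ : ℝ} (hρ : 0 ≤ ρ) (h : |θ| ≤ π / 4) :
    ‖pt ρ (φ + θ) - pt ρ φ‖ ≤ 2 * (ρ * Real.sin |θ|) := by
  have hpi := Real.pi_pos
  have e : pt ρ (φ + θ) - pt ρ φ = pt ρ φ * (er θ - 1) := by
    unfold pt er
    push_cast
    rw [add_mul, Complex.exp_add]
    ring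
  have hs : 0 ≤ Real.sin |θ| := Real.sin_nonneg_of_nonneg_of_le_pi (abs_nonneg _) (by linarith)
  have hcos : 0 ≤ Real.cos θ := by
    have h1 := abs_le.1 h
    exact Real.cos_nonneg_of_neg_pi_div_two_le_of_le (by linarith) (by linarith)
  have h1 : ‖er θ - 1‖ ≤ 2 * Real.sin |θ| := by
    refine abs_le_of_sq_le_sq' ?_ (by positivity) |>.2
    have h2 : ‖er θ - 1‖ ^ 2 = 2 - 2 * Real.cos θ := by
      rw [Complex.sq_norm, Complex.normSq_apply]
      unfold er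
      rw [Complex.sub_re, Complex.sub_im, Complex.exp_ofReal_mul_I_re, Complex.exp_ofReal_mul_I_im,
        Complex.one_re, Complex.one_im]
      have := Real.sin_sq_add_cos_sq θ
      nlinarith
    have h3 : Real.sin |θ| ^ 2 = 1 - Real.cos θ ^ 2 := by
      have := Real.sin_sq_add_cos_sq |θ|
      rw [Real.cos_abs] at this
      linarith
    have h4 := Real.cos_le_one θ
    rw [h2, mul_pow, h3]
    nlinarith
  rw [e, norm_mul, norm_pt, abs_of_nonneg hρ]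
  calc ρ * ‖er θ - 1‖ ≤ ρ * (2 * Real.sin |θ|) := mul_le_mul_of_nonneg_left h1 hρ
    _ = _ := by ring

theorem growth (K : ℝ) (hK : 1 ≤ K) : ∃ n₀ : ℕ, 2 ≤ n₀ ∧ ∀ n : ℕ, n₀ ≤ n → ∀ r₀ : ℝ, 0 < r₀ →
    ∃ C : ℝ, 0 < C ∧ ∀ σ : ℝ, (σ = 1 ∨ σ = -1) → ∀ δ : ℝ, 0 ≤ δ → ∀ c : Cf, c.Alm K n σ δ →
    c.ee 0 r₀ ≤ 1 / 100000 → ∀ (q : ℂ) (r : ℝ), 0 < r → r ≤ 1 →
    c.ee q r ≤ C * r ^ kap + C * δ := by
  obtain ⟨n₁, hn₁, hmin⟩ := locmin_of_alm K hK
  obtain ⟨n₂, hn₂⟩ := exists_nat_ge (100000 * K)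
  refine ⟨max n₁ n₂, hn₁.trans (le_max_left _ _), fun n hn r₀ hr₀ => ?_⟩
  have hn1 : n₁ ≤ n := (le_max_left _ _).trans hn
  have hn2 : 2 ≤ n := hn₁.trans hn1
  have hn0 : 0 < n := by omega
  have hnr : (0 : ℝ) < n := by exact_mod_cast hn0
  have hKn : K / n ≤ 1 / 100000 := by
    rw [div_le_div_iff₀ hnr (by norm_num)]
    have h1 : (n₂ : ℝ) ≤ n := by exact_mod_cast (le_max_right _ _).trans hn
    linarith
  have hα := al_pos hn0
  have hpi := Real.pi_pos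
  have hα4 : al n ≤ π / 4 := by
    unfold al
    have h1 : (2 : ℝ) ^ 3 ≤ (n : ℝ) ^ 3 := pow_le_pow_left₀ (by norm_num) (by exact_mod_cast hn2) 3
    have h2 : (4 : ℝ) ≤ (n : ℝ) ^ 3 := by linarith
    exact div_le_div_of_nonneg_left hpi.le (by norm_num) h2
  have hsα : 0 < Real.sin (al n) := Real.sin_pos_of_pos_of_lt_pi hα (by linarith)
  set M : ℝ := K * (n : ℝ) ^ 2 with hMdef
  have hM : 0 ≤ M := by positivity
  obtain ⟨R₀, hR₀def⟩ : ∃ R₀ : ℝ, R₀ = min (min r₀ (rz K n)) 1 := ⟨_, rfl⟩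
  have hrz : 0 < rz K n := (Cf.rz_le_rm hn2 hK).2.1
  have hR₀ : 0 < R₀ := by rw [hR₀def]; exact lt_min (lt_min hr₀ hrz) one_pos
  have hR₀1 : R₀ ≤ 1 := by rw [hR₀def]; exact min_le_right _ _
  have hR₀r : R₀ ≤ r₀ := by rw [hR₀def]; exact (min_le_left _ _).trans (min_le_left _ _)
  have hR₀z : R₀ ≤ rz K n := by rw [hR₀def]; exact (min_le_left _ _).trans (min_le_right _ _)
  set Ca : ℝ := (2 * (1 + 100 * M) + M) * (1 / R₀) ^ kap with hCa
  have hCa0 : 0 ≤ Ca := by positivity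
  set Cb : ℝ := 2 * Ca * (1 / Real.sin (al n) + 1) + 200 * M + 2 + M with hCb
  have hCb0 : 0 ≤ Cb := by positivity
  set Cc : ℝ := 2 * Cb * (2 + 1) + 200 * M + 2 + M with hCc
  have hCc0 : 0 ≤ Cc := by positivity
  refine ⟨Ca + Cb + Cc + 28, by positivity, fun σ hσ δ hδ c hA he q r hr0 hr1 => ?_⟩
  have hc : c.Adm n := hA.1.1
  have hrad : c.Rad := hA.2.1
  have hE : c.E ≤ K * n ^ 2 := hA.2.2.1
  have hloc := hmin n hn1 σ δ c hδ hA
  -- (a)
  have ha : ∀ r, 0 < r → c.ee 0 r ≤ Ca * r ^ kap + 4 * δ := by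
    intro r hr0
    have e1 : (1 / R₀) ^ kap * r ^ kap = (r / R₀) ^ kap := by
      rw [← Real.mul_rpow (by positivity) hr0.le]
      congr 1
      ring
    have e2 : Ca * r ^ kap = (2 * (1 + 100 * M) + M) * (r / R₀) ^ kap := by
      rw [hCa, mul_assoc, e1]
    rw [e2]
    have hp : 0 < (r / R₀) ^ kap := by positivity
    rcases le_or_gt r R₀ with h | h
    · have h1 := growth_iter hK hn2 hc hrad hE hR₀ hδ (hloc 0 R₀ hR₀ (Or.inl ⟨rfl, hR₀z⟩))
        ((gro_sub hc (by rw [sub_self, norm_zero, add_zero]; exact hR₀r)).trans he)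
        (fun _ s hs0 hs => Cf.beta_half hn2 hc hrad hK hE hs0 (hs.trans hR₀z)) r hr0 h
      have h2 : c.ee 0 R₀ ≤ 1 := by
        have h3 := (gro_sub hc (q := 0) (p := 0) (s := R₀) (t := r₀)
          (by rw [sub_self, norm_zero, add_zero]; exact hR₀r)).trans he
        linarith
      have h4 : 100 * K * n ^ 2 * R₀ ^ 2 ≤ 100 * M := by
        have : R₀ ^ 2 ≤ 1 := pow_le_one₀ hR₀.le hR₀1
        calc 100 * K * n ^ 2 * R₀ ^ 2 = 100 * M * R₀ ^ 2 := by rw [hMdef]; ring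
          _ ≤ 100 * M * 1 := mul_le_mul_of_nonneg_left this (by positivity)
          _ = 100 * M := mul_one _
      have h5 : 2 * (r / R₀) ^ kap * (c.ee 0 R₀ + 100 * K * n ^ 2 * R₀ ^ 2) ≤
          2 * (r / R₀) ^ kap * (1 + 100 * M) := mul_le_mul_of_nonneg_left (by linarith) (by positivity)
      have h6 : 0 ≤ M * (r / R₀) ^ kap := by positivity
      linarith
    · have h1 := gro_le hc hE 0 r
      have h2 : 1 ≤ (r / R₀) ^ kap := Real.one_le_rpow ((one_le_div hR₀).2 h.le) kap0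
      have h3 : M ≤ M * (r / R₀) ^ kap := le_mul_of_one_le_right hM h2
      have h4 : 0 ≤ 2 * (1 + 100 * M) * (r / R₀) ^ kap := by positivity
      linarith
  -- (b)
  have hb : ∀ (k : ℤ) (ρ : ℝ), 0 < ρ → ∀ r, 0 < r → c.ee (pt ρ (k * al n)) r ≤ Cb * r ^ kap + 12 * δ := by
    intro k ρ hρ r hr0
    have hx : 0 < ρ * Real.sin (al n) := mul_pos hρ hsα
    have hsub : Metric.ball (pt ρ (k * al n)) (min 1 (ρ * Real.sin (al n))) ⊆ Sec n k :=
      (Metric.ball_subset_ball (min_le_right _ _)).trans (ball_Sec hn2 k hρ)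
    have hne : pt ρ (k * al n) ≠ 0 := by
      intro h0
      have := norm_pt ρ (k * al n)
      rw [h0, norm_zero, abs_of_pos hρ] at this
      exact hρ.ne this
    have hrf : rfl' n k (pt ρ (k * al n)) = pt ρ (k * al n) := by
      unfold rfl'
      rw [star_pt]
      unfold er pt
      rw [mul_left_comm, ← Complex.exp_add]
      congr 2
      push_cast
      ring
    have h1 := gro_step hK hn2 hc hrad hE (q := pt ρ (k * al n)) (p := 0) (x := ρ * Real.sin (al n))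
      (L := 1 / Real.sin (al n)) hx (by positivity) hδ hCa0 (by norm_num : (0 : ℝ) ≤ 4) hne
      (by
        rw [sub_zero, norm_pt, abs_of_pos hρ]
        refine le_of_eq ?_
        field_simp)
      (hloc _ _ (lt_min one_pos hx) (Or.inr (Or.inl ⟨k, hrf, hsub⟩)))
      ((ee_small hn2 hc hE hsub).trans hKn) ha r hr0
    norm_num at h1 ⊢
    rw [hCb]
    norm_num
    linarith
  -- (c)
  have hρ0 := norm_nonneg q
  rcases hρ0.eq_or_lt with hq0 | hq0
  · have : q = 0 := norm_eq_zero.1 hq0.symm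
    rw [this]
    have h1 := ha r hr0
    have h2 : 0 ≤ Cb * r ^ kap := by positivity
    have h3 : 0 ≤ Cc * r ^ kap := by positivity
    have h4 : 0 ≤ r ^ kap := by positivity
    have h5 : 0 ≤ (Ca + Cb + Cc) * δ := by positivity
    linarith
  obtain ⟨k, θ, hθ, hqe⟩ := exists_ray hn2 q
  have hCfin : ∀ C' c', 0 ≤ C' → C' ≤ Cb + Cc → c' ≤ 28 → c.ee q r ≤ C' * r ^ kap + c' * δ →
      c.ee q r ≤ (Ca + Cb + Cc + 28) * r ^ kap + (Ca + Cb + Cc + 28) * δ := by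
    intro C' c' h1 h2 h3 h4
    have h5 : C' * r ^ kap ≤ (Cb + Cc) * r ^ kap := mul_le_mul_of_nonneg_right h2 (by positivity)
    have h6 : c' * δ ≤ 28 * δ := mul_le_mul_of_nonneg_right h3 hδ
    have h7 : 0 ≤ Ca * r ^ kap := by positivity
    have h8 : 0 ≤ r ^ kap := by positivity
    have h9 : 0 ≤ (Ca + Cb + Cc) * δ := by positivity
    linarith
  by_cases hθ0 : θ = 0
  · have h1 := hb k ‖q‖ hq0 r hr0
    rw [hθ0, add_zero] at hqe
    rw [← hqe] at h1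
    exact hCfin Cb 12 hCb0 (by linarith) (by norm_num) h1
  · have hθp : 0 < |θ| := abs_pos.2 hθ0
    have hsθ : 0 < Real.sin |θ| := Real.sin_pos_of_pos_of_lt_pi hθp (by linarith)
    have hx : 0 < ‖q‖ * Real.sin |θ| := mul_pos hq0 hsθ
    obtain ⟨hs1, hs2⟩ := ball_Sec' hn2 k hq0 hθ0 hθ
    rw [← hqe] at hs1 hs2
    have hsub : Metric.ball q (min 1 (‖q‖ * Real.sin |θ|)) ⊆ Metric.ball q (‖q‖ * Real.sin |θ|) :=
      Metric.ball_subset_ball (min_le_right _ _)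
    have hd : ‖q - pt ‖q‖ (k * al n)‖ ≤ 2 * (‖q‖ * Real.sin |θ|) := by
      have h1 := gro_dist (ρ := ‖q‖) (φ := k * al n) (θ := θ) hq0.le (by linarith)
      rw [← hqe] at h1
      exact h1
    have h1 := gro_step hK hn2 hc hrad hE (q := q) (p := pt ‖q‖ (k * al n)) (x := ‖q‖ * Real.sin |θ|)
      (L := 2) hx (by norm_num) hδ hCb0 (by norm_num : (0 : ℝ) ≤ 12) (norm_pos_iff.1 hq0) hd
      (hloc _ _ (lt_min one_pos hx) (Or.inr (Or.inr ⟨k, hsub.trans hs1, fun z hz hz' =>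
        hs2 z (hsub hz) (hsub hz')⟩)))
      ((ee_small hn2 hc hE (hsub.trans hs1)).trans hKn) (hb k ‖q‖ hq0) r hr0
    exact hCfin Cc 28 hCc0 (by linarith) le_rfl (by
      rw [hCc]
      norm_num at h1 ⊢
      linarith)

end GO3
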