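import Mathlib

/-! GO3 / Stp: smooth step functions.

`step`: let `β ≥ 0` be smooth, supported in `[a, 1 - a]`, `∫ β = 1`, `β ≤ 1 + ε` (a plateau function,
`a` small; e.g. normalise a product of two `Real.smoothTransition`), `τ x = ∫_{-∞}^x β`.
`frz`: the freezing map: `κ x = s - η g ((s - x) / η)` with `g` smooth, `g x = x` for `x ≤ 0`... (any smooth
`g` with `g x = x` for `x ≤ 0`, `g x = 1` for `x ≥ 2`, `0 ≤ g' ≤ 1`; for instance
`g x = ∫_0^x (1 - σ)` with a suitable smooth step `σ`, `σ = 0` on `(-∞, 0]`, `σ = 1` on `[2, ∞)`,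
`∫_0^2 (1 - σ) = 1`, e.g. `σ x = smoothTransition (x / 2)` by its symmetry `σ (x) + σ (2 - x) = 1`). -/

open Filter Topology Set MeasureTheory
open scoped ContDiff Real

noncomputable section

namespace GO3

private theorem stp_hd {f : ℝ → ℝ} (hf : ContDiff ℝ ∞ f) (x : ℝ) :
    HasDerivAt (fun x => ∫ t in (0 : ℝ)..x, f t) (f x) x :=
  (hf.continuous.integral_hasStrictDerivAt 0 x).hasDerivAt

private theorem stp_cd {f : ℝ → ℝ} (hf : ContDiff ℝ ∞ f) :
    ContDiff ℝ ∞ (fun x => ∫ t in (0 : ℝ)..x, f t) := by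
  rw [contDiff_infty_iff_deriv]
  refine ⟨fun x => (stp_hd hf x).differentiableAt, ?_⟩
  have : deriv (fun x => ∫ t in (0 : ℝ)..x, f t) = f := funext fun x => (stp_hd hf x).deriv
  rw [this]
  exact hf

private theorem stp_mono {f : ℝ → ℝ} (hf : ContDiff ℝ ∞ f) (h0 : ∀ x, 0 ≤ f x) :
    Monotone (fun x => ∫ t in (0 : ℝ)..x, f t) :=
  monotone_of_deriv_nonneg (fun x => (stp_hd hf x).differentiableAt) fun x => by
    rw [(stp_hd hf x).deriv]
    exact h0 x

private theorem stp_int {f : ℝ → ℝ} (hf : ContDiff ℝ ∞ f) (a b : ℝ) :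
    IntervalIntegrable f volume a b := hf.continuous.intervalIntegrable a b

theorem step {ε : ℝ} (hε : 0 < ε) : ∃ a : ℝ, 0 < a ∧ a < 1 / 4 ∧ a ≤ ε ∧ ∃ τ : ℝ → ℝ, ContDiff ℝ ∞ τ ∧
    (∀ x, x ≤ a → τ x = 0) ∧ (∀ x, 1 - a ≤ x → τ x = 1) ∧ (∀ x, 0 ≤ τ x ∧ τ x ≤ 1) ∧
    (∀ x, 0 ≤ deriv τ x ∧ deriv τ x ≤ 1 + ε) := by
  have h1e : 0 < 8 * (1 + ε) := by linarith
  obtain ⟨a, ha⟩ : ∃ a : ℝ, a = ε / (8 * (1 + ε)) := ⟨_, rfl⟩
  have ha0 : 0 < a := by rw [ha]; exact div_pos hε h1e
  have ha1 : a < 1 / 8 := by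
    rw [ha, div_lt_iff₀ h1e]
    linarith
  have ha2 : a ≤ ε := by
    rw [ha, div_le_iff₀ h1e]
    nlinarith
  have ha3 : a * (8 * (1 + ε)) = ε := by
    rw [ha]
    exact div_mul_cancel₀ ε h1e.ne'
  refine ⟨a, ha0, by linarith, ha2, ?_⟩
  obtain ⟨φ, hφ⟩ : ∃ φ : ℝ → ℝ, φ = fun x =>
      Real.smoothTransition ((x - a) / a) * Real.smoothTransition ((1 - a - x) / a) := ⟨_, rfl⟩
  have hφs : ContDiff ℝ ∞ φ := by
    rw [hφ]
    refine ContDiff.mul ?_ ?_
    · exact Real.smoothTransition.contDiff.comp ((contDiff_id.sub contDiff_const).div_const a)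
    · exact Real.smoothTransition.contDiff.comp ((contDiff_const.sub contDiff_id).div_const a)
  have hφ0 : ∀ x, 0 ≤ φ x := by
    intro x
    rw [hφ]
    exact mul_nonneg (Real.smoothTransition.nonneg _) (Real.smoothTransition.nonneg _)
  have hφ1 : ∀ x, φ x ≤ 1 := by
    intro x
    rw [hφ]
    exact mul_le_one₀ (Real.smoothTransition.le_one _) (Real.smoothTransition.nonneg _)
      (Real.smoothTransition.le_one _)
  have hφl : ∀ x, x ≤ a → φ x = 0 := by
    intro x hx
    rw [hφ]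
    change Real.smoothTransition ((x - a) / a) * _ = 0
    rw [Real.smoothTransition.zero_of_nonpos, zero_mul]
    exact div_nonpos_of_nonpos_of_nonneg (by linarith) ha0.le
  have hφr : ∀ x, 1 - a ≤ x → φ x = 0 := by
    intro x hx
    rw [hφ]
    change _ * Real.smoothTransition ((1 - a - x) / a) = 0
    rw [Real.smoothTransition.zero_of_nonpos (x := (1 - a - x) / a)
      (div_nonpos_of_nonpos_of_nonneg (by linarith) ha0.le), mul_zero]
  have hφm : ∀ x, 2 * a ≤ x → x ≤ 1 - 2 * a → φ x = 1 := by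
    intro x hx hx'
    rw [hφ]
    change Real.smoothTransition ((x - a) / a) * Real.smoothTransition ((1 - a - x) / a) = 1
    rw [Real.smoothTransition.one_of_one_le, Real.smoothTransition.one_of_one_le, mul_one]
    · rw [le_div_iff₀ ha0]
      linarith
    · rw [le_div_iff₀ ha0]
      linarith
  obtain ⟨I, hI⟩ : ∃ I : ℝ, I = ∫ t in (0 : ℝ)..1, φ t := ⟨_, rfl⟩
  have hI1 : 1 - 4 * a ≤ I := by
    have e1 : I = (∫ t in (0 : ℝ)..(2 * a), φ t) + (∫ t in (2 * a)..(1 - 2 * a), φ t) +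
        ∫ t in (1 - 2 * a)..1, φ t := by
      rw [hI, intervalIntegral.integral_add_adjacent_intervals (stp_int hφs _ _) (stp_int hφs _ _),
        intervalIntegral.integral_add_adjacent_intervals (stp_int hφs _ _) (stp_int hφs _ _)]
    have e2 : 0 ≤ ∫ t in (0 : ℝ)..(2 * a), φ t :=
      intervalIntegral.integral_nonneg (by linarith) fun t _ => hφ0 t
    have e3 : 0 ≤ ∫ t in (1 - 2 * a)..1, φ t :=
      intervalIntegral.integral_nonneg (by linarith) fun t _ => hφ0 t
    have e4 : ∫ t in (2 * a)..(1 - 2 * a), φ t = 1 - 4 * a := by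
      have : ∫ t in (2 * a)..(1 - 2 * a), φ t = ∫ t in (2 * a)..(1 - 2 * a), (1 : ℝ) := by
        refine intervalIntegral.integral_congr fun t ht => ?_
        rw [Set.uIcc_of_le (by linarith)] at ht
        exact hφm t ht.1 ht.2
      rw [this, intervalIntegral.integral_const, smul_eq_mul]
      ring
    rw [e1, e4]
    linarith
  have hIpos : 0 < I := by linarith
  have hβs : ContDiff ℝ ∞ (fun x => φ x / I) := hφs.div_const I
  have hβ0 : ∀ x, 0 ≤ φ x / I := fun x => div_nonneg (hφ0 x) hIpos.le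
  have hmono := stp_mono hβs hβ0
  have hleft : ∀ x, x ≤ a → ∫ t in (0 : ℝ)..x, φ t / I = 0 := by
    intro x hx
    have : ∫ t in (0 : ℝ)..x, φ t / I = ∫ t in (0 : ℝ)..x, (0 : ℝ) := by
      refine intervalIntegral.integral_congr fun t ht => ?_
      have ht2 : t ≤ a := ht.2.trans (max_le ha0.le hx)
      change φ t / I = 0
      rw [hφl t ht2, zero_div]
    rw [this, intervalIntegral.integral_zero]
  have hright : ∀ x, 1 - a ≤ x → ∫ t in (0 : ℝ)..x, φ t / I = 1 := by
    intro x hx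
    have e1 : ∫ t in (0 : ℝ)..x, φ t / I = (∫ t in (0 : ℝ)..1, φ t / I) +
        ∫ t in (1 : ℝ)..x, φ t / I :=
      (intervalIntegral.integral_add_adjacent_intervals (stp_int hβs _ _) (stp_int hβs _ _)).symm
    have e2 : ∫ t in (1 : ℝ)..x, φ t / I = 0 := by
      have : ∫ t in (1 : ℝ)..x, φ t / I = ∫ t in (1 : ℝ)..x, (0 : ℝ) := by
        refine intervalIntegral.integral_congr fun t ht => ?_
        have ht2 : 1 - a ≤ t := (le_min (by linarith) hx).trans ht.1
        change φ t / I = 0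
        rw [hφr t ht2, zero_div]
      rw [this, intervalIntegral.integral_zero]
    rw [e1, e2, add_zero, intervalIntegral.integral_div, ← hI, div_self hIpos.ne']
  refine ⟨fun x => ∫ t in (0 : ℝ)..x, φ t / I, stp_cd hβs, hleft, hright, ?_, ?_⟩
  · intro x
    constructor
    · have h1 := hmono (min_le_left x 0)
      have h2 : ∫ t in (0 : ℝ)..(min x 0), φ t / I = 0 :=
        hleft _ ((min_le_right x 0).trans ha0.le)
      change ∫ t in (0 : ℝ)..(min x 0), φ t / I ≤ _ at h1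
      rw [h2] at h1
      exact h1
    · have h1 := hmono (le_max_left x 1)
      have h2 : ∫ t in (0 : ℝ)..(max x 1), φ t / I = 1 :=
        hright _ ((by linarith : 1 - a ≤ 1).trans (le_max_right x 1))
      change _ ≤ ∫ t in (0 : ℝ)..(max x 1), φ t / I at h1
      rw [h2] at h1
      exact h1
  · intro x
    rw [(stp_hd hβs x).deriv]
    refine ⟨hβ0 x, ?_⟩
    rw [div_le_iff₀ hIpos]
    have h1 : 1 ≤ (1 + ε) * (1 - 4 * a) := by nlinarith
    have h2 : (1 + ε) * (1 - 4 * a) ≤ (1 + ε) * I :=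
      mul_le_mul_of_nonneg_left hI1 (by linarith)
    linarith [hφ1 x]

private theorem stp_sym (x : ℝ) : Real.smoothTransition x + Real.smoothTransition (1 - x) = 1 := by
  unfold Real.smoothTransition
  have h : expNegInvGlue x + expNegInvGlue (1 - x) ≠ 0 :=
    (Real.smoothTransition.pos_denom x).ne'
  have e : 1 - (1 - x) = x := by ring
  rw [e, add_comm (expNegInvGlue (1 - x)) (expNegInvGlue x), ← add_div, div_self h]

/-- the basic freezing map -/
private theorem stp_g : ∃ g : ℝ → ℝ, ContDiff ℝ ∞ g ∧ (∀ x, x ≤ 0 → g x = x) ∧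
    (∀ x, 2 ≤ x → g x = 1) ∧ (∀ x, 0 ≤ x → 0 ≤ g x ∧ g x ≤ 1) ∧
    (∀ x, 0 ≤ deriv g x ∧ deriv g x ≤ 1) := by
  obtain ⟨f, hf⟩ : ∃ f : ℝ → ℝ, f = fun x => 1 - Real.smoothTransition (x / 2) := ⟨_, rfl⟩
  have hfs : ContDiff ℝ ∞ f := by
    rw [hf]
    exact contDiff_const.sub (Real.smoothTransition.contDiff.comp (contDiff_id.div_const 2))
  have hf0 : ∀ x, 0 ≤ f x := by
    intro x
    rw [hf]
    linarith [Real.smoothTransition.le_one (x / 2)]
  have hf1 : ∀ x, f x ≤ 1 := by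
    intro x
    rw [hf]
    linarith [Real.smoothTransition.nonneg (x / 2)]
  have hmono := stp_mono hfs hf0
  have hint : ∫ t in (0 : ℝ)..2, f t = 1 := by
    have e1 : ∫ t in (0 : ℝ)..2, f (2 - t) = ∫ t in (0 : ℝ)..2, f t := by
      rw [intervalIntegral.integral_comp_sub_left (fun t => f t) 2]
      norm_num
    have e2 : ∫ t in (0 : ℝ)..2, f (2 - t) = ∫ t in (0 : ℝ)..2, (1 - f t) := by
      refine intervalIntegral.integral_congr fun t _ => ?_
      rw [hf]
      have := stp_sym (t / 2)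
      have e : (2 - t) / 2 = 1 - t / 2 := by ring
      change 1 - Real.smoothTransition ((2 - t) / 2) = 1 - (1 - Real.smoothTransition (t / 2))
      rw [e]
      linarith
    rw [e1, intervalIntegral.integral_sub intervalIntegrable_const (stp_int hfs _ _),
      intervalIntegral.integral_const, smul_eq_mul] at e2
    linarith
  have hone : ∀ x, 2 ≤ x → ∫ t in (0 : ℝ)..x, f t = 1 := by
    intro x hx
    have e1 : ∫ t in (0 : ℝ)..x, f t = (∫ t in (0 : ℝ)..2, f t) + ∫ t in (2 : ℝ)..x, f t :=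
      (intervalIntegral.integral_add_adjacent_intervals (stp_int hfs _ _) (stp_int hfs _ _)).symm
    have e2 : ∫ t in (2 : ℝ)..x, f t = ∫ t in (2 : ℝ)..x, (0 : ℝ) := by
      refine intervalIntegral.integral_congr fun t ht => ?_
      rw [Set.uIcc_of_le hx] at ht
      rw [hf]
      change 1 - Real.smoothTransition (t / 2) = 0
      rw [Real.smoothTransition.one_of_one_le (by linarith [ht.1]), sub_self]
    rw [e1, e2, hint, intervalIntegral.integral_zero, add_zero]
  refine ⟨fun x => ∫ t in (0 : ℝ)..x, f t, stp_cd hfs, ?_, hone, ?_, ?_⟩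
  · intro x hx
    have : ∫ t in (0 : ℝ)..x, f t = ∫ t in (0 : ℝ)..x, (1 : ℝ) := by
      refine intervalIntegral.integral_congr fun t ht => ?_
      have ht2 : t ≤ 0 := ht.2.trans (max_le le_rfl hx)
      rw [hf]
      change 1 - Real.smoothTransition (t / 2) = 1
      rw [Real.smoothTransition.zero_of_nonpos (by linarith), sub_zero]
    change ∫ t in (0 : ℝ)..x, f t = x
    rw [this, intervalIntegral.integral_const, smul_eq_mul]
    ring
  · intro x hx
    constructor
    · exact intervalIntegral.integral_nonneg hx fun t _ => hf0 t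
    · have h1 := hmono (le_max_left x 2)
      have h2 := hone _ (le_max_right x 2)
      change _ ≤ ∫ t in (0 : ℝ)..(max x 2), f t at h1
      rw [h2] at h1
      exact h1
  · intro x
    rw [(stp_hd hfs x).deriv]
    exact ⟨hf0 x, hf1 x⟩

/-- the freezing map at radius `s` -/
theorem frz {s ε : ℝ} (hε : 0 < ε) (hs : 2 * ε < s) : ∃ κ : ℝ → ℝ, ContDiff ℝ ∞ κ ∧
    (∀ x, s ≤ x → κ x = x) ∧ (∀ x, x ≤ s - 2 * ε → κ x = s - ε) ∧
    (∀ x, x ≤ s → s - ε ≤ κ x ∧ κ x ≤ s) ∧ (∀ x, 0 ≤ deriv κ x ∧ deriv κ x ≤ 1) := by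
  obtain ⟨g, g1, g2, g3, g4, g5⟩ := stp_g
  refine ⟨fun x => s - ε * g ((s - x) / ε), ?_, ?_, ?_, ?_, ?_⟩
  · exact contDiff_const.sub (contDiff_const.mul (g1.comp
      ((contDiff_const.sub contDiff_id).div_const ε)))
  · intro x hx
    change s - ε * g ((s - x) / ε) = x
    rw [g2 _ (div_nonpos_of_nonpos_of_nonneg (by linarith) hε.le)]
    field_simp
    ring
  · intro x hx
    change s - ε * g ((s - x) / ε) = s - ε
    rw [g3 _ (by rw [le_div_iff₀ hε]; linarith), mul_one]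
  · intro x hx
    obtain ⟨h1, h2⟩ := g4 ((s - x) / ε) (div_nonneg (by linarith) hε.le)
    constructor
    · change s - ε ≤ s - ε * g ((s - x) / ε)
      nlinarith
    · change s - ε * g ((s - x) / ε) ≤ s
      nlinarith
  · intro x
    have hd : HasDerivAt (fun x => s - ε * g ((s - x) / ε)) (deriv g ((s - x) / ε)) x := by
      have h1 : HasDerivAt (fun x : ℝ => (s - x) / ε) ((0 - 1) / ε) x :=
        ((hasDerivAt_const x s).sub (hasDerivAt_id x)).div_const ε
      have h2 : HasDerivAt g (deriv g ((s - x) / ε)) ((s - x) / ε) :=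
        (g1.differentiable (by simp) _).hasDerivAt
      have h3 := ((h2.comp x h1).const_mul ε).const_sub s
      refine h3.congr_deriv ?_
      field_simp
      ring
    rw [hd.deriv]
    exact g5 _

/-- the freezing map from outside: identity for `x ≤ s`, constant `s + ε` for `x ≥ s + 2 ε` -/
theorem frz_out {s ε : ℝ} (hε : 0 < ε) : ∃ κ : ℝ → ℝ, ContDiff ℝ ∞ κ ∧
    (∀ x, x ≤ s → κ x = x) ∧ (∀ x, s + 2 * ε ≤ x → κ x = s + ε) ∧
    (∀ x, s ≤ x → s ≤ κ x ∧ κ x ≤ s + ε) ∧ (∀ x, 0 ≤ deriv κ x ∧ deriv κ x ≤ 1) := by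
  obtain ⟨g, g1, g2, g3, g4, g5⟩ := stp_g
  refine ⟨fun x => s + ε * g ((x - s) / ε), ?_, ?_, ?_, ?_, ?_⟩
  · exact contDiff_const.add (contDiff_const.mul (g1.comp
      ((contDiff_id.sub contDiff_const).div_const ε)))
  · intro x hx
    change s + ε * g ((x - s) / ε) = x
    rw [g2 _ (div_nonpos_of_nonpos_of_nonneg (by linarith) hε.le)]
    field_simp
    ring
  · intro x hx
    change s + ε * g ((x - s) / ε) = s + ε
    rw [g3 _ (by rw [le_div_iff₀ hε]; linarith), mul_one]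
  · intro x hx
    obtain ⟨h1, h2⟩ := g4 ((x - s) / ε) (div_nonneg (by linarith) hε.le)
    constructor
    · change s ≤ s + ε * g ((x - s) / ε)
      nlinarith
    · change s + ε * g ((x - s) / ε) ≤ s + ε
      nlinarith
  · intro x
    have hd : HasDerivAt (fun x => s + ε * g ((x - s) / ε)) (deriv g ((x - s) / ε)) x := by
      have h1 : HasDerivAt (fun x : ℝ => (x - s) / ε) ((1 - 0) / ε) x :=
        ((hasDerivAt_id x).sub (hasDerivAt_const x s)).div_const ε
      have h2 : HasDerivAt g (deriv g ((x - s) / ε)) ((x - s) / ε) :=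
        (g1.differentiable (by simp) _).hasDerivAt
      have h3 := ((h2.comp x h1).const_mul ε).const_add s
      refine h3.congr_deriv ?_
      field_simp
      ring
    rw [hd.deriv]
    exact g5 _

/-- a smooth cut-off going from `1` (for `x ≤ 1/2`) to `0` (for `x ≥ 1`), decreasing -/
theorem cut : ∃ Ξ : ℝ → ℝ, ContDiff ℝ ∞ Ξ ∧ (∀ x, x ≤ 1 / 2 → Ξ x = 1) ∧ (∀ x, 1 ≤ x → Ξ x = 0) ∧
    (∀ x, 0 ≤ Ξ x ∧ Ξ x ≤ 1) ∧ (∀ x, deriv Ξ x ≤ 0) := by
  obtain ⟨a, ha0, ha1, _, τ, t1, t2, t3, t4, t5⟩ := step one_pos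
  refine ⟨fun x => 1 - τ (2 * x - 1), ?_, ?_, ?_, ?_, ?_⟩
  · exact contDiff_const.sub (t1.comp ((contDiff_const.mul contDiff_id).sub contDiff_const))
  · intro x hx
    change 1 - τ (2 * x - 1) = 1
    rw [t2 _ (by linarith), sub_zero]
  · intro x hx
    change 1 - τ (2 * x - 1) = 0
    rw [t3 _ (by linarith), sub_self]
  · intro x
    obtain ⟨h1, h2⟩ := t4 (2 * x - 1)
    exact ⟨by linarith, by linarith⟩
  · intro x
    have hd : HasDerivAt (fun x => 1 - τ (2 * x - 1)) (-(deriv τ (2 * x - 1) * 2)) x := by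
      have h1 : HasDerivAt (fun x : ℝ => 2 * x - 1) 2 x := by
        have := ((hasDerivAt_id x).const_mul 2).sub_const 1
        simpa using this
      have h2 : HasDerivAt τ (deriv τ (2 * x - 1)) (2 * x - 1) :=
        (t1.differentiable (by simp) _).hasDerivAt
      exact (h2.comp x h1).const_sub 1
    rw [hd.deriv]
    linarith [(t5 (2 * x - 1)).1]

end GO3
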