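import Pool.Agent.GO3.Sym

/-! GO3 / Rd: radial gauge.

Proofs. `A z = i z G z`: `ip (i z G) z = 0`, so in the radial direction the covariant derivative of `w`
is the ordinary one; `b (r, χ) = r² G`; `F = 2 G + dG_z(z)`, hence `∂_r b = r F`.
`energy_polar`: `polar_integral`, `wedge_circle`, `grad_polar`; it holds in every gauge. -/

open MeasureTheory Filter Topology Set
open scoped ContDiff Real

noncomputable section

namespace GO3

namespace Cf

variable {c : Cf} {n : ℕ}

private theorem rd_ip (z : ℂ) (g t : ℝ) : ip (Complex.I * z * (g : ℂ)) (t * z) = 0 := by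
  unfold ip
  simp only [Complex.mul_re, Complex.mul_im, Complex.I_re, Complex.I_im, Complex.ofReal_re,
    Complex.ofReal_im]
  ring

theorem Rad.ip_self (hr : c.Rad) (z : ℂ) (t : ℝ) : ip (c.A z) (t * z) = 0 := by
  obtain ⟨G, -, hA⟩ := hr
  rw [hA]
  exact rd_ip z (G z) t

theorem Rad.ip_er (hr : c.Rad) (r χ : ℝ) : ip (c.A (pt r χ)) (er χ) = 0 := by
  obtain ⟨G, -, hA⟩ := hr
  rw [hA, pt_eq]
  unfold ip
  simp only [Complex.mul_re, Complex.mul_im, Complex.I_re, Complex.I_im, Complex.ofReal_re,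
    Complex.ofReal_im]
  ring

theorem Rad.Dw_er (hr : c.Rad) (r χ : ℝ) :
    c.Dw (pt r χ) (er χ) = fderiv ℝ c.w (pt r χ) (er χ) := by
  unfold Dw
  rw [hr.ip_er]
  simp

/-- `D_χ w = ∂_χ w - i b w` (every gauge) -/
theorem Dw_chi (c : Cf) (r χ : ℝ) : c.Dw (pt r χ) (Complex.I * pt r χ) =
    fderiv ℝ c.w (pt r χ) (Complex.I * pt r χ) - Complex.I * (c.b r χ : ℂ) * c.w (pt r χ) := rfl

private theorem rd_F {G : ℂ → ℝ} (hG : ContDiff ℝ ∞ G)
    (hA : ∀ z, c.A z = Complex.I * z * (G z : ℂ)) (z : ℂ) :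
    c.F z = 2 * G z + fderiv ℝ G z z := by
  have hGd : HasFDerivAt G (fderiv ℝ G z) z := (hG.differentiable (by simp)).differentiableAt.hasFDerivAt
  have hA' : c.A = fun z => Complex.I * z * (G z : ℂ) := funext hA
  have h1 : HasFDerivAt (fun z : ℂ => Complex.I * z)
      (Complex.I • (ContinuousLinearMap.id ℝ ℂ)) z := by
    exact (hasFDerivAt_id (𝕜 := ℝ) z).const_mul Complex.I
  have h2 : HasFDerivAt (fun z : ℂ => (G z : ℂ)) (Complex.ofRealCLM.comp (fderiv ℝ G z)) z :=
    Complex.ofRealCLM.hasFDerivAt.comp z hGd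
  have h3 := h1.mul h2
  have h4 : ∀ v : ℂ, fderiv ℝ c.A z v =
      Complex.I * z * ((fderiv ℝ G z v : ℝ) : ℂ) + (G z : ℂ) * (Complex.I * v) := by
    intro v
    have h6 : fderiv ℝ c.A z = (Complex.I * z) • Complex.ofRealCLM.comp (fderiv ℝ G z) +
        (G z : ℂ) • Complex.I • (ContinuousLinearMap.id ℝ ℂ) := by
      rw [hA']
      exact h3.fderiv
    rw [h6]
    simp
  have h5 : fderiv ℝ G z z = z.re * fderiv ℝ G z 1 + z.im * fderiv ℝ G z Complex.I := by
    have e : z = z.re • (1 : ℂ) + z.im • Complex.I := by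
      simp [Complex.re_add_im]
    conv_lhs => rw [e, map_add, map_smul, map_smul]
    simp only [smul_eq_mul]
    rw [← e]
  unfold F
  rw [h4, h4, h5]
  simp only [Complex.add_re, Complex.add_im, Complex.mul_re, Complex.mul_im, Complex.I_re,
    Complex.I_im, Complex.ofReal_re, Complex.ofReal_im, Complex.one_re, Complex.one_im]
  ring

private theorem rd_b {G : ℂ → ℝ} (hA : ∀ z, c.A z = Complex.I * z * (G z : ℂ)) (r χ : ℝ) :
    c.b r χ = r ^ 2 * G (pt r χ) := by
  have h := Complex.sq_norm (pt r χ)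
  rw [norm_pt, sq_abs, Complex.normSq_apply] at h
  unfold b
  rw [hA]
  unfold ip
  simp only [Complex.mul_re, Complex.mul_im, Complex.I_re, Complex.I_im, Complex.ofReal_re,
    Complex.ofReal_im]
  linear_combination -G (pt r χ) * h

theorem Rad.hasDerivAt_b (hr : c.Rad) (r χ : ℝ) :
    HasDerivAt (fun r => c.b r χ) (r * c.F (pt r χ)) r := by
  obtain ⟨G, hG, hA⟩ := hr
  have hGd : HasFDerivAt G (fderiv ℝ G (pt r χ)) (pt r χ) :=
    (hG.differentiable (by simp)).differentiableAt.hasFDerivAt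
  have h1 : HasDerivAt (fun r => G (pt r χ)) (fderiv ℝ G (pt r χ) (er χ)) r :=
    hGd.comp_hasDerivAt r (hasDerivAt_pt_r r χ)
  have h2 : HasDerivAt (fun r : ℝ => r ^ 2) (2 * r) r := by
    simpa using hasDerivAt_pow 2 r
  have h3 := h2.mul h1
  have h4 : (fun r => c.b r χ) = fun r => r ^ 2 * G (pt r χ) := funext fun r => rd_b hA r χ
  rw [h4]
  refine h3.congr_deriv ?_
  rw [rd_F hG hA]
  have h5 : fderiv ℝ G (pt r χ) (pt r χ) = r * fderiv ℝ G (pt r χ) (er χ) := by
    have e : pt r χ = r • er χ := by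
      rw [pt_eq]
      simp
    conv_lhs => rw [show fderiv ℝ G (pt r χ) (pt r χ) = fderiv ℝ G (pt r χ) (r • er χ) by
      rw [← e]]
    rw [map_smul, smul_eq_mul]
  rw [h5]
  ring

private theorem rd_Fc (hA : ContDiff ℝ ∞ c.A) : Continuous c.F := by
  have h := hA.continuous_fderiv (by simp)
  unfold F
  have h1 : Continuous fun z => fderiv ℝ c.A z 1 := h.clm_apply continuous_const
  have h2 : Continuous fun z => fderiv ℝ c.A z Complex.I := h.clm_apply continuous_const
  exact (Complex.continuous_im.comp h1).sub (Complex.continuous_re.comp h2)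

theorem Rad.b_eq (hr : c.Rad) (hA : ContDiff ℝ ∞ c.A) (r χ : ℝ) :
    c.b r χ = ∫ s in (0 : ℝ)..r, s * c.F (pt s χ) := by
  have hc : Continuous fun s : ℝ => s * c.F (pt s χ) :=
    continuous_id.mul ((rd_Fc hA).comp (continuous_pt.comp (by fun_prop : Continuous
      fun s : ℝ => ((s, χ) : ℝ × ℝ))))
  rw [intervalIntegral.integral_eq_sub_of_hasDerivAt (fun s _ => hr.hasDerivAt_b s χ)
    (hc.intervalIntegrable _ _)]
  have h0 : c.b 0 χ = 0 := by
    unfold b ip
    simp [pt]
  rw [h0, sub_zero]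

/-- `G = Gof F`: the potential is recovered from the field -/
theorem Rad.A_eq (hr : c.Rad) (hA : ContDiff ℝ ∞ c.A) (z : ℂ) : c.A z = Aof c.F z := by
  obtain ⟨G, hG, hAG⟩ := hr
  unfold Aof
  rw [hAG z]
  have key : Gof c.F z = G z := by
    unfold Gof
    have hd : ∀ t : ℝ, HasDerivAt (fun t : ℝ => t ^ 2 * G (t * z)) (c.F (t * z) * t) t := by
      intro t
      have hGd : HasFDerivAt G (fderiv ℝ G (t * z)) (t * z) :=
        (hG.differentiable (by simp)).differentiableAt.hasFDerivAt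
      have h0 : HasDerivAt (fun t : ℝ => (t : ℂ) * z) z t := by
        have h := ((hasDerivAt_id t).ofReal_comp).mul_const z
        simpa using h
      have h1 : HasDerivAt (fun t : ℝ => G (t * z)) (fderiv ℝ G (t * z) z) t :=
        hGd.comp_hasDerivAt t h0
      have h2 : HasDerivAt (fun r : ℝ => r ^ 2) (2 * t) t := by
        simpa using hasDerivAt_pow 2 t
      refine (h2.mul h1).congr_deriv ?_
      rw [rd_F hG hAG]
      have h5 : fderiv ℝ G (t * z) (t * z) = t * fderiv ℝ G (t * z) z := by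
        have e : (t : ℂ) * z = t • z := by simp
        conv_lhs => rw [show fderiv ℝ G (t * z) (t * z) = fderiv ℝ G (t * z) (t • z) by
          rw [← e]]
        rw [map_smul, smul_eq_mul]
      rw [h5]
      ring
    have hc : Continuous fun t : ℝ => c.F (t * z) * t :=
      ((rd_Fc hA).comp (by fun_prop)).mul continuous_id
    rw [intervalIntegral.integral_eq_sub_of_hasDerivAt (fun t _ => hd t)
      (hc.intervalIntegrable _ _)]
    simp
  rw [key]

private theorem rd_cer : Continuous fun q : ℝ × ℝ => er q.2 := by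
  unfold er
  fun_prop

private theorem rd_n0 (hc : c.Adm n) : Continuous (fun q : ℂ × ℂ => c.nsq q.1 q.2) :=
  hc.contDiff_nsq.continuous

private theorem rd_n1 (hc : c.Adm n) : Continuous fun q : ℝ × ℝ => c.nsq (pt q.1 q.2) (er q.2) := by
  have h1 : Continuous fun q : ℝ × ℝ => ((pt q.1 q.2, er q.2) : ℂ × ℂ) :=
    continuous_pt.prodMk rd_cer
  have h2 := (rd_n0 hc).comp h1
  exact h2

private theorem rd_n2 (hc : c.Adm n) :
    Continuous fun q : ℝ × ℝ => c.nsq (pt q.1 q.2) (Complex.I * pt q.1 q.2) := by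
  have h1 : Continuous fun q : ℝ × ℝ => ((pt q.1 q.2, Complex.I * pt q.1 q.2) : ℂ × ℂ) :=
    continuous_pt.prodMk (continuous_const.mul continuous_pt)
  have h2 := (rd_n0 hc).comp h1
  exact h2

private theorem rd_pair (r : ℝ) : Continuous fun χ : ℝ => ((r, χ) : ℝ × ℝ) := by
  fun_prop

private theorem rd_m1 (hc : c.Adm n) (r : ℝ) :
    Continuous fun χ : ℝ => c.nsq (pt r χ) (er χ) := by
  have h2 := (rd_n1 hc).comp (rd_pair r)
  exact h2

private theorem rd_m2 (hc : c.Adm n) (r : ℝ) :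
    Continuous fun χ : ℝ => c.nsq (pt r χ) (Complex.I * pt r χ) := by
  have h2 := (rd_n2 hc).comp (rd_pair r)
  exact h2

theorem contDiff_T (hc : c.Adm n) : Continuous (c.T n) :=
  intervalIntegral.continuous_parametric_intervalIntegral_of_continuous' (rd_n1 hc) 0 (al n)

theorem contDiff_X (hc : c.Adm n) : Continuous (c.X n) :=
  intervalIntegral.continuous_parametric_intervalIntegral_of_continuous' (rd_n2 hc) 0 (al n)

theorem contDiff_Y (hc : c.Adm n) : Continuous (c.Y n) := by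
  unfold Y
  refine intervalIntegral.continuous_parametric_intervalIntegral_of_continuous' ?_ 0 (al n)
  exact (hc.contDiff_F.continuous.comp continuous_pt).pow 2

theorem contDiff_U (hc : c.Adm n) : Continuous (c.U n) := by
  unfold U
  refine intervalIntegral.continuous_parametric_intervalIntegral_of_continuous' ?_ 0 (al n)
  exact (continuous_const.sub (hc.sh.continuous.comp continuous_pt)).pow 2

theorem T_nonneg (hn : 0 < n) (c : Cf) (r : ℝ) : 0 ≤ c.T n r :=
  intervalIntegral.integral_nonneg (al_pos hn).le fun _ _ => nsq_nonneg c _ _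

theorem X_nonneg (hn : 0 < n) (c : Cf) (r : ℝ) : 0 ≤ c.X n r :=
  intervalIntegral.integral_nonneg (al_pos hn).le fun _ _ => nsq_nonneg c _ _

theorem Y_nonneg (hn : 0 < n) (c : Cf) (r : ℝ) : 0 ≤ c.Y n r :=
  intervalIntegral.integral_nonneg (al_pos hn).le fun _ _ => sq_nonneg _

theorem U_nonneg (hn : 0 < n) (c : Cf) (r : ℝ) : 0 ≤ c.U n r :=
  intervalIntegral.integral_nonneg (al_pos hn).le fun _ _ => sq_nonneg _

/-- the full circle integral of `|D_χ φ|²` -/
theorem Xo_eq (hn : 0 < n) (hc : c.Adm n) (r : ℝ) : c.Xo r = 2 * (n : ℝ) ^ 3 * c.X n r := by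
  unfold Xo X
  refine wedge_circle hn (fun χ => c.nsq (pt r χ) (Complex.I * pt r χ)) ?_ ?_ ?_
  · exact rd_m2 hc r
  · intro χ
    show c.nsq (pt r (χ + 2 * al n)) (Complex.I * pt r (χ + 2 * al n)) = _
    rw [← ze_mul_pt, show Complex.I * (ze n * pt r χ) = ze n * (Complex.I * pt r χ) by ring,
      hc.nsq_rot]
  · intro χ
    show c.nsq (pt r (-χ)) (Complex.I * pt r (-χ)) = _
    have e : Complex.I * star (pt r χ) = ((-1 : ℝ) : ℂ) * star (Complex.I * pt r χ) := by
      simp
    rw [← star_pt, e, nsq_smul, hc.nsq_star]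
    norm_num

private theorem rd_circ (hn : 0 < n) (hc : c.Adm n) {r : ℝ} (hr : 0 < r) :
    r * ∫ χ in (0 : ℝ)..2 * π, c.dens (0 + pt r χ) =
      2 * (n : ℝ) ^ 3 * (r * c.T n r + c.X n r / r + r * c.Y n r + r * c.U n r) := by
  have hcp : Continuous fun χ : ℝ => pt r χ :=
    continuous_pt.comp (by fun_prop : Continuous fun χ : ℝ => ((r, χ) : ℝ × ℝ))
  have h1 : ∫ χ in (0 : ℝ)..2 * π, c.dens (0 + pt r χ) =
      2 * (n : ℝ) ^ 3 * ∫ χ in (0 : ℝ)..al n, c.dens (pt r χ) := by
    simp only [zero_add]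
    refine wedge_circle hn (fun χ => c.dens (pt r χ)) ?_ ?_ ?_
    · exact hc.contDiff_dens.continuous.comp hcp
    · intro χ
      show c.dens (pt r (χ + 2 * al n)) = _
      rw [← ze_mul_pt, hc.dens_rot]
    · intro χ
      show c.dens (pt r (-χ)) = _
      rw [← star_pt, hc.dens_star]
  have i1 : IntervalIntegrable (fun χ => c.nsq (pt r χ) (er χ)) volume 0 (al n) :=
    (rd_m1 hc r).intervalIntegrable _ _
  have i2 : IntervalIntegrable (fun χ => c.nsq (pt r χ) (Complex.I * pt r χ) / r ^ 2) volume 0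
      (al n) :=
    ((rd_m2 hc r).div_const _).intervalIntegrable _ _
  have i3 : IntervalIntegrable (fun χ => (1 - c.h (pt r χ)) ^ 2) volume 0 (al n) :=
    ((continuous_const.sub (hc.sh.continuous.comp hcp)).pow 2).intervalIntegrable _ _
  have i4 : IntervalIntegrable (fun χ => c.F (pt r χ) ^ 2) volume 0 (al n) :=
    ((hc.contDiff_F.continuous.comp hcp).pow 2).intervalIntegrable _ _
  have h2 : ∫ χ in (0 : ℝ)..al n, c.dens (pt r χ) =
      c.T n r + c.X n r / r ^ 2 + c.U n r + c.Y n r := by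
    unfold T X U Y
    rw [← intervalIntegral.integral_div, ← intervalIntegral.integral_add i1 i2,
      ← intervalIntegral.integral_add (i1.add i2) i3,
      ← intervalIntegral.integral_add ((i1.add i2).add i3) i4]
    refine intervalIntegral.integral_congr fun χ _ => ?_
    show c.dens (pt r χ) = _
    unfold dens
    rw [grad_polar c hr.ne' χ]
  rw [h1, h2]
  field_simp
  ring

/-- the energy identity `∫_0^∞ (r T + X / r + r Y + r U) dr = E / m` -/
theorem energy_polar (hn : 0 < n) (hc : c.Adm n) :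
    IntegrableOn (fun r => r * c.T n r + c.X n r / r + r * c.Y n r + r * c.U n r) (Ioi 0) ∧
    ∫ r in Ioi (0 : ℝ), (r * c.T n r + c.X n r / r + r * c.Y n r + r * c.U n r) =
      c.E / (n : ℝ) ^ 3 := by
  have hn0 : (n : ℝ) ≠ 0 := by exact_mod_cast hn.ne'
  have h1 := polar_integrableOn c.dens hc.fin 0
  have h2 := polar_integral c.dens hc.fin 0
  have h3 : IntegrableOn (fun r => 2 * (n : ℝ) ^ 3 *
      (r * c.T n r + c.X n r / r + r * c.Y n r + r * c.U n r)) (Ioi 0) := by
    refine h1.congr_fun (fun r hr => ?_) measurableSet_Ioi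
    exact rd_circ hn hc hr
  have h4 : ∫ r in Ioi (0 : ℝ), r * ∫ χ in (0 : ℝ)..2 * π, c.dens (0 + pt r χ) =
      ∫ r in Ioi (0 : ℝ), 2 * (n : ℝ) ^ 3 *
        (r * c.T n r + c.X n r / r + r * c.Y n r + r * c.U n r) := by
    refine setIntegral_congr_fun measurableSet_Ioi fun r hr => ?_
    exact rd_circ hn hc hr
  constructor
  · have h5 := h3.const_mul (1 / (2 * (n : ℝ) ^ 3))
    refine h5.congr (Filter.Eventually.of_forall fun r => ?_)
    show 1 / (2 * (n : ℝ) ^ 3) * (2 * (n : ℝ) ^ 3 *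
      (r * c.T n r + c.X n r / r + r * c.Y n r + r * c.U n r)) = _
    rw [← mul_assoc, one_div, inv_mul_cancel₀ (by positivity), one_mul]
  · rw [h4, integral_const_mul] at h2
    unfold E
    rw [h2]
    field_simp

private theorem rd_part (hn : 0 < n) (hc : c.Adm n) (f : ℝ → ℝ) (hf : ContinuousOn f (Ioi 0))
    (h0 : ∀ r, 0 < r → 0 ≤ f r)
    (h1 : ∀ r, 0 < r → f r ≤ r * c.T n r + c.X n r / r + r * c.Y n r + r * c.U n r) :
    IntegrableOn f (Ioi 0) ∧ ∫ r in Ioi (0 : ℝ), f r ≤ c.E / (n : ℝ) ^ 3 := by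
  obtain ⟨h2, h3⟩ := energy_polar hn hc
  have h4 : IntegrableOn f (Ioi 0) := by
    refine Integrable.mono' h2 (hf.aestronglyMeasurable measurableSet_Ioi) ?_
    filter_upwards [ae_restrict_mem measurableSet_Ioi] with r hr
    rw [Real.norm_eq_abs, abs_of_nonneg (h0 r hr)]
    exact h1 r hr
  refine ⟨h4, ?_⟩
  rw [← h3]
  exact setIntegral_mono_on h4 h2 measurableSet_Ioi fun r hr => h1 r hr

/-- each part is integrable, with integral at most `E / m` -/
theorem int_T (hn : 0 < n) (hc : c.Adm n) : IntegrableOn (fun r => r * c.T n r) (Ioi 0) ∧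
    ∫ r in Ioi (0 : ℝ), r * c.T n r ≤ c.E / (n : ℝ) ^ 3 := by
  refine rd_part hn hc _ (continuous_id.mul (contDiff_T hc)).continuousOn ?_ ?_
  · intro r hr
    exact mul_nonneg hr.le (T_nonneg hn c r)
  · intro r hr
    have h1 := div_nonneg (X_nonneg hn c r) hr.le
    have h2 := mul_nonneg hr.le (Y_nonneg hn c r)
    have h3 := mul_nonneg hr.le (U_nonneg hn c r)
    linarith

theorem int_X (hn : 0 < n) (hc : c.Adm n) : IntegrableOn (fun r => c.X n r / r) (Ioi 0) ∧
    ∫ r in Ioi (0 : ℝ), c.X n r / r ≤ c.E / (n : ℝ) ^ 3 := by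
  refine rd_part hn hc _ ((contDiff_X hc).continuousOn.div continuousOn_id
    fun r hr => (ne_of_gt hr)) ?_ ?_
  · intro r hr
    exact div_nonneg (X_nonneg hn c r) hr.le
  · intro r hr
    have h1 := mul_nonneg hr.le (T_nonneg hn c r)
    have h2 := mul_nonneg hr.le (Y_nonneg hn c r)
    have h3 := mul_nonneg hr.le (U_nonneg hn c r)
    linarith

theorem int_Y (hn : 0 < n) (hc : c.Adm n) : IntegrableOn (fun r => r * c.Y n r) (Ioi 0) ∧
    ∫ r in Ioi (0 : ℝ), r * c.Y n r ≤ c.E / (n : ℝ) ^ 3 := by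
  refine rd_part hn hc _ (continuous_id.mul (contDiff_Y hc)).continuousOn ?_ ?_
  · intro r hr
    exact mul_nonneg hr.le (Y_nonneg hn c r)
  · intro r hr
    have h1 := div_nonneg (X_nonneg hn c r) hr.le
    have h2 := mul_nonneg hr.le (T_nonneg hn c r)
    have h3 := mul_nonneg hr.le (U_nonneg hn c r)
    linarith

theorem int_U (hn : 0 < n) (hc : c.Adm n) : IntegrableOn (fun r => r * c.U n r) (Ioi 0) ∧
    ∫ r in Ioi (0 : ℝ), r * c.U n r ≤ c.E / (n : ℝ) ^ 3 := by
  refine rd_part hn hc _ (continuous_id.mul (contDiff_U hc)).continuousOn ?_ ?_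
  · intro r hr
    exact mul_nonneg hr.le (U_nonneg hn c r)
  · intro r hr
    have h1 := div_nonneg (X_nonneg hn c r) hr.le
    have h2 := mul_nonneg hr.le (T_nonneg hn c r)
    have h3 := mul_nonneg hr.le (Y_nonneg hn c r)
    linarith

end Cf

end GO3
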