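import Pool.Agent.GO3.Der
import Pool.Agent.GO3.Arc

/-! GO3 / Bnd: bounds for the flux and for the potential energy on circles.

Proofs. `beta_sub`: `β' = (1/α) ∫_0^α r F`, so `|β(r₂) - β(r₁)| ≤ (1/α) ∫ s (α Y)^{1/2} ds
≤ (1/α) (∫ s α ds)^{1/2} (∫ s Y ds)^{1/2}`, `∫ s Y ≤ E / m`, `α m = π`. `beta_le`: `r₁ = 0`, `β 0 = 0`.
`U_le`: `u = U / α`, `u' = -(2/α) ∫ (1 - h) ∂_r h`, `|u'| ≤ 2 (u T / α)^{1/2} ≤ u + T / α`; there is a sequence
`R_i → ∞` with `u (R_i) → 0` because `∫ s u < ∞`; hence `u r ≤ ∫_r^∞ (u + T/α) ds` and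
`r u r ≤ ∫_r^∞ s (u + T / α) ds ≤ (E / m) / α = E / π`.
`cc_ge`: `(1 - cc)² ≤ U / α ≤ E / (π r) ≤ 1 / (4000 π)`. `|V|² ≤ 1 - cc²` (`var_nonneg`).
`psi_small`: `β ≤ r √(E/2π) ≤ n³ / √(2π) ≤ n³ / 2`, so `a ≤ π / 2 < 3 π / 4`. -/

open MeasureTheory Filter Topology Set
open scoped ContDiff Real

noncomputable section

namespace GO3

namespace Cf

variable {c : Cf} {n : ℕ}

private theorem cs_int {f g : ℝ → ℝ} (hf : Continuous f) (hg : Continuous g) {a b : ℝ}
    (hab : a ≤ b) : (∫ x in a..b, f x * g x) ^ 2 ≤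
      (∫ x in a..b, f x ^ 2) * ∫ x in a..b, g x ^ 2 := by
  have h1 : ∀ t : ℝ, 0 ≤ (∫ x in a..b, g x ^ 2) * (t * t) + (2 * ∫ x in a..b, f x * g x) * t +
      ∫ x in a..b, f x ^ 2 := by
    intro t
    have h2 : 0 ≤ ∫ x in a..b, (f x + t * g x) ^ 2 :=
      intervalIntegral.integral_nonneg hab fun x _ => sq_nonneg _
    have h3 : ∫ x in a..b, (f x + t * g x) ^ 2 = (∫ x in a..b, g x ^ 2) * (t * t) +
        (2 * ∫ x in a..b, f x * g x) * t + ∫ x in a..b, f x ^ 2 := by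
      have i1 : IntervalIntegrable (fun x => g x ^ 2 * (t * t)) volume a b :=
        Continuous.intervalIntegrable (by fun_prop) _ _
      have i2 : IntervalIntegrable (fun x => 2 * (f x * g x) * t) volume a b :=
        Continuous.intervalIntegrable (by fun_prop) _ _
      have i3 : IntervalIntegrable (fun x => f x ^ 2) volume a b :=
        Continuous.intervalIntegrable (by fun_prop) _ _
      have e : ∀ x, (f x + t * g x) ^ 2 = (g x ^ 2 * (t * t) + 2 * (f x * g x) * t) + f x ^ 2 :=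
        fun x => by ring
      simp only [e]
      rw [intervalIntegral.integral_add (i1.add i2) i3, intervalIntegral.integral_add i1 i2,
        intervalIntegral.integral_mul_const, intervalIntegral.integral_mul_const,
        intervalIntegral.integral_const_mul]
    rwa [h3] at h2
  have h4 := discrim_le_zero h1
  unfold discrim at h4
  linarith [h4]

private theorem swap_int {F : ℝ → ℝ → ℝ} (hF : Continuous (Function.uncurry F)) (a b c d : ℝ) :
    ∫ x in a..b, ∫ y in c..d, F x y = ∫ y in c..d, ∫ x in a..b, F x y := by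
  apply MeasureTheory.intervalIntegral_intervalIntegral_swap
  have hK : IsCompact (uIcc a b ×ˢ uIcc c d) := isCompact_uIcc.prod isCompact_uIcc
  exact (hF.continuousOn.integrableOn_compact hK).mono_set
    (Set.prod_mono uIoc_subset_uIcc uIoc_subset_uIcc)

private theorem al_mul (hn : 0 < n) : al n * (n : ℝ) ^ 3 = π := by
  unfold al
  have : (n : ℝ) ^ 3 ≠ 0 := by positivity
  field_simp

private theorem E_div (hn : 0 < n) (x : ℝ) : x / (n : ℝ) ^ 3 / al n = x / π := by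
  rw [div_div, mul_comm, al_mul hn]

private theorem int_id (a b : ℝ) : ∫ x in a..b, x = (b ^ 2 - a ^ 2) / 2 := by
  rw [integral_id]

private theorem Y_part (hn : 0 < n) (hc : c.Adm n) {a b : ℝ} (h1 : 0 ≤ a) (h2 : a ≤ b) :
    ∫ s in a..b, s * c.Y n s ≤ c.E / (n : ℝ) ^ 3 := by
  obtain ⟨hi, hl⟩ := int_Y hn hc
  refine le_trans ?_ hl
  rw [intervalIntegral.integral_of_le h2]
  refine setIntegral_mono_set hi ?_ ?_
  · filter_upwards [self_mem_ae_restrict measurableSet_Ioi] with s hs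
    exact mul_nonneg (le_of_lt hs) (Y_nonneg hn c s)
  · exact (show Ioc a b ⊆ Ioi 0 from fun x hx => lt_of_le_of_lt h1 hx.1).eventuallyLE

theorem beta_sub (hn : 2 ≤ n) (hc : c.Adm n) (hr : c.Rad) {r₁ r₂ : ℝ} (h1 : 0 ≤ r₁)
    (h2 : r₁ ≤ r₂) : (c.beta n r₂ - c.beta n r₁) ^ 2 ≤ c.E / π * ((r₂ ^ 2 - r₁ ^ 2) / 2) := by
  have hn0 : 0 < n := by omega
  have hal := al_pos hn0
  obtain ⟨b', hb, hd, hb2, _⟩ := der_beta hn0 hc hr
  have hY := contDiff_Y hc
  have h3 : c.beta n r₂ - c.beta n r₁ = ∫ s in r₁..r₂, b' s :=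
    (intervalIntegral.integral_eq_sub_of_hasDerivAt (fun t _ => hd t)
      (hb.intervalIntegrable _ _)).symm
  have hf : Continuous fun s : ℝ => √s := Real.continuous_sqrt
  have hg : Continuous fun s : ℝ => √(s * c.Y n s / al n) := by fun_prop
  have h4 : |∫ s in r₁..r₂, b' s| ≤ ∫ s in r₁..r₂, √s * √(s * c.Y n s / al n) := by
    refine (intervalIntegral.abs_integral_le_integral_abs h2).trans ?_
    refine intervalIntegral.integral_mono_on h2 (hb.abs.intervalIntegrable _ _)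
      ((hf.mul hg).intervalIntegrable _ _) fun s hs => ?_
    have hs0 : 0 ≤ s := h1.trans hs.1
    rw [← Real.sqrt_mul hs0]
    apply Real.abs_le_sqrt
    have := hb2 s
    have e : s * (s * c.Y n s / al n) = s ^ 2 * c.Y n s / al n := by ring
    rw [e]
    exact this
  have h5 := cs_int hf hg h2
  have h6 : ∫ s in r₁..r₂, √s ^ 2 = (r₂ ^ 2 - r₁ ^ 2) / 2 := by
    rw [← int_id]
    refine intervalIntegral.integral_congr fun s hs => ?_
    rw [uIcc_of_le h2] at hs
    exact Real.sq_sqrt (h1.trans hs.1)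
  have h7 : ∫ s in r₁..r₂, √(s * c.Y n s / al n) ^ 2 = (∫ s in r₁..r₂, s * c.Y n s) / al n := by
    rw [← intervalIntegral.integral_div]
    refine intervalIntegral.integral_congr fun s hs => ?_
    rw [uIcc_of_le h2] at hs
    exact Real.sq_sqrt (div_nonneg (mul_nonneg (h1.trans hs.1) (Y_nonneg hn0 c s)) hal.le)
  rw [h6, h7] at h5
  have h8 : (∫ s in r₁..r₂, s * c.Y n s) / al n ≤ c.E / π := by
    rw [← E_div hn0]
    exact div_le_div_of_nonneg_right (Y_part hn0 hc h1 h2) hal.le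
  have h9 : 0 ≤ (r₂ ^ 2 - r₁ ^ 2) / 2 := by
    have := mul_self_le_mul_self h1 h2
    linarith [sq r₁, sq r₂]
  have h10 : (c.beta n r₂ - c.beta n r₁) ^ 2 ≤
      (∫ s in r₁..r₂, √s * √(s * c.Y n s / al n)) ^ 2 := by
    rw [h3]
    exact sq_le_sq' (by linarith [neg_abs_le (∫ s in r₁..r₂, b' s)])
      ((le_abs_self _).trans h4)
  have h11 := mul_le_mul_of_nonneg_left h8 h9
  linarith

theorem beta_le (hn : 2 ≤ n) (hc : c.Adm n) (hr : c.Rad) {r : ℝ} (h : 0 ≤ r) :
    |c.beta n r| ≤ r * Real.sqrt (c.E / (2 * π)) := by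
  have h1 := beta_sub hn hc hr le_rfl h
  rw [(data_zero hn hc).1, sub_zero] at h1
  have hE : 0 ≤ c.E := Adm.E_nonneg c
  have h2 : |c.beta n r| ≤ √(r ^ 2 * (c.E / (2 * π))) := by
    apply Real.abs_le_sqrt
    refine h1.trans (le_of_eq ?_)
    have := Real.pi_pos
    field_simp
    ring
  rwa [Real.sqrt_mul (sq_nonneg r), Real.sqrt_sq h] at h2

private theorem cont_pt (χ : ℝ) : Continuous fun s => pt s χ :=
  continuous_pt.comp (continuous_id.prodMk continuous_const)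

/-- `b (r, χ)² ≤ (r²/2) ∫_0^r s F² ds` along each ray -/
theorem b_sq_le (hc : c.Adm n) (hr : c.Rad) {r : ℝ} (h : 0 ≤ r) (χ : ℝ) :
    c.b r χ ^ 2 ≤ r ^ 2 / 2 * ∫ s in (0 : ℝ)..r, s * c.F (pt s χ) ^ 2 := by
  have hF : Continuous fun s => c.F (pt s χ) := hc.contDiff_F.continuous.comp (cont_pt χ)
  have hf : Continuous fun s : ℝ => √s := Real.continuous_sqrt
  have hg : Continuous fun s : ℝ => √s * c.F (pt s χ) := hf.mul hF
  have h1 := cs_int hf hg h
  have h2 : ∫ s in (0 : ℝ)..r, √s * (√s * c.F (pt s χ)) = c.b r χ := by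
    rw [hr.b_eq hc.sA]
    refine intervalIntegral.integral_congr fun s hs => ?_
    rw [uIcc_of_le h] at hs
    change √s * (√s * c.F (pt s χ)) = s * c.F (pt s χ)
    rw [← mul_assoc, Real.mul_self_sqrt hs.1]
  have h3 : ∫ s in (0 : ℝ)..r, √s ^ 2 = r ^ 2 / 2 := by
    have : ∫ s in (0 : ℝ)..r, √s ^ 2 = ∫ s in (0 : ℝ)..r, s := by
      refine intervalIntegral.integral_congr fun s hs => ?_
      rw [uIcc_of_le h] at hs
      exact Real.sq_sqrt hs.1
    rw [this, int_id]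
    ring
  have h4 : ∫ s in (0 : ℝ)..r, (√s * c.F (pt s χ)) ^ 2 =
      ∫ s in (0 : ℝ)..r, s * c.F (pt s χ) ^ 2 := by
    refine intervalIntegral.integral_congr fun s hs => ?_
    rw [uIcc_of_le h] at hs
    change (√s * c.F (pt s χ)) ^ 2 = s * c.F (pt s χ) ^ 2
    rw [mul_pow, Real.sq_sqrt hs.1]
  rwa [h2, h3, h4] at h1

/-- `∫_0^{2π} b² dχ ≤ r² E` -/
theorem int_b_sq (hc : c.Adm n) (hr : c.Rad) {r : ℝ} (h : 0 ≤ r) :
    ∫ χ in (0 : ℝ)..2 * π, c.b r χ ^ 2 ≤ r ^ 2 * c.E := by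
  have hpi := Real.pi_pos
  have hFc : Continuous fun q : ℝ × ℝ => q.2 * c.F (pt q.2 q.1) ^ 2 := by
    have h1 : Continuous fun q : ℝ × ℝ => pt q.2 q.1 :=
      continuous_pt.comp (continuous_snd.prodMk continuous_fst)
    exact continuous_snd.mul ((hc.contDiff_F.continuous.comp h1).pow 2)
  have hb : Continuous fun χ => c.b r χ ^ 2 :=
    (hc.contDiff_b.continuous.comp (continuous_const.prodMk continuous_id)).pow 2
  have hI : Continuous fun χ => ∫ s in (0 : ℝ)..r, s * c.F (pt s χ) ^ 2 :=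
    intervalIntegral.continuous_parametric_intervalIntegral_of_continuous' hFc 0 r
  have h1 : ∫ χ in (0 : ℝ)..2 * π, c.b r χ ^ 2 ≤
      ∫ χ in (0 : ℝ)..2 * π, r ^ 2 / 2 * ∫ s in (0 : ℝ)..r, s * c.F (pt s χ) ^ 2 :=
    intervalIntegral.integral_mono_on (by positivity) (hb.intervalIntegrable _ _)
      ((continuous_const.mul hI).intervalIntegrable _ _) fun χ _ => b_sq_le hc hr h χ
  refine h1.trans ?_
  rw [intervalIntegral.integral_const_mul,
    swap_int (F := fun χ s => s * c.F (pt s χ) ^ 2) hFc]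
  have h2 : ∫ s in (0 : ℝ)..r, ∫ χ in (0 : ℝ)..2 * π, s * c.F (pt s χ) ^ 2 =
      ∫ z in Metric.ball (0 : ℂ) r, c.F z ^ 2 := by
    rw [polar_ball (fun z => c.F z ^ 2) (hc.contDiff_F.continuous.pow 2) 0 h]
    refine intervalIntegral.integral_congr fun s _ => ?_
    change ∫ χ in (0 : ℝ)..2 * π, s * c.F (pt s χ) ^ 2 =
      s * ∫ χ in (0 : ℝ)..2 * π, c.F (0 + pt s χ) ^ 2
    rw [intervalIntegral.integral_const_mul]
    simp only [zero_add]
  rw [h2]
  have h3 : ∫ z in Metric.ball (0 : ℂ) r, c.F z ^ 2 ≤ ∫ z, c.F z ^ 2 :=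
    setIntegral_le_integral hc.int_F (Eventually.of_forall fun z => sq_nonneg _)
  have h4 := hc.E_eq
  have h5 : 0 ≤ ∫ z, c.grad z := integral_nonneg fun z => grad_nonneg c z
  have h6 : 0 ≤ ∫ z, (1 - c.h z) ^ 2 := integral_nonneg fun z => sq_nonneg _
  have h7 : ∫ z in Metric.ball (0 : ℂ) r, c.F z ^ 2 ≤ 2 * c.E := by linarith
  have h8 := mul_le_mul_of_nonneg_left h7 (show 0 ≤ r ^ 2 / 2 by positivity)
  linarith

private theorem cont_h (hc : c.Adm n) (r : ℝ) : Continuous fun χ => c.h (pt r χ) :=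
  hc.sh.continuous.comp (continuous_pt.comp (continuous_const.prodMk continuous_id))

theorem one_sub_cc_sq (hn : 2 ≤ n) (hc : c.Adm n) (r : ℝ) :
    (1 - c.cc n r) ^ 2 ≤ c.U n r / al n := by
  have hn0 : 0 < n := by omega
  have hal := al_pos hn0
  have hh := cont_h hc r
  have h1 := cs_int (f := fun _ => 1) (g := fun χ => 1 - c.h (pt r χ)) continuous_const
    (continuous_const.sub hh) hal.le
  have h2 : ∫ χ in (0 : ℝ)..al n, 1 * (1 - c.h (pt r χ)) = al n * (1 - c.cc n r) := by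
    have e : ∀ χ, 1 * (1 - c.h (pt r χ)) = 1 - c.h (pt r χ) := fun χ => one_mul _
    simp only [e]
    rw [intervalIntegral.integral_sub intervalIntegrable_const (hh.intervalIntegrable _ _),
      intervalIntegral.integral_const, sub_zero, smul_eq_mul, mul_one]
    unfold cc
    rw [mul_sub, mul_one, ← mul_assoc, mul_one_div, div_self hal.ne', one_mul]
  have h3 : ∫ _ in (0 : ℝ)..al n, (1 : ℝ) ^ 2 = al n := by
    rw [one_pow, intervalIntegral.integral_const, sub_zero, smul_eq_mul, mul_one]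
  rw [h2, h3] at h1
  change (al n * (1 - c.cc n r)) ^ 2 ≤ al n * c.U n r at h1
  rw [le_div_iff₀ hal]
  have h4 : al n * ((1 - c.cc n r) ^ 2 * al n) ≤ al n * c.U n r := by
    calc al n * ((1 - c.cc n r) ^ 2 * al n) = (al n * (1 - c.cc n r)) ^ 2 := by ring
      _ ≤ _ := h1
  exact le_of_mul_le_mul_left h4 hal

private theorem U_step (hn : 0 < n) (hc : c.Adm n) {r R : ℝ} (h2 : r ≤ R) :
    c.U n r ≤ c.U n R + ∫ s in r..R, (c.U n s + c.T n s) := by
  have hal := al_pos hn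
  have hcpt : Continuous fun q : ℝ × ℝ => pt q.1 q.2 := continuous_pt
  have hcpt2 : Continuous fun q : ℝ × ℝ => pt q.2 q.1 :=
    continuous_pt.comp (continuous_snd.prodMk continuous_fst)
  have her2 : Continuous fun q : ℝ × ℝ => er q.1 := by
    unfold er
    fun_prop
  have hhc : Continuous fun q : ℝ × ℝ => (1 - c.h (pt q.2 q.1)) ^ 2 :=
    (continuous_const.sub (hc.sh.continuous.comp hcpt2)).pow 2
  have hnc : Continuous fun q : ℝ × ℝ => c.nsq (pt q.2 q.1) (er q.1) :=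
    hc.contDiff_nsq.continuous.comp (hcpt2.prodMk her2)
  have hdc : Continuous fun q : ℝ × ℝ => c.dh (pt q.2 q.1) (er q.1) :=
    hc.contDiff_dh.continuous.comp (hcpt2.prodMk her2)
  obtain ⟨g, hg⟩ : ∃ g : ℝ → ℝ → ℝ, g = fun χ s =>
      (1 - c.h (pt s χ)) ^ 2 + c.nsq (pt s χ) (er χ) := ⟨_, rfl⟩
  have hgc : Continuous (Function.uncurry g) := by
    rw [hg]
    exact hhc.add hnc
  have hpt : ∀ χ, (1 - c.h (pt r χ)) ^ 2 ≤ (1 - c.h (pt R χ)) ^ 2 + ∫ s in r..R, g χ s := by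
    intro χ
    have d1 : ∀ s, HasDerivAt (fun s => (1 - c.h (pt s χ)) ^ 2)
        (2 * (1 - c.h (pt s χ)) * -c.dh (pt s χ) (er χ)) s := by
      intro s
      have k1 : HasDerivAt (fun s => c.h (pt s χ)) (c.dh (pt s χ) (er χ)) s :=
        (hc.sh.differentiable (by simp) _).hasFDerivAt.comp_hasDerivAt s (hasDerivAt_pt_r s χ)
      have k2 : HasDerivAt (fun s => (1 - c.h (pt s χ)) ^ 2)
          ((2 : ℕ) * (1 - c.h (pt s χ)) ^ (2 - 1) * -c.dh (pt s χ) (er χ)) s :=
        (k1.const_sub 1).pow 2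
      refine k2.congr_deriv ?_
      rw [show 2 - 1 = 1 from rfl, pow_one]
      norm_num
    have cmp : Continuous fun s : ℝ => (χ, s) := continuous_const.prodMk continuous_id
    have c1 : Continuous fun s => 2 * (1 - c.h (pt s χ)) * -c.dh (pt s χ) (er χ) := by
      have m1 : Continuous fun s => c.h (pt s χ) := hc.sh.continuous.comp (cont_pt χ)
      have m2 : Continuous fun s => c.dh (pt s χ) (er χ) := hdc.comp cmp
      exact (continuous_const.mul (continuous_const.sub m1)).mul m2.neg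
    have k3 := intervalIntegral.integral_eq_sub_of_hasDerivAt (a := r) (b := R)
      (fun s _ => d1 s) (c1.intervalIntegrable _ _)
    have k4 : -∫ s in r..R, 2 * (1 - c.h (pt s χ)) * -c.dh (pt s χ) (er χ) ≤
        ∫ s in r..R, g χ s := by
      rw [← intervalIntegral.integral_neg]
      refine intervalIntegral.integral_mono_on h2 (c1.neg.intervalIntegrable _ _)
        ((hgc.comp cmp).intervalIntegrable _ _) fun s _ => ?_
      rw [hg]
      have m3 := dh_le c (pt s χ) (er χ)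
      have m4 := sq_nonneg ((1 - c.h (pt s χ)) - c.dh (pt s χ) (er χ))
      have m5 : ((1 - c.h (pt s χ)) - c.dh (pt s χ) (er χ)) ^ 2 = (1 - c.h (pt s χ)) ^ 2 -
        2 * (1 - c.h (pt s χ)) * c.dh (pt s χ) (er χ) + c.dh (pt s χ) (er χ) ^ 2 := by ring
      change -(2 * (1 - c.h (pt s χ)) * -c.dh (pt s χ) (er χ)) ≤
        (1 - c.h (pt s χ)) ^ 2 + c.nsq (pt s χ) (er χ)
      linarith
    linarith
  have hU : ∀ r, Continuous fun χ => (1 - c.h (pt r χ)) ^ 2 := fun r =>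
    (continuous_const.sub (cont_h hc r)).pow 2
  have hI : Continuous fun χ => ∫ s in r..R, g χ s :=
    intervalIntegral.continuous_parametric_intervalIntegral_of_continuous' hgc r R
  have h3 : c.U n r ≤ ∫ χ in (0 : ℝ)..al n, ((1 - c.h (pt R χ)) ^ 2 + ∫ s in r..R, g χ s) :=
    intervalIntegral.integral_mono_on hal.le ((hU r).intervalIntegrable _ _)
      (((hU R).add hI).intervalIntegrable _ _) fun χ _ => hpt χ
  rw [intervalIntegral.integral_add ((hU R).intervalIntegrable _ _) (hI.intervalIntegrable _ _),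
    swap_int hgc] at h3
  have h4 : ∫ s in r..R, ∫ χ in (0 : ℝ)..al n, g χ s = ∫ s in r..R, (c.U n s + c.T n s) := by
    refine intervalIntegral.integral_congr fun s _ => ?_
    rw [hg]
    have cmp2 : Continuous fun χ : ℝ => (χ, s) := continuous_id.prodMk continuous_const
    exact intervalIntegral.integral_add ((hU s).intervalIntegrable _ _)
      ((hnc.comp cmp2).intervalIntegrable _ _)
  rw [h4] at h3
  exact h3

private theorem UT_part (hn : 0 < n) (hc : c.Adm n) {a b : ℝ} (h1 : 0 ≤ a) (h2 : a ≤ b) :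
    ∫ s in a..b, s * (c.U n s + c.T n s) ≤ c.E / (n : ℝ) ^ 3 := by
  obtain ⟨hi, hl⟩ := energy_polar hn hc
  rw [← hl]
  have hsub : Ioc a b ⊆ Ioi (0 : ℝ) := fun x hx => lt_of_le_of_lt h1 hx.1
  have hnn : ∀ s, 0 < s → 0 ≤ s * c.T n s + c.X n s / s + s * c.Y n s + s * c.U n s := by
    intro s hs
    have k1 := mul_nonneg hs.le (T_nonneg hn c s)
    have k2 := div_nonneg (X_nonneg hn c s) hs.le
    have k3 := mul_nonneg hs.le (Y_nonneg hn c s)
    have k4 := mul_nonneg hs.le (U_nonneg hn c s)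
    linarith
  have h3 : ∫ s in Ioc a b, (s * c.T n s + c.X n s / s + s * c.Y n s + s * c.U n s) ≤
      ∫ s in Ioi (0 : ℝ), (s * c.T n s + c.X n s / s + s * c.Y n s + s * c.U n s) := by
    refine setIntegral_mono_set hi ?_ hsub.eventuallyLE
    filter_upwards [self_mem_ae_restrict measurableSet_Ioi] with s hs
    exact hnn s hs
  refine le_trans ?_ h3
  rw [intervalIntegral.integral_of_le h2]
  have hcont : Continuous fun s => s * (c.U n s + c.T n s) :=
    continuous_id.mul ((contDiff_U hc).add (contDiff_T hc))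
  refine setIntegral_mono_on ?_ (hi.mono_set hsub) measurableSet_Ioc fun s hs => ?_
  · exact (hcont.integrableOn_Icc (a := a) (b := b)).mono_set Ioc_subset_Icc_self
  · have hs0 : 0 < s := lt_of_le_of_lt h1 hs.1
    have k2 := div_nonneg (X_nonneg hn c s) hs0.le
    have k3 := mul_nonneg hs0.le (Y_nonneg hn c s)
    have k5 : s * (c.U n s + c.T n s) = s * c.T n s + s * c.U n s := by ring
    rw [k5]
    linarith

private theorem U_small (hn : 0 < n) (hc : c.Adm n) {ε : ℝ} (hε : 0 < ε) (r : ℝ) :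
    ∃ R, r ≤ R ∧ c.U n R < ε := by
  by_contra hcon
  push Not at hcon
  obtain ⟨R0, hR0⟩ : ∃ R0, R0 = max r 1 := ⟨_, rfl⟩
  have h1 : 1 ≤ R0 := by rw [hR0]; exact le_max_right _ _
  have h2 : r ≤ R0 := by rw [hR0]; exact le_max_left _ _
  have hE : 0 ≤ c.E := Adm.E_nonneg c
  have hE2 : 0 ≤ c.E / (n : ℝ) ^ 3 := by positivity
  obtain ⟨M, hM⟩ : ∃ M, M = R0 + (c.E / (n : ℝ) ^ 3 + 1) / ε := ⟨_, rfl⟩
  have hM2 : R0 ≤ M := by
    rw [hM]
    have : 0 ≤ (c.E / (n : ℝ) ^ 3 + 1) / ε := by positivity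
    linarith
  have h3 := UT_part hn hc (show 0 ≤ R0 by linarith) hM2
  have hcont : Continuous fun s => s * (c.U n s + c.T n s) :=
    continuous_id.mul ((contDiff_U hc).add (contDiff_T hc))
  have h4 : ∫ _ in R0..M, ε ≤ ∫ s in R0..M, s * (c.U n s + c.T n s) := by
    refine intervalIntegral.integral_mono_on hM2 intervalIntegrable_const
      (hcont.intervalIntegrable _ _) fun s hs => ?_
    have k1 := hcon s (h2.trans hs.1)
    have k2 := T_nonneg hn c s
    have k3 : 1 ≤ s := h1.trans hs.1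
    have k4 : 0 ≤ c.U n s + c.T n s := by linarith
    have k5 := mul_le_mul_of_nonneg_right k3 k4
    linarith
  rw [intervalIntegral.integral_const, smul_eq_mul, hM] at h4
  have h5 : (R0 + (c.E / (n : ℝ) ^ 3 + 1) / ε - R0) * ε = c.E / (n : ℝ) ^ 3 + 1 := by
    field_simp
    ring
  rw [← hM] at h4 h5
  rw [h5] at h4
  linarith

theorem U_le (hn : 2 ≤ n) (hc : c.Adm n) {r : ℝ} (h : 0 < r) :
    c.U n r / al n ≤ c.E / (π * r) := by
  have hn0 : 0 < n := by omega
  have hal := al_pos hn0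
  have key : r * c.U n r ≤ c.E / (n : ℝ) ^ 3 := by
    apply le_of_forall_pos_le_add
    intro ε hε
    obtain ⟨R, hR1, hR2⟩ := U_small hn0 hc (show 0 < ε / r by positivity) r
    have h1 := U_step hn0 hc hR1
    have h2 : r * ∫ s in r..R, (c.U n s + c.T n s) ≤ ∫ s in r..R, s * (c.U n s + c.T n s) := by
      have k0 : Continuous fun s => c.U n s + c.T n s := (contDiff_U hc).add (contDiff_T hc)
      rw [← intervalIntegral.integral_const_mul]
      refine intervalIntegral.integral_mono_on hR1 ((continuous_const.mul k0).intervalIntegrable _ _)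
        ((continuous_id.mul k0).intervalIntegrable _ _) fun s hs => ?_
      have k1 := T_nonneg hn0 c s
      have k2 := U_nonneg hn0 c s
      exact mul_le_mul_of_nonneg_right hs.1 (by linarith)
    have h3 := UT_part hn0 hc h.le hR1
    have h4 := mul_le_mul_of_nonneg_left h1 h.le
    have h5 : r * c.U n R ≤ ε := by
      rw [lt_div_iff₀ h] at hR2
      linarith
    have h6 : r * (c.U n R + ∫ s in r..R, (c.U n s + c.T n s)) =
        r * c.U n R + r * ∫ s in r..R, (c.U n s + c.T n s) := by ring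
    linarith
  have hpi := Real.pi_pos
  rw [div_le_div_iff₀ hal (by positivity)]
  have h7 : c.E / (n : ℝ) ^ 3 * π = c.E * al n := by
    unfold al
    ring
  have h8 := mul_le_mul_of_nonneg_right key hpi.le
  rw [h7] at h8
  linarith

private theorem cc_sq_le (hn : 2 ≤ n) (hc : c.Adm n) {r : ℝ} (h : 0 < r) :
    (1 - c.cc n r) ^ 2 ≤ c.E / (π * r) := (one_sub_cc_sq hn hc r).trans (U_le hn hc h)

theorem cc_ge (hn : 2 ≤ n) (hc : c.Adm n) {K : ℝ} (hK : 1 ≤ K) (hE : c.E ≤ K * n ^ 2) {r : ℝ}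
    (h : rp K n ≤ r) : 99 / 100 ≤ c.cc n r := by
  have hn0 : (0 : ℝ) < n := by exact_mod_cast (by omega : 0 < n)
  have hK0 : 0 < K := by linarith
  have hrp : 0 < rp K n := by
    unfold rp
    positivity
  have hr : 0 < r := lt_of_lt_of_le hrp h
  have h1 := cc_sq_le hn hc hr
  have hpi := Real.pi_gt_three
  have h2 : c.E / (π * r) ≤ 1 / 10000 := by
    rw [div_le_div_iff₀ (by positivity) (by norm_num)]
    have h3 : 4000 * (K * n ^ 2) ≤ r := by
      unfold rp at h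
      linarith
    have h4 : 3 * r ≤ π * r := mul_le_mul_of_nonneg_right hpi.le hr.le
    linarith
  have h3 : (1 - c.cc n r) ^ 2 ≤ (1 / 100) ^ 2 := by
    have : ((1 : ℝ) / 100) ^ 2 = 1 / 10000 := by norm_num
    rw [this]
    exact h1.trans h2
  have h4 := abs_le_of_sq_le_sq' h3 (by norm_num)
  linarith [h4.2]

private theorem psi_le (x : ℝ) : 0 ≤ psi x ∧ psi x ≤ 1 := by
  unfold psi
  exact ⟨le_max_left _ _, max_le zero_le_one (min_le_left _ _)⟩

private theorem Z_norm (c : Cf) (r : ℝ) :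
    ‖c.Z n r - 1‖ ^ 2 ≤ (1 - c.cc n r) ^ 2 + ‖c.V n r‖ ^ 2 := by
  obtain ⟨h0, h1⟩ := psi_le (c.aa n r)
  have e : c.Z n r - 1 = (psi (c.aa n r) : ℂ) *
      ((c.cc n r : ℂ) + Complex.I * ((c.V n r).re : ℂ) - 1) := by
    unfold Z
    ring
  rw [e, norm_mul, mul_pow, Complex.norm_real, Real.norm_eq_abs, sq_abs]
  have h2 : ‖(c.cc n r : ℂ) + Complex.I * ((c.V n r).re : ℂ) - 1‖ ^ 2 =
      (1 - c.cc n r) ^ 2 + (c.V n r).re ^ 2 := by
    rw [← Complex.normSq_eq_norm_sq, Complex.normSq_apply]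
    simp
    ring
  rw [h2]
  have h3 : (c.V n r).re ^ 2 ≤ ‖c.V n r‖ ^ 2 := by
    rw [← Complex.normSq_eq_norm_sq, Complex.normSq_apply]
    linarith [mul_self_nonneg (c.V n r).im, sq (c.V n r).re]
  have h4 : psi (c.aa n r) ^ 2 ≤ 1 := pow_le_one₀ h0 h1
  have h5 : 0 ≤ (1 - c.cc n r) ^ 2 + (c.V n r).re ^ 2 := by positivity
  have h6 := mul_le_mul_of_nonneg_right h4 h5
  linarith

theorem Z_sub_one_le (hn : 2 ≤ n) (hc : c.Adm n) {K : ℝ} (hK : 1 ≤ K) (hE : c.E ≤ K * n ^ 2)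
    {r : ℝ} (h : rp K n ≤ r) : ‖c.Z n r - 1‖ ≤ 1 / 5 := by
  have hn0 : 0 < n := by omega
  have h1 := cc_ge hn hc hK hE h
  have h2 := abs_le.1 (abs_cc_le hn0 hc r)
  have h3 := var_nonneg hn0 hc r
  have h4 := Z_norm (n := n) c r
  have h5 : (1 - c.cc n r) ^ 2 ≤ (1 / 100) ^ 2 :=
    pow_le_pow_left₀ (by linarith [h2.2]) (by linarith) 2
  have h6 : (99 / 100 : ℝ) ^ 2 ≤ c.cc n r ^ 2 := pow_le_pow_left₀ (by norm_num) h1 2
  have h7 : ‖c.Z n r - 1‖ ^ 2 ≤ (1 / 5) ^ 2 := by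
    have e1 : ((1 : ℝ) / 100) ^ 2 = 1 / 10000 := by norm_num
    have e2 : ((99 : ℝ) / 100) ^ 2 = 9801 / 10000 := by norm_num
    have e3 : ((1 : ℝ) / 5) ^ 2 = 1 / 25 := by norm_num
    rw [e1] at h5
    rw [e2] at h6
    rw [e3]
    linarith
  exact (abs_le_of_sq_le_sq' h7 (by norm_num)).2

private theorem lim_zero (x : ℝ) : Tendsto (fun r : ℝ => x / (π * r)) atTop (𝓝 0) :=
  Tendsto.const_div_atTop (tendsto_id.const_mul_atTop Real.pi_pos) x

theorem tendsto_cc (hn : 2 ≤ n) (hc : c.Adm n) : Tendsto (c.cc n) atTop (𝓝 1) := by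
  have h1 : Tendsto (fun r => (1 - c.cc n r) ^ 2) atTop (𝓝 0) := by
    refine squeeze_zero' (Eventually.of_forall fun r => sq_nonneg _) ?_ (lim_zero c.E)
    filter_upwards [eventually_gt_atTop 0] with r hr
    exact cc_sq_le hn hc hr
  have h2 : Tendsto (fun r => |1 - c.cc n r|) atTop (𝓝 0) := by
    have h3 := (Real.continuous_sqrt.tendsto 0).comp h1
    rw [Real.sqrt_zero] at h3
    refine h3.congr fun r => ?_
    exact Real.sqrt_sq_eq_abs _
  have h3 := (tendsto_zero_iff_abs_tendsto_zero _).2 h2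
  have h4 := (tendsto_const_nhds (x := (1 : ℝ)) (f := atTop)).sub h3
  rw [sub_zero] at h4
  refine h4.congr fun r => ?_
  ring

theorem tendsto_V (hn : 2 ≤ n) (hc : c.Adm n) : Tendsto (c.V n) atTop (𝓝 0) := by
  have hn0 : 0 < n := by omega
  have h1 : Tendsto (fun r => 1 - c.cc n r ^ 2) atTop (𝓝 0) := by
    have h2 := (tendsto_const_nhds (x := (1 : ℝ)) (f := atTop)).sub ((tendsto_cc hn hc).pow 2)
    rwa [one_pow, sub_self] at h2
  have h2 : Tendsto (fun r => ‖c.V n r‖ ^ 2) atTop (𝓝 0) := by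
    refine squeeze_zero (fun r => sq_nonneg _) (fun r => ?_) h1
    have := var_nonneg hn0 hc r
    linarith
  have h3 := (Real.continuous_sqrt.tendsto 0).comp h2
  rw [Real.sqrt_zero] at h3
  rw [tendsto_zero_iff_norm_tendsto_zero]
  refine h3.congr fun r => ?_
  exact Real.sqrt_sq (norm_nonneg _)

theorem tendsto_Z (hn : 2 ≤ n) (hc : c.Adm n) : Tendsto (c.Z n) atTop (𝓝 1) := by
  have h1 : Tendsto (fun r => (1 - c.cc n r) ^ 2 + ‖c.V n r‖ ^ 2) atTop (𝓝 0) := by
    have h2 := ((tendsto_const_nhds (x := (1 : ℝ)) (f := atTop)).sub (tendsto_cc hn hc)).pow 2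
    have h3 := (tendsto_zero_iff_norm_tendsto_zero.1 (tendsto_V hn hc)).pow 2
    have h4 := h2.add h3
    simpa using h4
  have h2 : Tendsto (fun r => ‖c.Z n r - 1‖ ^ 2) atTop (𝓝 0) :=
    squeeze_zero (fun r => sq_nonneg _) (fun r => Z_norm c r) h1
  have h3 := (Real.continuous_sqrt.tendsto 0).comp h2
  rw [Real.sqrt_zero] at h3
  rw [tendsto_iff_norm_sub_tendsto_zero]
  refine h3.congr fun r => ?_
  exact Real.sqrt_sq (norm_nonneg _)

private theorem sqrt_E_le {K : ℝ} (hK : 1 ≤ K) (hE : c.E ≤ K * n ^ 2) :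
    √(c.E / (2 * π)) ≤ √K * n / 2 := by
  have hK0 : 0 ≤ K := by linarith
  have hpi := Real.pi_gt_three
  have h1 : c.E / (2 * π) ≤ (√K * n / 2) ^ 2 := by
    rw [div_le_iff₀ (by positivity), div_pow, mul_pow, Real.sq_sqrt hK0]
    have h2 : 0 ≤ K * (n : ℝ) ^ 2 := by positivity
    have h3 := mul_le_mul_of_nonneg_left hpi.le h2
    have e : K * (n : ℝ) ^ 2 / 2 ^ 2 * (2 * π) = K * (n : ℝ) ^ 2 * π / 2 := by ring
    rw [e]
    linarith
  refine (Real.sqrt_le_sqrt h1).trans (le_of_eq ?_)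
  exact Real.sqrt_sq (by positivity)

theorem psi_small (hn : 2 ≤ n) (hc : c.Adm n) (hr : c.Rad) {K : ℝ} (hK : 1 ≤ K)
    (hE : c.E ≤ K * n ^ 2) {r : ℝ} (h0 : 0 ≤ r) (h : r ≤ rm K n) :
    psi (c.aa n r) = 0 ∧ c.Z n r = 1 := by
  have hn0 : 0 < n := by omega
  have hn1 : (0 : ℝ) < n := by exact_mod_cast hn0
  have hal := al_pos hn0
  have hpi := Real.pi_pos
  have hK0 : 0 < K := by linarith
  have hsK : 0 < √K := Real.sqrt_pos.2 hK0
  have h1 := beta_le hn hc hr h0
  have h2 : |c.beta n r| ≤ (n : ℝ) ^ 3 / 2 := by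
    refine h1.trans ?_
    have h3 := mul_le_mul h (sqrt_E_le hK hE) (Real.sqrt_nonneg _)
      (by unfold rm; positivity : 0 ≤ rm K n)
    refine h3.trans (le_of_eq ?_)
    unfold rm
    field_simp
  have h3 : c.aa n r ≤ π / 2 := by
    unfold aa
    have h4 := (abs_le.1 h2).2
    have h5 := mul_le_mul_of_nonneg_left (show c.beta n r - 1 ≤ (n : ℝ) ^ 3 / 2 by linarith) hal.le
    have h6 : al n * ((n : ℝ) ^ 3 / 2) = π / 2 := by
      rw [← al_mul hn0]
      ring
    linarith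
  have h4 : psi (c.aa n r) = 0 := by
    unfold psi
    have h5 : |c.aa n r - π| = π - c.aa n r := by
      rw [abs_sub_comm]
      exact abs_of_nonneg (by linarith)
    rw [h5]
    apply max_eq_left
    refine (min_le_right _ _).trans ?_
    have h6 : 8 / π * (π / 2) ≤ 8 / π * (π - c.aa n r) :=
      mul_le_mul_of_nonneg_left (by linarith) (by positivity)
    have h7 : 8 / π * (π / 2) = 4 := by
      field_simp
      norm_num
    linarith
  refine ⟨h4, ?_⟩
  unfold Z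
  rw [h4]
  simp

theorem beta_half (hn : 2 ≤ n) (hc : c.Adm n) (hr : c.Rad) {K : ℝ} (hK : 1 ≤ K)
    (hE : c.E ≤ K * n ^ 2) {r : ℝ} (h0 : 0 ≤ r) (h : r ≤ rz K n) : |c.beta n r| ≤ 1 / 2 := by
  have hn0 : 0 < n := by omega
  have hn1 : (0 : ℝ) < n := by exact_mod_cast hn0
  have hK0 : 0 < K := by linarith
  have hsK : 0 < √K := Real.sqrt_pos.2 hK0
  refine (beta_le hn hc hr h0).trans ?_
  have h3 := mul_le_mul h (sqrt_E_le hK hE) (Real.sqrt_nonneg _)
      (by unfold rz; positivity : 0 ≤ rz K n)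
  refine h3.trans ?_
  have e : rz K n * (√K * n / 2) = 1 / 4 := by
    unfold rz
    field_simp
    norm_num
  rw [e]
  norm_num

theorem rz_le_rm (hn : 2 ≤ n) {K : ℝ} (hK : 1 ≤ K) : rz K n ≤ rm K n ∧ 0 < rz K n ∧
    rm K n < rp K n ∧ 2 ≤ rp K n / rm K n := by
  have hn2 : (2 : ℝ) ≤ n := by exact_mod_cast hn
  have hn1 : (0 : ℝ) < n := by linarith
  have hK0 : 0 < K := by linarith
  have hsK : 1 ≤ √K := by
    rw [Real.one_le_sqrt]
    exact hK
  have hsK0 : 0 < √K := by linarith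
  have hn3 : (1 : ℝ) ≤ (n : ℝ) ^ 2 := by nlinarith
  refine ⟨?_, ?_, ?_, ?_⟩
  · unfold rz rm
    rw [div_le_div_iff₀ (by positivity) hsK0, one_mul]
    have h1 : 1 ≤ (n : ℝ) ^ 2 * (2 * n) := by nlinarith
    have h2 := mul_le_mul_of_nonneg_right h1 hsK0.le
    calc √K = 1 * √K := (one_mul _).symm
      _ ≤ (n : ℝ) ^ 2 * (2 * n) * √K := h2
      _ = (n : ℝ) ^ 2 * (2 * n * √K) := by ring
  · unfold rz
    positivity
  · unfold rm rp
    rw [div_lt_iff₀ hsK0]
    have h1 : (1 : ℝ) ≤ K * √K := one_le_mul_of_one_le_of_one_le hK hsK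
    have h2 : (n : ℝ) ^ 2 ≤ (n : ℝ) ^ 2 * (K * √K) := le_mul_of_one_le_right (by positivity) h1
    have e : 4000 * K * (n : ℝ) ^ 2 * √K = 4000 * ((n : ℝ) ^ 2 * (K * √K)) := by ring
    rw [e]
    have : 0 < (n : ℝ) ^ 2 := by positivity
    linarith
  · have e : rp K n / rm K n = 4000 * (K * √K) := by
      unfold rp rm
      field_simp
    rw [e]
    have h1 : (1 : ℝ) ≤ K * √K := one_le_mul_of_one_le_of_one_le hK hsK
    linarith

end Cf

end GO3
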