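import Pool.Agent.GO3.Der

/-! GO3 / Gau: gauge transformations.

Proofs. `D (e^{iom} w) = e^{iom} D w` because `d (e^{iom} w) = e^{iom} (dw + i dom w)` and
`ip (A + ∇om) v = ip A v + dom v`; the curvature does not change (symmetry of second derivatives).
Symmetric `om` (`om (ζ z) = om z`, `om (conj z) = - om z`): `∇om (ζ z) = ζ ∇om z`, `∇om (conj z) = - conj (∇om z)`;
`om = 0` on the rays `χ = 0` and `χ = α` (`conj (pt r α) = ζ⁻¹ pt r α`), `b' = b + ∂_χ om`, hence
`B' (r, χ) = B (r, χ) + om (pt r χ)`, `B' (r, α) = B (r, α)`, and `w' e^{-iB'} = w e^{-iB}`.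
`exists_rad`: `om z = - ∫_0^1 ip (A (t z)) z dt`; `A' = A + ∇om` satisfies `A' z = Aof F z` (Poincare lemma:
`∂_k ∫_0^1 A_j(tz) z_j dt = A_k(z) + ∫_0^1 t z_j (∂_k A_j - ∂_j A_k)(tz) dt`). -/

open MeasureTheory Filter Topology Set
open scoped ContDiff Real

noncomputable section

namespace GO3

/-! ### parametric integrals -/

private theorem gau_smooth {h : ℂ → ℝ → ℝ} (hh : ContDiff ℝ ∞ (fun q : ℂ × ℝ => h q.1 q.2)) :
    ContDiff ℝ ∞ (fun p => ∫ t in (0 : ℝ)..1, h p t) := by
  let b : ContDiffBump (-1 / 2 : ℝ) := ⟨1, 2, one_pos, by norm_num⟩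
  let g : ℂ → ℝ → ℝ := fun p x => b x * h p (-x)
  let f : ℝ → ℝ := (Ioc (0 : ℝ) 1).indicator (fun _ => (1 : ℝ))
  have hf : LocallyIntegrable f volume := by
    apply Integrable.locallyIntegrable
    exact (integrable_indicator_iff measurableSet_Ioc).2 (integrableOn_const (by simp))
  have hg : ContDiffOn ℝ ∞ (fun q : ℂ × ℝ => g q.1 q.2) ((univ : Set ℂ) ×ˢ univ) := by
    apply ContDiffOn.mul
    · exact b.contDiff.comp_contDiffOn contDiff_snd.contDiffOn
    · have h1 : ContDiff ℝ ∞ (fun q : ℂ × ℝ => (q.1, -q.2)) :=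
        contDiff_fst.prodMk contDiff_snd.neg
      exact (hh.comp h1).contDiffOn
  have hgs : ∀ p, ∀ x, p ∈ (univ : Set ℂ) → x ∉ Metric.closedBall (-1 / 2 : ℝ) 2 →
      g p x = 0 := by
    intro p x _ hx
    have : b x = 0 := by
      apply b.zero_of_le_dist
      have h2 : ¬ dist x (-1 / 2) ≤ 2 := hx
      exact (not_le.1 h2).le
    simp only [g, this, zero_mul]
  have key := contDiffOn_convolution_right_with_param_comp (μ := (volume : Measure ℝ)) (n := ⊤)
    (ContinuousLinearMap.mul ℝ ℝ) (s := (univ : Set ℂ)) (v := fun _ : ℂ => (0 : ℝ))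
    contDiffOn_const (f := f) (g := g) (k := Metric.closedBall (-1 / 2 : ℝ) 2) isOpen_univ
    (isCompact_closedBall _ _) hgs hf hg
  rw [← contDiffOn_univ]
  refine key.congr (fun p hp => ?_)
  rw [convolution_def, intervalIntegral.integral_of_le zero_le_one,
    ← integral_indicator measurableSet_Ioc]
  congr 1
  funext t
  by_cases ht : t ∈ Ioc (0 : ℝ) 1
  · have h3 : b (0 - t) = 1 := by
      apply b.one_of_mem_closedBall
      rw [Metric.mem_closedBall, Real.dist_eq, abs_le]
      constructor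
      · show -1 ≤ 0 - t - -1 / 2
        linarith [ht.2]
      · show 0 - t - -1 / 2 ≤ 1
        linarith [ht.1]
    simp only [f, g, indicator_of_mem ht, ContinuousLinearMap.mul_apply', h3]
    simp
  · simp only [f, indicator_of_notMem ht, ContinuousLinearMap.mul_apply', zero_mul]

private theorem gau_deriv {h : ℂ → ℝ → ℝ} (hh : ContDiff ℝ ∞ (fun q : ℂ × ℝ => h q.1 q.2))
    (p v : ℂ) : fderiv ℝ (fun p => ∫ t in (0 : ℝ)..1, h p t) p v =
      ∫ t in (0 : ℝ)..1, fderiv ℝ (fun p => h p t) p v := by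
  obtain ⟨H, hH⟩ : ∃ H : ℂ × ℝ → ℝ, H = fun q => h q.1 q.2 := ⟨_, rfl⟩
  rw [← hH] at hh
  have hd : ∀ (q : ℂ) (t : ℝ), fderiv ℝ (fun p => h p t) q v = fderiv ℝ H (q, t) (v, 0) := by
    intro q t
    have h1 : HasFDerivAt H (fderiv ℝ H (q, t)) (q, t) :=
      (hh.differentiable (by simp) (q, t)).hasFDerivAt
    have h2 : HasFDerivAt (fun p : ℂ => (p, t)) (ContinuousLinearMap.inl ℝ ℂ ℝ) q :=
      hasFDerivAt_prodMk_left q t
    have h3 : HasFDerivAt (fun p => h p t) ((fderiv ℝ H (q, t)).comp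
        (ContinuousLinearMap.inl ℝ ℂ ℝ)) q := by
      have := h1.comp q h2
      rw [hH] at this ⊢
      exact this
    rw [h3.fderiv]
    rfl
  have hfd : Continuous (fun q => fderiv ℝ H q (v, 0)) :=
    (hh.continuous_fderiv (by simp)).clm_apply continuous_const
  have hF'c : Continuous (fun q : ℝ × ℝ => fderiv ℝ H (p + q.1 • v, q.2) (v, 0)) :=
    hfd.comp (by fun_prop)
  obtain ⟨C, hC⟩ := (isCompact_Icc.prod isCompact_Icc :
    IsCompact (Icc (-1 : ℝ) 1 ×ˢ Icc (0 : ℝ) 1)).exists_bound_of_continuousOn hF'c.continuousOn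
  have hda := intervalIntegral.hasDerivAt_integral_of_dominated_loc_of_deriv_le
    (μ := volume) (a := 0) (b := 1) (F := fun (r : ℝ) t => h (p + r • v) t)
    (F' := fun (r : ℝ) t => fderiv ℝ H (p + r • v, t) (v, 0)) (x₀ := (0 : ℝ))
    (s := Icc (-1) 1) (bound := fun _ => C)
    (Icc_mem_nhds (by norm_num) (by norm_num)) ?_ ?_ ?_ ?_ ?_ ?_
  · have hsm : ContDiff ℝ ∞ (fun p => ∫ t in (0 : ℝ)..1, h p t) :=
      gau_smooth (by rw [← hH]; exact hh)
    have h1 : HasDerivAt (fun r : ℝ => p + r • v) v 0 := by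
      have := ((hasDerivAt_id (0 : ℝ)).smul_const v).const_add p
      simpa using this
    have h2 : HasFDerivAt (fun p => ∫ t in (0 : ℝ)..1, h p t)
        (fderiv ℝ (fun p => ∫ t in (0 : ℝ)..1, h p t) p) (p + (0 : ℝ) • v) := by
      rw [zero_smul, add_zero]
      exact (hsm.differentiable (by simp) p).hasFDerivAt
    have h3 := h2.comp_hasDerivAt (0 : ℝ) h1
    have h4 := h3.unique hda.2
    rw [h4]
    apply intervalIntegral.integral_congr
    intro t _
    simp only [zero_smul, add_zero]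
    exact (hd p t).symm
  · refine Eventually.of_forall fun r => ?_
    have hc : Continuous (fun t => h (p + r • v) t) := by
      have : Continuous (fun t : ℝ => H (p + r • v, t)) := hh.continuous.comp (by fun_prop)
      rwa [hH] at this
    exact hc.aestronglyMeasurable
  · have hc : Continuous (fun t => h (p + (0 : ℝ) • v) t) := by
      have : Continuous (fun t : ℝ => H (p + (0 : ℝ) • v, t)) := hh.continuous.comp (by fun_prop)
      rwa [hH] at this
    exact hc.intervalIntegrable _ _
  · have hc : Continuous (fun t => fderiv ℝ H (p + (0 : ℝ) • v, t) (v, 0)) :=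
      hfd.comp (by fun_prop)
    exact hc.aestronglyMeasurable
  · refine Eventually.of_forall (fun t ht r hr => ?_)
    apply hC (r, t) ⟨hr, ?_⟩
    rw [uIoc_of_le zero_le_one] at ht
    exact ⟨ht.1.le, ht.2⟩
  · exact intervalIntegrable_const
  · refine Eventually.of_forall (fun t _ r hr => ?_)
    have h1 : HasDerivAt (fun r : ℝ => (p + r • v, t)) (v, (0 : ℝ)) r := by
      have h2 : HasDerivAt (fun r : ℝ => p + r • v) v r := by
        have := ((hasDerivAt_id r).smul_const v).const_add p
        simpa using this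
      exact h2.prodMk (hasDerivAt_const r t)
    have h3 := (hh.differentiable (by simp) (p + r • v, t)).hasFDerivAt.comp_hasDerivAt r h1
    rw [hH] at h3 ⊢
    exact h3

/-- the gradient of a real function as a complex number -/
def nab (om : ℂ → ℝ) (z : ℂ) : ℂ := ⟨fderiv ℝ om z 1, fderiv ℝ om z Complex.I⟩

/-- symmetric gauge functions -/
structure GSym (n : ℕ) (om : ℂ → ℝ) : Prop where
  s : ContDiff ℝ ∞ om
  rot : ∀ z, om (ze n * z) = om z
  ref : ∀ z, om (star z) = -om z

private theorem ip_add (a b v : ℂ) : ip (a + b) v = ip a v + ip b v := by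
  unfold ip
  rw [Complex.add_re, Complex.add_im]
  ring

private theorem ip_neg (a v : ℂ) : ip (-a) v = -ip a v := by
  unfold ip
  rw [Complex.neg_re, Complex.neg_im]
  ring

private theorem ip_ext {a b : ℂ} (h : ∀ v, ip a v = ip b v) : a = b := by
  have h1 := h 1
  have h2 := h Complex.I
  unfold ip at h1 h2
  simp only [Complex.one_re, Complex.one_im, Complex.I_re, Complex.I_im, mul_one, mul_zero,
    add_zero, zero_add] at h1 h2
  exact Complex.ext h1 h2

private theorem ze_star (n : ℕ) : star (ze n) * ze n = 1 := by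
  rw [Complex.star_def, mul_comm, Complex.mul_conj, Complex.normSq_eq_norm_sq, norm_ze]
  norm_num

/-- the linear map behind `nab` -/
private def Lnab : (ℂ →L[ℝ] ℝ) →L[ℝ] ℂ :=
  Complex.equivRealProdCLM.symm.toContinuousLinearMap.comp
    ((ContinuousLinearMap.apply ℝ ℝ (1 : ℂ)).prod (ContinuousLinearMap.apply ℝ ℝ Complex.I))

private theorem Lnab_re (φ : ℂ →L[ℝ] ℝ) : (Lnab φ).re = φ 1 := by
  simp [Lnab, Complex.equivRealProdCLM_symm_apply]

private theorem Lnab_im (φ : ℂ →L[ℝ] ℝ) : (Lnab φ).im = φ Complex.I := by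
  simp [Lnab, Complex.equivRealProdCLM_symm_apply]

private theorem nab_eq (om : ℂ → ℝ) : nab om = fun z => Lnab (fderiv ℝ om z) := by
  funext z
  apply Complex.ext
  · rw [Lnab_re]
    rfl
  · rw [Lnab_im]
    rfl

private theorem contDiff_nab {om : ℂ → ℝ} (hom : ContDiff ℝ ∞ om) : ContDiff ℝ ∞ (nab om) := by
  rw [nab_eq]
  exact Lnab.contDiff.comp (hom.fderiv_right (m := ∞) (by simp))

namespace Cf

/-- the gauge transform of `c` -/
def gt (c : Cf) (om : ℂ → ℝ) : Cf :=
  ⟨fun z => Complex.exp (om z * Complex.I) * c.w z, c.h, fun z => c.A z + nab om z⟩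

variable {c : Cf} {n : ℕ} {om : ℂ → ℝ}

theorem ip_nab (hom : ContDiff ℝ ∞ om) (z v : ℂ) : ip (nab om z) v = fderiv ℝ om z v := by
  have h : v = (v.re : ℝ) • (1 : ℂ) + (v.im : ℝ) • Complex.I := by
    apply Complex.ext <;> simp
  conv_rhs => rw [h]
  rw [map_add, map_smul, map_smul]
  unfold ip nab
  simp only [smul_eq_mul]
  ring

theorem gt_Dw (hom : ContDiff ℝ ∞ om) (hw : ContDiff ℝ ∞ c.w) (z v : ℂ) :
    (c.gt om).Dw z v = Complex.exp (om z * Complex.I) * c.Dw z v := by
  have h1 : HasFDerivAt om (fderiv ℝ om z) z := (hom.differentiable (by simp) z).hasFDerivAt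
  have h2 : HasFDerivAt c.w (fderiv ℝ c.w z) z := (hw.differentiable (by simp) z).hasFDerivAt
  have h3 : HasFDerivAt (fun z => ((om z : ℝ) : ℂ)) (Complex.ofRealCLM.comp (fderiv ℝ om z)) z :=
    Complex.ofRealCLM.hasFDerivAt.comp z h1
  have h4 := (h3.mul_const Complex.I).cexp.mul h2
  have h5 : fderiv ℝ (c.gt om).w z v = Complex.exp (om z * Complex.I) * fderiv ℝ c.w z v +
      Complex.exp (om z * Complex.I) * (fderiv ℝ om z v * Complex.I) * c.w z := by
    have k : fderiv ℝ (c.gt om).w z v = _ := congrArg (fun L : ℂ →L[ℝ] ℂ => L v) h4.fderiv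
    rw [k]
    simp only [add_apply, smul_apply, ContinuousLinearMap.comp_apply, Complex.ofRealCLM_apply,
      smul_eq_mul]
    ring
  unfold Dw
  rw [h5]
  change _ - Complex.I * (ip (c.A z + nab om z) v : ℂ) * (Complex.exp (om z * Complex.I) * c.w z) = _
  rw [ip_add, ip_nab hom]
  push_cast
  ring

private theorem norm_ph (x : ℝ) : ‖Complex.exp (x * Complex.I)‖ = 1 :=
  Complex.norm_exp_ofReal_mul_I x

theorem gt_nsq (hom : ContDiff ℝ ∞ om) (hw : ContDiff ℝ ∞ c.w) (z v : ℂ) :
    (c.gt om).nsq z v = c.nsq z v := by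
  unfold nsq
  rw [gt_Dw hom hw, norm_mul, norm_ph, one_mul]
  rfl

theorem gt_F (hom : ContDiff ℝ ∞ om) (hA : ContDiff ℝ ∞ c.A) (z : ℂ) : (c.gt om).F z = c.F z := by
  have h1 : DifferentiableAt ℝ c.A z := hA.differentiable (by simp) z
  have h2 : DifferentiableAt ℝ (nab om) z := (contDiff_nab hom).differentiable (by simp) z
  have h3 : ∀ v, fderiv ℝ (c.gt om).A z v = fderiv ℝ c.A z v + fderiv ℝ (nab om) z v := by
    intro v
    change fderiv ℝ (fun z => c.A z + nab om z) z v = _
    rw [fderiv_fun_add h1 h2]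
    rfl
  have h4 : ∀ v, fderiv ℝ (nab om) z v = Lnab (fderiv ℝ (fderiv ℝ om) z v) := by
    intro v
    have h5 : HasFDerivAt (fderiv ℝ om) (fderiv ℝ (fderiv ℝ om) z) z :=
      ((hom.fderiv_right (m := ∞) (by simp)).differentiable (by simp) z).hasFDerivAt
    have k : HasFDerivAt (nab om) (Lnab.comp (fderiv ℝ (fderiv ℝ om) z)) z := by
      rw [nab_eq]
      exact Lnab.hasFDerivAt.comp z h5
    rw [k.fderiv]
    rfl
  have hs : IsSymmSndFDerivAt ℝ om z :=
    hom.contDiffAt.isSymmSndFDerivAt (by simp; exact ENat.LEInfty.out)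
  unfold F
  rw [h3, h3, h4, h4, Complex.add_im, Complex.add_re, Lnab_im, Lnab_re, hs.eq 1 Complex.I]
  ring

theorem gt_grad (hom : ContDiff ℝ ∞ om) (hw : ContDiff ℝ ∞ c.w) (z : ℂ) :
    (c.gt om).grad z = c.grad z := by
  unfold grad
  rw [gt_nsq hom hw, gt_nsq hom hw]

theorem gt_dens (hom : ContDiff ℝ ∞ om) (hw : ContDiff ℝ ∞ c.w) (hA : ContDiff ℝ ∞ c.A) (z : ℂ) :
    (c.gt om).dens z = c.dens z := by
  unfold dens
  rw [gt_grad hom hw, gt_F hom hA]
  rfl

theorem gt_E (hom : ContDiff ℝ ∞ om) (hw : ContDiff ℝ ∞ c.w) (hA : ContDiff ℝ ∞ c.A) :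
    (c.gt om).E = c.E := by
  unfold E
  congr 1
  exact integral_congr_ae (Eventually.of_forall fun z => gt_dens hom hw hA z)

private theorem nab_rot (hom : GSym n om) (z : ℂ) : nab om (ze n * z) = ze n * nab om z := by
  apply ip_ext
  intro v
  obtain ⟨u, rfl⟩ : ∃ u, v = ze n * u := ⟨star (ze n) * v, by
    rw [← mul_assoc, mul_comm (ze n), ze_star, one_mul]⟩
  rw [ip_nab hom.s, ip_mul _ _ _ (norm_ze n), ip_nab hom.s]
  have h1 : HasFDerivAt om (fderiv ℝ om (ze n * z)) (ze n * z) :=
    (hom.s.differentiable (by simp) _).hasFDerivAt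
  have h2 : HasFDerivAt (fun z : ℂ => ze n * z) (ze n • ContinuousLinearMap.id ℝ ℂ) z :=
    (hasFDerivAt_id z).const_mul (ze n)
  have h3 := (h1.comp z h2).fderiv
  have h4 : (om ∘ fun z : ℂ => ze n * z) = om := funext hom.rot
  rw [h4] at h3
  rw [h3]
  rfl

private theorem nab_ref (hom : GSym n om) (z : ℂ) : nab om (star z) = -star (nab om z) := by
  apply ip_ext
  intro v
  obtain ⟨u, rfl⟩ : ∃ u, v = star u := ⟨star v, (star_star v).symm⟩
  rw [ip_nab hom.s, ip_neg, ip_star, ip_nab hom.s]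
  have h1 : HasFDerivAt om (fderiv ℝ om (star z)) (star z) :=
    (hom.s.differentiable (by simp) _).hasFDerivAt
  have h2 : HasFDerivAt (fun z : ℂ => star z) (Complex.conjCLE : ℂ →L[ℝ] ℂ) z :=
    Complex.conjCLE.hasFDerivAt
  have h3 := (h1.comp z h2).fderiv
  have h4 : (om ∘ fun z : ℂ => star z) = fun z => -om z := funext hom.ref
  rw [h4, fderiv_fun_neg] at h3
  have h5 := congrArg (fun L : ℂ →L[ℝ] ℝ => L u) h3
  have h6 : -(fderiv ℝ om z u) = fderiv ℝ om (star z) (star u) := h5
  exact h6.symm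

theorem gt_adm (hn : 0 < n) (hom : GSym n om) (hc : c.Adm n) : (c.gt om).Adm n := by
  have hs := hom.s
  constructor
  · change ContDiff ℝ ∞ fun z => Complex.exp (om z * Complex.I) * c.w z
    have h1 : ContDiff ℝ ∞ fun z => ((om z : ℝ) : ℂ) := Complex.ofRealCLM.contDiff.comp hs
    exact ((h1.mul contDiff_const).cexp).mul hc.sw
  · exact hc.sh
  · exact hc.sA.add (contDiff_nab hs)
  · intro z
    change ‖Complex.exp (om z * Complex.I) * c.w z‖ ^ 2 + c.h z ^ 2 = 1
    rw [norm_mul, norm_ph, one_mul]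
    exact hc.unit z
  · have : (c.gt om).dens = c.dens := funext fun z => gt_dens hs hc.sw hc.sA z
    rw [this]
    exact hc.fin
  · intro z
    change Complex.exp (om (ze n * z) * Complex.I) * c.w (ze n * z) =
      ze n * (Complex.exp (om z * Complex.I) * c.w z)
    rw [hom.rot, hc.rw]
    ring
  · exact hc.rh
  · intro z
    change c.A (ze n * z) + nab om (ze n * z) = ze n * (c.A z + nab om z)
    rw [hc.rA, nab_rot hom]
    ring
  · intro z
    change Complex.exp (om (star z) * Complex.I) * c.w (star z) =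
      star (Complex.exp (om z * Complex.I) * c.w z)
    rw [hom.ref, hc.cw, star_mul', Complex.star_def, ← Complex.exp_conj, map_mul, Complex.conj_I,
      Complex.conj_ofReal]
    push_cast
    ring_nf
  · exact hc.ch
  · intro z
    change c.A (star z) + nab om (star z) = -star (c.A z + nab om z)
    rw [hc.cA, nab_ref hom, star_add]
    ring

private theorem om_ray0 (hom : GSym n om) (r : ℝ) : om (pt r 0) = 0 := by
  have h1 := hom.ref (pt r 0)
  rw [star_pt, neg_zero] at h1
  linarith

private theorem om_ray1 (hom : GSym n om) (r : ℝ) : om (pt r (al n)) = 0 := by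
  have h1 := hom.ref (pt r (al n))
  have h2 := hom.rot (pt r (-al n))
  rw [star_pt] at h1
  rw [ze_mul_pt] at h2
  have h3 : -al n + 2 * al n = al n := by ring
  rw [h3] at h2
  linarith

private theorem gt_b (hom : ContDiff ℝ ∞ om) (r χ : ℝ) :
    (c.gt om).b r χ = c.b r χ + fderiv ℝ om (pt r χ) (Complex.I * pt r χ) := by
  unfold b
  change ip (c.A (pt r χ) + nab om (pt r χ)) (Complex.I * pt r χ) = _
  rw [ip_add, ip_nab hom]

private theorem gt_B (hom : GSym n om) (hc : c.Adm n) (r χ : ℝ) :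
    (c.gt om).B r χ = c.B r χ + om (pt r χ) := by
  unfold B
  have h1 : ∀ t, HasDerivAt (fun t => om (pt r t)) (fderiv ℝ om (pt r t) (Complex.I * pt r t)) t :=
    fun t => (hom.s.differentiable (by simp) _).hasFDerivAt.comp_hasDerivAt t
      (hasDerivAt_pt_chi r t)
  have hpt : Continuous fun t => pt r t :=
    continuous_pt.comp (continuous_const.prodMk continuous_id)
  have h2 : Continuous fun t => fderiv ℝ om (pt r t) (Complex.I * pt r t) :=
    ((hom.s.continuous_fderiv (by simp)).comp hpt).clm_apply (continuous_const.mul hpt)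
  have h3 : Continuous fun t => c.b r t :=
    hc.contDiff_b.continuous.comp (continuous_const.prodMk continuous_id)
  have h4 := intervalIntegral.integral_eq_sub_of_hasDerivAt (a := 0) (b := χ)
    (fun t _ => h1 t) (h2.intervalIntegrable _ _)
  rw [om_ray0 hom, sub_zero] at h4
  rw [← h4, ← intervalIntegral.integral_add (h3.intervalIntegrable _ _)
    (h2.intervalIntegrable _ _)]
  exact intervalIntegral.integral_congr fun t _ => gt_b hom.s r t

theorem gt_data (hn : 0 < n) (hom : GSym n om) (hc : c.Adm n) (r : ℝ) :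
    (c.gt om).beta n r = c.beta n r ∧ (c.gt om).aa n r = c.aa n r ∧ (c.gt om).cc n r = c.cc n r ∧
    (c.gt om).V n r = c.V n r ∧ (c.gt om).Z n r = c.Z n r := by
  have h1 : (c.gt om).beta n r = c.beta n r := by
    unfold beta
    rw [gt_B hom hc, om_ray1 hom, add_zero]
  have h2 : (c.gt om).aa n r = c.aa n r := by
    unfold aa
    rw [h1]
  have h3 : (c.gt om).cc n r = c.cc n r := rfl
  have h4 : (c.gt om).V n r = c.V n r := by
    unfold V
    congr 1
    refine intervalIntegral.integral_congr fun χ _ => ?_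
    change Complex.exp (om (pt r χ) * Complex.I) * c.w (pt r χ) *
      Complex.exp (-(((c.gt om).B r χ : ℝ) : ℂ) * Complex.I) =
      c.w (pt r χ) * Complex.exp (-(c.B r χ : ℂ) * Complex.I)
    rw [gt_B hom hc]
    have e : Complex.exp (-(c.B r χ : ℂ) * Complex.I) =
        Complex.exp (om (pt r χ) * Complex.I) *
          Complex.exp (-((c.B r χ + om (pt r χ) : ℝ) : ℂ) * Complex.I) := by
      rw [← Complex.exp_add]
      congr 1
      push_cast
      ring
    rw [e]
    ring
  refine ⟨h1, h2, h3, h4, ?_⟩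
  unfold Z
  rw [h2, h3, h4]

theorem gt_wind (hn : 0 < n) (hom : GSym n om) (hc : c.Adm n) :
    (c.gt om).Wind n ↔ c.Wind n := by
  unfold Wind
  have h : ∀ r, (c.gt om).Z n r = c.Z n r := fun r => (gt_data hn hom hc r).2.2.2.2
  simp only [h]

theorem gt_cls (hn : 0 < n) (hom : GSym n om) {σ : ℝ} (hc : c.Cls n σ) : (c.gt om).Cls n σ :=
  ⟨gt_adm hn hom hc.1, (gt_wind hn hom hc.1).2 hc.2.1, hc.2.2⟩

private theorem mulpair : ContDiff ℝ ∞ fun q : ℂ × ℝ => (q.2 : ℂ) * q.1 :=
  (Complex.ofRealCLM.contDiff.comp contDiff_snd).mul contDiff_fst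

private theorem reC : ContDiff ℝ ∞ fun z : ℂ => z.re := Complex.reCLM.contDiff

private theorem imC : ContDiff ℝ ∞ fun z : ℂ => z.im := Complex.imCLM.contDiff

private theorem smooth_G {F : ℂ → ℝ} (hF : ContDiff ℝ ∞ F) : ContDiff ℝ ∞ (Gof F) := by
  refine gau_smooth (h := fun z t => F (t * z) * t) ?_
  exact (hF.comp mulpair).mul contDiff_snd

private theorem hasF_mul (t : ℝ) (z : ℂ) :
    HasFDerivAt (fun z : ℂ => (t : ℂ) * z) ((t : ℂ) • ContinuousLinearMap.id ℝ ℂ) z :=
  (hasFDerivAt_id z).const_mul (t : ℂ)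

/-- radial gauge can be reached -/
theorem exists_rad (hn : 0 < n) (hc : c.Adm n) : ∃ om : ℂ → ℝ, GSym n om ∧ (c.gt om).Rad := by
  obtain ⟨om, hom⟩ : ∃ om : ℂ → ℝ, om = fun z => ∫ t in (0 : ℝ)..1, -ip (c.A (t * z)) z := ⟨_, rfl⟩
  have hh : ContDiff ℝ ∞ (fun q : ℂ × ℝ => -ip (c.A (q.2 * q.1)) q.1) := by
    unfold ip
    have h1 : ContDiff ℝ ∞ fun q : ℂ × ℝ => c.A (q.2 * q.1) := hc.sA.comp mulpair
    exact (((reC.comp h1).mul (reC.comp contDiff_fst)).add
      ((imC.comp h1).mul (imC.comp contDiff_fst))).neg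
  have hs : ContDiff ℝ ∞ om := by
    rw [hom]
    exact gau_smooth (h := fun z t => -ip (c.A (t * z)) z) hh
  have hG : GSym n om := by
    refine ⟨hs, fun z => ?_, fun z => ?_⟩
    · rw [hom]
      refine intervalIntegral.integral_congr fun t _ => ?_
      have e : (t : ℂ) * (ze n * z) = ze n * (t * z) := by ring
      rw [e, hc.rA, ip_mul _ _ _ (norm_ze n)]
    · rw [hom]
      change ∫ t in (0 : ℝ)..1, -ip (c.A (t * star z)) (star z) =
        -∫ t in (0 : ℝ)..1, -ip (c.A (t * z)) z
      rw [← intervalIntegral.integral_neg]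
      refine intervalIntegral.integral_congr fun t _ => ?_
      change -ip (c.A (t * star z)) (star z) = -(-ip (c.A (t * z)) z)
      have e : (t : ℂ) * star z = star (t * z) := by
        rw [star_mul', Complex.star_def, Complex.conj_ofReal]
      rw [e, hc.cA, ip_neg, ip_star]
  refine ⟨om, hG, Gof c.F, smooth_G hc.contDiff_F, fun z => ?_⟩
  change c.A z + nab om z = Complex.I * z * (Gof c.F z : ℂ)
  apply ip_ext
  intro v
  rw [ip_add, ip_nab hs]
  have hAd : ∀ y, HasFDerivAt c.A (fderiv ℝ c.A y) y := fun y =>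
    (hc.sA.differentiable (by simp) y).hasFDerivAt
  have h1 : fderiv ℝ om z v = ∫ t in (0 : ℝ)..1,
      -(ip (t * fderiv ℝ c.A (t * z) v) z + ip (c.A (t * z)) v) := by
    rw [hom, gau_deriv (h := fun z t => -ip (c.A (t * z)) z) hh]
    refine intervalIntegral.integral_congr fun t _ => ?_
    have k1 := (hAd (t * z)).comp z (hasF_mul t z)
    have k2 := Complex.reCLM.hasFDerivAt.comp z k1
    have k3 := Complex.imCLM.hasFDerivAt.comp z k1
    have k4 := ((k2.mul (Complex.reCLM.hasFDerivAt (x := z))).add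
      (k3.mul (Complex.imCLM.hasFDerivAt (x := z)))).neg
    have k5 : fderiv ℝ (fun z => -ip (c.A (t * z)) z) z v = _ :=
      congrArg (fun L : ℂ →L[ℝ] ℝ => L v) k4.fderiv
    rw [k5]
    have k6 : (t : ℂ) * v = t • v := by rw [Complex.real_smul]
    simp only [Function.comp_apply, neg_apply, add_apply, smul_apply,
      ContinuousLinearMap.comp_apply, Complex.reCLM_apply, Complex.imCLM_apply, smul_eq_mul,
      ContinuousLinearMap.id_apply, k6, map_smul, ip,
      Complex.mul_re, Complex.mul_im, Complex.ofReal_re, Complex.ofReal_im]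
    ring
  have h2 : ip (c.A z) v = ∫ t in (0 : ℝ)..1,
      (ip (c.A (t * z)) v + t * ip (fderiv ℝ c.A (t * z) z) v) := by
    have k1 : ∀ t : ℝ, HasDerivAt (fun t : ℝ => t * ip (c.A (t * z)) v)
        (ip (c.A (t * z)) v + t * ip (fderiv ℝ c.A (t * z) z) v) t := by
      intro t
      have k2 : HasDerivAt (fun t : ℝ => (t : ℂ) * z) z t := by
        have := (Complex.ofRealCLM.hasDerivAt (x := t)).mul_const z
        simpa using this
      have k3 := (hAd (t * z)).comp_hasDerivAt t k2
      have k4 := Complex.reCLM.hasFDerivAt.comp_hasDerivAt t k3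
      have k5 := Complex.imCLM.hasFDerivAt.comp_hasDerivAt t k3
      have k6 : HasDerivAt (fun t : ℝ => ip (c.A (t * z)) v) (ip (fderiv ℝ c.A (t * z) z) v) t :=
        (k4.mul_const v.re).add (k5.mul_const v.im)
      have k7 := (hasDerivAt_id t).mul k6
      have e : ip (c.A (t * z)) v + t * ip (fderiv ℝ c.A (t * z) z) v =
          1 * ip (c.A (t * z)) v + id t * ip (fderiv ℝ c.A (t * z) z) v := by
        rw [one_mul]
        rfl
      rw [e]
      exact k7
    have k8 : Continuous fun t : ℝ => ip (c.A (t * z)) v + t * ip (fderiv ℝ c.A (t * z) z) v := by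
      have m1 : Continuous fun t : ℝ => (t : ℂ) * z := by fun_prop
      have m2 : Continuous fun t : ℝ => c.A (t * z) := hc.sA.continuous.comp m1
      have m3 : Continuous fun t : ℝ => fderiv ℝ c.A (t * z) z :=
        ((hc.sA.continuous_fderiv (by simp)).comp m1).clm_apply continuous_const
      unfold ip
      fun_prop
    have k9 := intervalIntegral.integral_eq_sub_of_hasDerivAt (a := 0) (b := 1)
      (fun t _ => k1 t) (k8.intervalIntegrable _ _)
    rw [k9]
    simp
  have hc1 : Continuous fun t : ℝ => (t : ℂ) * z := by fun_prop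
  have hc2 : Continuous fun t : ℝ => c.A (t * z) := hc.sA.continuous.comp hc1
  have hc3 : ∀ u, Continuous fun t : ℝ => fderiv ℝ c.A (t * z) u := fun u =>
    ((hc.sA.continuous_fderiv (by simp)).comp hc1).clm_apply continuous_const
  rw [h1, h2, ← intervalIntegral.integral_add]
  · have h3 : ip (Complex.I * z * (Gof c.F z : ℂ)) v =
        (z.re * v.im - z.im * v.re) * Gof c.F z := by
      unfold ip
      simp only [Complex.mul_re, Complex.mul_im, Complex.I_re, Complex.I_im, Complex.ofReal_re,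
        Complex.ofReal_im]
      ring
    rw [h3]
    unfold Gof
    rw [← intervalIntegral.integral_const_mul]
    refine intervalIntegral.integral_congr fun t _ => ?_
    have k1 : ∀ u : ℂ, fderiv ℝ c.A (t * z) u =
        (u.re : ℂ) * fderiv ℝ c.A (t * z) 1 + (u.im : ℂ) * fderiv ℝ c.A (t * z) Complex.I := by
      intro u
      have k2 : u = (u.re : ℝ) • (1 : ℂ) + (u.im : ℝ) • Complex.I := by
        apply Complex.ext <;> simp
      conv_lhs => rw [k2]
      rw [map_add, map_smul, map_smul, Complex.real_smul, Complex.real_smul]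
    change ip (c.A (t * z)) v + t * ip (fderiv ℝ c.A (t * z) z) v +
      -(ip (t * fderiv ℝ c.A (t * z) v) z + ip (c.A (t * z)) v) =
      (z.re * v.im - z.im * v.re) * (((fderiv ℝ c.A (t * z) 1).im -
        (fderiv ℝ c.A (t * z) Complex.I).re) * t)
    rw [k1 z, k1 v]
    unfold ip
    simp only [Complex.mul_re, Complex.mul_im, Complex.add_re, Complex.add_im, Complex.ofReal_re,
        Complex.ofReal_im]
    ring
  · apply Continuous.intervalIntegrable
    unfold ip
    have := hc3 z
    fun_prop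
  · apply Continuous.intervalIntegrable
    unfold ip
    have := hc3 v
    fun_prop

/-- the potential built from a smooth field: `A = i z Gof F` has curvature `F` -/
theorem Aof_spec {F : ℂ → ℝ} (hF : ContDiff ℝ ∞ F) : ContDiff ℝ ∞ (Gof F) ∧
    ContDiff ℝ ∞ (Aof F) ∧
    ∀ z, (fderiv ℝ (Aof F) z 1).im - (fderiv ℝ (Aof F) z Complex.I).re = F z := by
  have hG := smooth_G hF
  have hA : ContDiff ℝ ∞ (Aof F) :=
    (contDiff_const.mul contDiff_id).mul (Complex.ofRealCLM.contDiff.comp hG)
  refine ⟨hG, hA, fun z => ?_⟩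
  have hGd : HasFDerivAt (Gof F) (fderiv ℝ (Gof F) z) z :=
    (hG.differentiable (by simp) z).hasFDerivAt
  have h1 : ∀ v, fderiv ℝ (Aof F) z v =
      Complex.I * v * (Gof F z : ℂ) + Complex.I * z * (fderiv ℝ (Gof F) z v : ℂ) := by
    intro v
    have k1 : HasFDerivAt (fun z : ℂ => Complex.I * z) (Complex.I • ContinuousLinearMap.id ℝ ℂ) z :=
      (hasFDerivAt_id z).const_mul Complex.I
    have k2 := Complex.ofRealCLM.hasFDerivAt.comp z hGd
    have k3 : fderiv ℝ (Aof F) z v = _ :=
      congrArg (fun L : ℂ →L[ℝ] ℂ => L v) (k1.mul k2).fderiv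
    rw [k3]
    simp only [Function.comp_apply, add_apply, smul_apply, ContinuousLinearMap.comp_apply,
      Complex.ofRealCLM_apply, smul_eq_mul, ContinuousLinearMap.id_apply]
    ring
  have h2 : fderiv ℝ (Gof F) z z = ∫ t in (0 : ℝ)..1, t ^ 2 * fderiv ℝ F (t * z) z := by
    have k0 : ContDiff ℝ ∞ (fun q : ℂ × ℝ => F (q.2 * q.1) * q.2) :=
      (hF.comp mulpair).mul contDiff_snd
    have k1 : fderiv ℝ (Gof F) z z = _ := gau_deriv (h := fun z t => F (t * z) * t) k0 z z
    rw [k1]
    refine intervalIntegral.integral_congr fun t _ => ?_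
    have k2 : HasFDerivAt F (fderiv ℝ F (t * z)) (t * z) :=
      (hF.differentiable (by simp) _).hasFDerivAt
    have k3 := (k2.comp z (hasF_mul t z)).mul_const t
    have k4 : fderiv ℝ (fun z : ℂ => F (t * z) * t) z z = _ :=
      congrArg (fun L : ℂ →L[ℝ] ℝ => L z) k3.fderiv
    change fderiv ℝ (fun z : ℂ => F (t * z) * t) z z = t ^ 2 * fderiv ℝ F (t * z) z
    rw [k4]
    have k6 : (t : ℂ) * z = t • z := by rw [Complex.real_smul]
    simp only [smul_apply, ContinuousLinearMap.comp_apply, smul_eq_mul,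
      ContinuousLinearMap.id_apply, k6, map_smul]
    ring
  have h3 : F z = ∫ t in (0 : ℝ)..1, (2 * t * F (t * z) + t ^ 2 * fderiv ℝ F (t * z) z) := by
    have k1 : ∀ t : ℝ, HasDerivAt (fun t : ℝ => t ^ 2 * F (t * z))
        (2 * t * F (t * z) + t ^ 2 * fderiv ℝ F (t * z) z) t := by
      intro t
      have k2 : HasDerivAt (fun t : ℝ => (t : ℂ) * z) z t := by
        have := (Complex.ofRealCLM.hasDerivAt (x := t)).mul_const z
        simpa using this
      have k3 := (hF.differentiable (by simp) (t * z)).hasFDerivAt.comp_hasDerivAt t k2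
      have k4 : HasDerivAt (fun t : ℝ => t ^ 2) (2 * t) t := by
        have := hasDerivAt_pow 2 t
        simpa using this
      exact k4.mul k3
    have k8 : Continuous fun t : ℝ => 2 * t * F (t * z) + t ^ 2 * fderiv ℝ F (t * z) z := by
      have m1 : Continuous fun t : ℝ => (t : ℂ) * z := by fun_prop
      have m2 : Continuous fun t : ℝ => F (t * z) := hF.continuous.comp m1
      have m3 : Continuous fun t : ℝ => fderiv ℝ F (t * z) z :=
        ((hF.continuous_fderiv (by simp)).comp m1).clm_apply continuous_const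
      fun_prop
    have k9 := intervalIntegral.integral_eq_sub_of_hasDerivAt (a := 0) (b := 1)
      (fun t _ => k1 t) (k8.intervalIntegrable _ _)
    rw [k9]
    simp
  have h4 : F z = 2 * Gof F z + fderiv ℝ (Gof F) z z := by
    have m1 : Continuous fun t : ℝ => (t : ℂ) * z := by fun_prop
    have m2 : Continuous fun t : ℝ => F (t * z) := hF.continuous.comp m1
    have m3 : Continuous fun t : ℝ => fderiv ℝ F (t * z) z :=
      ((hF.continuous_fderiv (by simp)).comp m1).clm_apply continuous_const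
    rw [h3, h2, intervalIntegral.integral_add]
    · congr 1
      unfold Gof
      rw [← intervalIntegral.integral_const_mul]
      refine intervalIntegral.integral_congr fun t _ => ?_
      ring
    · exact Continuous.intervalIntegrable (by fun_prop) _ _
    · exact Continuous.intervalIntegrable (by fun_prop) _ _
  have h5 : fderiv ℝ (Gof F) z z =
      z.re * fderiv ℝ (Gof F) z 1 + z.im * fderiv ℝ (Gof F) z Complex.I := by
    have k2 : z = (z.re : ℝ) • (1 : ℂ) + (z.im : ℝ) • Complex.I := by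
      apply Complex.ext <;> simp
    have k3 := congrArg (fderiv ℝ (Gof F) z) k2
    rw [map_add, map_smul, map_smul] at k3
    exact k3
  rw [h1, h1, h4, h5]
  simp only [Complex.mul_re, Complex.mul_im, Complex.add_re, Complex.add_im, Complex.ofReal_re,
    Complex.ofReal_im, Complex.I_re, Complex.I_im, Complex.one_re, Complex.one_im]
  ring

end Cf

end GO3
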