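import Mathlib

/-! GO3 / Tpl: winding number of a curve `γ : [0, ∞) → ℂ \ {0}` (pure topology).

Proofs. `Wd_close`: `q = γ' / γ` satisfies `|q - 1| < 1`, so `Re q > 0`, `arg q` is continuous,
`Θ' = Θ + arg q`. At `0` and at infinity `q → 1`, `arg q → 0`.
`Wd_homotopy`: uniform continuity of `(t, r) ↦ γ t r` on `[0,1] × [0,R]` gives a partition of `[0,1]` with
`|γ_{t'} - γ_t| < 1/2` for `r ≤ R`; for `r ≥ R` it is `< 1/2` by `hR`; iterate `Wd_close`.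
`Wd_neg`: intermediate value theorem for `Θ` at the value `π`. -/

open Filter Topology Set
open scoped Real

noncomputable section

namespace GO3

/-- `γ` winds once around the origin -/
def Wd (γ : ℝ → ℂ) : Prop := ∃ Θ : ℝ → ℝ, ContinuousOn Θ (Ici 0) ∧ Θ 0 = 0 ∧
  (∀ r, 0 ≤ r → γ r = (‖γ r‖ : ℂ) * Complex.exp (Θ r * Complex.I)) ∧
  Tendsto Θ atTop (𝓝 (2 * π))

theorem Wd_close {γ γ' : ℝ → ℂ} (hc : ContinuousOn γ (Ici 0)) (hc' : ContinuousOn γ' (Ici 0))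
    (h0 : γ 0 = 1) (h0' : γ' 0 = 1) (hl : Tendsto γ atTop (𝓝 1)) (hl' : Tendsto γ' atTop (𝓝 1))
    (hne : ∀ r, 0 ≤ r → 1 / 2 ≤ ‖γ r‖) (hclose : ∀ r, 0 ≤ r → ‖γ' r - γ r‖ < 1 / 2)
    (h : Wd γ) : Wd γ' := by
  obtain ⟨Θ, hΘc, hΘ0, hΘ, hΘl⟩ := h
  have hn : ∀ r, 0 ≤ r → γ r ≠ 0 := by
    intro r hr h
    have := hne r hr
    rw [h, norm_zero] at this
    norm_num at this
  have hq : ∀ r, 0 ≤ r → ‖γ' r / γ r - 1‖ < 1 := by
    intro r hr
    have h1 := hn r hr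
    have h2 : γ' r / γ r - 1 = (γ' r - γ r) / γ r := by
      rw [sub_div, div_self h1]
    have h3 := hne r hr
    have h4 := hclose r hr
    rw [h2, norm_div, div_lt_one (by linarith)]
    linarith
  have hre : ∀ r, 0 ≤ r → 0 < (γ' r / γ r).re := by
    intro r hr
    have h1 := hq r hr
    have h2 := Complex.abs_re_le_norm (γ' r / γ r - 1)
    rw [Complex.sub_re, Complex.one_re] at h2
    have h3 := (abs_lt.1 (lt_of_le_of_lt h2 h1)).1
    linarith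
  have hqc : ContinuousOn (fun r => γ' r / γ r) (Ici 0) := hc'.div hc fun r hr => hn r hr
  refine ⟨fun r => Θ r + (γ' r / γ r).arg, ?_, ?_, ?_, ?_⟩
  · refine hΘc.add ?_
    intro r hr
    exact ContinuousAt.comp_continuousWithinAt (f := fun r => γ' r / γ r)
      (Complex.continuousAt_arg (Or.inl (hre r hr))) (hqc r hr)
  · simp only [hΘ0, h0, h0', div_one, Complex.arg_one, add_zero]
  · intro r hr
    have h1 := hn r hr
    have h2 : γ' r = γ r * (γ' r / γ r) := by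
      field_simp
    have h3 := hΘ r hr
    have h4 := (Complex.norm_mul_exp_arg_mul_I (γ' r / γ r)).symm
    have h5 : (‖γ' r‖ : ℂ) = (‖γ r‖ : ℂ) * (‖γ' r / γ r‖ : ℂ) := by
      rw [← Complex.ofReal_mul, ← norm_mul, ← h2]
    calc γ' r = γ r * (γ' r / γ r) := h2
      _ = ((‖γ r‖ : ℂ) * Complex.exp (Θ r * Complex.I)) *
          ((‖γ' r / γ r‖ : ℂ) * Complex.exp ((γ' r / γ r).arg * Complex.I)) := by
        rw [← h3, ← h4]
      _ = (‖γ' r‖ : ℂ) * Complex.exp (((Θ r + (γ' r / γ r).arg : ℝ) : ℂ) * Complex.I) := by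
        rw [h5, Complex.ofReal_add, add_mul, Complex.exp_add]
        ring
  · have h1 : Tendsto (fun r => γ' r / γ r) atTop (𝓝 (1 / 1)) := hl'.div hl one_ne_zero
    rw [div_one] at h1
    have h2 : Tendsto (fun r => (γ' r / γ r).arg) atTop (𝓝 (Complex.arg 1)) :=
      (Complex.continuousAt_arg (Or.inl (by norm_num))).tendsto.comp h1
    rw [Complex.arg_one] at h2
    have h3 := hΘl.add h2
    rwa [add_zero] at h3

theorem Wd_congr {γ γ' : ℝ → ℂ} (he : ∀ r, 0 ≤ r → γ' r = γ r) (h : Wd γ) : Wd γ' := by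
  obtain ⟨Θ, hΘc, hΘ0, hΘ, hΘl⟩ := h
  exact ⟨Θ, hΘc, hΘ0, fun r hr => by rw [he r hr]; exact hΘ r hr, hΘl⟩

theorem Wd_homotopy {γ : ℝ → ℝ → ℂ}
    (hc : ContinuousOn (fun q : ℝ × ℝ => γ q.1 q.2) (Icc 0 1 ×ˢ Ici 0))
    (h0 : ∀ t ∈ Icc (0 : ℝ) 1, γ t 0 = 1) (hl : ∀ t ∈ Icc (0 : ℝ) 1, Tendsto (γ t) atTop (𝓝 1))
    (hne : ∀ t ∈ Icc (0 : ℝ) 1, ∀ r, 0 ≤ r → 1 / 2 ≤ ‖γ t r‖) (R : ℝ)
    (hR : ∀ t ∈ Icc (0 : ℝ) 1, ∀ r, R ≤ r → ‖γ t r - 1‖ < 1 / 4) (h : Wd (γ 0)) : Wd (γ 1) := by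
  have hct : ∀ t ∈ Icc (0 : ℝ) 1, ContinuousOn (γ t) (Ici 0) := by
    intro t ht
    have h1 : ContinuousOn (fun r : ℝ => (t, r)) (Ici 0) := by fun_prop
    exact hc.comp h1 fun r hr => ⟨ht, hr⟩
  have hcomp : IsCompact (Icc (0 : ℝ) 1 ×ˢ Icc (0 : ℝ) (max R 0)) := isCompact_Icc.prod isCompact_Icc
  have huc : UniformContinuousOn (fun q : ℝ × ℝ => γ q.1 q.2)
      (Icc (0 : ℝ) 1 ×ˢ Icc (0 : ℝ) (max R 0)) :=
    hcomp.uniformContinuousOn_of_continuous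
      (hc.mono (prod_mono_right Icc_subset_Ici_self))
  obtain ⟨δ, hδ, hδ'⟩ := Metric.uniformContinuousOn_iff.1 huc (1 / 2) (by norm_num)
  have hstep : ∀ t ∈ Icc (0 : ℝ) 1, ∀ t' ∈ Icc (0 : ℝ) 1, |t' - t| < δ → Wd (γ t) → Wd (γ t') := by
    intro t ht t' ht' htt hW
    refine Wd_close (hct t ht) (hct t' ht') (h0 t ht) (h0 t' ht') (hl t ht) (hl t' ht')
      (hne t ht) ?_ hW
    intro r hr
    rcases le_total r (max R 0) with hr' | hr'
    · have h1 := hδ' (t', r) ⟨ht', hr, hr'⟩ (t, r) ⟨ht, hr, hr'⟩ (by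
        rw [Prod.dist_eq]
        simp only [dist_self]
        rw [Real.dist_eq]
        exact max_lt htt hδ)
      rwa [dist_eq_norm] at h1
    · have h1 := hR t ht r ((le_max_left _ _).trans hr')
      have h2 := hR t' ht' r ((le_max_left _ _).trans hr')
      have h3 : γ t' r - γ t r = (γ t' r - 1) - (γ t r - 1) := by ring
      rw [h3]
      refine lt_of_le_of_lt (norm_sub_le _ _) ?_
      linarith
  obtain ⟨N, hN⟩ := exists_nat_gt (1 / δ)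
  have hN0 : (0 : ℝ) < N := lt_of_le_of_lt (by positivity) hN
  have hind : ∀ k : ℕ, k ≤ N → Wd (γ ((k : ℝ) / N)) := by
    intro k
    induction k with
    | zero =>
      intro _
      rw [Nat.cast_zero, zero_div]
      exact h
    | succ k ih =>
      intro hk
      have hk1 : (k : ℝ) + 1 ≤ N := by exact_mod_cast hk
      have hk0 : (0 : ℝ) ≤ k := Nat.cast_nonneg k
      refine hstep _ ?_ _ ?_ ?_ (ih (Nat.le_of_succ_le hk))
      · exact ⟨by positivity, by rw [div_le_one hN0]; linarith⟩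
      · rw [Nat.cast_succ]
        exact ⟨by positivity, by rw [div_le_one hN0]; linarith⟩
      · rw [Nat.cast_succ, ← sub_div, add_sub_cancel_left, abs_of_pos (by positivity)]
        rw [div_lt_iff₀ hδ] at hN
        rw [div_lt_iff₀ hN0]
        linarith
  have h1 := hind N le_rfl
  rwa [div_self hN0.ne'] at h1

theorem Wd_neg {γ : ℝ → ℂ} (h : Wd γ) : ∃ r, 0 < r ∧ γ r = -(‖γ r‖ : ℂ) := by
  obtain ⟨Θ, hΘc, hΘ0, hΘ, hΘl⟩ := h
  have h1 : ∀ᶠ r in atTop, π < Θ r :=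
    hΘl.eventually (lt_mem_nhds (by linarith [Real.pi_pos]))
  obtain ⟨R, hR1, hR0⟩ := (h1.and (eventually_gt_atTop (0 : ℝ))).exists
  have h2 : π ∈ Icc (Θ 0) (Θ R) := ⟨by rw [hΘ0]; exact Real.pi_pos.le, hR1.le⟩
  obtain ⟨r, hr, hr'⟩ := intermediate_value_Icc hR0.le (hΘc.mono Icc_subset_Ici_self) h2
  have hr0 : 0 < r := by
    refine lt_of_le_of_ne hr.1 ?_
    intro h3
    rw [← h3, hΘ0] at hr'
    exact Real.pi_pos.ne hr'
  refine ⟨r, hr0, ?_⟩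
  have h3 := hΘ r hr0.le
  rw [hr', Complex.exp_pi_mul_I, mul_neg, mul_one] at h3
  exact h3

end GO3
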