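import Pool.Agent.GO3.Cng
import Pool.Agent.GO3.Gau
import Pool.Agent.GO3.Tpl

/-! GO3 / Lmo: invariance of the winding class (T7 in every gauge, T9, T10, T13 of the proof text).

`conf7_all`: `exists_rad`, `gt_data`, `gt_E`. `wind_iff`: definitions. `wind_close`, `wind_homotopy`: Tpl with
`continuous_Z`, `data_zero`, `tendsto_Z`, `Z_sub_one_le`, `conf7_all`.
`wind_local`: for `r ≤ rm` both `Z` are `1` (`psi_small`); for `r ≥ rp` `|Z - Z'| ≤ 2/5`; for `rm ≤ r ≤ rp` the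
function `a` is the same, `|Z' - Z| ≤ |cc' - cc| + |Re V' - Re V|`. Apply `sup_sub` on `[rm, rp]` to
`g = cc' - cc` and `g = Re V' - Re V`: `g² ≤ 2 α (X + X')` (`diff_arc`), so
`∫ g²/s ≤ 4 α E/m ≤ C n⁻⁴`, `∫ s g'² ≤ C n²` (der_cc, der_V), `log (rp/rm) ≥ log 2`: `g² ≤ C/n`.
`exists_neg`: `Wd_neg` gives `r` with `Z r = - |Z r|`, `|Z r| ≥ 1/2`; so `Re Z = 1 + psi a (cc - 1) ≤ -1/2`,
i.e. `cc < 0`, `psi a ≠ 0`; `r < rp` by `Z_sub_one_le`. -/

open MeasureTheory Filter Topology Set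
open scoped ContDiff Real

noncomputable section

namespace GO3

theorem conf7_all (K : ℝ) (hK : 1 ≤ K) : ∃ n₀ : ℕ, 2 ≤ n₀ ∧ ∀ n : ℕ, n₀ ≤ n → ∀ c : Cf, c.Adm n →
    c.E ≤ K * n ^ 2 → ∀ r, 0 ≤ r → 1 / 2 ≤ ‖c.Z n r‖ := by
  obtain ⟨n₀, h2, h⟩ := conf7 K hK
  refine ⟨n₀, h2, fun n hn c hc hE r hr => ?_⟩
  have hn0 : 0 < n := by omega
  obtain ⟨om, hom, hrad⟩ := Cf.exists_rad hn0 hc
  have hE' : (c.gt om).E ≤ K * n ^ 2 := by rw [Cf.gt_E hom.s hc.sw hc.sA]; exact hE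
  have := h n hn (c.gt om) (Cf.gt_adm hn0 hom hc) hrad hE' r hr
  rwa [(Cf.gt_data hn0 hom hc r).2.2.2.2] at this

theorem wind_iff (c : Cf) (n : ℕ) : c.Wind n ↔ Wd (c.Z n) := Iff.rfl

theorem wind_close (K : ℝ) (hK : 1 ≤ K) : ∃ n₀ : ℕ, 2 ≤ n₀ ∧ ∀ n : ℕ, n₀ ≤ n → ∀ c c' : Cf,
    c.Adm n → c'.Adm n → c.E ≤ K * n ^ 2 → (∀ r, 0 ≤ r → ‖c'.Z n r - c.Z n r‖ < 1 / 2) →
    c.Wind n → c'.Wind n := by
  obtain ⟨n₀, h2, h⟩ := conf7_all K hK
  refine ⟨n₀, h2, fun n hn c c' hc hc' hE hcl hw => ?_⟩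
  have hn2 : 2 ≤ n := le_trans h2 hn
  have hn0 : 0 < n := by omega
  exact Wd_close (Cf.continuous_Z hn0 hc).continuousOn (Cf.continuous_Z hn0 hc').continuousOn
    (Cf.data_zero hn2 hc).2.2.2.2 (Cf.data_zero hn2 hc').2.2.2.2 (Cf.tendsto_Z hn2 hc)
    (Cf.tendsto_Z hn2 hc') (h n hn c hc hE) hcl hw

theorem wind_homotopy (K : ℝ) (hK : 1 ≤ K) : ∃ n₀ : ℕ, 2 ≤ n₀ ∧ ∀ n : ℕ, n₀ ≤ n →
    ∀ c : ℝ → Cf, (∀ t ∈ Icc (0 : ℝ) 1, (c t).Adm n) →
    (∀ t ∈ Icc (0 : ℝ) 1, (c t).E ≤ K * n ^ 2) →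
    ContinuousOn (fun q : ℝ × ℝ => (c q.1).Z n q.2) (Icc 0 1 ×ˢ Ici 0) →
    (c 0).Wind n → (c 1).Wind n := by
  obtain ⟨n₀, h2, h⟩ := conf7_all K hK
  refine ⟨n₀, h2, fun n hn c hc hE hcont hw => ?_⟩
  have hn2 : 2 ≤ n := le_trans h2 hn
  refine Wd_homotopy (γ := fun t r => (c t).Z n r) hcont
    (fun t ht => (Cf.data_zero hn2 (hc t ht)).2.2.2.2) (fun t ht => Cf.tendsto_Z hn2 (hc t ht))
    (fun t ht r hr => h n hn (c t) (hc t ht) (hE t ht) r hr) (rp K n) (fun t ht r hr => ?_) hw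
  have := Cf.Z_sub_one_le hn2 (hc t ht) hK (hE t ht) hr
  linarith

private theorem lmo_psi (x : ℝ) : 0 ≤ psi x ∧ psi x ≤ 1 := by
  unfold psi
  exact ⟨le_max_left _ _, max_le zero_le_one (min_le_left _ _)⟩

/-- restriction of the integral bounds to `[a, b]` -/
private theorem lmo_sub {f : ℝ → ℝ} (h0 : ∀ s, 0 < s → 0 ≤ f s) (hi : IntegrableOn f (Ioi 0)) {a b : ℝ}
    (ha : 0 < a) (hab : a ≤ b) : ∫ s in a..b, f s ≤ ∫ s in Ioi (0 : ℝ), f s := by
  rw [intervalIntegral.integral_of_le hab]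
  refine setIntegral_mono_set hi ?_ ?_
  · filter_upwards [ae_restrict_mem measurableSet_Ioi] with s hs using h0 s hs
  · refine (Eventually.of_forall ?_)
    intro s hs
    exact lt_trans ha hs.1

private theorem lmo_ii {f : ℝ → ℝ} (hi : IntegrableOn f (Ioi 0)) {a b : ℝ} (ha : 0 < a)
    (hab : a ≤ b) : IntervalIntegrable f volume a b := by
  rw [intervalIntegrable_iff_integrableOn_Ioc_of_le hab]
  exact hi.mono_set fun s hs => lt_trans ha hs.1

/-- the common estimate -/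
private theorem lmo_g {c c' : Cf} {n : ℕ} {K : ℝ} (hK : 1 ≤ K) (hn : 2 ≤ n) (hc : c.Adm n)
    (hc' : c'.Adm n) (hE : c.E ≤ K * n ^ 2) (hE' : c'.E ≤ K * n ^ 2) {g g' : ℝ → ℝ}
    (hg : ∀ s, HasDerivAt g (g' s) s) (hcg : Continuous g')
    (h1 : ∀ s ∈ Icc (rm K n) (rp K n), g s ^ 2 ≤ 2 * al n * (c.X n s + c'.X n s))
    (h2 : ∀ s, g' s ^ 2 ≤ 2 * (2 * c.T n s / al n + 2 * al n * (s ^ 2 * c.Y n s)) +
      2 * (2 * c'.T n s / al n + 2 * al n * (s ^ 2 * c'.Y n s))) :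
    ∀ s ∈ Icc (rm K n) (rp K n), g s ^ 2 ≤ (4 * π * K / n ^ 4) / Real.log 2 +
      2 * Real.sqrt ((4 * π * K / n ^ 4) * (8 * K * n ^ 2 / π + 8 * π * 4000 ^ 2 * K ^ 3)) := by
  have hn0 : 0 < n := by omega
  have hnr : (0 : ℝ) < n := by exact_mod_cast hn0
  have hα : 0 < al n := Cf.T_nonneg hn0 c 0 |> fun _ => by unfold al; positivity
  obtain ⟨-, hrz, hlt, hq⟩ := Cf.rz_le_rm hn hK
  have hrm : 0 < rm K n := by unfold rm; positivity
  have hrp : 0 < rp K n := lt_trans hrm hlt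
  have hX := Cf.int_X hn0 hc
  have hX' := Cf.int_X hn0 hc'
  have hT := Cf.int_T hn0 hc
  have hT' := Cf.int_T hn0 hc'
  have hY := Cf.int_Y hn0 hc
  have hY' := Cf.int_Y hn0 hc'
  have hcg0 : Continuous g := continuous_iff_continuousAt.2 fun s => (hg s).continuousAt
  have hEm : c.E / (n : ℝ) ^ 3 ≤ K / n := by
    rw [div_le_div_iff₀ (by positivity) hnr]
    nlinarith
  have hEm' : c'.E / (n : ℝ) ^ 3 ≤ K / n := by
    rw [div_le_div_iff₀ (by positivity) hnr]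
    nlinarith
  have sX := lmo_sub (fun s hs => div_nonneg (Cf.X_nonneg hn0 c s) hs.le) hX.1 hrm hlt.le
  have sX' := lmo_sub (fun s hs => div_nonneg (Cf.X_nonneg hn0 c' s) hs.le) hX'.1 hrm hlt.le
  have sT := lmo_sub (fun s hs => mul_nonneg hs.le (Cf.T_nonneg hn0 c s)) hT.1 hrm hlt.le
  have sT' := lmo_sub (fun s hs => mul_nonneg hs.le (Cf.T_nonneg hn0 c' s)) hT'.1 hrm hlt.le
  have sY := lmo_sub (fun s hs => mul_nonneg hs.le (Cf.Y_nonneg hn0 c s)) hY.1 hrm hlt.le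
  have sY' := lmo_sub (fun s hs => mul_nonneg hs.le (Cf.Y_nonneg hn0 c' s)) hY'.1 hrm hlt.le
  have iX := lmo_ii hX.1 hrm hlt.le
  have iX' := lmo_ii hX'.1 hrm hlt.le
  have iT := lmo_ii hT.1 hrm hlt.le
  have iT' := lmo_ii hT'.1 hrm hlt.le
  have iY := lmo_ii hY.1 hrm hlt.le
  have iY' := lmo_ii hY'.1 hrm hlt.le
  -- P
  have hP : ∫ s in rm K n..rp K n, g s ^ 2 / s ≤ 4 * π * K / n ^ 4 := by
    have e1 : ∫ s in rm K n..rp K n, g s ^ 2 / s ≤
        ∫ s in rm K n..rp K n, (2 * al n) * (c.X n s / s + c'.X n s / s) := by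
      refine intervalIntegral.integral_mono_on hlt.le ?_ ((iX.add iX').const_mul _) fun s hs => ?_
      · refine ContinuousOn.intervalIntegrable ?_
        rw [uIcc_of_le hlt.le]
        exact (hcg0.pow 2).continuousOn.div continuousOn_id fun s hs => (lt_of_lt_of_le hrm hs.1).ne'
      · have hs0 : 0 < s := lt_of_lt_of_le hrm hs.1
        rw [← add_div, ← mul_div_assoc]
        exact div_le_div_of_nonneg_right (h1 s hs) hs0.le
    rw [intervalIntegral.integral_const_mul, intervalIntegral.integral_add iX iX'] at e1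
    have e2 : (∫ s in rm K n..rp K n, c.X n s / s) + (∫ s in rm K n..rp K n, c'.X n s / s) ≤ 2 * (K / n) := by
      linarith [hX.2, hX'.2]
    have e3 : 2 * al n * (2 * (K / n)) = 4 * π * K / n ^ 4 := by
      unfold al
      field_simp
      ring
    calc _ ≤ _ := e1
      _ ≤ 2 * al n * (2 * (K / n)) := by gcongr
      _ = _ := e3
  -- Q
  have hQ : ∫ s in rm K n..rp K n, s * g' s ^ 2 ≤ 8 * K * n ^ 2 / π + 8 * π * 4000 ^ 2 * K ^ 3 := by
    have e1 : ∫ s in rm K n..rp K n, s * g' s ^ 2 ≤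
        ∫ s in rm K n..rp K n, ((4 / al n) * (s * c.T n s + s * c'.T n s) +
          (4 * al n * rp K n ^ 2) * (s * c.Y n s + s * c'.Y n s)) := by
      refine intervalIntegral.integral_mono_on hlt.le ?_
        (((iT.add iT').const_mul _).add ((iY.add iY').const_mul _)) fun s hs => ?_
      · exact (continuous_id.mul (hcg.pow 2)).intervalIntegrable _ _
      · have hs0 : 0 < s := lt_of_lt_of_le hrm hs.1
        have hs2 : s ^ 2 ≤ rp K n ^ 2 := pow_le_pow_left₀ hs0.le hs.2 2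
        have a1 := Cf.Y_nonneg hn0 c s
        have a2 := Cf.Y_nonneg hn0 c' s
        have a3 : s ^ 2 * c.Y n s ≤ rp K n ^ 2 * c.Y n s := mul_le_mul_of_nonneg_right hs2 a1
        have a4 : s ^ 2 * c'.Y n s ≤ rp K n ^ 2 * c'.Y n s := mul_le_mul_of_nonneg_right hs2 a2
        calc s * g' s ^ 2 ≤ s * (2 * (2 * c.T n s / al n + 2 * al n * (s ^ 2 * c.Y n s)) +
              2 * (2 * c'.T n s / al n + 2 * al n * (s ^ 2 * c'.Y n s))) :=
              mul_le_mul_of_nonneg_left (h2 s) hs0.le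
          _ ≤ s * (2 * (2 * c.T n s / al n + 2 * al n * (rp K n ^ 2 * c.Y n s)) +
              2 * (2 * c'.T n s / al n + 2 * al n * (rp K n ^ 2 * c'.Y n s))) := by gcongr
          _ = _ := by ring
    rw [intervalIntegral.integral_add ((iT.add iT').const_mul _) ((iY.add iY').const_mul _),
      intervalIntegral.integral_const_mul, intervalIntegral.integral_const_mul,
      intervalIntegral.integral_add iT iT', intervalIntegral.integral_add iY iY'] at e1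
    have e2 : (∫ s in rm K n..rp K n, s * c.T n s) + (∫ s in rm K n..rp K n, s * c'.T n s) ≤ 2 * (K / n) := by
      linarith [hT.2, hT'.2]
    have e3 : (∫ s in rm K n..rp K n, s * c.Y n s) + (∫ s in rm K n..rp K n, s * c'.Y n s) ≤ 2 * (K / n) := by
      linarith [hY.2, hY'.2]
    have e4 : 4 / al n * (2 * (K / n)) + 4 * al n * rp K n ^ 2 * (2 * (K / n)) =
        8 * K * n ^ 2 / π + 8 * π * 4000 ^ 2 * K ^ 3 := by
      unfold al rp
      field_simp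
      ring
    calc _ ≤ _ := e1
      _ ≤ 4 / al n * (2 * (K / n)) + 4 * al n * rp K n ^ 2 * (2 * (K / n)) := by gcongr
      _ = _ := e4
  intro s hs
  have h3 := sup_sub (g := g) (g' := g') (fun s _ => hg s) hcg.continuousOn hrm hlt hP hQ s hs
  have hl2 : 0 < Real.log 2 := Real.log_pos (by norm_num)
  have hlog : Real.log 2 ≤ Real.log (rp K n / rm K n) := Real.log_le_log (by norm_num) hq
  have h4 : (4 * π * K / n ^ 4) / Real.log (rp K n / rm K n) ≤ (4 * π * K / n ^ 4) / Real.log 2 := by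
    gcongr
  linarith

/-- the bound of `lmo_g` tends to zero -/
private theorem lmo_lim (K : ℝ) (hK : 1 ≤ K) : ∃ n₀ : ℕ, ∀ n : ℕ, n₀ ≤ n →
    (4 * π * K / n ^ 4) / Real.log 2 +
      2 * Real.sqrt ((4 * π * K / n ^ 4) * (8 * K * n ^ 2 / π + 8 * π * 4000 ^ 2 * K ^ 3)) ≤ 1 / 25 := by
  have h1 : Tendsto (fun n : ℕ => (4 * π * K / (n : ℝ) ^ 4) / Real.log 2 +
      2 * Real.sqrt (32 * K ^ 2 / (n : ℝ) ^ 2 + 32 * π ^ 2 * 4000 ^ 2 * K ^ 4 / (n : ℝ) ^ 4)) atTop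
      (𝓝 (0 / Real.log 2 + 2 * Real.sqrt (0 + 0))) := by
    have t2 : Tendsto (fun n : ℕ => ((n : ℝ)) ^ 2) atTop atTop :=
      (tendsto_pow_atTop (by norm_num)).comp tendsto_natCast_atTop_atTop
    have t4 : Tendsto (fun n : ℕ => ((n : ℝ)) ^ 4) atTop atTop :=
      (tendsto_pow_atTop (by norm_num)).comp tendsto_natCast_atTop_atTop
    refine Tendsto.add ((t4.const_div_atTop _).div_const _) (Tendsto.const_mul _ ?_)
    exact (Real.continuous_sqrt.tendsto _).comp ((t2.const_div_atTop _).add (t4.const_div_atTop _))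
  have h2 : (0 / Real.log 2 + 2 * Real.sqrt (0 + 0) : ℝ) < 1 / 25 := by simp
  obtain ⟨N, hN⟩ := (eventually_atTop.1 ((tendsto_order.1 h1).2 _ h2))
  refine ⟨max N 1, fun n hn => ?_⟩
  have hn1 : (0 : ℝ) < n := by
    have : 1 ≤ n := le_trans (le_max_right _ _) hn
    exact_mod_cast this
  have h3 := hN n (le_trans (le_max_left _ _) hn)
  have e : (4 * π * K / (n : ℝ) ^ 4) * (8 * K * n ^ 2 / π + 8 * π * 4000 ^ 2 * K ^ 3) =
      32 * K ^ 2 / (n : ℝ) ^ 2 + 32 * π ^ 2 * 4000 ^ 2 * K ^ 4 / (n : ℝ) ^ 4 := by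
    have := Real.pi_pos.ne'
    field_simp
    ring
  rw [e]
  exact h3.le

theorem wind_local (K : ℝ) (hK : 1 ≤ K) : ∃ n₀ : ℕ, 2 ≤ n₀ ∧ ∀ n : ℕ, n₀ ≤ n → ∀ c c' : Cf,
    c.Adm n → c'.Adm n → c.Rad → c'.A = c.A → c.E ≤ K * n ^ 2 → c'.E ≤ K * n ^ 2 →
    (∀ r ∈ Icc (rm K n) (rp K n), ∃ χ ∈ Icc 0 (al n),
      c'.w (pt r χ) = c.w (pt r χ) ∧ c'.h (pt r χ) = c.h (pt r χ)) →
    c.Wind n → c'.Wind n := by
  obtain ⟨n₁, h2, h⟩ := wind_close K hK
  obtain ⟨n₂, hl⟩ := lmo_lim K hK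
  refine ⟨max n₁ n₂, le_trans h2 (le_max_left _ _), fun n hn c c' hc hc' hr hA hE hE' hag hw => ?_⟩
  have hn1 : n₁ ≤ n := le_trans (le_max_left _ _) hn
  have hn2 : n₂ ≤ n := le_trans (le_max_right _ _) hn
  have h2n : 2 ≤ n := le_trans h2 hn1
  have hn0 : 0 < n := by omega
  have hα : 0 < al n := by
    have : (0 : ℝ) < n := by exact_mod_cast hn0
    unfold al; positivity
  have hr' : c'.Rad := by
    obtain ⟨G, hG, hG2⟩ := hr
    exact ⟨G, hG, fun z => by rw [hA]; exact hG2 z⟩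
  refine h n hn1 c c' hc hc' hE (fun r hr0 => ?_) hw
  rcases le_total r (rm K n) with hrm | hrm
  · rw [(Cf.psi_small h2n hc hr hK hE hr0 hrm).2, (Cf.psi_small h2n hc' hr' hK hE' hr0 hrm).2]
    norm_num
  rcases le_total (rp K n) r with hrp | hrp
  · have a1 := Cf.Z_sub_one_le h2n hc hK hE hrp
    have a2 := Cf.Z_sub_one_le h2n hc' hK hE' hrp
    have a3 : ‖c'.Z n r - c.Z n r‖ ≤ ‖c'.Z n r - 1‖ + ‖c.Z n r - 1‖ := by
      have := norm_sub_le (c'.Z n r - 1) (c.Z n r - 1)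
      rwa [sub_sub_sub_cancel_right] at this
    linarith
  -- the middle range
  have hbe : c'.aa n r = c.aa n r := by
    unfold Cf.aa Cf.beta Cf.B Cf.b
    rw [hA]
  have hdiff : c'.Z n r - c.Z n r = (psi (c.aa n r) : ℂ) *
      (((c'.cc n r - c.cc n r : ℝ) : ℂ) + Complex.I * (((c'.V n r).re - (c.V n r).re : ℝ) : ℂ)) := by
    unfold Cf.Z
    rw [hbe]
    push_cast
    ring
  obtain ⟨p1, hp1, hp2, hp3⟩ := Cf.der_cc hn0 hc
  obtain ⟨q1, hq1, hq2, hq3⟩ := Cf.der_cc hn0 hc'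
  obtain ⟨p2, hP1, hP2, hP3⟩ := Cf.der_V hn0 hc hr
  obtain ⟨q2, hQ1, hQ2, hQ3⟩ := Cf.der_V hn0 hc' hr'
  have nT := fun s => Cf.T_nonneg hn0 c s
  have nT' := fun s => Cf.T_nonneg hn0 c' s
  have nY := fun s => Cf.Y_nonneg hn0 c s
  have nY' := fun s => Cf.Y_nonneg hn0 c' s
  have b1 := lmo_g (g := fun s => c'.cc n s - c.cc n s) (g' := fun s => q1 s - p1 s) hK h2n hc hc' hE
    hE' (fun s => (hq2 s).sub (hp2 s)) (hq1.sub hp1)
    (fun s hs => by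
      obtain ⟨χ, hχ, e1, e2⟩ := hag s hs
      exact (Cf.diff_arc hn0 hc hc' hA s hχ e1 e2).1)
    (fun s => by
      have d1 := hp3 s
      have d2 := hq3 s
      have d3 : (q1 s - p1 s) ^ 2 ≤ 2 * p1 s ^ 2 + 2 * q1 s ^ 2 := by nlinarith [sq_nonneg (q1 s + p1 s)]
      have d4 : 0 ≤ c.T n s / al n := div_nonneg (nT s) hα.le
      have d5 : 0 ≤ c'.T n s / al n := div_nonneg (nT' s) hα.le
      have d6 : 0 ≤ al n * (s ^ 2 * c.Y n s) := mul_nonneg hα.le (mul_nonneg (sq_nonneg _) (nY s))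
      have d7 : 0 ≤ al n * (s ^ 2 * c'.Y n s) := mul_nonneg hα.le (mul_nonneg (sq_nonneg _) (nY' s))
      have d8 : 2 * c.T n s / al n = 2 * (c.T n s / al n) := by ring
      have d9 : 2 * c'.T n s / al n = 2 * (c'.T n s / al n) := by ring
      rw [d8, d9]
      linarith)
    r ⟨hrm, hrp⟩
  have hre : ∀ s, HasDerivAt (fun s => (c'.V n s).re - (c.V n s).re) ((q2 s).re - (p2 s).re) s := fun s =>
    (Complex.reCLM.hasFDerivAt.comp_hasDerivAt s (hQ2 s)).sub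
      (Complex.reCLM.hasFDerivAt.comp_hasDerivAt s (hP2 s))
  have b2 := lmo_g (g := fun s => (c'.V n s).re - (c.V n s).re)
    (g' := fun s => (q2 s).re - (p2 s).re) hK h2n hc hc' hE
    hE' hre ((Complex.continuous_re.comp hQ1).sub (Complex.continuous_re.comp hP1))
    (fun s hs => by
      obtain ⟨χ, hχ, e1, e2⟩ := hag s hs
      have e3 := (Cf.diff_arc hn0 hc hc' hA s hχ e1 e2).2
      have e4 : |(c'.V n s - c.V n s).re| ≤ ‖c'.V n s - c.V n s‖ := Complex.abs_re_le_norm _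
      have e5 := pow_le_pow_left₀ (abs_nonneg _) e4 2
      rw [sq_abs, Complex.sub_re] at e5
      exact e5.trans e3)
    (fun s => by
      have d1 := hP3 s
      have d2 := hQ3 s
      have d3 : ((q2 s).re - (p2 s).re) ^ 2 ≤ 2 * (p2 s).re ^ 2 + 2 * (q2 s).re ^ 2 := by
        nlinarith [sq_nonneg ((q2 s).re + (p2 s).re)]
      have d4 : (p2 s).re ^ 2 ≤ ‖p2 s‖ ^ 2 := by
        rw [← sq_abs]
        exact pow_le_pow_left₀ (abs_nonneg _) (Complex.abs_re_le_norm _) 2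
      have d5 : (q2 s).re ^ 2 ≤ ‖q2 s‖ ^ 2 := by
        rw [← sq_abs]
        exact pow_le_pow_left₀ (abs_nonneg _) (Complex.abs_re_le_norm _) 2
      linarith)
    r ⟨hrm, hrp⟩
  have hbd := hl n hn2
  have f1 : |c'.cc n r - c.cc n r| ≤ 1 / 5 := by
    refine abs_le_of_sq_le_sq' ?_ (by norm_num) |> abs_le.2
    calc (c'.cc n r - c.cc n r) ^ 2 ≤ _ := b1
      _ ≤ 1 / 25 := hbd
      _ = (1 / 5 : ℝ) ^ 2 := by norm_num
  have f2 : |(c'.V n r).re - (c.V n r).re| ≤ 1 / 5 := by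
    refine abs_le_of_sq_le_sq' ?_ (by norm_num) |> abs_le.2
    calc ((c'.V n r).re - (c.V n r).re) ^ 2 ≤ _ := b2
      _ ≤ 1 / 25 := hbd
      _ = (1 / 5 : ℝ) ^ 2 := by norm_num
  have hps := lmo_psi (c.aa n r)
  rw [hdiff, norm_mul, Complex.norm_real, Real.norm_of_nonneg hps.1]
  have f3 : ‖(((c'.cc n r - c.cc n r : ℝ) : ℂ) +
      Complex.I * (((c'.V n r).re - (c.V n r).re : ℝ) : ℂ))‖ ≤ 2 / 5 := by
    refine (norm_add_le _ _).trans ?_
    rw [norm_mul, Complex.norm_I, one_mul, Complex.norm_real, Complex.norm_real, Real.norm_eq_abs,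
      Real.norm_eq_abs]
    linarith
  calc psi (c.aa n r) * ‖(((c'.cc n r - c.cc n r : ℝ) : ℂ) +
      Complex.I * (((c'.V n r).re - (c.V n r).re : ℝ) : ℂ))‖ ≤ 1 * (2 / 5) :=
        mul_le_mul hps.2 f3 (norm_nonneg _) zero_le_one
    _ < 1 / 2 := by norm_num

theorem exists_neg (K : ℝ) (hK : 1 ≤ K) : ∃ n₀ : ℕ, 2 ≤ n₀ ∧ ∀ n : ℕ, n₀ ≤ n → ∀ c : Cf,
    c.Adm n → c.E ≤ K * n ^ 2 → c.Wind n →
    ∃ r, 0 < r ∧ r < rp K n ∧ c.cc n r < 0 ∧ |c.aa n r - π| < π / 4 := by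
  obtain ⟨n₀, h2, h⟩ := conf7_all K hK
  refine ⟨n₀, h2, fun n hn c hc hE hw => ?_⟩
  have hn2 : 2 ≤ n := le_trans h2 hn
  have hn0 : 0 < n := by omega
  obtain ⟨r, hr, hZ⟩ := Wd_neg hw
  have h1 := h n hn c hc hE r hr.le
  have hre : (c.Z n r).re = -‖c.Z n r‖ := by
    have := congrArg Complex.re hZ
    rwa [Complex.neg_re, Complex.ofReal_re] at this
  have hre2 : (c.Z n r).re = 1 + psi (c.aa n r) * (c.cc n r - 1) := by
    unfold Cf.Z
    simp [Complex.mul_re]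
  have hps := lmo_psi (c.aa n r)
  have hcc := abs_le.1 (Cf.abs_cc_le hn0 hc r)
  have h3 : psi (c.aa n r) * (1 - c.cc n r) = 1 - (c.Z n r).re := by rw [hre2]; ring
  have h4 : 3 / 2 ≤ psi (c.aa n r) * (1 - c.cc n r) := by rw [h3, hre]; linarith
  have h5 : psi (c.aa n r) * (1 - c.cc n r) ≤ 1 * (1 - c.cc n r) :=
    mul_le_mul_of_nonneg_right hps.2 (by linarith)
  refine ⟨r, hr, ?_, by linarith, ?_⟩
  · by_contra hcon
    push Not at hcon
    have h6 := Cf.Z_sub_one_le hn2 hc hK hE hcon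
    have h7 : |(c.Z n r - 1).re| ≤ ‖c.Z n r - 1‖ := Complex.abs_re_le_norm _
    rw [Complex.sub_re, Complex.one_re] at h7
    have h8 : (c.Z n r).re ≤ -(1 / 2) := by rw [hre]; linarith
    have h9 := abs_le.1 (h7.trans h6)
    linarith [h9.1]
  · by_contra hcon
    push Not at hcon
    have h6 : psi (c.aa n r) = 0 := by
      unfold psi
      have hπ := Real.pi_pos
      have : 2 - 8 / π * |c.aa n r - π| ≤ 0 := by
        have : 8 / π * (π / 4) ≤ 8 / π * |c.aa n r - π| := by gcongr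
        have e : 8 / π * (π / 4) = 2 := by field_simp; norm_num
        linarith
      exact max_eq_left ((min_le_right _ _).trans this)
    rw [h6, zero_mul] at h4
    linarith

end GO3
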