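import Pool.Agent.GO3.Pol

/-! GO3 / Nrm: normalisation of a map into `ℂ × ℝ` and gradients in polar coordinates.

`P (a, t) = (a, t) / N`, `N = (|a|² + t²)^{1/2}`. `|d(P∘x)|² ≤ |dx|² / N²`: with `y = x / N`,
`dy = (dx - ⟨dx, y⟩ y) / N` is the orthogonal projection of `dx / N`.
`psq_frame`: `v ↦ fderiv f z v` is linear; orthonormal frames. -/

open MeasureTheory Filter Topology Set
open scoped ContDiff Real

noncomputable section

namespace GO3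

/-- `|∂_v w|² + |∂_v h|²` -/
def psq (w : ℂ → ℂ) (h : ℂ → ℝ) (z v : ℂ) : ℝ := ‖fderiv ℝ w z v‖ ^ 2 + fderiv ℝ h z v ^ 2

theorem psq_nonneg (w : ℂ → ℂ) (h : ℂ → ℝ) (z v : ℂ) : 0 ≤ psq w h z v := by
  unfold psq
  positivity

theorem psq_smul (w : ℂ → ℂ) (h : ℂ → ℝ) (z v : ℂ) (t : ℝ) :
    psq w h z (t * v) = t ^ 2 * psq w h z v := by
  have h1 : (t : ℂ) * v = t • v := (Complex.real_smul).symm
  unfold psq
  rw [h1, map_smul, map_smul, norm_smul, smul_eq_mul, Real.norm_eq_abs, mul_pow, mul_pow, sq_abs]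
  ring

theorem psq_frame (w : ℂ → ℂ) (h : ℂ → ℝ) (z u : ℂ) (hu : ‖u‖ = 1) :
    psq w h z 1 + psq w h z Complex.I = psq w h z u + psq w h z (Complex.I * u) := by
  have h1 : u = u.re • (1 : ℂ) + u.im • Complex.I := by
    apply Complex.ext <;> simp
  have h2 : Complex.I * u = (-u.im) • (1 : ℂ) + u.re • Complex.I := by
    apply Complex.ext <;> simp
  have h3 : u.re ^ 2 + u.im ^ 2 = 1 := by
    have := congrArg (fun x => x ^ 2) hu
    simp only [Complex.sq_norm, Complex.normSq_apply] at this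
    linarith
  have hw1 : fderiv ℝ w z u = u.re • fderiv ℝ w z 1 + u.im • fderiv ℝ w z Complex.I := by
    conv_lhs => rw [h1]
    rw [map_add, map_smul, map_smul]
  have hw2 : fderiv ℝ w z (Complex.I * u) =
      (-u.im) • fderiv ℝ w z 1 + u.re • fderiv ℝ w z Complex.I := by
    rw [h2, map_add, map_smul, map_smul]
  have hh1 : fderiv ℝ h z u = u.re * fderiv ℝ h z 1 + u.im * fderiv ℝ h z Complex.I := by
    conv_lhs => rw [h1]
    rw [map_add, map_smul, map_smul, smul_eq_mul, smul_eq_mul]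
  have hh2 : fderiv ℝ h z (Complex.I * u) =
      (-u.im) * fderiv ℝ h z 1 + u.re * fderiv ℝ h z Complex.I := by
    rw [h2, map_add, map_smul, map_smul, smul_eq_mul, smul_eq_mul]
  unfold psq
  rw [hw1, hw2, hh1, hh2]
  simp only [Complex.sq_norm, Complex.normSq_apply, Complex.add_re, Complex.add_im,
    Complex.smul_re, Complex.smul_im, smul_eq_mul]
  linear_combination (-((fderiv ℝ w z 1).re ^ 2 + (fderiv ℝ w z 1).im ^ 2 +
    (fderiv ℝ w z Complex.I).re ^ 2 + (fderiv ℝ w z Complex.I).im ^ 2 +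
    (fderiv ℝ h z 1) ^ 2 + (fderiv ℝ h z Complex.I) ^ 2)) * h3

theorem psq_polar (w : ℂ → ℂ) (h : ℂ → ℝ) (q : ℂ) {r : ℝ} (hr : r ≠ 0) (χ : ℝ) :
    psq w h (q + pt r χ) 1 + psq w h (q + pt r χ) Complex.I = psq w h (q + pt r χ) (er χ) +
      psq w h (q + pt r χ) (Complex.I * pt r χ) / r ^ 2 := by
  have h1 : Complex.I * pt r χ = (r : ℂ) * (Complex.I * er χ) := by rw [pt_eq]; ring
  rw [psq_frame w h _ (er χ) (norm_er χ), h1, psq_smul]
  field_simp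

theorem continuous_psq {w : ℂ → ℂ} {h : ℂ → ℝ} (hw : ContDiff ℝ ∞ w) (hh : ContDiff ℝ ∞ h) :
    Continuous fun q : ℂ × ℂ => psq w h q.1 q.2 := by
  unfold psq
  exact ((hw.continuous_fderiv_apply (by simp)).norm.pow 2).add
    ((hh.continuous_fderiv_apply (by simp)).pow 2)

/-- the norm of `(a, t)` -/
def nrm (a : ℂ) (t : ℝ) : ℝ := Real.sqrt (‖a‖ ^ 2 + t ^ 2)

theorem nrm_sq (a : ℂ) (t : ℝ) : nrm a t ^ 2 = ‖a‖ ^ 2 + t ^ 2 :=
  Real.sq_sqrt (by positivity)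

private theorem nrm_alg (a b : ℂ) (t s k P : ℝ) (hk : k ^ 2 * (‖a‖ ^ 2 + t ^ 2) = 1)
    (hP : P = a.re * b.re + a.im * b.im + t * s) :
    ‖k • b + (-(P * k ^ 3)) • a‖ ^ 2 + (k * s + (-(P * k ^ 3)) * t) ^ 2 ≤
      k ^ 2 * (‖b‖ ^ 2 + s ^ 2) := by
  have h : ‖k • b + (-(P * k ^ 3)) • a‖ ^ 2 + (k * s + (-(P * k ^ 3)) * t) ^ 2 =
      k ^ 2 * (‖b‖ ^ 2 + s ^ 2) - P ^ 2 * k ^ 4 := by
    simp only [Complex.sq_norm, Complex.normSq_apply, Complex.add_re, Complex.add_im,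
      Complex.smul_re, Complex.smul_im, smul_eq_mul] at hk ⊢
    linear_combination P ^ 2 * k ^ 4 * hk + 2 * P * k ^ 4 * hP
  rw [h]
  have : 0 ≤ P ^ 2 * k ^ 4 := by positivity
  linarith

/-- pointwise form at one point (for maps smooth near `z`) -/
theorem normalise_at' {a : ℂ → ℂ} {t : ℂ → ℝ} {z : ℂ} (ha : DifferentiableAt ℝ a z)
    (ht : DifferentiableAt ℝ t z) (h0 : 0 < nrm (a z) (t z)) (v : ℂ) :
    psq (fun z => ((nrm (a z) (t z))⁻¹ : ℂ) * a z)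
      (fun z => (nrm (a z) (t z))⁻¹ * t z) z v ≤ psq a t z v / nrm (a z) (t z) ^ 2 := by
  obtain ⟨N, hN⟩ : ∃ N, N = nrm (a z) (t z) := ⟨_, rfl⟩
  have hN2 : N ^ 2 = ‖a z‖ ^ 2 + t z ^ 2 := by rw [hN, nrm_sq]
  rw [← hN] at h0
  -- the derivative of the square
  have h1 := ha.hasFDerivAt.norm_sq
  have h2 := ht.hasFDerivAt.pow 2
  have h3 := h1.add h2
  have h4 : ‖a z‖ ^ 2 + t z ^ 2 ≠ 0 := by rw [← hN2]; positivity
  have h5 := h3.sqrt h4
  have hNs : Real.sqrt (‖a z‖ ^ 2 + t z ^ 2) = N := by rw [hN]; rfl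
  have h6 := (hasDerivAt_inv (x := Real.sqrt (‖a z‖ ^ 2 + t z ^ 2))
    (by rw [hNs]; exact h0.ne')).comp_hasFDerivAt z h5
  obtain ⟨M', hM'⟩ : ∃ M' : ℂ →L[ℝ] ℝ, M' =
    (-(√(‖a z‖ ^ 2 + t z ^ 2) ^ 2)⁻¹ • (1 / (2 * √(‖a z‖ ^ 2 + t z ^ 2))) •
      (2 • (innerSL ℝ (a z)).comp (fderiv ℝ a z) +
        (2 • t z ^ (2 - 1)) • fderiv ℝ t z) : ℂ →L[ℝ] ℝ) := ⟨_, rfl⟩
  have h7 : HasFDerivAt (fun z => (nrm (a z) (t z))⁻¹) M' z := by
    rw [hM']
    exact h6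
  have hMv : M' v = -((((a z).re * (fderiv ℝ a z v).re + (a z).im * (fderiv ℝ a z v).im) +
      t z * fderiv ℝ t z v) * N⁻¹ ^ 3) := by
    rw [hM', hNs]
    simp only [_root_.smul_apply, _root_.add_apply,
      ContinuousLinearMap.comp_apply, innerSL_apply_apply, Complex.inner, smul_eq_mul,
      Complex.mul_re, Complex.conj_re, Complex.conj_im, nsmul_eq_mul]
    field_simp
    push_cast
    ring
  have e1 : (fun z => ((nrm (a z) (t z))⁻¹ : ℂ) * a z) = fun z => (nrm (a z) (t z))⁻¹ • a z := by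
    funext y
    rw [Complex.real_smul, Complex.ofReal_inv]
  have h8 : HasFDerivAt (fun z => (nrm (a z) (t z))⁻¹ • a z)
    ((nrm (a z) (t z))⁻¹ • fderiv ℝ a z + M'.smulRight (a z)) z := h7.smul ha.hasFDerivAt
  have h9 : HasFDerivAt (fun z => (nrm (a z) (t z))⁻¹ * t z)
    ((nrm (a z) (t z))⁻¹ • fderiv ℝ t z + t z • M') z := h7.mul ht.hasFDerivAt
  have h10 := nrm_alg (a z) (fderiv ℝ a z v) (t z) (fderiv ℝ t z v) N⁻¹
    (((a z).re * (fderiv ℝ a z v).re + (a z).im * (fderiv ℝ a z v).im) +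
      t z * fderiv ℝ t z v) (by rw [← hN2]; field_simp) rfl
  rw [← hMv] at h10
  unfold psq
  rw [e1, h8.fderiv, h9.fderiv, ← hN]
  simp only [_root_.add_apply, _root_.smul_apply,
    ContinuousLinearMap.smulRight_apply, smul_eq_mul]
  calc _ = ‖N⁻¹ • fderiv ℝ a z v + M' v • a z‖ ^ 2 +
        (N⁻¹ * fderiv ℝ t z v + M' v * t z) ^ 2 := by ring
    _ ≤ _ := h10
    _ = _ := by field_simp

theorem normalise {a : ℂ → ℂ} {t : ℂ → ℝ} (ha : ContDiff ℝ ∞ a) (ht : ContDiff ℝ ∞ t)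
    (h0 : ∀ z, 0 < nrm (a z) (t z)) :
    ContDiff ℝ ∞ (fun z => ((nrm (a z) (t z))⁻¹ : ℂ) * a z) ∧
    ContDiff ℝ ∞ (fun z => (nrm (a z) (t z))⁻¹ * t z) ∧
    (∀ z, ‖((nrm (a z) (t z))⁻¹ : ℂ) * a z‖ ^ 2 + ((nrm (a z) (t z))⁻¹ * t z) ^ 2 = 1) ∧
    ∀ z v, psq (fun z => ((nrm (a z) (t z))⁻¹ : ℂ) * a z)
      (fun z => (nrm (a z) (t z))⁻¹ * t z) z v ≤ psq a t z v / nrm (a z) (t z) ^ 2 := by
  have hsq : ContDiff ℝ ∞ (fun z => ‖a z‖ ^ 2 + t z ^ 2) := (ha.norm_sq ℝ).add (ht.pow 2)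
  have hne : ∀ z, ‖a z‖ ^ 2 + t z ^ 2 ≠ 0 := by
    intro z
    rw [← nrm_sq]
    have := h0 z
    positivity
  have hN : ContDiff ℝ ∞ (fun z => nrm (a z) (t z)) := hsq.sqrt hne
  have hi : ContDiff ℝ ∞ (fun z => (nrm (a z) (t z))⁻¹) := hN.inv fun z => (h0 z).ne'
  have e1 : (fun z => ((nrm (a z) (t z))⁻¹ : ℂ) * a z) = fun z => (nrm (a z) (t z))⁻¹ • a z := by
    funext y
    rw [Complex.real_smul, Complex.ofReal_inv]
  refine ⟨?_, hi.mul ht, fun z => ?_, fun z v => ?_⟩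
  · rw [e1]
    exact hi.smul ha
  · have h1 := nrm_sq (a z) (t z)
    have h2 := h0 z
    rw [norm_mul, norm_inv, Complex.norm_real, Real.norm_eq_abs, abs_of_pos h2, mul_pow, mul_pow,
      ← mul_add, ← h1]
    field_simp
  · exact normalise_at' (ha.differentiable (by simp) z) (ht.differentiable (by simp) z) (h0 z) v

/-- pointwise form at one point (for maps smooth near `z`) -/
theorem normalise_at {a : ℂ → ℂ} {t : ℂ → ℝ} {z : ℂ} (ha : DifferentiableAt ℝ a z)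
    (ht : DifferentiableAt ℝ t z) (h0 : 0 < nrm (a z) (t z)) (v : ℂ) :
    psq (fun z => ((nrm (a z) (t z))⁻¹ : ℂ) * a z)
      (fun z => (nrm (a z) (t z))⁻¹ * t z) z v ≤ psq a t z v / nrm (a z) (t z) ^ 2 :=
  normalise_at' ha ht h0 v

end GO3
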