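import Pool.Agent.GO3.Fro
import Pool.Agent.GO3.Nrm
import Pool.Agent.GO3.Stp
import Pool.Agent.GO3.Ang

/-! GO3 / Cne: the cone competitor (G2 of the proof text).

Write `Φ = (w, h)`, `Q(s) = ∮ |∂_χ Φ(q + s e^{iχ})|² dχ ≤ 10⁻⁴`. Take `τ₀` from `step` with `ε₀ = 1/50`, `τ(ρ) = τ₀(ρ/s)`,
`κ` from `frz` at `s` with a small `η` (`2 η < a s`, so that `τ = 1` on `[s - 2η, ∞)`), `s' = s - η`,
`m = (m₁, m₂)` the mean of `Φ` over the circle of radius `s'`, `x = cone Φ q m τ κ`, `v = x / |x|`.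
For `ρ ≤ s`: `|Φ(q + κ e^{iχ}) - m| ≤ √(2π Q(s)) + (small as η → 0) ≤ 0.03`, so `|x| ≥ 0.97`; for `ρ ≥ s` `x = Φ`.
Energy: for `ρ ≤ s - 2η` (`κ = s'`), `cone_dr`, `cone_dchi`, `normalise`:
`∮ (ρ |∂_r v|² + |∂_χ v|²/ρ) ≤ 0.97⁻² (ρ τ'² ∮|Φ_{s'} - m|² + τ²/ρ Q(s'))`, Wirtinger for the three components:
`∮ |Φ_{s'} - m|² ≤ Q(s')`; with `τ₀' ≤ 1 + ε₀`, `τ₀(x) ≤ (1 + ε₀) x`:
`∫_0^s (ρ τ'² + τ²/ρ) dρ ≤ (1 + ε₀)²`, and `0.97⁻² (1.02)² /2 ≤ 11/20`... (`= 0.553`; use the sharper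
`|x| ≥ 0.974` if needed: `√(2π 10⁻⁴) ≤ 0.0251`, `0.974⁻² 1.02² = 1.0967 ≤ 1.1`). `Q(s') → Q(s)` as `η → 0`; on
`s - 2η ≤ ρ ≤ s` the gradient of `v` is bounded by a constant independent of `η` (there `τ = 1`, `|κ'| ≤ 1`), area
`→ 0`. Symmetries: `cone_rot`, `cone_refl` with `L w = u w`, `L w = u conj w`, `L h = h`; the mean is invariant
(substitution in the circle integral). Centre: `v(q) = m/|m|`, and `σ m₂ > 0` because `m₂` is close to values of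
`h` on the circle of radius `s`. -/

open MeasureTheory Filter Topology Set
open scoped ContDiff Real

noncomputable section

namespace GO3


/-- Cauchy-Schwarz on `[0, 2π]` -/
private theorem cne_cs {g : ℝ → ℝ} (hg : Continuous g) :
    (∫ x in (0 : ℝ)..2 * π, g x) ^ 2 ≤ 2 * π * ∫ x in (0 : ℝ)..2 * π, g x ^ 2 := by
  have hpi := Real.pi_pos
  obtain ⟨M, hM⟩ : ∃ M : ℝ, M = ∫ x in (0 : ℝ)..2 * π, g x := ⟨_, rfl⟩
  obtain ⟨c, hc⟩ : ∃ c : ℝ, c = M / (2 * π) := ⟨_, rfl⟩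
  have hcM : c * (2 * π) = M := by
    rw [hc]
    field_simp
  have h0 : 0 ≤ ∫ x in (0 : ℝ)..2 * π, (g x - c) ^ 2 :=
    intervalIntegral.integral_nonneg (by positivity) fun x _ => sq_nonneg _
  have h1 : ∫ x in (0 : ℝ)..2 * π, (g x - c) ^ 2 =
      (∫ x in (0 : ℝ)..2 * π, g x ^ 2) - 2 * c * M + c ^ 2 * (2 * π) := by
    have e : ∀ x, (g x - c) ^ 2 = g x ^ 2 - (2 * c) * g x + c ^ 2 := fun x => by ring
    simp_rw [e]
    rw [intervalIntegral.integral_add, intervalIntegral.integral_sub,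
      intervalIntegral.integral_const_mul, intervalIntegral.integral_const, smul_eq_mul, ← hM]
    · ring
    · exact (hg.pow 2).intervalIntegrable _ _
    · exact (continuous_const.mul hg).intervalIntegrable _ _
    · exact ((hg.pow 2).sub (continuous_const.mul hg)).intervalIntegrable _ _
    · exact intervalIntegrable_const
  rw [h1] at h0
  rw [← hM]
  have h2 : 2 * c * M = c ^ 2 * (2 * π) + c * M := by
    rw [← hcM]
    ring
  have h3 : c * M ≤ ∫ x in (0 : ℝ)..2 * π, g x ^ 2 := by linarith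
  have h4 : M ^ 2 = 2 * π * (c * M) := by
    rw [← hcM]
    ring
  rw [h4]
  exact mul_le_mul_of_nonneg_left h3 (by positivity)

/-- deviation from the mean -/
private theorem cne_dev {V : Type*} [NormedAddCommGroup V] [NormedSpace ℝ V] [CompleteSpace V]
    {f f' : ℝ → V} (hf : ∀ x, HasDerivAt f (f' x) x) (hc : Continuous f') {x : ℝ}
    (hx : x ∈ Icc 0 (2 * π)) :
    ‖f x - (2 * π)⁻¹ • ∫ t in (0 : ℝ)..2 * π, f t‖ ^ 2 ≤
      2 * π * ∫ t in (0 : ℝ)..2 * π, ‖f' t‖ ^ 2 := by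
  have hpi := Real.pi_pos
  have h2p : (0 : ℝ) ≤ 2 * π := by positivity
  have hcf : Continuous f := continuous_iff_continuousAt.2 fun x => (hf x).continuousAt
  obtain ⟨M, hM⟩ : ∃ M : ℝ, M = ∫ t in (0 : ℝ)..2 * π, ‖f' t‖ := ⟨_, rfl⟩
  have hM0 : 0 ≤ M := by
    rw [hM]
    exact intervalIntegral.integral_nonneg h2p fun t _ => norm_nonneg _
  have hle : ∀ a b, 0 ≤ a → a ≤ b → b ≤ 2 * π → ‖f b - f a‖ ≤ M := by
    intro a b ha hab hb
    rw [← intervalIntegral.integral_eq_sub_of_hasDerivAt (fun y _ => hf y)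
      (hc.intervalIntegrable a b)]
    refine (intervalIntegral.norm_integral_le_integral_norm hab).trans ?_
    rw [hM]
    refine intervalIntegral.integral_mono_interval ha hab hb
      (Eventually.of_forall fun t => norm_nonneg _) (hc.norm.intervalIntegrable _ _)
  have h1 : ∀ t ∈ Icc 0 (2 * π), ‖f x - f t‖ ≤ M := by
    intro t ht
    rcases le_total t x with h | h
    · exact hle t x ht.1 h hx.2
    · rw [norm_sub_rev]
      exact hle x t hx.1 h ht.2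
  have h2 : f x - (2 * π)⁻¹ • ∫ t in (0 : ℝ)..2 * π, f t =
      (2 * π)⁻¹ • ∫ t in (0 : ℝ)..2 * π, (f x - f t) := by
    rw [intervalIntegral.integral_sub intervalIntegrable_const (hcf.intervalIntegrable _ _),
      intervalIntegral.integral_const, sub_zero, smul_sub, smul_smul, inv_mul_cancel₀ (by positivity),
      one_smul]
  have h3 : ‖∫ t in (0 : ℝ)..2 * π, (f x - f t)‖ ≤ M * |2 * π - 0| := by
    refine intervalIntegral.norm_integral_le_of_norm_le_const fun t ht => ?_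
    rw [uIoc_of_le h2p] at ht
    exact h1 t ⟨ht.1.le, ht.2⟩
  rw [sub_zero, abs_of_pos (by positivity)] at h3
  have h4 : ‖f x - (2 * π)⁻¹ • ∫ t in (0 : ℝ)..2 * π, f t‖ ≤ M := by
    rw [h2, norm_smul, Real.norm_eq_abs, abs_of_pos (by positivity)]
    calc (2 * π)⁻¹ * ‖∫ t in (0 : ℝ)..2 * π, (f x - f t)‖ ≤ (2 * π)⁻¹ * (M * (2 * π)) :=
          mul_le_mul_of_nonneg_left h3 (by positivity)
      _ = M := by field_simp
  have h5 := cne_cs hc.norm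
  rw [← hM] at h5
  exact (pow_le_pow_left₀ (norm_nonneg _) h4 2).trans h5

/-- the angular derivative along a circle -/
private theorem cne_der {V : Type*} [NormedAddCommGroup V] [NormedSpace ℝ V] {f : ℂ → V}
    (hf : ContDiff ℝ ∞ f) (q : ℂ) (ρ χ : ℝ) : HasDerivAt (fun χ => f (q + pt ρ χ))
      (fderiv ℝ f (q + pt ρ χ) (Complex.I * pt ρ χ)) χ := by
  have h1 : HasFDerivAt f (fderiv ℝ f (q + pt ρ χ)) (q + pt ρ χ) :=
    (hf.differentiable (by simp) _).hasFDerivAt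
  have h2 : HasDerivAt (fun χ => q + pt ρ χ) (Complex.I * pt ρ χ) χ :=
    (hasDerivAt_pt_chi ρ χ).const_add q
  exact h1.comp_hasDerivAt χ h2

private theorem cne_cder {V : Type*} [NormedAddCommGroup V] [NormedSpace ℝ V] {f : ℂ → V}
    (hf : ContDiff ℝ ∞ f) (q : ℂ) (ρ : ℝ) :
    Continuous fun χ => fderiv ℝ f (q + pt ρ χ) (Complex.I * pt ρ χ) := by
  have h0 : Continuous fun χ : ℝ => pt ρ χ := continuous_pt.comp (Continuous.prodMk_right ρ)
  have h1 : Continuous fun χ : ℝ => fderiv ℝ f (q + pt ρ χ) :=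
    (hf.continuous_fderiv (by simp)).comp (continuous_const.add h0)
  exact h1.clm_apply (continuous_const.mul h0)

/-- the mean over a circle -/
private def cne_m {V : Type*} [NormedAddCommGroup V] [NormedSpace ℝ V] (f : ℂ → V) (q : ℂ)
    (ρ : ℝ) : V := (2 * π)⁻¹ • ∫ t in (0 : ℝ)..2 * π, f (q + pt ρ t)

private theorem cne_cpsq {w : ℂ → ℂ} {h : ℂ → ℝ} (hw : ContDiff ℝ ∞ w) (hh : ContDiff ℝ ∞ h)
    (q : ℂ) : Continuous fun p : ℝ × ℝ => psq w h (q + pt p.1 p.2) (Complex.I * pt p.1 p.2) :=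
  (continuous_psq hw hh).comp ((continuous_const.add continuous_pt).prodMk
    (continuous_const.mul continuous_pt))

private theorem cne_cpsq' {w : ℂ → ℂ} {h : ℂ → ℝ} (hw : ContDiff ℝ ∞ w) (hh : ContDiff ℝ ∞ h)
    (q : ℂ) (ρ : ℝ) : Continuous fun χ : ℝ => psq w h (q + pt ρ χ) (Complex.I * pt ρ χ) := by
  have h0 : Continuous fun χ : ℝ => pt ρ χ := continuous_pt.comp (Continuous.prodMk_right ρ)
  exact (continuous_psq hw hh).comp ((continuous_const.add h0).prodMk (continuous_const.mul h0))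

private theorem cne_split {w : ℂ → ℂ} {h : ℂ → ℝ} (hw : ContDiff ℝ ∞ w) (hh : ContDiff ℝ ∞ h)
    (q : ℂ) (ρ : ℝ) : ∫ χ in (0 : ℝ)..2 * π, psq w h (q + pt ρ χ) (Complex.I * pt ρ χ) =
      (∫ χ in (0 : ℝ)..2 * π, ‖fderiv ℝ w (q + pt ρ χ) (Complex.I * pt ρ χ)‖ ^ 2) +
      ∫ χ in (0 : ℝ)..2 * π, ‖fderiv ℝ h (q + pt ρ χ) (Complex.I * pt ρ χ)‖ ^ 2 := by
  rw [← intervalIntegral.integral_add]
  · refine intervalIntegral.integral_congr fun χ _ => ?_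
    simp only [psq, Real.norm_eq_abs, sq_abs]
  · exact ((cne_cder hw q ρ).norm.pow 2).intervalIntegrable _ _
  · exact ((cne_cder hh q ρ).norm.pow 2).intervalIntegrable _ _

/-- the circle stays close to its mean -/
private theorem cne_osc {w : ℂ → ℂ} {h : ℂ → ℝ} (hw : ContDiff ℝ ∞ w) (hh : ContDiff ℝ ∞ h)
    (q : ℂ) (ρ : ℝ) {χ : ℝ} (hχ : χ ∈ Icc 0 (2 * π)) :
    ‖w (q + pt ρ χ) - cne_m w q ρ‖ ^ 2 + (h (q + pt ρ χ) - cne_m h q ρ) ^ 2 ≤
      2 * π * ∫ χ in (0 : ℝ)..2 * π, psq w h (q + pt ρ χ) (Complex.I * pt ρ χ) := by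
  rw [cne_split hw hh, mul_add]
  have h1 := cne_dev (cne_der hw q ρ) (cne_cder hw q ρ) hχ
  have h2 := cne_dev (cne_der hh q ρ) (cne_cder hh q ρ) hχ
  have e : (h (q + pt ρ χ) - cne_m h q ρ) ^ 2 = ‖h (q + pt ρ χ) - cne_m h q ρ‖ ^ 2 := by
    rw [Real.norm_eq_abs, sq_abs]
  rw [e]
  exact add_le_add h1 h2

private theorem cne_wirt {g : ℂ → ℝ} (hg : ContDiff ℝ ∞ g) (q : ℂ) (ρ : ℝ) :
    ∫ χ in (0 : ℝ)..2 * π, (g (q + pt ρ χ) - cne_m g q ρ) ^ 2 ≤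
      ∫ χ in (0 : ℝ)..2 * π, (fderiv ℝ g (q + pt ρ χ) (Complex.I * pt ρ χ)) ^ 2 := by
  have hpi := Real.pi_pos
  have hcf : Continuous fun χ => g (q + pt ρ χ) :=
    continuous_iff_continuousAt.2 fun x => (cne_der hg q ρ x).continuousAt
  refine wirtinger (fun x => (cne_der hg q ρ x).sub_const _) (cne_cder hg q ρ) ?_ ?_
  · intro x
    simp only [pt_add_two_pi]
  · rw [intervalIntegral.integral_sub (hcf.intervalIntegrable _ _) intervalIntegrable_const,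
      intervalIntegral.integral_const, cne_m, sub_zero, smul_smul, mul_inv_cancel₀ (by positivity),
      one_smul, sub_self]

private theorem cne_re {w : ℂ → ℂ} (hw : ContDiff ℝ ∞ w) (L : ℂ →L[ℝ] ℝ) (q : ℂ) (ρ : ℝ) :
    cne_m (fun z => L (w z)) q ρ = L (cne_m w q ρ) := by
  have hcf : Continuous fun χ => w (q + pt ρ χ) :=
    continuous_iff_continuousAt.2 fun x => (cne_der hw q ρ x).continuousAt
  unfold cne_m
  rw [L.map_smul, L.intervalIntegral_comp_comm (hcf.intervalIntegrable _ _)]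

private theorem cne_fL {w : ℂ → ℂ} (hw : ContDiff ℝ ∞ w) (L : ℂ →L[ℝ] ℝ) (z v : ℂ) :
    fderiv ℝ (fun z => L (w z)) z v = L (fderiv ℝ w z v) := by
  have h1 : HasFDerivAt w (fderiv ℝ w z) z := (hw.differentiable (by simp) _).hasFDerivAt
  have h2 : HasFDerivAt (fun z => L (w z)) (L.comp (fderiv ℝ w z)) z := L.hasFDerivAt.comp z h1
  rw [h2.fderiv]
  rfl

private theorem cne_nsq (a : ℂ) : ‖a‖ ^ 2 = a.re ^ 2 + a.im ^ 2 := by
  rw [Complex.sq_norm, Complex.normSq_apply]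
  ring

private theorem cne_add3 {f g k : ℝ → ℝ} (hf : Continuous f) (hg : Continuous g)
    (hk : Continuous k) : ∫ x in (0 : ℝ)..2 * π, (f x + g x + k x) =
      (∫ x in (0 : ℝ)..2 * π, f x) + (∫ x in (0 : ℝ)..2 * π, g x) + ∫ x in (0 : ℝ)..2 * π, k x := by
  have h1 : Continuous fun x => f x + g x := hf.add hg
  rw [intervalIntegral.integral_add (h1.intervalIntegrable _ _)
    (hk.intervalIntegrable _ _), intervalIntegral.integral_add (hf.intervalIntegrable _ _)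
    (hg.intervalIntegrable _ _)]

/-- Wirtinger for the three components -/
private theorem cne_wirt3 {w : ℂ → ℂ} {h : ℂ → ℝ} (hw : ContDiff ℝ ∞ w) (hh : ContDiff ℝ ∞ h)
    (q : ℂ) (ρ : ℝ) :
    ∫ χ in (0 : ℝ)..2 * π, (‖w (q + pt ρ χ) - cne_m w q ρ‖ ^ 2 + (h (q + pt ρ χ) - cne_m h q ρ) ^ 2) ≤
      ∫ χ in (0 : ℝ)..2 * π, psq w h (q + pt ρ χ) (Complex.I * pt ρ χ) := by
  have hcw : Continuous fun χ => w (q + pt ρ χ) :=
    continuous_iff_continuousAt.2 fun x => (cne_der hw q ρ x).continuousAt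
  have hch : Continuous fun χ => h (q + pt ρ χ) :=
    continuous_iff_continuousAt.2 fun x => (cne_der hh q ρ x).continuousAt
  have h1 := cne_wirt (Complex.reCLM.contDiff.comp hw) q ρ
  have h2 := cne_wirt (Complex.imCLM.contDiff.comp hw) q ρ
  have h3 := cne_wirt hh q ρ
  have m1 := cne_re hw Complex.reCLM q ρ
  have m2 := cne_re hw Complex.imCLM q ρ
  have f1 := cne_fL hw Complex.reCLM
  have f2 := cne_fL hw Complex.imCLM
  have g1 : ∫ χ in (0 : ℝ)..2 * π, ((w (q + pt ρ χ)).re - (cne_m w q ρ).re) ^ 2 ≤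
      ∫ χ in (0 : ℝ)..2 * π, ((fderiv ℝ w (q + pt ρ χ) (Complex.I * pt ρ χ)).re) ^ 2 := by
    have : cne_m (Complex.reCLM ∘ w) q ρ = (cne_m w q ρ).re := m1
    rw [this] at h1
    refine h1.trans (le_of_eq ?_)
    refine intervalIntegral.integral_congr fun χ _ => ?_
    have := f1 (q + pt ρ χ) (Complex.I * pt ρ χ)
    change (fderiv ℝ (fun z => Complex.reCLM (w z)) (q + pt ρ χ) (Complex.I * pt ρ χ)) ^ 2 = _
    rw [this]
    rfl
  have g2 : ∫ χ in (0 : ℝ)..2 * π, ((w (q + pt ρ χ)).im - (cne_m w q ρ).im) ^ 2 ≤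
      ∫ χ in (0 : ℝ)..2 * π, ((fderiv ℝ w (q + pt ρ χ) (Complex.I * pt ρ χ)).im) ^ 2 := by
    have : cne_m (Complex.imCLM ∘ w) q ρ = (cne_m w q ρ).im := m2
    rw [this] at h2
    refine h2.trans (le_of_eq ?_)
    refine intervalIntegral.integral_congr fun χ _ => ?_
    have := f2 (q + pt ρ χ) (Complex.I * pt ρ χ)
    change (fderiv ℝ (fun z => Complex.imCLM (w z)) (q + pt ρ χ) (Complex.I * pt ρ χ)) ^ 2 = _
    rw [this]
    rfl
  have hcwr : Continuous fun χ => ((w (q + pt ρ χ)).re - (cne_m w q ρ).re) ^ 2 :=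
    ((Complex.continuous_re.comp hcw).sub continuous_const).pow 2
  have hcwi : Continuous fun χ => ((w (q + pt ρ χ)).im - (cne_m w q ρ).im) ^ 2 :=
    ((Complex.continuous_im.comp hcw).sub continuous_const).pow 2
  have hchh : Continuous fun χ => (h (q + pt ρ χ) - cne_m h q ρ) ^ 2 :=
    (hch.sub continuous_const).pow 2
  have hdr : Continuous fun χ => ((fderiv ℝ w (q + pt ρ χ) (Complex.I * pt ρ χ)).re) ^ 2 :=
    (Complex.continuous_re.comp (cne_cder hw q ρ)).pow 2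
  have hdi : Continuous fun χ => ((fderiv ℝ w (q + pt ρ χ) (Complex.I * pt ρ χ)).im) ^ 2 :=
    (Complex.continuous_im.comp (cne_cder hw q ρ)).pow 2
  have hdh : Continuous fun χ => (fderiv ℝ h (q + pt ρ χ) (Complex.I * pt ρ χ)) ^ 2 :=
    (cne_cder hh q ρ).pow 2
  have e1 : ∫ χ in (0 : ℝ)..2 * π, (‖w (q + pt ρ χ) - cne_m w q ρ‖ ^ 2 + (h (q + pt ρ χ) - cne_m h q ρ) ^ 2) =
      (∫ χ in (0 : ℝ)..2 * π, ((w (q + pt ρ χ)).re - (cne_m w q ρ).re) ^ 2) +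
      (∫ χ in (0 : ℝ)..2 * π, ((w (q + pt ρ χ)).im - (cne_m w q ρ).im) ^ 2) +
      ∫ χ in (0 : ℝ)..2 * π, (h (q + pt ρ χ) - cne_m h q ρ) ^ 2 := by
    rw [← cne_add3 hcwr hcwi hchh]
    refine intervalIntegral.integral_congr fun χ _ => ?_
    simp only [cne_nsq, Complex.sub_re, Complex.sub_im]
  have e2 : ∫ χ in (0 : ℝ)..2 * π, psq w h (q + pt ρ χ) (Complex.I * pt ρ χ) =
      (∫ χ in (0 : ℝ)..2 * π, ((fderiv ℝ w (q + pt ρ χ) (Complex.I * pt ρ χ)).re) ^ 2) +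
      (∫ χ in (0 : ℝ)..2 * π, ((fderiv ℝ w (q + pt ρ χ) (Complex.I * pt ρ χ)).im) ^ 2) +
      ∫ χ in (0 : ℝ)..2 * π, (fderiv ℝ h (q + pt ρ χ) (Complex.I * pt ρ χ)) ^ 2 := by
    rw [← cne_add3 hdr hdi hdh]
    refine intervalIntegral.integral_congr fun χ _ => ?_
    simp only [cne_nsq, psq]
  rw [e1, e2]
  exact add_le_add (add_le_add g1 g2) h3


/-- lower bound of the norm near a unit vector -/
private theorem cne_low {a m₁ : ℂ} {b m₂ τ δ : ℝ} (hu : ‖a‖ ^ 2 + b ^ 2 = 1) (h0 : 0 ≤ τ)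
    (h1 : τ ≤ 1) (hδ0 : 0 ≤ δ) (hδ1 : δ ≤ 1) (hd : ‖a - m₁‖ ^ 2 + (b - m₂) ^ 2 ≤ δ ^ 2) :
    (1 - δ) ^ 2 ≤ ‖m₁ + τ • (a - m₁)‖ ^ 2 + (m₂ + τ • (b - m₂)) ^ 2 := by
  rw [cne_nsq] at hu hd ⊢
  simp only [Complex.add_re, Complex.add_im, Complex.sub_re, Complex.sub_im, Complex.real_smul,
    Complex.mul_re, Complex.mul_im, Complex.ofReal_re, Complex.ofReal_im, smul_eq_mul, zero_mul,
    sub_zero, add_zero] at hd ⊢
  obtain ⟨e1, he1⟩ : ∃ e : ℝ, e = a.re - m₁.re := ⟨_, rfl⟩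
  obtain ⟨e2, he2⟩ : ∃ e : ℝ, e = a.im - m₁.im := ⟨_, rfl⟩
  obtain ⟨e3, he3⟩ : ∃ e : ℝ, e = b - m₂ := ⟨_, rfl⟩
  have k1 : m₁.re = a.re - e1 := by rw [he1]; ring
  have k2 : m₁.im = a.im - e2 := by rw [he2]; ring
  have k3 : m₂ = b - e3 := by rw [he3]; ring
  rw [k1, k2, k3] at hd ⊢
  obtain ⟨x, hx⟩ : ∃ x : ℝ, x = a.re := ⟨_, rfl⟩
  obtain ⟨y, hy⟩ : ∃ y : ℝ, y = a.im := ⟨_, rfl⟩
  rw [← hx, ← hy] at hd hu ⊢
  obtain ⟨S, hS⟩ : ∃ S : ℝ, S = x * e1 + y * e2 + b * e3 := ⟨_, rfl⟩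
  obtain ⟨D, hD⟩ : ∃ D : ℝ, D = e1 ^ 2 + e2 ^ 2 + e3 ^ 2 := ⟨_, rfl⟩
  have hD1 : D ≤ δ ^ 2 := by
    rw [hD]
    have : (x - (x - e1)) ^ 2 + (y - (y - e2)) ^ 2 + (b - (b - e3)) ^ 2 =
      e1 ^ 2 + e2 ^ 2 + e3 ^ 2 := by ring
    linarith
  have hSD : S ^ 2 ≤ D := by
    have e : (x ^ 2 + y ^ 2 + b ^ 2) * (e1 ^ 2 + e2 ^ 2 + e3 ^ 2) - S ^ 2 =
        (x * e2 - y * e1) ^ 2 + (x * e3 - b * e1) ^ 2 + (y * e3 - b * e2) ^ 2 := by
      rw [hS]
      ring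
    rw [hu, one_mul, ← hD] at e
    nlinarith [sq_nonneg (x * e2 - y * e1), sq_nonneg (x * e3 - b * e1),
      sq_nonneg (y * e3 - b * e2)]
  have hθ0 : 0 ≤ 1 - τ := by linarith
  have hθ1 : 1 - τ ≤ 1 := by linarith
  obtain ⟨θ, hθ⟩ : ∃ θ : ℝ, θ = 1 - τ := ⟨_, rfl⟩
  rw [← hθ] at hθ0 hθ1
  have hτ : τ = 1 - θ := by rw [hθ]; ring
  have e : (x - e1 + τ * (x - (x - e1))) ^ 2 + (y - e2 + τ * (y - (y - e2))) ^ 2 +
      (b - e3 + τ * (b - (b - e3))) ^ 2 = 1 - 2 * θ * S + θ ^ 2 * D := by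
    rw [hτ, hS, hD]
    linear_combination hu
  rw [e]
  have h2 : (1 - θ * S) ^ 2 ≤ 1 - 2 * θ * S + θ ^ 2 * D := by
    have := mul_le_mul_of_nonneg_left hSD (sq_nonneg θ)
    nlinarith
  refine le_trans ?_ h2
  have h3 : S ≤ δ := by
    have : S ^ 2 ≤ δ ^ 2 := hSD.trans hD1
    exact (abs_le_of_sq_le_sq' this hδ0).2
  have h4 : θ * S ≤ δ := by
    rcases le_total 0 S with h | h
    · calc θ * S ≤ 1 * S := mul_le_mul_of_nonneg_right hθ1 h
        _ ≤ δ := by linarith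
    · have : θ * S ≤ 0 := mul_nonpos_of_nonneg_of_nonpos hθ0 h
      linarith
  have h5 : 0 ≤ 1 - δ := by linarith
  exact pow_le_pow_left₀ h5 (by linarith) 2

private theorem cne_nrm_sq (a : ℂ) (t : ℝ) : nrm a t ^ 2 = ‖a‖ ^ 2 + t ^ 2 := by
  unfold nrm
  exact Real.sq_sqrt (by positivity)

private theorem cne_nrm_ge {a : ℂ} {t c : ℝ} (hc : 0 ≤ c) (h : c ^ 2 ≤ ‖a‖ ^ 2 + t ^ 2) :
    c ≤ nrm a t := by
  unfold nrm
  exact Real.le_sqrt_of_sq_le h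

/-- density of the cone at a point where the radius is frozen -/
private theorem cne_in {w : ℂ → ℂ} {h : ℂ → ℝ} (hw : ContDiff ℝ ∞ w) (hh : ContDiff ℝ ∞ h)
    (q : ℂ) {s' : ℝ} (m₁ : ℂ) (m₂ : ℝ) {τ κ : ℝ → ℝ} (hτ : ContDiff ℝ ∞ τ) (hκ : ContDiff ℝ ∞ κ) {ρ : ℝ}
    (hρ : 0 < ρ) (hκ1 : κ ρ = s') (hκ2 : deriv κ ρ = 0) (χ : ℝ) :
    psq (cone w q m₁ τ κ) (cone h q m₂ τ κ) (q + pt ρ χ) 1 +
      psq (cone w q m₁ τ κ) (cone h q m₂ τ κ) (q + pt ρ χ) Complex.I =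
    deriv τ ρ ^ 2 * (‖w (q + pt s' χ) - m₁‖ ^ 2 + (h (q + pt s' χ) - m₂) ^ 2) +
      τ ρ ^ 2 / ρ ^ 2 * psq w h (q + pt s' χ) (Complex.I * pt s' χ) := by
  rw [psq_polar _ _ _ hρ.ne']
  have h1 := cone_dr (m := m₁) (q := q) hw hτ hκ hρ χ
  have h2 := cone_dr (m := m₂) (q := q) hh hτ hκ hρ χ
  have h3 := cone_dchi (m := m₁) (q := q) hw hτ hκ hρ χ
  have h4 := cone_dchi (m := m₂) (q := q) hh hτ hκ hρ χ
  rw [hκ1, hκ2, mul_zero, zero_smul, add_zero] at h1 h2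
  rw [hκ1] at h3 h4
  unfold psq
  rw [h1, h2, h3, h4, norm_smul, norm_smul, smul_eq_mul, smul_eq_mul, mul_pow, mul_pow, mul_pow,
    mul_pow, Real.norm_eq_abs, Real.norm_eq_abs, sq_abs, sq_abs]
  ring

/-- density of the cone at a point where `τ = 1` -/
private theorem cne_out {w : ℂ → ℂ} {h : ℂ → ℝ} (hw : ContDiff ℝ ∞ w) (hh : ContDiff ℝ ∞ h)
    (q : ℂ) (m₁ : ℂ) (m₂ : ℝ) {τ κ : ℝ → ℝ} (hτ : ContDiff ℝ ∞ τ) (hκ : ContDiff ℝ ∞ κ) {ρ s C : ℝ}
    (hρ : 0 < ρ) (hρ2 : s / 2 ≤ ρ) (hs : 0 < s) (hτ1 : τ ρ = 1) (hτ2 : deriv τ ρ = 0)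
    (hκ0 : 0 ≤ κ ρ) (hκs : κ ρ ≤ s) (hκ1 : 0 ≤ deriv κ ρ) (hκ2 : deriv κ ρ ≤ 1)
    (hC : ∀ z v : ℂ, ‖z - q‖ ≤ s → ‖v‖ ≤ 1 → psq w h z v ≤ C) (χ : ℝ) :
    psq (cone w q m₁ τ κ) (cone h q m₂ τ κ) (q + pt ρ χ) 1 +
      psq (cone w q m₁ τ κ) (cone h q m₂ τ κ) (q + pt ρ χ) Complex.I ≤ 5 * C := by
  rw [psq_polar _ _ _ hρ.ne']
  have h1 := cone_dr (m := m₁) (q := q) hw hτ hκ hρ χ
  have h2 := cone_dr (m := m₂) (q := q) hh hτ hκ hρ χ
  have h3 := cone_dchi (m := m₁) (q := q) hw hτ hκ hρ χ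
  have h4 := cone_dchi (m := m₂) (q := q) hh hτ hκ hρ χ
  rw [hτ2, hτ1, zero_smul, zero_add, one_mul] at h1 h2
  rw [hτ1, one_smul] at h3 h4
  have hn : ‖q + pt (κ ρ) χ - q‖ ≤ s := by
    rw [add_sub_cancel_left, norm_pt, abs_of_nonneg hκ0]
    exact hκs
  have hA := hC (q + pt (κ ρ) χ) (er χ) hn (norm_er χ).le
  have hB := hC (q + pt (κ ρ) χ) (Complex.I * er χ) hn (by
    rw [norm_mul, Complex.norm_I, norm_er, one_mul])
  have hA0 := psq_nonneg w h (q + pt (κ ρ) χ) (er χ)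
  have hB0 := psq_nonneg w h (q + pt (κ ρ) χ) (Complex.I * er χ)
  have e1 : psq (cone w q m₁ τ κ) (cone h q m₂ τ κ) (q + pt ρ χ) (er χ) =
      deriv κ ρ ^ 2 * psq w h (q + pt (κ ρ) χ) (er χ) := by
    unfold psq
    rw [h1, h2, norm_smul, smul_eq_mul, mul_pow, mul_pow, Real.norm_eq_abs, sq_abs]
    ring
  have e2 : psq (cone w q m₁ τ κ) (cone h q m₂ τ κ) (q + pt ρ χ) (Complex.I * pt ρ χ) =
      κ ρ ^ 2 * psq w h (q + pt (κ ρ) χ) (Complex.I * er χ) := by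
    have e3 : Complex.I * pt (κ ρ) χ = ((κ ρ : ℝ) : ℂ) * (Complex.I * er χ) := by
      rw [pt_eq]
      ring
    rw [← psq_smul, ← e3]
    unfold psq
    rw [h3, h4]
  rw [e1, e2]
  have i1 : deriv κ ρ ^ 2 * psq w h (q + pt (κ ρ) χ) (er χ) ≤ 1 * C :=
    mul_le_mul (pow_le_one₀ hκ1 hκ2) hA hA0 zero_le_one
  have i2 : κ ρ ^ 2 * psq w h (q + pt (κ ρ) χ) (Complex.I * er χ) / ρ ^ 2 ≤ 4 * C := by
    rw [div_le_iff₀ (by positivity)]
    have j1 : κ ρ ^ 2 ≤ 4 * ρ ^ 2 := by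
      have : κ ρ ≤ 2 * ρ := by linarith
      nlinarith
    calc κ ρ ^ 2 * psq w h (q + pt (κ ρ) χ) (Complex.I * er χ) ≤ (4 * ρ ^ 2) * C :=
          mul_le_mul j1 hB hB0 (by positivity)
      _ = 4 * C * ρ ^ 2 := by ring
  linarith

private theorem cne_per {V : Type*} [NormedAddCommGroup V] [NormedSpace ℝ V] (f : ℂ → V) (q : ℂ)
    (ρ χ : ℝ) : ∫ t in (0 : ℝ)..2 * π, f (q + pt ρ (t + χ)) =
      ∫ t in (0 : ℝ)..2 * π, f (q + pt ρ t) := by
  have hper : Function.Periodic (fun t => f (q + pt ρ t)) (2 * π) := fun t => by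
    simp only [pt_add_two_pi]
  have h := hper.intervalIntegral_add_eq χ 0
  rw [zero_add] at h
  rw [← h, intervalIntegral.integral_comp_add_right (fun t => f (q + pt ρ t)) χ, zero_add,
    add_comm (2 * π) χ]

private theorem cne_per' {V : Type*} [NormedAddCommGroup V] [NormedSpace ℝ V] (f : ℂ → V) (q : ℂ)
    (ρ χ : ℝ) : ∫ t in (0 : ℝ)..2 * π, f (q + pt ρ (χ - t)) =
      ∫ t in (0 : ℝ)..2 * π, f (q + pt ρ t) := by
  have hper : Function.Periodic (fun t => f (q + pt ρ t)) (2 * π) := fun t => by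
    simp only [pt_add_two_pi]
  have h := hper.intervalIntegral_add_eq (χ - 2 * π) 0
  rw [zero_add, sub_add_cancel] at h
  rw [← h, intervalIntegral.integral_comp_sub_left (fun t => f (q + pt ρ t)) χ, sub_zero]

private theorem cne_er_add (a b : ℝ) : er (a + b) = er a * er b := by
  unfold er
  rw [← Complex.exp_add]
  congr 1
  push_cast
  ring

private theorem cne_unit {u : ℂ} (hu : ‖u‖ = 1) : ∃ θ : ℝ, u = er θ := by
  obtain ⟨χ, _, h⟩ := exists_pt u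
  refine ⟨χ, ?_⟩
  rw [hu, pt_eq] at h
  rw [h]
  simp

private theorem cne_rotm {w : ℂ → ℂ} (hw : ContDiff ℝ ∞ w) (q : ℂ) (ρ : ℝ) {u : ℂ} (hu : ‖u‖ = 1)
    (hs : ∀ z, w (q + u * z) = u * w (q + z)) : u * cne_m w q ρ = cne_m w q ρ := by
  obtain ⟨θ, rfl⟩ := cne_unit hu
  have hcf : Continuous fun χ => w (q + pt ρ χ) :=
    continuous_iff_continuousAt.2 fun x => (cne_der hw q ρ x).continuousAt
  unfold cne_m
  rw [mul_smul_comm, ← intervalIntegral.integral_const_mul, ← cne_per w q ρ θ]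
  congr 1
  refine intervalIntegral.integral_congr fun t _ => ?_
  change er θ * w (q + pt ρ t) = w (q + pt ρ (t + θ))
  rw [← hs]
  congr 2
  rw [pt_eq, pt_eq, cne_er_add]
  ring

private theorem cne_reflm {w : ℂ → ℂ} (hw : ContDiff ℝ ∞ w) (q : ℂ) (ρ : ℝ) {u : ℂ} (hu : ‖u‖ = 1)
    (hs : ∀ z, w (q + u * star z) = u * star (w (q + z))) :
    u * star (cne_m w q ρ) = cne_m w q ρ := by
  obtain ⟨θ, rfl⟩ := cne_unit hu
  have hcf : Continuous fun χ => w (q + pt ρ χ) :=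
    continuous_iff_continuousAt.2 fun x => (cne_der hw q ρ x).continuousAt
  unfold cne_m
  have e0 : star ((2 * π)⁻¹ • ∫ t in (0 : ℝ)..2 * π, w (q + pt ρ t)) =
      (2 * π)⁻¹ • ∫ t in (0 : ℝ)..2 * π, star (w (q + pt ρ t)) := by
    have h1 := (Complex.conjCLE : ℂ →L[ℝ] ℂ).intervalIntegral_comp_comm
      (hcf.intervalIntegrable (μ := volume) 0 (2 * π))
    have h2 : (∫ t in (0 : ℝ)..2 * π, star (w (q + pt ρ t))) =
        star (∫ t in (0 : ℝ)..2 * π, w (q + pt ρ t)) := h1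
    rw [h2, star_smul]
    simp
  rw [e0, mul_smul_comm, ← intervalIntegral.integral_const_mul, ← cne_per' w q ρ θ]
  congr 1
  refine intervalIntegral.integral_congr fun t _ => ?_
  change er θ * star (w (q + pt ρ t)) = w (q + pt ρ (θ - t))
  rw [← hs]
  congr 2
  rw [star_pt, pt_eq, pt_eq, sub_eq_add_neg, cne_er_add]
  ring


/-- the bound of the energy of the competitor -/
private theorem cne_energy {G : ℝ → ℝ} (hG : Continuous G) {s η K B : ℝ} (hs : 0 < s)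
    (hη : 0 < η) (hη2 : 2 * η < s)
    (h1 : ∀ ρ, 0 < ρ → ρ < s - 2 * η → G ρ ≤ K * (2 * ρ / s ^ 2)) (hK : 0 ≤ K)
    (h2 : ∀ ρ, s - 2 * η < ρ → ρ < s → G ρ ≤ B) : ∫ ρ in (0 : ℝ)..s, G ρ ≤ K + 2 * η * B := by
  have e1 : ∫ ρ in (0 : ℝ)..s, G ρ = (∫ ρ in (0 : ℝ)..(s - 2 * η), G ρ) + ∫ ρ in (s - 2 * η)..s, G ρ :=
    (intervalIntegral.integral_add_adjacent_intervals (hG.intervalIntegrable _ _)
      (hG.intervalIntegrable _ _)).symm
  have hc : Continuous fun ρ : ℝ => K * (2 * ρ / s ^ 2) := by fun_prop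
  have i1 : ∫ ρ in (0 : ℝ)..(s - 2 * η), G ρ ≤ ∫ ρ in (0 : ℝ)..(s - 2 * η), K * (2 * ρ / s ^ 2) := by
    refine intervalIntegral.integral_mono_on_of_le_Ioo (by linarith) (hG.intervalIntegrable _ _)
      (hc.intervalIntegrable _ _) fun ρ hρ => h1 ρ hρ.1 hρ.2
  have i2 : ∫ ρ in (s - 2 * η)..s, G ρ ≤ ∫ ρ in (s - 2 * η)..s, B := by
    refine intervalIntegral.integral_mono_on_of_le_Ioo (by linarith) (hG.intervalIntegrable _ _)
      intervalIntegrable_const fun ρ hρ => h2 ρ hρ.1 hρ.2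
  have e2 : ∫ ρ in (0 : ℝ)..(s - 2 * η), K * (2 * ρ / s ^ 2) = K * ((s - 2 * η) ^ 2 / s ^ 2) := by
    have e : ∀ ρ : ℝ, K * (2 * ρ / s ^ 2) = (K * 2 / s ^ 2) * ρ := fun ρ => by ring
    simp_rw [e]
    rw [intervalIntegral.integral_const_mul, integral_id]
    ring
  rw [intervalIntegral.integral_const, smul_eq_mul] at i2
  have i3 : K * ((s - 2 * η) ^ 2 / s ^ 2) ≤ K * 1 := by
    refine mul_le_mul_of_nonneg_left ?_ hK
    rw [div_le_one (by positivity)]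
    exact pow_le_pow_left₀ (by linarith) (by linarith) 2
  rw [e1]
  rw [e2] at i1
  linarith

private theorem cne_tau {τ₀ : ℝ → ℝ} (t1 : ContDiff ℝ ∞ τ₀) (s x : ℝ) :
    deriv (fun x => τ₀ (x / s)) x = deriv τ₀ (x / s) / s := by
  have h1 : HasDerivAt (fun x : ℝ => x / s) (1 / s) x := (hasDerivAt_id x).div_const s
  have h2 : HasDerivAt τ₀ (deriv τ₀ (x / s)) (x / s) := (t1.differentiable (by simp) _).hasDerivAt
  have h3 : HasDerivAt (fun x => τ₀ (x / s)) (deriv τ₀ (x / s) * (1 / s)) x := h2.comp x h1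
  rw [h3.deriv]
  ring

private theorem cne_tau_le {τ₀ : ℝ → ℝ} (t1 : ContDiff ℝ ∞ τ₀) {ε : ℝ} (h0 : τ₀ 0 = 0)
    (t5 : ∀ x, 0 ≤ deriv τ₀ x ∧ deriv τ₀ x ≤ 1 + ε) {x : ℝ} (hx : 0 ≤ x) :
    τ₀ x ≤ (1 + ε) * x := by
  have hd : Differentiable ℝ τ₀ := t1.differentiable (by simp)
  have h1 := (convex_univ (𝕜 := ℝ) (E := ℝ)).image_sub_le_mul_sub_of_deriv_le hd.continuous.continuousOn
    (by simpa using hd.differentiableOn) (C := 1 + ε) (fun y _ => (t5 y).2) 0 (mem_univ _) x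
    (mem_univ _) hx
  rw [h0, sub_zero, sub_zero] at h1
  exact h1

private theorem cne_deriv_zero {f : ℝ → ℝ} {c b x : ℝ} (h : ∀ y, y ≤ b → f y = c) (hx : x < b) :
    deriv f x = 0 := by
  have : f =ᶠ[𝓝 x] fun _ => c := by
    filter_upwards [Iio_mem_nhds hx] with y hy
    exact h y hy.le
  rw [this.deriv_eq, deriv_const]

private theorem cne_deriv_zero' {f : ℝ → ℝ} {c b x : ℝ} (h : ∀ y, b ≤ y → f y = c) (hx : b < x) :
    deriv f x = 0 := by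
  have : f =ᶠ[𝓝 x] fun _ => c := by
    filter_upwards [Ioi_mem_nhds hx] with y hy
    exact h y hy.le
  rw [this.deriv_eq, deriv_const]

/-- bound of the derivatives on a disc -/
private theorem cne_bd {w : ℂ → ℂ} {h : ℂ → ℝ} (hw : ContDiff ℝ ∞ w) (hh : ContDiff ℝ ∞ h) (q : ℂ)
    (s : ℝ) : ∃ C : ℝ, 0 ≤ C ∧ ∀ z v : ℂ, ‖z - q‖ ≤ s → ‖v‖ ≤ 1 → psq w h z v ≤ C := by
  have hK : IsCompact (Metric.closedBall q s ×ˢ Metric.closedBall (0 : ℂ) 1) :=
    (isCompact_closedBall _ _).prod (isCompact_closedBall _ _)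
  obtain ⟨C, hC⟩ := hK.exists_bound_of_continuousOn (continuous_psq hw hh).continuousOn
  refine ⟨max C 0, le_max_right _ _, fun z v hz hv => ?_⟩
  have := hC (z, v) ⟨by rw [mem_closedBall_iff_norm]; exact hz, by
    rw [mem_closedBall_iff_norm, sub_zero]; exact hv⟩
  rw [Real.norm_eq_abs] at this
  exact (le_abs_self _).trans (this.trans (le_max_left _ _))

/-- choice of the width of the freezing zone -/
private theorem cne_eta {Qf mf : ℝ → ℝ} (h1 : Continuous Qf) (h2 : Continuous mf) {s A B ε : ℝ}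
    (hA : 0 < A) (hε : 0 < ε) : ∃ η : ℝ, 0 < η ∧ 2 * η < A ∧ 2 * η * B ≤ ε / 2 ∧
      |Qf (s - η) - Qf s| < min (ε / 2) (1 / 1000000) ∧ |mf (s - η) - mf s| < 1 / 4 := by
  have g1 : Tendsto (fun η : ℝ => 2 * η) (𝓝[>] 0) (𝓝 0) := by
    have : Continuous fun η : ℝ => 2 * η := by fun_prop
    have h := this.tendsto 0
    rw [mul_zero] at h
    exact h.mono_left nhdsWithin_le_nhds
  have g2 : Tendsto (fun η : ℝ => 2 * η * B) (𝓝[>] 0) (𝓝 0) := by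
    have : Continuous fun η : ℝ => 2 * η * B := by fun_prop
    have h := this.tendsto 0
    rw [mul_zero, zero_mul] at h
    exact h.mono_left nhdsWithin_le_nhds
  have g3 : Tendsto (fun η : ℝ => |Qf (s - η) - Qf s|) (𝓝[>] 0) (𝓝 0) := by
    have : Continuous fun η : ℝ => |Qf (s - η) - Qf s| :=
      ((h1.comp (continuous_const.sub continuous_id)).sub continuous_const).abs
    have h := this.tendsto 0
    rw [sub_zero, sub_self, abs_zero] at h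
    exact h.mono_left nhdsWithin_le_nhds
  have g4 : Tendsto (fun η : ℝ => |mf (s - η) - mf s|) (𝓝[>] 0) (𝓝 0) := by
    have : Continuous fun η : ℝ => |mf (s - η) - mf s| :=
      ((h2.comp (continuous_const.sub continuous_id)).sub continuous_const).abs
    have h := this.tendsto 0
    rw [sub_zero, sub_self, abs_zero] at h
    exact h.mono_left nhdsWithin_le_nhds
  have e1 := g1.eventually (gt_mem_nhds hA)
  have e2 := g2.eventually (gt_mem_nhds (half_pos hε))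
  have e3 := g3.eventually (gt_mem_nhds (lt_min (half_pos hε) (by norm_num : (0 : ℝ) < 1 / 1000000)))
  have e4 := g4.eventually (gt_mem_nhds (by norm_num : (0 : ℝ) < 1 / 4))
  have e0 : ∀ᶠ η : ℝ in 𝓝[>] 0, 0 < η := self_mem_nhdsWithin
  obtain ⟨η, h⟩ := ((e0.and e1).and (e2.and (e3.and e4))).exists
  exact ⟨η, h.1.1, h.1.2, h.2.1.le, h.2.2.1, h.2.2.2⟩

theorem cone_lemma {w : ℂ → ℂ} {h : ℂ → ℝ} (hw : ContDiff ℝ ∞ w) (hh : ContDiff ℝ ∞ h)
    (hu : ∀ z, ‖w z‖ ^ 2 + h z ^ 2 = 1) (q : ℂ) {s Q ε : ℝ} (hs : 0 < s)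
    (hQ : ∫ χ in (0 : ℝ)..2 * π, psq w h (q + pt s χ) (Complex.I * pt s χ) = Q)
    (hQ1 : Q ≤ 1 / 10000) (hε : 0 < ε) :
    ∃ (w' : ℂ → ℂ) (h' : ℂ → ℝ), ContDiff ℝ ∞ w' ∧ ContDiff ℝ ∞ h' ∧
      (∀ z, ‖w' z‖ ^ 2 + h' z ^ 2 = 1) ∧
      (∀ z, s ≤ ‖z - q‖ → w' z = w z ∧ h' z = h z) ∧
      (1 / 2 * ∫ z in Metric.ball q s, (psq w' h' z 1 + psq w' h' z Complex.I) ≤
        11 / 20 * Q + ε) ∧
      (∀ u : ℂ, ‖u‖ = 1 → (∀ z, w (q + u * z) = u * w (q + z) ∧ h (q + u * z) = h (q + z)) →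
        ∀ z, w' (q + u * z) = u * w' (q + z) ∧ h' (q + u * z) = h' (q + z)) ∧
      (∀ u : ℂ, ‖u‖ = 1 →
        (∀ z, w (q + u * star z) = u * star (w (q + z)) ∧ h (q + u * star z) = h (q + z)) →
        ∀ z, w' (q + u * star z) = u * star (w' (q + z)) ∧ h' (q + u * star z) = h' (q + z)) ∧
      (∀ σ : ℝ, σ = 1 ∨ σ = -1 → (∀ χ, 1 / 2 ≤ σ * h (q + pt s χ)) → 0 < σ * h' q) := by
  have hpi := Real.pi_pos
  have hpi4 : π < 3.1416 := Real.pi_lt_d4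
  obtain ⟨a, ha0, ha1, _, τ₀, t1, t2, t3, t4, t5⟩ := step (show (0 : ℝ) < 1 / 50 by norm_num)
  obtain ⟨Qf, hQf⟩ : ∃ Qf : ℝ → ℝ, Qf = fun ρ =>
    ∫ χ in (0 : ℝ)..2 * π, psq w h (q + pt ρ χ) (Complex.I * pt ρ χ) := ⟨_, rfl⟩
  have hQf' : ∀ ρ, Qf ρ = ∫ χ in (0 : ℝ)..2 * π, psq w h (q + pt ρ χ) (Complex.I * pt ρ χ) :=
    fun ρ => by rw [hQf]
  have hQc : Continuous Qf := by
    rw [hQf]
    exact intervalIntegral.continuous_parametric_intervalIntegral_of_continuous'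
      (cne_cpsq hw hh q) 0 (2 * π)
  have hQs : Qf s = Q := by rw [hQf', hQ]
  have hQn : ∀ ρ, 0 ≤ Qf ρ := fun ρ => by
    rw [hQf']
    exact intervalIntegral.integral_nonneg (by positivity) fun χ _ => psq_nonneg _ _ _ _
  have hmc : Continuous fun ρ => cne_m h q ρ := by
    have h1 := continuous_circle h hh.continuous q 0 (2 * π)
    exact continuous_const.mul h1
  obtain ⟨C, hC0, hC⟩ := cne_bd hw hh q s
  obtain ⟨η, hη0, hη1, hη2, hη3, hη4⟩ := cne_eta hQc hmc (s := s) (A := a * s)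
    (B := s * (2 * π * (5 * C))) (mul_pos ha0 hs) hε
  rw [hQs] at hη3
  have has : a * s < s := by nlinarith
  have h2ηs : 2 * η < s / 4 := by nlinarith
  obtain ⟨κ, k1, k2, k3, k4, k5⟩ := frz (s := s) hη0 (by linarith)
  obtain ⟨s', hs'⟩ : ∃ s' : ℝ, s' = s - η := ⟨_, rfl⟩
  rw [← hs'] at hη3 hη4
  have hQ' : Qf s' ≤ Q + min (ε / 2) (1 / 1000000) := by linarith [(abs_lt.1 hη3).2]
  have hQ'1 : Qf s' ≤ Q + ε / 2 := hQ'.trans (by linarith [min_le_left (ε / 2) (1 / 1000000 : ℝ)])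
  have hQ'2 : Qf s' ≤ 101 / 1000000 := by
    have := min_le_right (ε / 2) (1 / 1000000 : ℝ)
    linarith
  obtain ⟨τ, hτ⟩ : ∃ τ : ℝ → ℝ, τ = fun x => τ₀ (x / s) := ⟨_, rfl⟩
  have hτ' : ∀ x, τ x = τ₀ (x / s) := fun x => by rw [hτ]
  have hτs : ContDiff ℝ ∞ τ := by
    rw [hτ]
    exact t1.comp (contDiff_id.div_const s)
  have hτ0 : ∀ x, x ≤ a * s → τ x = 0 := fun x hx => by
    rw [hτ']
    exact t2 _ (by rw [div_le_iff₀ hs]; exact hx)
  have hτ1 : ∀ x, (1 - a) * s ≤ x → τ x = 1 := fun x hx => by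
    rw [hτ']
    exact t3 _ (by rw [le_div_iff₀ hs]; exact hx)
  have hτb : ∀ x, 0 ≤ τ x ∧ τ x ≤ 1 := fun x => by
    rw [hτ']
    exact t4 _
  have hτη : (1 - a) * s < s - 2 * η := by linarith
  obtain ⟨m₁, hm₁⟩ : ∃ m : ℂ, m = cne_m w q s' := ⟨_, rfl⟩
  obtain ⟨m₂, hm₂⟩ : ∃ m : ℝ, m = cne_m h q s' := ⟨_, rfl⟩
  obtain ⟨F, hF⟩ : ∃ F : ℂ → ℂ, F = cone w q m₁ τ κ := ⟨_, rfl⟩
  obtain ⟨H, hH⟩ : ∃ H : ℂ → ℝ, H = cone h q m₂ τ κ := ⟨_, rfl⟩
  have hFs : ContDiff ℝ ∞ F := by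
    rw [hF]
    exact cone_smooth hw hτs k1 (mul_pos ha0 hs) hτ0
  have hHs : ContDiff ℝ ∞ H := by
    rw [hH]
    exact cone_smooth hh hτs k1 (mul_pos ha0 hs) hτ0
  -- closeness to the mean
  have hdev : ∀ χ ∈ Icc (0 : ℝ) (2 * π), ‖w (q + pt s' χ) - m₁‖ ^ 2 + (h (q + pt s' χ) - m₂) ^ 2 ≤
      (26 / 1000 : ℝ) ^ 2 := by
    intro χ hχ
    have h1 := cne_osc hw hh q s' hχ
    rw [← hm₁, ← hm₂, ← hQf'] at h1
    refine h1.trans ?_
    calc 2 * π * Qf s' ≤ 2 * 3.1416 * (101 / 1000000) := by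
          apply mul_le_mul _ hQ'2 (hQn _) (by norm_num)
          linarith
      _ ≤ (26 / 1000 : ℝ) ^ 2 := by norm_num
  -- the point in polar coordinates
  have hz : ∀ z : ℂ, z ≠ q → ∃ χ ∈ Icc (0 : ℝ) (2 * π), z = q + pt ‖z - q‖ χ ∧ 0 < ‖z - q‖ := by
    intro z hzq
    obtain ⟨χ, hχ, h1⟩ := exists_pt (z - q)
    refine ⟨χ, ⟨hχ.1, hχ.2.le⟩, ?_, norm_pos_iff.2 (sub_ne_zero.2 hzq)⟩
    rw [← h1]
    ring
  have hFpt : ∀ ρ χ, 0 < ρ → F (q + pt ρ χ) = m₁ + τ ρ • (w (q + pt (κ ρ) χ) - m₁) := by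
    intro ρ χ hρ
    rw [hF]
    exact cone_pt w q m₁ τ κ hρ χ
  have hHpt : ∀ ρ χ, 0 < ρ → H (q + pt ρ χ) = m₂ + τ ρ • (h (q + pt (κ ρ) χ) - m₂) := by
    intro ρ χ hρ
    rw [hH]
    exact cone_pt h q m₂ τ κ hρ χ
  have hlow1 : ∀ ρ χ, 0 < ρ → χ ∈ Icc (0 : ℝ) (2 * π) → ρ ≤ s - 2 * η →
      (1 - 26 / 1000 : ℝ) ^ 2 ≤ ‖F (q + pt ρ χ)‖ ^ 2 + H (q + pt ρ χ) ^ 2 := by
    intro ρ χ hρ hχ hρ2
    rw [hFpt ρ χ hρ, hHpt ρ χ hρ, k3 ρ hρ2, ← hs']
    exact cne_low (hu _) (hτb ρ).1 (hτb ρ).2 (by norm_num) (by norm_num) (hdev χ hχ)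
  have hlow2 : ∀ ρ χ, 0 < ρ → s - 2 * η ≤ ρ → ‖F (q + pt ρ χ)‖ ^ 2 + H (q + pt ρ χ) ^ 2 = 1 := by
    intro ρ χ hρ hρ2
    rw [hFpt ρ χ hρ, hHpt ρ χ hρ, hτ1 ρ (by linarith), one_smul, one_smul, add_sub_cancel,
      add_sub_cancel]
    exact hu _
  have hFq : F q = m₁ := by
    rw [hF]
    refine cone_eq_const (hτ0 _ ?_)
    rw [sub_self, norm_zero]
    exact (mul_pos ha0 hs).le
  have hHq : H q = m₂ := by
    rw [hH]
    refine cone_eq_const (hτ0 _ ?_)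
    rw [sub_self, norm_zero]
    exact (mul_pos ha0 hs).le
  have hlow : ∀ z, (1 - 26 / 1000 : ℝ) ^ 2 ≤ ‖F z‖ ^ 2 + H z ^ 2 := by
    intro z
    by_cases hzq : z = q
    · rw [hzq, hFq, hHq]
      have h1 := cne_low (τ := 0) (hu (q + pt s' 0)) le_rfl zero_le_one (by norm_num) (by norm_num)
        (hdev 0 ⟨le_rfl, by positivity⟩)
      rw [zero_smul, zero_smul, add_zero, add_zero] at h1
      exact h1
    · obtain ⟨χ, hχ, e, hpos⟩ := hz z hzq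
      rcases le_total ‖z - q‖ (s - 2 * η) with hle | hle
      · rw [e]
        exact hlow1 _ _ hpos hχ hle
      · rw [e, hlow2 _ _ hpos hle]
        norm_num
  have hnge : ∀ z, (1 - 26 / 1000 : ℝ) ≤ nrm (F z) (H z) := fun z =>
    cne_nrm_ge (by norm_num) (hlow z)
  have hn0 : ∀ z, 0 < nrm (F z) (H z) := fun z => lt_of_lt_of_le (by norm_num) (hnge z)
  obtain ⟨n1, n2, n3, n4⟩ := normalise hFs hHs hn0
  obtain ⟨w', hw'⟩ : ∃ w' : ℂ → ℂ, w' = fun z => ((nrm (F z) (H z))⁻¹ : ℂ) * F z := ⟨_, rfl⟩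
  obtain ⟨h', hh'⟩ : ∃ h' : ℂ → ℝ, h' = fun z => (nrm (F z) (H z))⁻¹ * H z := ⟨_, rfl⟩
  rw [← hw'] at n1
  rw [← hh'] at n2
  rw [← hw', ← hh'] at n4
  have hw'z : ∀ z, w' z = ((nrm (F z) (H z))⁻¹ : ℂ) * F z := fun z => by rw [hw']
  have hh'z : ∀ z, h' z = (nrm (F z) (H z))⁻¹ * H z := fun z => by rw [hh']
  refine ⟨w', h', n1, n2, fun z => ?_, ?_, ?_, ?_, ?_, ?_⟩
  · rw [hw'z, hh'z]
    exact n3 z
  · -- agreement outside
    intro z hzs
    have hzq : z ≠ q := by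
      rintro rfl
      rw [sub_self, norm_zero] at hzs
      linarith
    have e1 : F z = w z := by
      rw [hF]
      exact cone_eq_self (hτ1 _ (by nlinarith)) (k2 _ hzs) hzq
    have e2 : H z = h z := by
      rw [hH]
      exact cone_eq_self (hτ1 _ (by nlinarith)) (k2 _ hzs) hzq
    have e3 : nrm (F z) (H z) = 1 := by
      rw [e1, e2]
      unfold nrm
      rw [hu, Real.sqrt_one]
    rw [hw'z, hh'z, e3, e1, e2]
    simp
  · -- energy
    have hVc : Continuous fun z => psq w' h' z 1 + psq w' h' z Complex.I := by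
      have hc := continuous_psq n1 n2
      exact (hc.comp (continuous_id.prodMk continuous_const)).add
        (hc.comp (continuous_id.prodMk continuous_const))
    rw [polar_ball _ hVc q hs.le]
    have hGc : Continuous fun r => r * ∫ χ in (0 : ℝ)..2 * π,
        (psq w' h' (q + pt r χ) 1 + psq w' h' (q + pt r χ) Complex.I) :=
      continuous_id.mul (continuous_circle _ hVc q 0 (2 * π))
    have hVcr : ∀ r, Continuous fun χ => psq w' h' (q + pt r χ) 1 + psq w' h' (q + pt r χ) Complex.I := by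
      intro r
      have h0 : Continuous fun χ : ℝ => pt r χ := continuous_pt.comp (Continuous.prodMk_right r)
      exact hVc.comp (continuous_const.add h0)
    have key := cne_energy hGc (K := 11 / 10 * Qf s') (B := s * (2 * π * (5 * C))) hs hη0
      (by linarith) ?_ (mul_nonneg (by norm_num) (hQn _)) ?_
    · have : 1 / 2 * (11 / 10 * Qf s' + 2 * η * (s * (2 * π * (5 * C)))) ≤ 11 / 20 * Q + ε := by
        linarith
      linarith
    · -- inner part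
      intro ρ hρ0 hρ1
      have hdk : deriv κ ρ = 0 := cne_deriv_zero k3 hρ1
      have hle : ∀ χ ∈ Icc (0 : ℝ) (2 * π),
          psq w' h' (q + pt ρ χ) 1 + psq w' h' (q + pt ρ χ) Complex.I ≤
          (1 - 26 / 1000 : ℝ)⁻¹ ^ 2 * (deriv τ ρ ^ 2 * (‖w (q + pt s' χ) - m₁‖ ^ 2 + (h (q + pt s' χ) - m₂) ^ 2) +
      τ ρ ^ 2 / ρ ^ 2 * psq w h (q + pt s' χ) (Complex.I * pt s' χ)) := by
        intro χ _
        have e := cne_in hw hh q m₁ m₂ hτs k1 hρ0 (k3 ρ hρ1.le) hdk χ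
        rw [← hF, ← hH, ← hs'] at e
        rw [← e]
        have i1 := n4 (q + pt ρ χ) 1
        have i2 := n4 (q + pt ρ χ) Complex.I
        have i3 := hnge (q + pt ρ χ)
        have p1 := psq_nonneg F H (q + pt ρ χ) 1
        have p2 := psq_nonneg F H (q + pt ρ χ) Complex.I
        have i4 : ∀ P : ℝ, 0 ≤ P → P / nrm (F (q + pt ρ χ)) (H (q + pt ρ χ)) ^ 2 ≤
            (1 - 26 / 1000 : ℝ)⁻¹ ^ 2 * P := by
          intro P hP
          rw [inv_pow, div_eq_inv_mul]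
          refine mul_le_mul_of_nonneg_right ?_ hP
          exact inv_anti₀ (by norm_num) (pow_le_pow_left₀ (by norm_num) i3 2)
        have i5 := i4 _ p1
        have i6 := i4 _ p2
        rw [mul_add]
        linarith
      have hcw : Continuous fun χ => w (q + pt s' χ) :=
        continuous_iff_continuousAt.2 fun x => (cne_der hw q s' x).continuousAt
      have hch : Continuous fun χ => h (q + pt s' χ) :=
        continuous_iff_continuousAt.2 fun x => (cne_der hh q s' x).continuousAt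
      have hc1 : Continuous fun χ => ‖w (q + pt s' χ) - m₁‖ ^ 2 + (h (q + pt s' χ) - m₂) ^ 2 :=
        ((hcw.sub continuous_const).norm.pow 2).add ((hch.sub continuous_const).pow 2)
      have hc2 := cne_cpsq' hw hh q s'
      have hcR : Continuous fun χ => (1 - 26 / 1000 : ℝ)⁻¹ ^ 2 * (deriv τ ρ ^ 2 *
          (‖w (q + pt s' χ) - m₁‖ ^ 2 + (h (q + pt s' χ) - m₂) ^ 2) +
          τ ρ ^ 2 / ρ ^ 2 * psq w h (q + pt s' χ) (Complex.I * pt s' χ)) :=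
        continuous_const.mul ((continuous_const.mul hc1).add (continuous_const.mul hc2))
      have hmono := intervalIntegral.integral_mono_on (μ := volume)
        (by positivity : (0 : ℝ) ≤ 2 * π) ((hVcr ρ).intervalIntegrable 0 (2 * π))
        (hcR.intervalIntegrable 0 (2 * π)) hle
      have heq : ∫ χ in (0 : ℝ)..2 * π, (1 - 26 / 1000 : ℝ)⁻¹ ^ 2 * (deriv τ ρ ^ 2 *
          (‖w (q + pt s' χ) - m₁‖ ^ 2 + (h (q + pt s' χ) - m₂) ^ 2) +
          τ ρ ^ 2 / ρ ^ 2 * psq w h (q + pt s' χ) (Complex.I * pt s' χ)) =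
          (1 - 26 / 1000 : ℝ)⁻¹ ^ 2 * (deriv τ ρ ^ 2 * (∫ χ in (0 : ℝ)..2 * π,
            (‖w (q + pt s' χ) - m₁‖ ^ 2 + (h (q + pt s' χ) - m₂) ^ 2)) + τ ρ ^ 2 / ρ ^ 2 * Qf s') := by
        have hca : Continuous fun χ => deriv τ ρ ^ 2 *
          (‖w (q + pt s' χ) - m₁‖ ^ 2 + (h (q + pt s' χ) - m₂) ^ 2) := continuous_const.mul hc1
        have hcb : Continuous fun χ => τ ρ ^ 2 / ρ ^ 2 * psq w h (q + pt s' χ) (Complex.I * pt s' χ) :=
          continuous_const.mul hc2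
        rw [intervalIntegral.integral_const_mul, intervalIntegral.integral_add
          (hca.intervalIntegrable _ _) (hcb.intervalIntegrable _ _),
          intervalIntegral.integral_const_mul, intervalIntegral.integral_const_mul, hQf']
      rw [heq] at hmono
      have hW := cne_wirt3 hw hh q s'
      rw [← hm₁, ← hm₂, ← hQf'] at hW
      have hdτ : deriv τ ρ = deriv τ₀ (ρ / s) / s := by
        rw [hτ]
        exact cne_tau t1 s ρ
      have hd1 : deriv τ ρ ^ 2 ≤ (51 / 50) ^ 2 / s ^ 2 := by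
        rw [hdτ, div_pow]
        refine div_le_div_of_nonneg_right ?_ (by positivity)
        refine pow_le_pow_left₀ (t5 _).1 ?_ 2
        have := (t5 (ρ / s)).2
        linarith
      have hd2 : τ ρ ^ 2 / ρ ^ 2 ≤ (51 / 50) ^ 2 / s ^ 2 := by
        have h1 : τ ρ ≤ 51 / 50 * (ρ / s) := by
          rw [hτ']
          have := cne_tau_le t1 (t2 0 ha0.le) t5 (x := ρ / s) (by positivity)
          linarith
        rw [div_le_iff₀ (by positivity)]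
        calc τ ρ ^ 2 ≤ (51 / 50 * (ρ / s)) ^ 2 := pow_le_pow_left₀ (hτb ρ).1 h1 2
          _ = (51 / 50) ^ 2 / s ^ 2 * ρ ^ 2 := by ring
      have hd3 : deriv τ ρ ^ 2 * (∫ χ in (0 : ℝ)..2 * π,
            (‖w (q + pt s' χ) - m₁‖ ^ 2 + (h (q + pt s' χ) - m₂) ^ 2)) ≤ (51 / 50) ^ 2 / s ^ 2 * Qf s' := by
        refine mul_le_mul hd1 hW ?_ (by positivity)
        exact intervalIntegral.integral_nonneg (by positivity) fun χ _ => by positivity
      have hd4 : τ ρ ^ 2 / ρ ^ 2 * Qf s' ≤ (51 / 50) ^ 2 / s ^ 2 * Qf s' :=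
        mul_le_mul_of_nonneg_right hd2 (hQn _)
      have hd5 : (1 - 26 / 1000 : ℝ)⁻¹ ^ 2 * (deriv τ ρ ^ 2 * (∫ χ in (0 : ℝ)..2 * π,
            (‖w (q + pt s' χ) - m₁‖ ^ 2 + (h (q + pt s' χ) - m₂) ^ 2)) + τ ρ ^ 2 / ρ ^ 2 * Qf s') ≤
          (1 - 26 / 1000 : ℝ)⁻¹ ^ 2 * (2 * ((51 / 50) ^ 2 / s ^ 2 * Qf s')) :=
        mul_le_mul_of_nonneg_left (by linarith) (by positivity)
      have hd6 : (1 - 26 / 1000 : ℝ)⁻¹ ^ 2 * (2 * ((51 / 50) ^ 2 / s ^ 2 * Qf s')) ≤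
          11 / 10 * Qf s' * (2 / s ^ 2) := by
        have e : (1 - 26 / 1000 : ℝ)⁻¹ ^ 2 * (2 * ((51 / 50) ^ 2 / s ^ 2 * Qf s')) =
            ((1 - 26 / 1000 : ℝ)⁻¹ ^ 2 * (51 / 50) ^ 2) * (Qf s' * (2 / s ^ 2)) := by ring
        have e2 : 11 / 10 * Qf s' * (2 / s ^ 2) = 11 / 10 * (Qf s' * (2 / s ^ 2)) := by ring
        rw [e, e2]
        refine mul_le_mul_of_nonneg_right (by norm_num) (mul_nonneg (hQn _) (by positivity))
      calc ρ * ∫ χ in (0 : ℝ)..2 * π, (psq w' h' (q + pt ρ χ) 1 + psq w' h' (q + pt ρ χ) Complex.I) ≤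
            ρ * (11 / 10 * Qf s' * (2 / s ^ 2)) :=
            mul_le_mul_of_nonneg_left (hmono.trans (hd5.trans hd6)) hρ0.le
        _ = 11 / 10 * Qf s' * (2 * ρ / s ^ 2) := by ring
    · -- outer part
      intro ρ hρ1 hρ2
      have hρ0 : 0 < ρ := by linarith
      have hdt : deriv τ ρ = 0 := cne_deriv_zero' hτ1 (by linarith)
      have hκρ := k4 ρ hρ2.le
      have hle : ∀ χ ∈ Icc (0 : ℝ) (2 * π),
          psq w' h' (q + pt ρ χ) 1 + psq w' h' (q + pt ρ χ) Complex.I ≤ 5 * C := by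
        intro χ _
        have e := cne_out hw hh q m₁ m₂ hτs k1 hρ0 (by linarith) hs (hτ1 ρ (by linarith)) hdt
          (by linarith) hκρ.2 (k5 ρ).1 (k5 ρ).2 hC χ
        rw [← hF, ← hH] at e
        have i1 := n4 (q + pt ρ χ) 1
        have i2 := n4 (q + pt ρ χ) Complex.I
        have i3 : nrm (F (q + pt ρ χ)) (H (q + pt ρ χ)) ^ 2 = 1 := by
          rw [cne_nrm_sq]
          exact hlow2 ρ χ hρ0 hρ1.le
        rw [i3, div_one] at i1 i2
        linarith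
      have hmono := intervalIntegral.integral_mono_on (μ := volume)
        (by positivity : (0 : ℝ) ≤ 2 * π)
        ((hVcr ρ).intervalIntegrable 0 (2 * π)) intervalIntegrable_const hle
      rw [intervalIntegral.integral_const, smul_eq_mul, sub_zero] at hmono
      refine mul_le_mul hρ2.le hmono ?_ hs.le
      exact intervalIntegral.integral_nonneg (by positivity) fun χ _ =>
        add_nonneg (psq_nonneg _ _ _ _) (psq_nonneg _ _ _ _)
  · -- rotations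
    intro u hu1 hsym z
    have e1 : F (q + u * z) = u * F (q + z) := by
      rw [hF]
      have hm : (ContinuousLinearMap.mul ℝ ℂ u : ℂ →ₗ[ℝ] ℂ) m₁ = m₁ := by
        rw [hm₁]
        exact cne_rotm hw q s' hu1 fun z => (hsym z).1
      exact cone_rot hu1 (ContinuousLinearMap.mul ℝ ℂ u : ℂ →ₗ[ℝ] ℂ) hm (fun z => (hsym z).1) z
    have e2 : H (q + u * z) = H (q + z) := by
      rw [hH]
      exact cone_rot hu1 LinearMap.id rfl (fun z => (hsym z).2) z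
    have e3 : nrm (F (q + u * z)) (H (q + u * z)) = nrm (F (q + z)) (H (q + z)) := by
      rw [e1, e2]
      unfold nrm
      rw [norm_mul, hu1, one_mul]
    rw [hw'z, hh'z, hw'z, hh'z, e3, e1, e2]
    exact ⟨by ring, rfl⟩
  · -- reflections
    intro u hu1 hsym z
    have e1 : F (q + u * star z) = u * star (F (q + z)) := by
      rw [hF]
      have hm : ((ContinuousLinearMap.mul ℝ ℂ u).comp (Complex.conjCLE : ℂ →L[ℝ] ℂ) : ℂ →ₗ[ℝ] ℂ) m₁ =
          m₁ := by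
        rw [hm₁]
        exact cne_reflm hw q s' hu1 fun z => (hsym z).1
      exact cone_refl hu1 ((ContinuousLinearMap.mul ℝ ℂ u).comp (Complex.conjCLE : ℂ →L[ℝ] ℂ) : ℂ →ₗ[ℝ] ℂ)
        hm (fun z => (hsym z).1) z
    have e2 : H (q + u * star z) = H (q + z) := by
      rw [hH]
      exact cone_refl hu1 LinearMap.id rfl (fun z => (hsym z).2) z
    have e3 : nrm (F (q + u * star z)) (H (q + u * star z)) = nrm (F (q + z)) (H (q + z)) := by
      rw [e1, e2]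
      unfold nrm
      rw [norm_mul, hu1, one_mul, norm_star]
    rw [hw'z, hh'z, hw'z, hh'z, e3, e1, e2]
    refine ⟨?_, rfl⟩
    rw [star_mul', Complex.star_def, map_inv₀, Complex.conj_ofReal]
    ring
  · -- the value at the centre
    intro σ hσ hσh
    have hch : Continuous fun χ => h (q + pt s χ) :=
      continuous_iff_continuousAt.2 fun x => (cne_der hh q s x).continuousAt
    have h1 : 1 / 2 ≤ σ * cne_m h q s := by
      have i1 : ∫ χ in (0 : ℝ)..2 * π, (1 / 2 : ℝ) ≤ ∫ χ in (0 : ℝ)..2 * π, σ * h (q + pt s χ) :=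
        intervalIntegral.integral_mono_on (by positivity) intervalIntegrable_const
          ((continuous_const.mul hch).intervalIntegrable _ _) fun χ _ => hσh χ
      rw [intervalIntegral.integral_const, intervalIntegral.integral_const_mul, smul_eq_mul,
        sub_zero] at i1
      unfold cne_m
      rw [smul_eq_mul]
      have e : σ * ((2 * π)⁻¹ * ∫ t in (0 : ℝ)..2 * π, h (q + pt s t)) =
          (σ * ∫ t in (0 : ℝ)..2 * π, h (q + pt s t)) / (2 * π) := by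
        field_simp
      rw [e, le_div_iff₀ (by positivity)]
      linarith
    have h2 : 0 < σ * m₂ := by
      rw [← hm₂] at hη4
      have h3 := abs_lt.1 hη4
      rcases hσ with rfl | rfl
      · linarith
      · linarith
    rw [hh'z, hHq]
    have h3 : 0 < (nrm (F q) m₂)⁻¹ := by
      have := hn0 q
      rw [hHq] at this
      exact inv_pos.2 this
    calc 0 < (nrm (F q) m₂)⁻¹ * (σ * m₂) := mul_pos h3 h2
      _ = σ * ((nrm (F q) m₂)⁻¹ * m₂) := by ring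

end GO3
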