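import Mathlib

/-! GO3 / Sup: one-dimensional sup bounds (pure calculus). 

`sup_zero`: `g² (r) = ∫_0^r 2 g g' ds ≤ 2 (∫ g²/s)^{1/2} (∫ s g'²)^{1/2}` by Cauchy-Schwarz
(write `g g' = (g / √s) (√s g')`).
`sup_sub`: on `[a, b]` choose `s₀` with `g (s₀)² ≤ (∫_a^b g²/s) / log (b/a)` (mean value), then integrate
from `s₀` to `r`. -/

open MeasureTheory Filter Topology Set
open scoped Real

noncomputable section

namespace GO3

private theorem core42 {g g' : ℝ → ℝ} (hg : ∀ s, 0 < s → HasDerivAt g (g' s) s)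
    (hc : ContinuousOn g' (Ioi 0)) {a b P Q : ℝ} (ha : 0 < a) (hab : a ≤ b)
    (hP : ∫ s in a..b, g s ^ 2 / s ≤ P) (hQ : ∫ s in a..b, s * g' s ^ 2 ≤ Q) {x y : ℝ}
    (hx : a ≤ x) (hxy : x ≤ y) (hy : y ≤ b) :
    |g y ^ 2 - g x ^ 2| ≤ 2 * Real.sqrt (P * Q) := by
  have hgc : ContinuousOn g (Ioi 0) := fun s hs => (hg s hs).continuousAt.continuousWithinAt
  have hsub : ∀ {u v : ℝ}, a ≤ u → u ≤ v → uIcc u v ⊆ Ioi (0 : ℝ) := by
    intro u v hu huv s hs
    rw [uIcc_of_le huv] at hs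
    exact lt_of_lt_of_le ha (hu.trans hs.1)
  have c1 : ContinuousOn (fun s => g s ^ 2 / s) (Ioi 0) :=
    (hgc.pow 2).div continuousOn_id fun s hs => ne_of_gt hs
  have c2 : ContinuousOn (fun s => s * g' s ^ 2) (Ioi 0) := continuousOn_id.mul (hc.pow 2)
  have c3 : ContinuousOn (fun s => 2 * g s * g' s) (Ioi 0) :=
    (continuousOn_const.mul hgc).mul hc
  have i1 : IntervalIntegrable (fun s => g s ^ 2 / s) volume a b :=
    (c1.mono (hsub le_rfl hab)).intervalIntegrable
  have i2 : IntervalIntegrable (fun s => s * g' s ^ 2) volume a b :=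
    (c2.mono (hsub le_rfl hab)).intervalIntegrable
  have i3 : IntervalIntegrable (fun s => 2 * g s * g' s) volume x y :=
    (c3.mono (hsub hx hxy)).intervalIntegrable
  have hP0 : 0 ≤ P := le_trans (intervalIntegral.integral_nonneg hab fun s hs =>
    div_nonneg (sq_nonneg _) (ha.le.trans hs.1)) hP
  have hQ0 : 0 ≤ Q := le_trans (intervalIntegral.integral_nonneg hab fun s hs =>
    mul_nonneg (ha.le.trans hs.1) (sq_nonneg _)) hQ
  have e1 : g y ^ 2 - g x ^ 2 = ∫ s in x..y, 2 * g s * g' s := by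
    rw [intervalIntegral.integral_eq_sub_of_hasDerivAt (f := fun s => g s ^ 2) ?_ i3]
    intro s hs
    have h1 : HasDerivAt (fun s => g s ^ 2) _ s := (hg s (hsub hx hxy hs)).pow 2
    refine h1.congr_deriv ?_
    simp
  have key : ∀ l : ℝ, 0 < l → |g y ^ 2 - g x ^ 2| ≤ l * P + l⁻¹ * Q := by
    intro l hl
    have c4 : ContinuousOn (fun s => l * (g s ^ 2 / s) + l⁻¹ * (s * g' s ^ 2)) (Ioi 0) :=
      (continuousOn_const.mul c1).add (continuousOn_const.mul c2)
    have i4 : IntervalIntegrable (fun s => l * (g s ^ 2 / s) + l⁻¹ * (s * g' s ^ 2)) volume a b :=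
      (c4.mono (hsub le_rfl hab)).intervalIntegrable
    have i5 : IntervalIntegrable (fun s => l * (g s ^ 2 / s) + l⁻¹ * (s * g' s ^ 2)) volume x y :=
      (c4.mono (hsub hx hxy)).intervalIntegrable
    calc |g y ^ 2 - g x ^ 2| = |∫ s in x..y, 2 * g s * g' s| := by rw [e1]
      _ ≤ ∫ s in x..y, |2 * g s * g' s| := intervalIntegral.abs_integral_le_integral_abs hxy
      _ ≤ ∫ s in x..y, (l * (g s ^ 2 / s) + l⁻¹ * (s * g' s ^ 2)) := by
          refine intervalIntegral.integral_mono_on hxy i3.abs i5 fun s hs => ?_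
          have hs0 : 0 < s := lt_of_lt_of_le ha (hx.trans hs.1)
          have h1 : |2 * g s * g' s| * (l * s) ≤
              (l * (g s ^ 2 / s) + l⁻¹ * (s * g' s ^ 2)) * (l * s) := by
            have e2 : (l * (g s ^ 2 / s) + l⁻¹ * (s * g' s ^ 2)) * (l * s) =
                (l * g s) ^ 2 + (s * g' s) ^ 2 := by
              field_simp
            rw [e2, ← abs_of_pos (show 0 < l * s by positivity), ← abs_mul, abs_le]
            constructor <;> nlinarith [sq_nonneg (l * g s + s * g' s),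
              sq_nonneg (l * g s - s * g' s)]
          exact le_of_mul_le_mul_right h1 (by positivity)
      _ ≤ ∫ s in a..b, (l * (g s ^ 2 / s) + l⁻¹ * (s * g' s ^ 2)) := by
          refine intervalIntegral.integral_mono_interval hx hxy hy ?_ i4
          refine (ae_restrict_iff' measurableSet_Ioc).2 (Eventually.of_forall fun s hs => ?_)
          have hs0 : 0 < s := lt_trans ha hs.1
          change 0 ≤ l * (g s ^ 2 / s) + l⁻¹ * (s * g' s ^ 2)
          positivity
      _ = l * (∫ s in a..b, g s ^ 2 / s) + l⁻¹ * ∫ s in a..b, s * g' s ^ 2 := by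
          rw [intervalIntegral.integral_add (i1.const_mul l) (i2.const_mul l⁻¹),
            intervalIntegral.integral_const_mul, intervalIntegral.integral_const_mul]
      _ ≤ l * P + l⁻¹ * Q := by gcongr
  set X : ℝ := |g y ^ 2 - g x ^ 2| with hX
  have hX0 : 0 ≤ X := abs_nonneg _
  have hq : ∀ l : ℝ, 0 ≤ P * (l * l) + (-X) * l + Q := by
    intro l
    rcases le_or_gt l 0 with hl | hl
    · have h1 : 0 ≤ P * (l * l) := mul_nonneg hP0 (mul_self_nonneg l)
      have h2 : 0 ≤ (-X) * l := by nlinarith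
      linarith
    · have h1 := key l hl
      have h2 : X * l ≤ (l * P + l⁻¹ * Q) * l := mul_le_mul_of_nonneg_right h1 hl.le
      have h3 : (l * P + l⁻¹ * Q) * l = P * (l * l) + Q := by
        field_simp
      linarith
  have hd := discrim_le_zero hq
  unfold discrim at hd
  have h4 : X ^ 2 ≤ (2 * Real.sqrt (P * Q)) ^ 2 := by
    rw [mul_pow, Real.sq_sqrt (mul_nonneg hP0 hQ0)]
    nlinarith
  exact (abs_le_of_sq_le_sq' h4 (by positivity)).2

theorem sup_zero {g g' : ℝ → ℝ} (hg : ∀ s, 0 < s → HasDerivAt g (g' s) s)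
    (hc : ContinuousOn g' (Ioi 0)) (h0 : Tendsto g (𝓝[>] 0) (𝓝 0)) {r P Q : ℝ} (hr : 0 < r)
    (hiP : IntegrableOn (fun s => g s ^ 2 / s) (Ioc 0 r)) (hP : ∫ s in (0 : ℝ)..r, g s ^ 2 / s ≤ P)
    (hiQ : IntegrableOn (fun s => s * g' s ^ 2) (Ioc 0 r))
    (hQ : ∫ s in (0 : ℝ)..r, s * g' s ^ 2 ≤ Q) : g r ^ 2 ≤ 2 * Real.sqrt (P * Q) := by
  have j1 : IntervalIntegrable (fun s => g s ^ 2 / s) volume 0 r :=
    (intervalIntegrable_iff_integrableOn_Ioc_of_le hr.le).2 hiP
  have j2 : IntervalIntegrable (fun s => s * g' s ^ 2) volume 0 r :=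
    (intervalIntegrable_iff_integrableOn_Ioc_of_le hr.le).2 hiQ
  have h1 : Tendsto (fun e : ℝ => g r ^ 2 - g e ^ 2) (𝓝[>] 0) (𝓝 (g r ^ 2 - 0 ^ 2)) :=
    tendsto_const_nhds.sub (h0.pow 2)
  have h2 : ∀ᶠ e : ℝ in 𝓝[>] 0, g r ^ 2 - g e ^ 2 ≤ 2 * Real.sqrt (P * Q) := by
    filter_upwards [Ioo_mem_nhdsGT hr] with e he
    refine le_trans (le_abs_self _) (core42 hg hc he.1 he.2.le (le_trans ?_ hP)
      (le_trans ?_ hQ) le_rfl he.2.le le_rfl)
    · refine intervalIntegral.integral_mono_interval he.1.le he.2.le le_rfl ?_ j1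
      refine (ae_restrict_iff' measurableSet_Ioc).2 (Eventually.of_forall fun s hs => ?_)
      exact div_nonneg (sq_nonneg _) hs.1.le
    · refine intervalIntegral.integral_mono_interval he.1.le he.2.le le_rfl ?_ j2
      refine (ae_restrict_iff' measurableSet_Ioc).2 (Eventually.of_forall fun s hs => ?_)
      exact mul_nonneg hs.1.le (sq_nonneg _)
  have h3 := le_of_tendsto h1 h2
  simpa using h3

theorem sup_sub {g g' : ℝ → ℝ} (hg : ∀ s, 0 < s → HasDerivAt g (g' s) s)
    (hc : ContinuousOn g' (Ioi 0)) {a b P Q : ℝ} (ha : 0 < a) (hab : a < b)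
    (hP : ∫ s in a..b, g s ^ 2 / s ≤ P) (hQ : ∫ s in a..b, s * g' s ^ 2 ≤ Q) :
    ∀ r ∈ Icc a b, g r ^ 2 ≤ P / Real.log (b / a) + 2 * Real.sqrt (P * Q) := by
  have hgc : ContinuousOn (fun s => g s ^ 2) (Icc a b) := fun s hs =>
    ((hg s (lt_of_lt_of_le ha hs.1)).continuousAt.pow 2).continuousWithinAt
  obtain ⟨s0, hs0, hmin⟩ := isCompact_Icc.exists_isMinOn (nonempty_Icc.2 hab.le) hgc
  have hlog : 0 < Real.log (b / a) := Real.log_pos (by rw [one_lt_div ha]; exact hab)
  have c1 : ContinuousOn (fun s => g s ^ 2 / s) (uIcc a b) := by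
    rw [uIcc_of_le hab.le]
    exact hgc.div continuousOn_id fun s hs => ne_of_gt (lt_of_lt_of_le ha hs.1)
  have c2 : ContinuousOn (fun s : ℝ => g s0 ^ 2 * s⁻¹) (uIcc a b) := by
    rw [uIcc_of_le hab.le]
    exact continuousOn_const.mul
      (continuousOn_id.inv₀ fun s hs => ne_of_gt (lt_of_lt_of_le ha hs.1))
  have h1 : g s0 ^ 2 * Real.log (b / a) ≤ P := by
    calc g s0 ^ 2 * Real.log (b / a) = ∫ s in a..b, g s0 ^ 2 * s⁻¹ := by
          rw [intervalIntegral.integral_const_mul, integral_inv_of_pos ha (ha.trans hab)]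
      _ ≤ ∫ s in a..b, g s ^ 2 / s := by
          refine intervalIntegral.integral_mono_on hab.le c2.intervalIntegrable
            c1.intervalIntegrable fun s hs => ?_
          have hsp : 0 < s := lt_of_lt_of_le ha hs.1
          have h2 : g s0 ^ 2 ≤ g s ^ 2 := hmin hs
          rw [div_eq_mul_inv]
          gcongr
      _ ≤ P := hP
  have h2 : g s0 ^ 2 ≤ P / Real.log (b / a) := by
    rw [le_div_iff₀ hlog]
    exact h1
  intro r hr
  have h3 : g r ^ 2 - g s0 ^ 2 ≤ 2 * Real.sqrt (P * Q) := by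
    rcases le_total s0 r with h | h
    · exact le_trans (le_abs_self _) (core42 hg hc ha hab.le hP hQ hs0.1 h hr.2)
    · have := core42 hg hc ha hab.le hP hQ hr.1 h hs0.2
      rw [abs_sub_comm] at this
      exact le_trans (le_abs_self _) this
  linarith

end GO3
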