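import Pool.Agent.GO3.Bnd
import Pool.Agent.GO3.Sup

/-! GO3 / Cnf: confinement, part 1 (T5 of the proof text).

Let `ρ = rp K n = 4000 K n²`. Apply `sup_zero` on `(0, r]`, `r ≤ ρ`, to
`g₁ = Im V`, `g₂ = Re V sin a`, `g₃ = 1 - cc² - |V|²` (all `C¹`, all `→ 0` at `0` by `data_zero`, `h(0)² = 1`).
`∫ g₁²/s ≤ α ∫ X/s ≤ α E/m = π E / m² ≤ π K / n⁴`, `∫ g₂²/s ≤ 4 π K/n⁴`, `g₃² ≤ g₃ ≤ α X`.
`∫ s |V'|² ≤ (2/α) ∫ s T + 2 α ρ² ∫ s Y ≤ 2 E/π + 2 α ρ² E/m ≤ 2 K n²/π + 2 π (4000 K n²)² K n² / n⁶ ≤ C_K n²`,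
`∫ s a'² ≤ α ρ² ∫ s Y ≤ C_K`, `∫ s cc'² ≤ E/π`; `|(Re V sin a)'| ≤ |V'| + |a'|`,
`|g₃'| ≤ 2 |cc'| + 2 |V'|`. So `g² ≤ 2 √(C n⁻⁴ · C n²) = C / n`. -/

open MeasureTheory Filter Topology Set
open scoped ContDiff Real

noncomputable section

namespace GO3

private theorem cnf_gen {K : ℝ} (hK : 1 ≤ K) {n : ℕ} (hn : 2 ≤ n) {c : Cf} (hc : c.Adm n)
    (hE : c.E ≤ K * n ^ 2) {g g' : ℝ → ℝ} (hg : ∀ s, HasDerivAt g (g' s) s)
    (hg' : Continuous g') (h0 : g 0 = 0)
    (hX : ∀ s, 0 < s → g s ^ 2 ≤ 4 * (al n * c.X n s))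
    (hT : ∀ s, 0 < s → g' s ^ 2 ≤ 24 * (c.T n s / al n) + 16 * (al n * (s ^ 2 * c.Y n s)))
    {r : ℝ} (hr : 0 < r) (hr' : r ≤ rp K n) :
    g r ^ 2 ≤ 8 * Real.sqrt (K * (24 * K + 1024000000 * K ^ 3)) / n := by
  have hn0 : 0 < n := by omega
  have hα := al_pos hn0
  have hnr : (2 : ℝ) ≤ n := by exact_mod_cast hn
  have hnp : (0 : ℝ) < n := by linarith
  have hE0 := Cf.Adm.E_nonneg c
  have hpi3 := Real.pi_gt_three
  have hpi4 := Real.pi_le_four
  have hcg : Continuous g := continuous_iff_continuousAt.2 fun s => (hg s).continuousAt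
  have hαe : al n = π / (n : ℝ) ^ 3 := rfl
  obtain ⟨hiX, hbX⟩ := Cf.int_X hn0 hc
  obtain ⟨hiT, hbT⟩ := Cf.int_T hn0 hc
  obtain ⟨hiY, hbY⟩ := Cf.int_Y hn0 hc
  have hsub : Ioc (0 : ℝ) r ⊆ Ioi 0 := Ioc_subset_Ioi_self
  -- first integral
  have hmeas : AEStronglyMeasurable (fun s => g s ^ 2 / s) (volume.restrict (Ioc (0 : ℝ) r)) := by
    refine ContinuousOn.aestronglyMeasurable ?_ measurableSet_Ioc
    refine ContinuousOn.div (hcg.pow 2).continuousOn continuousOn_id fun s hs => hs.1.ne'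
  have hbd : ∀ s ∈ Ioc (0 : ℝ) r, g s ^ 2 / s ≤ 4 * al n * (c.X n s / s) := by
    intro s hs
    have h1 := hX s hs.1
    calc g s ^ 2 / s ≤ 4 * (al n * c.X n s) / s := div_le_div_of_nonneg_right h1 hs.1.le
      _ = 4 * al n * (c.X n s / s) := by ring
  have hiX' : IntegrableOn (fun s => 4 * al n * (c.X n s / s)) (Ioc 0 r) :=
    (hiX.mono_set hsub).const_mul _
  have hiP : IntegrableOn (fun s => g s ^ 2 / s) (Ioc 0 r) := by
    refine Integrable.mono' hiX' hmeas ?_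
    refine (ae_restrict_iff' measurableSet_Ioc).2 (Eventually.of_forall fun s hs => ?_)
    rw [Real.norm_of_nonneg (div_nonneg (sq_nonneg _) hs.1.le)]
    exact hbd s hs
  have hP : ∫ s in (0 : ℝ)..r, g s ^ 2 / s ≤ 16 * K / (n : ℝ) ^ 4 := by
    rw [intervalIntegral.integral_of_le hr.le]
    have h1 : ∫ s in Ioc (0 : ℝ) r, g s ^ 2 / s ≤ ∫ s in Ioc (0 : ℝ) r, 4 * al n * (c.X n s / s) :=
      setIntegral_mono_on hiP hiX' measurableSet_Ioc hbd
    have h2 : ∫ s in Ioc (0 : ℝ) r, 4 * al n * (c.X n s / s) ≤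
        ∫ s in Ioi (0 : ℝ), 4 * al n * (c.X n s / s) := by
      refine setIntegral_mono_set (hiX.const_mul _) ?_ (LE.le.eventuallyLE hsub)
      refine (ae_restrict_iff' measurableSet_Ioi).2 (Eventually.of_forall fun s hs => ?_)
      exact mul_nonneg (by positivity) (div_nonneg (Cf.X_nonneg hn0 c s) (le_of_lt hs))
    rw [integral_const_mul] at h1
    rw [integral_const_mul, integral_const_mul] at h2
    have h3 : 4 * al n * ∫ s in Ioi (0 : ℝ), c.X n s / s ≤ 4 * al n * (c.E / (n : ℝ) ^ 3) :=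
      mul_le_mul_of_nonneg_left hbX (by positivity)
    have h4 : 4 * al n * (c.E / (n : ℝ) ^ 3) ≤ 16 * K / (n : ℝ) ^ 4 := by
      rw [hαe]
      calc 4 * (π / (n : ℝ) ^ 3) * (c.E / (n : ℝ) ^ 3)
          ≤ 4 * (4 / (n : ℝ) ^ 3) * (K * n ^ 2 / (n : ℝ) ^ 3) := by gcongr
        _ = 16 * K / (n : ℝ) ^ 4 := by field_simp; ring
    linarith
  -- second integral
  have hiQ : IntegrableOn (fun s => s * g' s ^ 2) (Ioc 0 r) :=
    (continuous_id.mul (hg'.pow 2)).integrableOn_Ioc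
  have hbd2 : ∀ s ∈ Ioc (0 : ℝ) r, s * g' s ^ 2 ≤
      24 / al n * (s * c.T n s) + 16 * al n * r ^ 2 * (s * c.Y n s) := by
    intro s hs
    have h1 := mul_le_mul_of_nonneg_left (hT s hs.1) hs.1.le
    have hY := Cf.Y_nonneg hn0 c s
    have h2 : s ^ 2 ≤ r ^ 2 := pow_le_pow_left₀ hs.1.le hs.2 2
    have h3 : s ^ 2 * (al n * (s * c.Y n s)) ≤ r ^ 2 * (al n * (s * c.Y n s)) :=
      mul_le_mul_of_nonneg_right h2 (mul_nonneg hα.le (mul_nonneg hs.1.le hY))
    have h4 : s * (24 * (c.T n s / al n) + 16 * (al n * (s ^ 2 * c.Y n s))) =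
        24 / al n * (s * c.T n s) + 16 * (s ^ 2 * (al n * (s * c.Y n s))) := by
      ring
    rw [h4] at h1
    nlinarith
  have hi1 : IntegrableOn (fun s => 24 / al n * (s * c.T n s)) (Ioi 0) := hiT.const_mul _
  have hi2 : IntegrableOn (fun s => 16 * al n * r ^ 2 * (s * c.Y n s)) (Ioi 0) := hiY.const_mul _
  have hQ : ∫ s in (0 : ℝ)..r, s * g' s ^ 2 ≤ (24 * K + 1024000000 * K ^ 3) * (n : ℝ) ^ 2 := by
    rw [intervalIntegral.integral_of_le hr.le]
    have h1 : ∫ s in Ioc (0 : ℝ) r, s * g' s ^ 2 ≤ ∫ s in Ioc (0 : ℝ) r,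
        (24 / al n * (s * c.T n s) + 16 * al n * r ^ 2 * (s * c.Y n s)) :=
      setIntegral_mono_on hiQ ((hi1.add hi2).mono_set hsub) measurableSet_Ioc hbd2
    have h2 : ∫ s in Ioc (0 : ℝ) r,
        (24 / al n * (s * c.T n s) + 16 * al n * r ^ 2 * (s * c.Y n s)) ≤
        ∫ s in Ioi (0 : ℝ), (24 / al n * (s * c.T n s) + 16 * al n * r ^ 2 * (s * c.Y n s)) := by
      refine setIntegral_mono_set (hi1.add hi2) ?_ (LE.le.eventuallyLE hsub)
      refine (ae_restrict_iff' measurableSet_Ioi).2 (Eventually.of_forall fun s hs => ?_)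
      have hs' : (0 : ℝ) < s := hs
      have hTn := Cf.T_nonneg hn0 c s
      have hYn := Cf.Y_nonneg hn0 c s
      show (0 : ℝ) ≤ 24 / al n * (s * c.T n s) + 16 * al n * r ^ 2 * (s * c.Y n s)
      positivity
    rw [integral_add hi1 hi2, integral_const_mul, integral_const_mul] at h2
    have h3 : 24 / al n * ∫ s in Ioi (0 : ℝ), s * c.T n s ≤ 24 / al n * (c.E / (n : ℝ) ^ 3) :=
      mul_le_mul_of_nonneg_left hbT (by positivity)
    have h4 : 16 * al n * r ^ 2 * ∫ s in Ioi (0 : ℝ), s * c.Y n s ≤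
        16 * al n * r ^ 2 * (c.E / (n : ℝ) ^ 3) :=
      mul_le_mul_of_nonneg_left hbY (by positivity)
    have h5 : 24 / al n * (c.E / (n : ℝ) ^ 3) ≤ 24 * K * (n : ℝ) ^ 2 := by
      have e : 24 / al n * (c.E / (n : ℝ) ^ 3) = 24 * c.E / π := by
        rw [hαe]
        field_simp
      rw [e, div_le_iff₀ Real.pi_pos]
      have h6 : 0 ≤ K * (n : ℝ) ^ 2 := by positivity
      nlinarith
    have h6 : 16 * al n * r ^ 2 * (c.E / (n : ℝ) ^ 3) ≤ 1024000000 * K ^ 3 * (n : ℝ) ^ 2 := by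
      have hrp : r ≤ 4000 * K * (n : ℝ) ^ 2 := hr'
      rw [hαe]
      calc 16 * (π / (n : ℝ) ^ 3) * r ^ 2 * (c.E / (n : ℝ) ^ 3)
          ≤ 16 * (4 / (n : ℝ) ^ 3) * (4000 * K * (n : ℝ) ^ 2) ^ 2 *
            (K * n ^ 2 / (n : ℝ) ^ 3) := by gcongr
        _ = 1024000000 * K ^ 3 := by field_simp; ring
        _ ≤ 1024000000 * K ^ 3 * (n : ℝ) ^ 2 := by
            have h7 : 0 ≤ 1024000000 * K ^ 3 := by positivity
            have h8 : (1 : ℝ) ≤ (n : ℝ) ^ 2 := one_le_pow₀ (by linarith)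
            exact le_mul_of_one_le_right h7 h8
    linarith
  have hlim : Tendsto g (𝓝[>] 0) (𝓝 0) := by
    have h1 : Tendsto g (𝓝 0) (𝓝 (g 0)) := hcg.tendsto 0
    rw [h0] at h1
    exact h1.mono_left nhdsWithin_le_nhds
  have hmain := sup_zero (fun s _ => hg s) hg'.continuousOn hlim hr hiP hP hiQ hQ
  refine hmain.trans (le_of_eq ?_)
  have e1 : 16 * K / (n : ℝ) ^ 4 * ((24 * K + 1024000000 * K ^ 3) * (n : ℝ) ^ 2) =
      (4 / (n : ℝ)) ^ 2 * (K * (24 * K + 1024000000 * K ^ 3)) := by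
    field_simp
    ring
  rw [e1, Real.sqrt_mul (sq_nonneg _), Real.sqrt_sq (by positivity)]
  ring

theorem conf5 (K : ℝ) (hK : 1 ≤ K) : ∃ C : ℝ, 0 < C ∧ ∀ n : ℕ, 2 ≤ n → ∀ c : Cf, c.Adm n → c.Rad →
    c.E ≤ K * n ^ 2 → ∀ r, 0 < r → r ≤ rp K n →
    (c.V n r).im ^ 2 ≤ C / n ∧ ((c.V n r).re * Real.sin (c.aa n r)) ^ 2 ≤ C / n ∧
    (1 - c.cc n r ^ 2 - ‖c.V n r‖ ^ 2) ^ 2 ≤ C / n := by
  have hK0 : 0 < K := by linarith
  refine ⟨8 * Real.sqrt (K * (24 * K + 1024000000 * K ^ 3)), by positivity, ?_⟩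
  intro n hn c hc hrad hE r hr hr'
  have hn0 : 0 < n := by omega
  have hα := al_pos hn0
  obtain ⟨V', hV'c, hV', hV'b⟩ := Cf.der_V hn0 hc hrad
  obtain ⟨a', ha'c, ha', ha'b⟩ := Cf.der_aa hn0 hc hrad
  obtain ⟨c', hc'c, hc', hc'b⟩ := Cf.der_cc hn0 hc
  obtain ⟨-, -, z3, z4, -⟩ := Cf.data_zero hn hc
  have hre : ∀ s, HasDerivAt (fun s => (c.V n s).re) (V' s).re s := fun s =>
    Complex.reCLM.hasFDerivAt.comp_hasDerivAt s (hV' s)
  have him : ∀ s, HasDerivAt (fun s => (c.V n s).im) (V' s).im s := fun s =>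
    Complex.imCLM.hasFDerivAt.comp_hasDerivAt s (hV' s)
  have hVc : Continuous (c.V n) := continuous_iff_continuousAt.2 fun s => (hV' s).continuousAt
  have hac : Continuous (c.aa n) := continuous_iff_continuousAt.2 fun s => (ha' s).continuousAt
  have hcc : Continuous (c.cc n) := continuous_iff_continuousAt.2 fun s => (hc' s).continuousAt
  have nV : ∀ z : ℂ, ‖z‖ ^ 2 = z.re ^ 2 + z.im ^ 2 := fun z => by
    rw [Complex.sq_norm, Complex.normSq_apply]
    ring
  have hVb : ∀ s, (V' s).re ^ 2 + (V' s).im ^ 2 ≤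
      2 * (c.T n s / al n) + 2 * (al n * (s ^ 2 * c.Y n s)) := fun s => by
    have := hV'b s
    rw [nV] at this
    calc _ ≤ _ := this
      _ = _ := by ring
  have hTn : ∀ s, 0 ≤ c.T n s / al n := fun s => div_nonneg (Cf.T_nonneg hn0 c s) hα.le
  have hYn : ∀ s, 0 ≤ al n * (s ^ 2 * c.Y n s) := fun s =>
    mul_nonneg hα.le (mul_nonneg (sq_nonneg _) (Cf.Y_nonneg hn0 c s))
  have hV1 : ∀ s, (c.V n s).re ^ 2 + (c.V n s).im ^ 2 ≤ 1 := fun s => by
    rw [← nV]
    exact pow_le_one₀ (norm_nonneg _) (Cf.norm_V_le hn0 hc s)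
  refine ⟨?_, ?_, ?_⟩
  · refine cnf_gen hK hn hc hE him (Complex.continuous_im.comp hV'c) ?_ ?_ ?_ hr hr'
    · simp [z4]
    · intro s hs
      have h1 := Cf.im_V hn0 hc s
      have h2 : 0 ≤ al n * c.X n s := mul_nonneg hα.le (Cf.X_nonneg hn0 c s)
      linarith
    · intro s hs
      have h1 := hVb s
      have h2 := hTn s
      have h3 := hYn s
      nlinarith [sq_nonneg (V' s).re]
  · have hd : ∀ s, HasDerivAt (fun s => (c.V n s).re * Real.sin (c.aa n s))
        ((V' s).re * Real.sin (c.aa n s) + (c.V n s).re * (Real.cos (c.aa n s) * a' s)) s :=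
      fun s => (hre s).mul (ha' s).sin
    refine cnf_gen (g := fun s => (c.V n s).re * Real.sin (c.aa n s)) hK hn hc hE hd ?_ ?_ ?_ ?_
      hr hr'
    · exact ((Complex.continuous_re.comp hV'c).mul (Real.continuous_sin.comp hac)).add
        ((Complex.continuous_re.comp hVc).mul ((Real.continuous_cos.comp hac).mul ha'c))
    · simp [z4]
    · intro s hs
      exact Cf.re_V_sin hn0 hc s
    · intro s hs
      have h1 := hVb s
      have h2 := hTn s
      have h3 := hYn s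
      have h4 := ha'b s
      have h5 := hV1 s
      have h6 := Real.sin_sq_le_one (c.aa n s)
      have h7 := Real.cos_sq_le_one (c.aa n s)
      have h8 : ((V' s).re * Real.sin (c.aa n s)) ^ 2 ≤ (V' s).re ^ 2 := by
        rw [mul_pow]
        exact mul_le_of_le_one_right (sq_nonneg _) h6
      have h9 : ((c.V n s).re * (Real.cos (c.aa n s) * a' s)) ^ 2 ≤ a' s ^ 2 := by
        have e : ((c.V n s).re * (Real.cos (c.aa n s) * a' s)) ^ 2 =
            ((c.V n s).re ^ 2 * Real.cos (c.aa n s) ^ 2) * a' s ^ 2 := by ring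
        rw [e]
        refine mul_le_of_le_one_left (sq_nonneg _) ?_
        exact mul_le_one₀ (by nlinarith [sq_nonneg (c.V n s).im]) (sq_nonneg _) h7
      have h10 : ((V' s).re * Real.sin (c.aa n s) +
          (c.V n s).re * (Real.cos (c.aa n s) * a' s)) ^ 2 ≤
          2 * ((V' s).re * Real.sin (c.aa n s)) ^ 2 +
          2 * ((c.V n s).re * (Real.cos (c.aa n s) * a' s)) ^ 2 := by
        nlinarith [sq_nonneg ((V' s).re * Real.sin (c.aa n s) -
          (c.V n s).re * (Real.cos (c.aa n s) * a' s))]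
      have h11 := sq_nonneg (V' s).im
      linarith
  · have hfun : ∀ s, 1 - c.cc n s ^ 2 - ‖c.V n s‖ ^ 2 =
        1 - c.cc n s ^ 2 - ((c.V n s).re ^ 2 + (c.V n s).im ^ 2) := fun s => by rw [nV]
    rw [hfun r]
    have hd : ∀ s, HasDerivAt (fun s => 1 - c.cc n s ^ 2 - ((c.V n s).re ^ 2 + (c.V n s).im ^ 2))
        (-(2 * c.cc n s * c' s) - (2 * (c.V n s).re * (V' s).re + 2 * (c.V n s).im * (V' s).im))
        s := by
      intro s
      have d1 : HasDerivAt (fun s => c.cc n s ^ 2) (2 * c.cc n s * c' s) s := by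
        refine ((hc' s).pow 2).congr_deriv ?_
        push_cast
        ring
      have d2 : HasDerivAt (fun s => (c.V n s).re ^ 2) (2 * (c.V n s).re * (V' s).re) s := by
        refine ((hre s).pow 2).congr_deriv ?_
        push_cast
        ring
      have d3 : HasDerivAt (fun s => (c.V n s).im ^ 2) (2 * (c.V n s).im * (V' s).im) s := by
        refine ((him s).pow 2).congr_deriv ?_
        push_cast
        ring
      exact (d1.const_sub 1).sub (d2.add d3)
    refine cnf_gen (g := fun s => 1 - c.cc n s ^ 2 - ((c.V n s).re ^ 2 + (c.V n s).im ^ 2))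
      hK hn hc hE hd ?_ ?_ ?_ ?_ hr hr'
    · have c1 : Continuous fun s => (c.V n s).re := Complex.continuous_re.comp hVc
      have c2 : Continuous fun s => (c.V n s).im := Complex.continuous_im.comp hVc
      have c3 : Continuous fun s => (V' s).re := Complex.continuous_re.comp hV'c
      have c4 : Continuous fun s => (V' s).im := Complex.continuous_im.comp hV'c
      exact (((continuous_const.mul hcc).mul hc'c).neg).sub
        (((continuous_const.mul c1).mul c3).add ((continuous_const.mul c2).mul c4))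
    · have hh := Cf.Adm.h_zero hn hc
      have h1 : c.cc n 0 ^ 2 = 1 := by
        rw [z3]
        rcases hh with h | h <;> rw [h] <;> norm_num
      simp only [h1, z4, Complex.zero_re, Complex.zero_im]
      norm_num
    · intro s hs
      have h1 := Cf.var_nonneg hn0 hc s
      have h2 := Cf.var_le hn0 hc s
      rw [hfun s] at h1 h2
      have h3 : 0 ≤ al n * c.X n s := mul_nonneg hα.le (Cf.X_nonneg hn0 c s)
      have h4 : 1 - c.cc n s ^ 2 - ((c.V n s).re ^ 2 + (c.V n s).im ^ 2) ≤ 1 := by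
        nlinarith [sq_nonneg (c.cc n s), sq_nonneg (c.V n s).re, sq_nonneg (c.V n s).im]
      have h5 : (1 - c.cc n s ^ 2 - ((c.V n s).re ^ 2 + (c.V n s).im ^ 2)) ^ 2 ≤
          1 - c.cc n s ^ 2 - ((c.V n s).re ^ 2 + (c.V n s).im ^ 2) := by
        rw [sq]
        exact mul_le_of_le_one_right h1 h4
      linarith
    · intro s hs
      have h1 := hVb s
      have h2 := hTn s
      have h3 := hYn s
      have h4 := hc'b s
      have h5 := hV1 s
      have h6 : c.cc n s ^ 2 ≤ 1 := by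
        have := Cf.abs_cc_le hn0 hc s
        rw [← sq_abs]
        exact pow_le_one₀ (abs_nonneg _) this
      have h7 : (2 * c.cc n s * c' s) ^ 2 ≤ 4 * c' s ^ 2 := by
        have e : (2 * c.cc n s * c' s) ^ 2 = 4 * (c.cc n s ^ 2 * c' s ^ 2) := by ring
        rw [e]
        have := mul_le_of_le_one_left (sq_nonneg (c' s)) h6
        linarith
      have h8 : (2 * (c.V n s).re * (V' s).re + 2 * (c.V n s).im * (V' s).im) ^ 2 ≤
          4 * ((V' s).re ^ 2 + (V' s).im ^ 2) := by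
        have e : (2 * (c.V n s).re * (V' s).re + 2 * (c.V n s).im * (V' s).im) ^ 2 =
            4 * (((c.V n s).re ^ 2 + (c.V n s).im ^ 2) * ((V' s).re ^ 2 + (V' s).im ^ 2)) -
            4 * ((c.V n s).re * (V' s).im - (c.V n s).im * (V' s).re) ^ 2 := by ring
        rw [e]
        have h9 := mul_le_of_le_one_left
          (add_nonneg (sq_nonneg (V' s).re) (sq_nonneg (V' s).im)) h5
        nlinarith [sq_nonneg ((c.V n s).re * (V' s).im - (c.V n s).im * (V' s).re)]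
      have h10 : (-(2 * c.cc n s * c' s) -
          (2 * (c.V n s).re * (V' s).re + 2 * (c.V n s).im * (V' s).im)) ^ 2 ≤
          2 * (2 * c.cc n s * c' s) ^ 2 +
          2 * (2 * (c.V n s).re * (V' s).re + 2 * (c.V n s).im * (V' s).im) ^ 2 := by
        nlinarith [sq_nonneg ((2 * c.cc n s * c' s) -
          (2 * (c.V n s).re * (V' s).re + 2 * (c.V n s).im * (V' s).im))]
      linarith

end GO3
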