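import Pool.Agent.GO3.Cnf

/-! GO3 / Cng: confinement, part 2 (T6, T7 of the proof text).

`conf6`. If `C ≥ √n` there is nothing to prove (`|sin| ≤ 1`), so `n` may be assumed large. `cc r ≤ 0` implies
`r < rp K n`. Let `r₁ = sup {s ∈ [0, r] : cc s ≥ 0}` (`r₁ = 0` if the set is empty). Either `r₁ = 0` and
`a r₁ = - α`, or `cc r₁ = 0` and then `|V|² ≥ 1 - √(C/n)`, `Re V² ≥ 1/4`, `|sin a| ≤ 2 √(C/n)`. On `(r₁, r]`
`cc ≤ 0`, hence `1 ≤ (1 - cc)² ≤ U/α` there and `∫_{r₁}^r s ds ≤ (1/α) ∫ s U ≤ E/π`. Then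
`|a r - a r₁| ≤ ∫ (α s² Y)^{1/2} ds ≤ (α ∫ s Y)^{1/2} (∫_{r₁}^r s)^{1/2} ≤ (α (E/m) (E/π))^{1/2} = E/m ≤ K/n`;
`|sin| ` is 1-Lipschitz.
`conf7`. `η = C/√n` small. `psi a = 0`: `Z = 1`. If `psi a ≠ 0` then `|a - π| < π/4`. If moreover `|sin a| ≤ η'`
(`η' = sin (π/8)/2`), then `|a - π| ≤ π/8`, `psi a = 1`, `Z = cc + i Re V`,
`|Z|² = cc² + |V|² - (Im V)² ≥ 1 - 2√(C/n)...`. If `|sin a| > η'`, then `cc > 0` (conf6) and
`Re Z = 1 + psi (cc - 1) ≥ cc`; if `cc < 1/2` then `|V|² ≥ 3/4 - √(C/n)`, `|Re V| ≥ 1/2`,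
`|sin a| ≤ 2√(C/n) < η'`, a contradiction. `r ≥ rp`: `Z_sub_one_le`. Every `Adm` configuration has a radial
gauge representative with the same `Z` (Gau: `exists_rad`, `gt_data`, `gt_E`). -/

open MeasureTheory Filter Topology Set
open scoped ContDiff Real

noncomputable section

namespace GO3

private theorem lvl {c : Cf} {n : ℕ} (hn : 0 < n) (hc : c.Adm n) {r : ℝ} (h0 : 0 ≤ r)
    (h : c.cc n r ≤ 0) : ∃ r₁, 0 ≤ r₁ ∧ r₁ ≤ r ∧ (r₁ = 0 ∨ c.cc n r₁ = 0) ∧
    ∀ s ∈ Ioc r₁ r, c.cc n s ≤ 0 := by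
  have hcont : Continuous (c.cc n) := Cf.continuous_cc hn hc
  by_cases hne : (Icc 0 r ∩ {s | 0 ≤ c.cc n s}).Nonempty
  · have hclosed : IsClosed {s | 0 ≤ c.cc n s} := isClosed_le continuous_const hcont
    have hcomp : IsCompact (Icc 0 r ∩ {s | 0 ≤ c.cc n s}) := isCompact_Icc.inter_right hclosed
    obtain ⟨r₁, hr₁, hmax⟩ := hcomp.exists_isMaxOn hne continuous_id.continuousOn
    have hmax' : ∀ s ∈ Ioc r₁ r, c.cc n s < 0 := by
      intro s hs
      by_contra hcon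
      have h1 : s ∈ Icc 0 r ∩ {s | 0 ≤ c.cc n s} :=
        ⟨⟨hr₁.1.1.trans hs.1.le, hs.2⟩, not_lt.1 hcon⟩
      have h2 : s ≤ r₁ := hmax h1
      exact absurd hs.1 (not_lt.2 h2)
    refine ⟨r₁, hr₁.1.1, hr₁.1.2, Or.inr ?_, fun s hs => (hmax' s hs).le⟩
    refine le_antisymm ?_ hr₁.2
    rcases eq_or_lt_of_le hr₁.1.2 with h3 | h3
    · rw [h3]
      exact h
    · have h4 : Tendsto (c.cc n) (𝓝[>] r₁) (𝓝 (c.cc n r₁)) :=
        (hcont.tendsto r₁).mono_left nhdsWithin_le_nhds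
      refine le_of_tendsto h4 ?_
      filter_upwards [Ioc_mem_nhdsGT h3] with s hs
      exact (hmax' s hs).le
  · refine ⟨0, le_rfl, h0, Or.inl rfl, fun s hs => ?_⟩
    by_contra hcon
    exact hne ⟨s, ⟨hs.1.le, hs.2⟩, (not_le.1 hcon).le⟩

private theorem aa_close {K : ℝ} {n : ℕ} (hn : 2 ≤ n) {c : Cf}
    (hc : c.Adm n) (hr : c.Rad) (hE : c.E ≤ K * n ^ 2) {r₁ r : ℝ} (h1 : 0 ≤ r₁) (h2 : r₁ ≤ r)
    (h : ∀ s ∈ Ioc r₁ r, c.cc n s ≤ 0) : |c.aa n r - c.aa n r₁| ≤ K / n := by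
  have hn0 : 0 < n := by omega
  have hα := al_pos hn0
  have hnp : (0 : ℝ) < n := by exact_mod_cast hn0
  have hE0 : 0 ≤ c.E := Cf.Adm.E_nonneg c
  have hpi := Real.pi_pos
  obtain ⟨hiU, hbU⟩ := Cf.int_U hn0 hc
  -- the integral of `s` over `(r₁, r]`
  have e1 : ∫ s in Ioc r₁ r, s = (r ^ 2 - r₁ ^ 2) / 2 := by
    rw [← intervalIntegral.integral_of_le h2, integral_id]
  have hsub : Ioc r₁ r ⊆ Ioi 0 := fun s hs => lt_of_le_of_lt h1 hs.1
  have e2 : ∫ s in Ioc r₁ r, s ≤ ∫ s in Ioc r₁ r, 1 / al n * (s * c.U n s) := by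
    refine setIntegral_mono_on continuous_id.integrableOn_Ioc ((hiU.mono_set hsub).const_mul _)
      measurableSet_Ioc fun s hs => ?_
    have h3 := Cf.one_sub_cc_sq hn hc s
    have h4 := h s hs
    have h5 : (1 : ℝ) ≤ (1 - c.cc n s) ^ 2 := one_le_pow₀ (by linarith)
    have h6 : (0 : ℝ) < s := hsub hs
    calc s = s * 1 := (mul_one s).symm
      _ ≤ s * (c.U n s / al n) := mul_le_mul_of_nonneg_left (h5.trans h3) h6.le
      _ = 1 / al n * (s * c.U n s) := by ring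
  have e3 : ∫ s in Ioc r₁ r, 1 / al n * (s * c.U n s) ≤
      ∫ s in Ioi (0 : ℝ), 1 / al n * (s * c.U n s) := by
    refine setIntegral_mono_set (hiU.const_mul _) ?_ (LE.le.eventuallyLE hsub)
    refine (ae_restrict_iff' measurableSet_Ioi).2 (Eventually.of_forall fun s hs => ?_)
    have hs' : (0 : ℝ) < s := hs
    have := Cf.U_nonneg hn0 c s
    show (0 : ℝ) ≤ 1 / al n * (s * c.U n s)
    positivity
  have e4 : ∫ s in Ioi (0 : ℝ), 1 / al n * (s * c.U n s) ≤ c.E / π := by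
    rw [integral_const_mul]
    calc 1 / al n * ∫ s in Ioi (0 : ℝ), s * c.U n s ≤ 1 / al n * (c.E / (n : ℝ) ^ 3) :=
          mul_le_mul_of_nonneg_left hbU (by positivity)
      _ = c.E / π := by
          unfold al
          field_simp
  have e5 : (r ^ 2 - r₁ ^ 2) / 2 ≤ c.E / π := by linarith
  have hb := Cf.beta_sub hn hc hr h1 h2
  have e6 : (c.beta n r - c.beta n r₁) ^ 2 ≤ (c.E / π) ^ 2 := by
    have : c.E / π * ((r ^ 2 - r₁ ^ 2) / 2) ≤ c.E / π * (c.E / π) :=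
      mul_le_mul_of_nonneg_left e5 (by positivity)
    nlinarith
  have e7 : |c.beta n r - c.beta n r₁| ≤ c.E / π :=
    abs_le_of_sq_le_sq e6 (by positivity)
  have e8 : c.aa n r - c.aa n r₁ = al n * (c.beta n r - c.beta n r₁) := by
    unfold Cf.aa
    ring
  rw [e8, abs_mul, abs_of_pos hα]
  calc al n * |c.beta n r - c.beta n r₁| ≤ al n * (c.E / π) :=
        mul_le_mul_of_nonneg_left e7 hα.le
    _ = c.E / (n : ℝ) ^ 3 := by
        unfold al
        field_simp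
    _ ≤ K * n ^ 2 / (n : ℝ) ^ 3 := by gcongr
    _ = K / n := by field_simp

theorem conf6 (K : ℝ) (hK : 1 ≤ K) : ∃ C : ℝ, 0 < C ∧ ∀ n : ℕ, 2 ≤ n → ∀ c : Cf, c.Adm n → c.Rad →
    c.E ≤ K * n ^ 2 → ∀ r, 0 ≤ r → c.cc n r ≤ 0 → |Real.sin (c.aa n r)| ≤ C / Real.sqrt n := by
  obtain ⟨C5, hC5, h5⟩ := conf5 K hK
  have hK0 : 0 < K := by linarith
  refine ⟨6 * Real.sqrt C5 + K + 4, by positivity, ?_⟩
  intro n hn c hc hr hE r h0 h
  have hn0 : 0 < n := by omega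
  have hnp : (0 : ℝ) < n := by exact_mod_cast hn0
  have hn1 : (1 : ℝ) ≤ n := by exact_mod_cast hn0
  have hsn : 0 < Real.sqrt n := Real.sqrt_pos.2 hnp
  have hsn2 : Real.sqrt n * Real.sqrt n = n := Real.mul_self_sqrt hnp.le
  have hsn1 : 1 ≤ Real.sqrt n := by
    rw [show (1 : ℝ) = Real.sqrt 1 from Real.sqrt_one.symm]
    exact Real.sqrt_le_sqrt hn1
  have hC0 : 0 ≤ Real.sqrt C5 := Real.sqrt_nonneg _
  by_cases hbig : Real.sqrt n ≤ 6 * Real.sqrt C5 + K + 4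
  · refine (Real.abs_sin_le_one _).trans ?_
    rw [le_div_iff₀ hsn]
    linarith
  push Not at hbig
  obtain ⟨r₁, h1, h2, h3, h4⟩ := lvl hn0 hc h0 h
  have hcl := aa_close hn hc hr hE h1 h2 h4
  have hKn : K / n ≤ K / Real.sqrt n := by
    refine div_le_div_of_nonneg_left hK0.le hsn ?_
    nlinarith
  have hlip := Real.abs_sin_sub_sin_le (c.aa n r) (c.aa n r₁)
  have htri : |Real.sin (c.aa n r)| ≤ |Real.sin (c.aa n r₁)| + K / Real.sqrt n := by
    have := abs_sub_abs_le_abs_sub (Real.sin (c.aa n r)) (Real.sin (c.aa n r₁))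
    linarith
  refine htri.trans ?_
  have goal : |Real.sin (c.aa n r₁)| ≤ (6 * Real.sqrt C5 + 4) / Real.sqrt n := by
    rcases eq_or_lt_of_le h1 with hz | hz
    · rw [← hz, (Cf.data_zero hn hc).2.1, Real.sin_neg, abs_neg]
      have hα := al_pos hn0
      have k1 := Real.abs_sin_sub_sin_le (al n) 0
      rw [Real.sin_zero, sub_zero, sub_zero, abs_of_pos hα] at k1
      refine k1.trans ?_
      rw [le_div_iff₀ hsn]
      have k2 : al n * Real.sqrt n ≤ π := by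
        have e : al n * (n : ℝ) ^ 3 = π := by
          unfold al
          field_simp
        rw [← e]
        refine mul_le_mul_of_nonneg_left ?_ hα.le
        have k3 : Real.sqrt n ≤ n := by nlinarith
        have k4 : (n : ℝ) ≤ (n : ℝ) ^ 3 := by
          nlinarith [mul_self_nonneg ((n : ℝ)), mul_le_mul hn1 hn1 zero_le_one hnp.le]
        linarith
      have := Real.pi_le_four
      linarith
    · have hrp : r₁ ≤ rp K n := by
        by_contra hcon
        push Not at hcon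
        have k1 := Cf.cc_ge hn hc hK hE (hcon.le.trans h2)
        linarith
      obtain ⟨m1, m2, m3⟩ := h5 n hn c hc hr hE r₁ hz hrp
      have hcc : c.cc n r₁ = 0 := by
        rcases h3 with h3 | h3
        · exact absurd h3 hz.ne'
        · exact h3
      -- `C5 / n ≤ 1 / 16`
      have q1 : 4 * Real.sqrt C5 ≤ Real.sqrt n := by linarith
      have q2 : C5 / n ≤ 1 / 16 := by
        rw [div_le_iff₀ hnp]
        have q3 : (4 * Real.sqrt C5) * (4 * Real.sqrt C5) ≤ Real.sqrt n * Real.sqrt n :=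
          mul_self_le_mul_self (by positivity) q1
        have q4 : Real.sqrt C5 * Real.sqrt C5 = C5 := Real.mul_self_sqrt hC5.le
        nlinarith
      have m4 : |1 - c.cc n r₁ ^ 2 - ‖c.V n r₁‖ ^ 2| ≤ 1 / 4 :=
        abs_le_of_sq_le_sq (m3.trans (q2.trans (by norm_num))) (by norm_num)
      have m5 : ‖c.V n r₁‖ ^ 2 = (c.V n r₁).re ^ 2 + (c.V n r₁).im ^ 2 := by
        rw [Complex.sq_norm, Complex.normSq_apply]
        ring
      have m6 := abs_le.1 m4
      rw [hcc] at m6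
      have m7 : 1 / 4 ≤ (c.V n r₁).re ^ 2 := by
        have := m6.2
        linarith
      have m8 : Real.sin (c.aa n r₁) ^ 2 ≤ 4 * (C5 / n) := by
        have k1 : 1 / 4 * Real.sin (c.aa n r₁) ^ 2 ≤ (c.V n r₁).re ^ 2 * Real.sin (c.aa n r₁) ^ 2 :=
          mul_le_mul_of_nonneg_right m7 (sq_nonneg _)
        rw [mul_pow] at m2
        linarith
      have m9 : 4 * (C5 / n) = (2 * Real.sqrt C5 / Real.sqrt n) ^ 2 := by
        rw [div_pow, mul_pow, Real.sq_sqrt hC5.le, Real.sq_sqrt hnp.le]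
        ring
      rw [m9] at m8
      refine (abs_le_of_sq_le_sq m8 (by positivity)).trans ?_
      refine div_le_div_of_nonneg_right ?_ hsn.le
      linarith
  calc |Real.sin (c.aa n r₁)| + K / Real.sqrt n
      ≤ (6 * Real.sqrt C5 + 4) / Real.sqrt n + K / Real.sqrt n := by linarith
    _ = (6 * Real.sqrt C5 + K + 4) / Real.sqrt n := by ring

private theorem psi_le' (x : ℝ) : 0 ≤ psi x ∧ psi x ≤ 1 := by
  unfold psi
  exact ⟨le_max_left _ _, max_le zero_le_one (min_le_left _ _)⟩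

private theorem psi_ne {x : ℝ} (h : psi x ≠ 0) : |x - π| < π / 4 := by
  by_contra hcon
  push Not at hcon
  apply h
  unfold psi
  have hpi := Real.pi_pos
  have h1 : 2 ≤ 8 / π * |x - π| := by
    calc (2 : ℝ) = 8 / π * (π / 4) := by field_simp; norm_num
      _ ≤ 8 / π * |x - π| := mul_le_mul_of_nonneg_left hcon (by positivity)
  refine max_eq_left ?_
  exact (min_le_right _ _).trans (by linarith)

private theorem psi_one {x : ℝ} (h : |x - π| ≤ π / 8) : psi x = 1 := by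
  unfold psi
  have hpi := Real.pi_pos
  have h1 : 8 / π * |x - π| ≤ 1 := by
    calc 8 / π * |x - π| ≤ 8 / π * (π / 8) := mul_le_mul_of_nonneg_left h (by positivity)
      _ = 1 := by field_simp
  rw [min_eq_left (by linarith)]
  exact max_eq_right zero_le_one

private theorem near_pi {x : ℝ} (h : |x - π| < π / 4) (hs : |Real.sin x| ≤ Real.sin (π / 8) / 2) :
    |x - π| ≤ π / 8 := by
  by_contra hcon
  push Not at hcon
  have hpi := Real.pi_pos
  have h1 : |Real.sin x| = |Real.sin (x - π)| := by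
    rw [Real.sin_sub_pi, abs_neg]
  have h2 : |Real.sin (x - π)| = Real.sin |x - π| := by
    rcases le_or_gt 0 (x - π) with h3 | h3
    · rw [abs_of_nonneg h3] at h ⊢
      exact abs_of_nonneg (Real.sin_nonneg_of_nonneg_of_le_pi h3 (by linarith))
    · rw [abs_of_neg h3] at h ⊢
      rw [Real.sin_neg]
      exact abs_of_nonpos (Real.sin_nonpos_of_nonpos_of_neg_pi_le h3.le (by linarith))
  have h3 : Real.sin (π / 8) < Real.sin |x - π| :=
    Real.sin_lt_sin_of_lt_of_le_pi_div_two (by linarith) (by linarith) hcon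
  have h4 : 0 < Real.sin (π / 8) := Real.sin_pos_of_pos_of_lt_pi (by positivity) (by linarith)
  rw [h1, h2] at hs
  linarith

theorem conf7 (K : ℝ) (hK : 1 ≤ K) : ∃ n₀ : ℕ, 2 ≤ n₀ ∧ ∀ n : ℕ, n₀ ≤ n → ∀ c : Cf, c.Adm n →
    c.Rad → c.E ≤ K * n ^ 2 → ∀ r, 0 ≤ r → 1 / 2 ≤ ‖c.Z n r‖ := by
  obtain ⟨C5, hC5, h5⟩ := conf5 K hK
  obtain ⟨C6, hC6, h6⟩ := conf6 K hK
  have hpi := Real.pi_pos
  obtain ⟨η, hη⟩ : ∃ η, η = Real.sin (π / 8) / 2 := ⟨_, rfl⟩
  have hη0 : 0 < η := by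
    rw [hη]
    have : 0 < Real.sin (π / 8) := Real.sin_pos_of_pos_of_lt_pi (by positivity) (by linarith)
    linarith
  -- choice of `n₀`
  obtain ⟨n₁, hn₁⟩ := exists_nat_ge ((C6 / η) ^ 2 + 256 * C5 + 8 * C5 / η ^ 2 + 2)
  have hsum : 0 ≤ (C6 / η) ^ 2 := sq_nonneg _
  have hsum2 : 0 ≤ 8 * C5 / η ^ 2 := by positivity
  refine ⟨n₁, ?_, ?_⟩
  · have : (2 : ℝ) ≤ n₁ := by linarith
    exact_mod_cast this
  intro n hn c hc hr hE r h0
  have hnR : (C6 / η) ^ 2 + 256 * C5 + 8 * C5 / η ^ 2 + 2 ≤ (n : ℝ) :=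
    hn₁.trans (by exact_mod_cast hn)
  have hn2R : (2 : ℝ) ≤ n := by linarith
  have hn2 : 2 ≤ n := by exact_mod_cast hn2R
  have hnp : (0 : ℝ) < n := by linarith
  have hsn : 0 < Real.sqrt n := Real.sqrt_pos.2 hnp
  have a1 : C6 / Real.sqrt n ≤ η := by
    rw [div_le_iff₀ hsn]
    have k1 : C6 / η ≤ Real.sqrt n := Real.le_sqrt_of_sq_le (by linarith)
    rw [div_le_iff₀ hη0] at k1
    linarith
  have a2 : C5 / n ≤ 1 / 256 := by
    rw [div_le_iff₀ hnp]
    linarith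
  have a3 : 4 * (C5 / n) < η ^ 2 := by
    have k1 : 8 * C5 / η ^ 2 ≤ n := by linarith
    rw [div_le_iff₀ (by positivity)] at k1
    have k2 : 4 * (C5 / n) = 4 * C5 / n := by ring
    rw [k2, div_lt_iff₀ hnp]
    nlinarith
  rcases le_or_gt (rp K n) r with hrp | hrp
  · have k1 := Cf.Z_sub_one_le hn2 hc hK hE hrp
    have k2 : ‖(1 : ℂ)‖ ≤ ‖c.Z n r‖ + ‖c.Z n r - 1‖ := by
      have : (1 : ℂ) = c.Z n r - (c.Z n r - 1) := by ring
      conv_lhs => rw [this]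
      exact norm_sub_le _ _
    rw [norm_one] at k2
    linarith
  rcases eq_or_lt_of_le h0 with hz | hz
  · rw [← hz, (Cf.data_zero hn2 hc).2.2.2.2, norm_one]
    norm_num
  obtain ⟨m1, m2, m3⟩ := h5 n hn2 c hc hr hE r hz hrp.le
  have m4 : |1 - c.cc n r ^ 2 - ‖c.V n r‖ ^ 2| ≤ 1 / 16 :=
    abs_le_of_sq_le_sq (m3.trans (a2.trans (by norm_num))) (by norm_num)
  have m5 : ‖c.V n r‖ ^ 2 = (c.V n r).re ^ 2 + (c.V n r).im ^ 2 := by
    rw [Complex.sq_norm, Complex.normSq_apply]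
    ring
  have m6 := (abs_le.1 m4).2
  have hpsi := psi_le' (c.aa n r)
  have hcc := abs_le.1 (Cf.abs_cc_le (by omega : 0 < n) hc r)
  have hZre : (c.Z n r).re = 1 + psi (c.aa n r) * (c.cc n r - 1) := by
    unfold Cf.Z
    simp
  have hZim : (c.Z n r).im = psi (c.aa n r) * (c.V n r).re := by
    unfold Cf.Z
    simp
  by_cases hp : psi (c.aa n r) = 0
  · have : c.Z n r = 1 := by
      unfold Cf.Z
      rw [hp]
      simp
    rw [this, norm_one]
    norm_num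
  have hnear := psi_ne hp
  rcases le_or_gt |Real.sin (c.aa n r)| η with hs | hs
  · have hp1 := psi_one (near_pi hnear (by rw [← hη]; exact hs))
    rw [hp1] at hZre hZim
    have k1 : (1 / 2 : ℝ) ^ 2 ≤ ‖c.Z n r‖ ^ 2 := by
      rw [Complex.sq_norm, Complex.normSq_apply, hZre, hZim]
      nlinarith
    exact (pow_le_pow_iff_left₀ (by norm_num) (norm_nonneg _) two_ne_zero).1 k1
  · have hc0 : 0 < c.cc n r := by
      by_contra hcon
      push Not at hcon
      have := h6 n hn2 c hc hr hE r h0 hcon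
      linarith
    rcases le_or_gt (1 / 2) (c.cc n r) with hh | hh
    · have k1 : 1 / 2 ≤ (c.Z n r).re := by
        rw [hZre]
        nlinarith [hpsi.1, hpsi.2, hcc.2]
      exact k1.trans ((le_abs_self _).trans (Complex.abs_re_le_norm _))
    · exfalso
      have k1 : 1 / 4 ≤ (c.V n r).re ^ 2 := by nlinarith
      have k2 : 1 / 4 * Real.sin (c.aa n r) ^ 2 ≤ (c.V n r).re ^ 2 * Real.sin (c.aa n r) ^ 2 :=
        mul_le_mul_of_nonneg_right k1 (sq_nonneg _)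
      rw [mul_pow] at m2
      have k3 : η ^ 2 < Real.sin (c.aa n r) ^ 2 := by
        rw [← sq_abs (Real.sin (c.aa n r))]
        exact pow_lt_pow_left₀ hs hη0.le (by norm_num)
      linarith

end GO3
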