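import Pool.Agent.GO3.Sym
import Pool.Agent.O3.Defs

/-! GO3 / Cnv: conversion of a solution on `ℂ` to a configuration on `ℝ × ℝ` in the format of
`Pool.Agent.O3.Defs`; the complex conjugate of `w` is taken, so the degree changes sign. -/

open MeasureTheory Filter Topology Set
open scoped ContDiff Real

noncomputable section

namespace GO3

/-- the identification of `ℝ × ℝ` with `ℂ` -/
def ee2 : (ℝ × ℝ) ≃L[ℝ] ℂ := Complex.equivRealProdCLM.symm

theorem ee2_apply (x : ℝ × ℝ) : ee2 x = ⟨x.1, x.2⟩ := rfl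

theorem ee2_one : ee2 (1, 0) = 1 := by
  rw [ee2_apply]; rfl

theorem ee2_I : ee2 (0, 1) = Complex.I := by
  rw [ee2_apply]; rfl

/-- the converted configuration -/
def Cf.toO3 (c : Cf) : O3.Conf where
  φ1 := fun x => (c.w (ee2 x)).re
  φ2 := fun x => -(c.w (ee2 x)).im
  φ3 := fun x => c.h (ee2 x)
  A1 := fun x => (c.A (ee2 x)).re
  A2 := fun x => (c.A (ee2 x)).im

theorem d1_comp {g : ℂ → ℝ} (hg : Differentiable ℝ g) (x : ℝ × ℝ) :
    O3.d1 (fun y => g (ee2 y)) x = fderiv ℝ g (ee2 x) 1 := by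
  unfold O3.d1
  have h := (hg (ee2 x)).hasFDerivAt.comp x ee2.hasFDerivAt
  have h2 := h.fderiv
  have h3 : (fun y => g (ee2 y)) = g ∘ ee2 := rfl
  rw [h3, h2]
  simp [ee2_one]

theorem d2_comp {g : ℂ → ℝ} (hg : Differentiable ℝ g) (x : ℝ × ℝ) :
    O3.d2 (fun y => g (ee2 y)) x = fderiv ℝ g (ee2 x) Complex.I := by
  unfold O3.d2
  have h := (hg (ee2 x)).hasFDerivAt.comp x ee2.hasFDerivAt
  have h2 := h.fderiv
  have h3 : (fun y => g (ee2 y)) = g ∘ ee2 := rfl
  rw [h3, h2]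
  simp [ee2_I]

theorem fderiv_re {f : ℂ → ℂ} (hf : Differentiable ℝ f) (z v : ℂ) :
    fderiv ℝ (fun y => (f y).re) z v = (fderiv ℝ f z v).re := by
  have h := Complex.reCLM.hasFDerivAt.comp z (hf z).hasFDerivAt
  have h3 : (fun y => (f y).re) = Complex.reCLM ∘ f := rfl
  rw [h3, h.fderiv]
  rfl

theorem fderiv_im {f : ℂ → ℂ} (hf : Differentiable ℝ f) (z v : ℂ) :
    fderiv ℝ (fun y => (f y).im) z v = (fderiv ℝ f z v).im := by
  have h := Complex.imCLM.hasFDerivAt.comp z (hf z).hasFDerivAt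
  have h3 : (fun y => (f y).im) = Complex.imCLM ∘ f := rfl
  rw [h3, h.fderiv]
  rfl

variable {c : Cf}

theorem ip_one (a : ℂ) : ip a 1 = a.re := by simp [ip]

theorem ip_I (a : ℂ) : ip a Complex.I = a.im := by simp [ip]

theorem smooth_fderiv {V : Type*} [NormedAddCommGroup V] [NormedSpace ℝ V] {f : ℂ → V}
    (hf : ContDiff ℝ ∞ f) (v : ℂ) : ContDiff ℝ ∞ fun z => fderiv ℝ f z v :=
  (hf.fderiv_right (m := ∞) (by simp)).clm_apply contDiff_const

theorem smooth_ip {A : ℂ → ℂ} (hA : ContDiff ℝ ∞ A) (v : ℂ) :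
    ContDiff ℝ ∞ fun z => (ip (A z) v : ℂ) := by
  have h1 : ContDiff ℝ ∞ fun z => (A z).re := Complex.reCLM.contDiff.comp hA
  have h2 : ContDiff ℝ ∞ fun z => (A z).im := Complex.imCLM.contDiff.comp hA
  exact Complex.ofRealCLM.contDiff.comp ((h1.mul contDiff_const).add (h2.mul contDiff_const))

theorem smooth_Dw (hw : ContDiff ℝ ∞ c.w) (hA : ContDiff ℝ ∞ c.A) (v : ℂ) :
    ContDiff ℝ ∞ fun z => c.Dw z v :=
  (smooth_fderiv hw v).sub ((contDiff_const.mul (smooth_ip hA v)).mul hw)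

theorem smooth_dh (hh : ContDiff ℝ ∞ c.h) (v : ℂ) : ContDiff ℝ ∞ fun z => c.dh z v :=
  smooth_fderiv hh v

theorem sm_diff {V : Type*} [NormedAddCommGroup V] [NormedSpace ℝ V] {f : ℂ → V}
    (hf : ContDiff ℝ ∞ f) : Differentiable ℝ f := hf.differentiable (by simp)

/-- `D_j D_j w` -/
def Cf.LL (c : Cf) (z : ℂ) : ℂ :=
  (fderiv ℝ (fun y => c.Dw y 1) z 1 - Complex.I * (ip (c.A z) 1 : ℂ) * c.Dw z 1) +
  (fderiv ℝ (fun y => c.Dw y Complex.I) z Complex.I -
    Complex.I * (ip (c.A z) Complex.I : ℂ) * c.Dw z Complex.I)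

/-- the Laplacian of `h` -/
def Cf.L3 (c : Cf) (z : ℂ) : ℝ :=
  fderiv ℝ (fun y => c.dh y 1) z 1 + fderiv ℝ (fun y => c.dh y Complex.I) z Complex.I

theorem fderiv_p (hw : ContDiff ℝ ∞ c.w) (hh : ContDiff ℝ ∞ c.h) (hA : ContDiff ℝ ∞ c.A)
    (z v : ℂ) : fderiv ℝ (fun y => c.p y v) z v =
      c.dh z v * c.Dw z v + c.h z * fderiv ℝ (fun y => c.Dw y v) z v -
        (fderiv ℝ c.w z v * c.dh z v + c.w z * fderiv ℝ (fun y => c.dh y v) z v) := by
  have h1 : HasFDerivAt (fun y => (c.h y : ℂ)) (Complex.ofRealCLM ∘L fderiv ℝ c.h z) z :=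
    Complex.ofRealCLM.hasFDerivAt.comp z ((sm_diff hh) z).hasFDerivAt
  have h2 : HasFDerivAt (fun y => (c.dh y v : ℂ))
      (Complex.ofRealCLM ∘L fderiv ℝ (fun y => c.dh y v) z) z :=
    Complex.ofRealCLM.hasFDerivAt.comp z ((sm_diff (smooth_dh hh v)) z).hasFDerivAt
  have h3 := ((sm_diff (smooth_Dw hw hA v)) z).hasFDerivAt
  have h4 := ((sm_diff hw) z).hasFDerivAt
  have h5 := (h1.mul h3).sub (h4.mul h2)
  have h6 : (fun y => c.p y v) =
      (fun y => (c.h y : ℂ) * c.Dw y v - c.w y * (c.dh y v : ℂ)) := rfl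
  rw [h6]
  have h7 := h5.fderiv
  have h8 : fderiv ℝ (fun y => (c.h y : ℂ) * c.Dw y v - c.w y * (c.dh y v : ℂ)) z = _ := h7
  rw [h8]
  simp only [ContinuousLinearMap.sub_apply, ContinuousLinearMap.add_apply,
    ContinuousLinearMap.smul_apply, ContinuousLinearMap.comp_apply, smul_eq_mul,
    Complex.ofRealCLM_apply]
  have h9 : fderiv ℝ c.h z v = c.dh z v := rfl
  rw [h9]
  ring

theorem divp_eq (hw : ContDiff ℝ ∞ c.w) (hh : ContDiff ℝ ∞ c.h) (hA : ContDiff ℝ ∞ c.A)
    (z : ℂ) : c.divp z = c.h z * c.LL z - c.w z * c.L3 z := by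
  unfold Cf.divp Cf.LL Cf.L3
  rw [fderiv_p hw hh hA z 1, fderiv_p hw hh hA z Complex.I]
  have h1 : fderiv ℝ c.w z 1 = c.Dw z 1 + Complex.I * (ip (c.A z) 1 : ℂ) * c.w z := by
    unfold Cf.Dw; ring
  have h2 : fderiv ℝ c.w z Complex.I =
      c.Dw z Complex.I + Complex.I * (ip (c.A z) Complex.I : ℂ) * c.w z := by
    unfold Cf.Dw; ring
  rw [h1, h2]
  unfold Cf.p
  push_cast
  ring

/-- `∂_v j_v = Im (conj w D_v D_v w)` -/
theorem fderiv_j (hw : ContDiff ℝ ∞ c.w) (hA : ContDiff ℝ ∞ c.A) (z v : ℂ) :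
    fderiv ℝ (fun y => c.j y v) z v = (star (c.w z) *
      (fderiv ℝ (fun y => c.Dw y v) z v - Complex.I * (ip (c.A z) v : ℂ) * c.Dw z v)).im := by
  have h3 := ((sm_diff (smooth_Dw hw hA v)) z).hasFDerivAt
  have h4 : HasFDerivAt (fun y => star (c.w y)) (Complex.conjCLE.toContinuousLinearMap ∘L
      fderiv ℝ c.w z) z :=
    Complex.conjCLE.toContinuousLinearMap.hasFDerivAt.comp z ((sm_diff hw) z).hasFDerivAt
  have h5 := Complex.imCLM.hasFDerivAt.comp z (h4.mul h3)
  have h6 : (fun y => c.j y v) = Complex.imCLM ∘ (fun y => star (c.w y) * c.Dw y v) := rfl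
  have h7 : fderiv ℝ (Complex.imCLM ∘ (fun y => star (c.w y) * c.Dw y v)) z = _ := h5.fderiv
  rw [h6, h7]
  simp only [ContinuousLinearMap.add_apply,
    ContinuousLinearMap.smul_apply, ContinuousLinearMap.comp_apply, smul_eq_mul]
  have h1 : fderiv ℝ c.w z v = c.Dw z v + Complex.I * (ip (c.A z) v : ℂ) * c.w z := by
    unfold Cf.Dw; ring
  rw [h1]
  simp only [Complex.imCLM_apply, ContinuousLinearEquiv.coe_coe, Complex.conjCLE_apply,
    map_add, map_mul, Complex.conj_I, Complex.conj_ofReal]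
  simp only [Complex.add_im, Complex.mul_im, Complex.mul_re, Complex.sub_im, Complex.sub_re,
    Complex.conj_re, Complex.conj_im, Complex.star_def, Complex.add_re, Complex.neg_re,
    Complex.neg_im, Complex.I_re, Complex.I_im, Complex.ofReal_re, Complex.ofReal_im]
  ring

theorem im_LL (hw : ContDiff ℝ ∞ c.w) (hA : ContDiff ℝ ∞ c.A) (hel : c.EL)
    (hF : ContDiff ℝ ∞ c.F) (z : ℂ) : (star (c.w z) * c.LL z).im = 0 := by
  have h1 := fderiv_j hw hA z 1
  have h2 := fderiv_j hw hA z Complex.I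
  have h3 : (star (c.w z) * c.LL z).im = fderiv ℝ (fun y => c.j y 1) z 1 +
      fderiv ℝ (fun y => c.j y Complex.I) z Complex.I := by
    rw [h1, h2]
    unfold Cf.LL
    rw [mul_add, Complex.add_im]
  rw [h3]
  have h4 : (fun y => c.j y 1) = fun y => fderiv ℝ c.F y Complex.I :=
    funext fun y => (hel.eqF2 y).symm
  have h5 : (fun y => c.j y Complex.I) = fun y => -fderiv ℝ c.F y 1 :=
    funext fun y => by rw [hel.eqF1 y]; ring
  rw [h4, h5, fderiv_fun_neg]
  have hd : DifferentiableAt ℝ (fderiv ℝ c.F) z :=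
    ((hF.fderiv_right (m := ∞) (by simp)).differentiable (by simp)) z
  have h6 : ∀ u v : ℂ, fderiv ℝ (fun y => fderiv ℝ c.F y u) z v =
      fderiv ℝ (fderiv ℝ c.F) z v u := by
    intro u v
    have := (hd.hasFDerivAt.clm_apply (hasFDerivAt_const u z)).fderiv
    rw [this]
    simp
  rw [h6, ContinuousLinearMap.neg_apply, h6]
  have hs : IsSymmSndFDerivAt ℝ c.F z := by
    refine ContDiffAt.isSymmSndFDerivAt hF.contDiffAt ?_
    rw [minSmoothness_of_isRCLikeNormedField]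
    exact WithTop.coe_le_coe.2 (le_top (a := (2 : ℕ∞)))
  have := hs 1 Complex.I
  rw [this]
  ring

/-- component functions -/
theorem toO3_fields (hw : ContDiff ℝ ∞ c.w) (hh : ContDiff ℝ ∞ c.h) (hA : ContDiff ℝ ∞ c.A)
    (x : ℝ × ℝ) : c.toO3.P1 x = (c.Dw (ee2 x) 1).re ∧ c.toO3.Q1 x = -(c.Dw (ee2 x) 1).im ∧
    c.toO3.S1 x = c.dh (ee2 x) 1 ∧ c.toO3.P2 x = (c.Dw (ee2 x) Complex.I).re ∧
    c.toO3.Q2 x = -(c.Dw (ee2 x) Complex.I).im ∧ c.toO3.S2 x = c.dh (ee2 x) Complex.I ∧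
    c.toO3.F x = c.F (ee2 x) := by
  have hre : Differentiable ℝ fun z => (c.w z).re :=
    Complex.reCLM.differentiable.comp (sm_diff hw)
  have him : Differentiable ℝ fun z => -(c.w z).im :=
    (Complex.imCLM.differentiable.comp (sm_diff hw)).neg
  have hAre : Differentiable ℝ fun z => (c.A z).re :=
    Complex.reCLM.differentiable.comp (sm_diff hA)
  have hAim : Differentiable ℝ fun z => (c.A z).im :=
    Complex.imCLM.differentiable.comp (sm_diff hA)
  have hni : ∀ z v, fderiv ℝ (fun z => -(c.w z).im) z v = -(fderiv ℝ c.w z v).im := by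
    intro z v
    rw [fderiv_fun_neg, ContinuousLinearMap.neg_apply, fderiv_im (sm_diff hw)]
  refine ⟨?_, ?_, ?_, ?_, ?_, ?_, ?_⟩
  · unfold O3.Conf.P1
    simp only [Cf.toO3]
    rw [d1_comp hre, fderiv_re (sm_diff hw)]
    simp only [Cf.Dw, ip_one, Complex.sub_re, Complex.mul_re, Complex.mul_im, Complex.I_re,
      Complex.I_im, Complex.ofReal_re, Complex.ofReal_im]
    ring
  · unfold O3.Conf.Q1
    simp only [Cf.toO3]
    rw [d1_comp him, hni]
    simp only [Cf.Dw, ip_one, Complex.sub_im, Complex.mul_re, Complex.mul_im, Complex.I_re,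
      Complex.I_im, Complex.ofReal_re, Complex.ofReal_im]
    ring
  · unfold O3.Conf.S1
    simp only [Cf.toO3]
    rw [d1_comp (sm_diff hh)]
    rfl
  · unfold O3.Conf.P2
    simp only [Cf.toO3]
    rw [d2_comp hre, fderiv_re (sm_diff hw)]
    simp only [Cf.Dw, ip_I, Complex.sub_re, Complex.mul_re, Complex.mul_im, Complex.I_re,
      Complex.I_im, Complex.ofReal_re, Complex.ofReal_im]
    ring
  · unfold O3.Conf.Q2
    simp only [Cf.toO3]
    rw [d2_comp him, hni]
    simp only [Cf.Dw, ip_I, Complex.sub_im, Complex.mul_re, Complex.mul_im, Complex.I_re,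
      Complex.I_im, Complex.ofReal_re, Complex.ofReal_im]
    ring
  · unfold O3.Conf.S2
    simp only [Cf.toO3]
    rw [d2_comp (sm_diff hh)]
    rfl
  · unfold O3.Conf.F
    simp only [Cf.toO3]
    rw [d1_comp hAim, d2_comp hAre, fderiv_im (sm_diff hA), fderiv_re (sm_diff hA)]
    rfl

theorem smooth_re {f : ℂ → ℂ} (hf : ContDiff ℝ ∞ f) : ContDiff ℝ ∞ fun z => (f z).re :=
  Complex.reCLM.contDiff.comp hf

theorem smooth_im {f : ℂ → ℂ} (hf : ContDiff ℝ ∞ f) : ContDiff ℝ ∞ fun z => (f z).im :=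
  Complex.imCLM.contDiff.comp hf

theorem toO3_L (hw : ContDiff ℝ ∞ c.w) (hh : ContDiff ℝ ∞ c.h) (hA : ContDiff ℝ ∞ c.A)
    (x : ℝ × ℝ) : c.toO3.L1 x = (c.LL (ee2 x)).re ∧ c.toO3.L2 x = -(c.LL (ee2 x)).im ∧
    c.toO3.L3 x = c.L3 (ee2 x) := by
  have hf := toO3_fields hw hh hA
  have e1 : c.toO3.P1 = fun x => (fun z => (c.Dw z 1).re) (ee2 x) := funext fun x => (hf x).1
  have e2 : c.toO3.Q1 = fun x => (fun z => -(c.Dw z 1).im) (ee2 x) := funext fun x => (hf x).2.1
  have e3 : c.toO3.S1 = fun x => (fun z => c.dh z 1) (ee2 x) := funext fun x => (hf x).2.2.1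
  have e4 : c.toO3.P2 = fun x => (fun z => (c.Dw z Complex.I).re) (ee2 x) :=
    funext fun x => (hf x).2.2.2.1
  have e5 : c.toO3.Q2 = fun x => (fun z => -(c.Dw z Complex.I).im) (ee2 x) :=
    funext fun x => (hf x).2.2.2.2.1
  have e6 : c.toO3.S2 = fun x => (fun z => c.dh z Complex.I) (ee2 x) :=
    funext fun x => (hf x).2.2.2.2.2.1
  have s1 := smooth_Dw hw hA 1
  have s2 := smooth_Dw hw hA Complex.I
  have n1 : ∀ z v, fderiv ℝ (fun z => -(c.Dw z 1).im) z v =
      -(fderiv ℝ (fun y => c.Dw y 1) z v).im := by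
    intro z v
    rw [fderiv_fun_neg, ContinuousLinearMap.neg_apply, fderiv_im (sm_diff s1)]
  have n2 : ∀ z v, fderiv ℝ (fun z => -(c.Dw z Complex.I).im) z v =
      -(fderiv ℝ (fun y => c.Dw y Complex.I) z v).im := by
    intro z v
    rw [fderiv_fun_neg, ContinuousLinearMap.neg_apply, fderiv_im (sm_diff s2)]
  refine ⟨?_, ?_, ?_⟩
  · unfold O3.Conf.L1
    rw [e1, e2, e4, e5, d1_comp (sm_diff (smooth_re s1)), d2_comp (sm_diff (smooth_re s2)),
      fderiv_re (sm_diff s1), fderiv_re (sm_diff s2)]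
    simp only [Cf.toO3, Cf.LL, ip_one, ip_I, Complex.add_re, Complex.sub_re, Complex.mul_re,
      Complex.mul_im, Complex.I_re, Complex.I_im, Complex.ofReal_re, Complex.ofReal_im]
    ring
  · unfold O3.Conf.L2
    rw [e1, e2, e4, e5, d1_comp (sm_diff (smooth_im s1).neg), d2_comp (sm_diff (smooth_im s2).neg),
      n1, n2]
    simp only [Cf.toO3, Cf.LL, ip_one, ip_I, Complex.add_im, Complex.sub_im, Complex.mul_re,
      Complex.mul_im, Complex.I_re, Complex.I_im, Complex.ofReal_re, Complex.ofReal_im]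
    ring
  · unfold O3.Conf.L3
    rw [e3, e6, d1_comp (sm_diff (smooth_dh hh 1)), d2_comp (sm_diff (smooth_dh hh Complex.I))]
    rfl

theorem ee2_mp : MeasurePreserving ee2 (volume : Measure (ℝ × ℝ)) (volume : Measure ℂ) :=
  Complex.volume_preserving_equiv_real_prod.symm

theorem conv (hw : ContDiff ℝ ∞ c.w) (hh : ContDiff ℝ ∞ c.h) (hA : ContDiff ℝ ∞ c.A)
    (hu : ∀ z, ‖c.w z‖ ^ 2 + c.h z ^ 2 = 1) (hi : Integrable c.dens) (hel : c.EL)
    (hF : ContDiff ℝ ∞ c.F) (hl : Tendsto c.h (cocompact ℂ) (𝓝 1)) (hJ : Integrable c.J)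
    (hJv : ∫ z, c.J z = -4 * π) :
    ∃ d : O3.Conf, d.Critical ∧ Integrable d.degDensity ∧ d.degree = 1 := by
  have hf := toO3_fields hw hh hA
  have hL := toO3_L hw hh hA
  have hemb : MeasurableEmbedding ee2 := ee2.toHomeomorph.measurableEmbedding
  have hdens : c.toO3.density = fun x => c.dens (ee2 x) := by
    funext x
    unfold O3.Conf.density
    obtain ⟨a1, a2, a3, a4, a5, a6, a7⟩ := hf x
    rw [a1, a2, a3, a4, a5, a6, a7]
    simp only [Cf.toO3, Cf.dens, Cf.grad, Cf.nsq]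
    rw [← Complex.normSq_eq_norm_sq, ← Complex.normSq_eq_norm_sq, Complex.normSq_apply,
      Complex.normSq_apply]
    ring
  have hre : Differentiable ℝ fun z => (c.w z).re := sm_diff (smooth_re hw)
  have him : Differentiable ℝ fun z => -(c.w z).im := sm_diff (smooth_im hw).neg
  have hni : ∀ z v, fderiv ℝ (fun z => -(c.w z).im) z v = -(fderiv ℝ c.w z v).im := by
    intro z v
    rw [fderiv_fun_neg, ContinuousLinearMap.neg_apply, fderiv_im (sm_diff hw)]
  have hdeg : c.toO3.degDensity = fun x => -c.J (ee2 x) := by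
    funext x
    unfold O3.Conf.degDensity
    simp only [Cf.toO3]
    rw [d1_comp hre, d2_comp hre, d1_comp him, d2_comp him, d1_comp (sm_diff hh),
      d2_comp (sm_diff hh), fderiv_re (sm_diff hw), fderiv_re (sm_diff hw), hni, hni]
    unfold Cf.J
    ring
  have hJi : Integrable fun x => -c.J (ee2 x) := by
    have := (ee2_mp.integrable_comp_emb hemb).2 hJ
    exact this.neg
  refine ⟨c.toO3, ?_, ?_, ?_⟩
  · refine ⟨?_, ?_, ?_, ?_, ?_, ?_, ?_, ?_, ?_, ?_, ?_, ?_, ?_⟩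
    · exact (smooth_re hw).comp ee2.contDiff
    · exact (smooth_im hw).neg.comp ee2.contDiff
    · exact hh.comp ee2.contDiff
    · exact (smooth_re hA).comp ee2.contDiff
    · exact (smooth_im hA).comp ee2.contDiff
    · intro x
      have := hu (ee2 x)
      rw [← Complex.normSq_eq_norm_sq, Complex.normSq_apply] at this
      simp only [Cf.toO3]
      nlinarith
    · intro x
      have e : c.toO3.F = fun x => c.F (ee2 x) := funext fun x => (hf x).2.2.2.2.2.2
      rw [e, d1_comp (sm_diff hF), hel.eqF1, (hf x).2.2.2.2.1, (hf x).2.2.2.1]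
      simp only [Cf.toO3, Cf.j, Complex.star_def, Complex.mul_im, Complex.conj_re,
        Complex.conj_im]
      ring
    · intro x
      have e : c.toO3.F = fun x => c.F (ee2 x) := funext fun x => (hf x).2.2.2.2.2.2
      rw [e, d2_comp (sm_diff hF), hel.eqF2, (hf x).2.1, (hf x).1]
      simp only [Cf.toO3, Cf.j, Complex.star_def, Complex.mul_im, Complex.conj_re,
        Complex.conj_im]
      ring
    · intro x
      have h1 := hel.eqp (ee2 x)
      rw [divp_eq hw hh hA] at h1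
      have h2 := congrArg Complex.im h1
      rw [(hL x).2.2, (hL x).2.1]
      simp only [Complex.sub_im, Complex.mul_im, Complex.ofReal_re, Complex.ofReal_im] at h2
      simp only [Cf.toO3]
      linarith
    · intro x
      have h1 := hel.eqp (ee2 x)
      rw [divp_eq hw hh hA] at h1
      have h2 := congrArg Complex.re h1
      rw [(hL x).2.2, (hL x).1]
      simp only [Complex.sub_re, Complex.mul_re, Complex.ofReal_re, Complex.ofReal_im] at h2
      simp only [Cf.toO3]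
      linarith
    · intro x
      have h1 := im_LL hw hA hel hF (ee2 x)
      rw [(hL x).2.1, (hL x).1]
      simp only [Complex.star_def, Complex.mul_im, Complex.conj_re, Complex.conj_im] at h1
      simp only [Cf.toO3]
      linarith
    · rw [hdens]
      exact (ee2_mp.integrable_comp_emb hemb).2 hi
    · exact hl.comp ee2.toHomeomorph.isClosedEmbedding.tendsto_cocompact
  · rw [hdeg]
    exact hJi
  · unfold O3.Conf.degree
    rw [hdeg, integral_neg]
    have : ∫ x, c.J (ee2 x) = ∫ z, c.J z := ee2_mp.integral_comp hemb c.J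
    rw [this, hJv]
    have := Real.pi_ne_zero
    field_simp

end GO3
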