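import Pool.Agent.GO3.Pol

/-! GO3 / Sym: smoothness and symmetry facts for `Adm` configurations.

Proofs. Differentiate the symmetry relations (chain rule with the real-linear isometries
`z ↦ ζ z`, `z ↦ conj z`): `dw_{ζz}(ζv) = ζ dw_z(v)`, `ip (A (ζz)) (ζv) = ip (A z) v`, hence
`Dw (ζz) (ζv) = ζ Dw z v`; for the reflection `Dw (conj z) (conj v) = conj (Dw z v)` because
`ip (A (conj z)) (conj v) = ip (-conj (A z)) (conj v) = - ip (A z) v` and
`- i (-⟨A,v⟩) conj w = conj (- i ⟨A,v⟩ w)`. The curvature `F` is invariant under both.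
`grad` does not depend on the orthonormal frame (`v ↦ Dw z v`, `v ↦ dh z v` are real linear), hence
`grad (ζz) = nsq (ζz) ζ + nsq (ζz) (ζ i) = grad z`, `grad (conj z) = nsq (conj z) 1 + nsq (conj z) (-i)`.
`w 0 = ζ w 0` and `ζ ≠ 1`. On the ray `χ = 0`: `conj w = w`. On the ray `χ = α`:
`conj (pt r α) = pt r (-α) = ζ⁻¹ pt r α`, so `conj (w (pt r α)) = ζ⁻¹ w (pt r α)`, `ζ = e^{2iα}`. -/

open MeasureTheory Filter Topology Set
open scoped ContDiff Real

noncomputable section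

namespace GO3

namespace Cf

variable {c : Cf} {n : ℕ}

private theorem lin_aux {E : Type*} [NormedAddCommGroup E] [NormedSpace ℝ E] (L : ℂ →L[ℝ] E) (v : ℂ) :
    L v = v.re • L 1 + v.im • L Complex.I := by
  have h : v = v.re • (1 : ℂ) + v.im • Complex.I := by
    apply Complex.ext <;> simp
  conv_lhs => rw [h]
  rw [map_add, map_smul, map_smul]

private theorem Dw_lin (c : Cf) (z v : ℂ) :
    c.Dw z v = v.re * c.Dw z 1 + v.im * c.Dw z Complex.I := by
  unfold Dw
  rw [lin_aux (fderiv ℝ c.w z) v]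
  simp only [ip, Complex.real_smul, Complex.one_re, Complex.one_im, Complex.I_re, Complex.I_im]
  push_cast
  ring

private theorem dh_lin (c : Cf) (z v : ℂ) :
    c.dh z v = v.re * c.dh z 1 + v.im * c.dh z Complex.I := by
  unfold dh
  rw [lin_aux (fderiv ℝ c.h z) v]
  simp only [smul_eq_mul]

private theorem sq_lin (a b : ℝ) (x y : ℂ) :
    ‖(a : ℂ) * x + b * y‖ ^ 2 = a ^ 2 * ‖x‖ ^ 2 + b ^ 2 * ‖y‖ ^ 2 + 2 * (a * b) * (x.re * y.re + x.im * y.im) := by
  simp only [Complex.sq_norm, Complex.normSq_apply, Complex.add_re, Complex.add_im, Complex.mul_re,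
    Complex.mul_im, Complex.ofReal_re, Complex.ofReal_im]
  ring

private theorem nsq_lin (c : Cf) (z v : ℂ) :
    c.nsq z v = v.re ^ 2 * c.nsq z 1 + v.im ^ 2 * c.nsq z Complex.I + 2 * (v.re * v.im) *
      ((c.Dw z 1).re * (c.Dw z Complex.I).re + (c.Dw z 1).im * (c.Dw z Complex.I).im +
        c.dh z 1 * c.dh z Complex.I) := by
  unfold nsq
  rw [Dw_lin c z v, dh_lin c z v, sq_lin]
  ring

/-- orthonormal frame independence: `grad = nsq u + nsq (i u)` for `|u| = 1` -/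
theorem grad_frame (c : Cf) (z u : ℂ) (hu : ‖u‖ = 1) :
    c.grad z = c.nsq z u + c.nsq z (Complex.I * u) := by
  have h1 : u.re ^ 2 + u.im ^ 2 = 1 := by
    have := Complex.sq_norm u
    rw [hu, Complex.normSq_apply] at this
    nlinarith
  rw [nsq_lin c z u, nsq_lin c z (Complex.I * u)]
  unfold grad
  have e1 : (Complex.I * u).re = -u.im := by simp
  have e2 : (Complex.I * u).im = u.re := by simp
  rw [e1, e2]
  linear_combination -(c.nsq z 1 + c.nsq z Complex.I) * h1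

/-- homogeneity: `nsq z (t v) = t² nsq z v` -/
theorem nsq_smul (c : Cf) (z v : ℂ) (t : ℝ) : c.nsq z (t * v) = t ^ 2 * c.nsq z v := by
  rw [nsq_lin c z v, nsq_lin c z (t * v)]
  have e1 : ((t : ℂ) * v).re = t * v.re := by simp
  have e2 : ((t : ℂ) * v).im = t * v.im := by simp
  rw [e1, e2]
  ring

/-- polar form of the gradient energy -/
theorem grad_polar (c : Cf) {r : ℝ} (hr : r ≠ 0) (χ : ℝ) :
    c.grad (pt r χ) = c.nsq (pt r χ) (er χ) + c.nsq (pt r χ) (Complex.I * pt r χ) / r ^ 2 := by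
  rw [grad_frame c (pt r χ) (er χ) (norm_er χ)]
  have e : Complex.I * pt r χ = (r : ℂ) * (Complex.I * er χ) := by
    rw [pt_eq]; ring
  rw [e, nsq_smul, mul_div_assoc, mul_comm (r ^ 2), div_mul_cancel₀ _ (pow_ne_zero 2 hr)]

theorem nsq_nonneg (c : Cf) (z v : ℂ) : 0 ≤ c.nsq z v := by
  unfold nsq
  positivity

theorem grad_nonneg (c : Cf) (z : ℂ) : 0 ≤ c.grad z := by
  unfold grad
  have := c.nsq_nonneg z 1
  have := c.nsq_nonneg z Complex.I
  positivity

theorem dens_nonneg (c : Cf) (z : ℂ) : 0 ≤ c.dens z := by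
  unfold dens
  have := c.grad_nonneg z
  positivity

theorem norm_Dw_le (c : Cf) (z v : ℂ) : ‖c.Dw z v‖ ^ 2 ≤ c.nsq z v := by
  unfold nsq
  nlinarith [sq_nonneg (c.dh z v)]

theorem dh_le (c : Cf) (z v : ℂ) : c.dh z v ^ 2 ≤ c.nsq z v := by
  unfold nsq
  nlinarith [sq_nonneg (‖c.Dw z v‖)]

private theorem cd_param (n : ℕ) : ∀ {E : Type} [NormedAddCommGroup E] [NormedSpace ℝ E] [CompleteSpace E]
    (F : (ℝ × ℝ) × ℝ → E), ContDiff ℝ n F →
      ContDiff ℝ n (fun x : ℝ × ℝ => ∫ t in (0 : ℝ)..1, F (x, t)) := by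
  induction n with
  | zero =>
    intro E _ _ _ F hF
    have hc : Continuous F := hF.continuous
    rw [Nat.cast_zero, contDiff_zero]
    exact intervalIntegral.continuous_parametric_intervalIntegral_of_continuous'
      (f := fun (x : ℝ × ℝ) (t : ℝ) => F (x, t)) hc 0 1
  | succ n ih =>
    intro E _ _ _ F hF
    have hc : Continuous F := hF.continuous
    have hd : ContDiff ℝ n (fderiv ℝ F) := hF.fderiv_right (by norm_cast)
    let G : (ℝ × ℝ) × ℝ → ((ℝ × ℝ) →L[ℝ] E) := fun q =>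
      (fderiv ℝ F q).comp (ContinuousLinearMap.inl ℝ (ℝ × ℝ) ℝ)
    have hG : ContDiff ℝ n G := hd.clm_comp contDiff_const
    have hGc : Continuous G := hG.continuous
    rw [Nat.cast_succ, contDiff_succ_iff_hasFDerivAt]
    refine ⟨fun x => ∫ t in (0 : ℝ)..1, G (x, t), ih G hG, fun x => ?_⟩
    have hK : IsCompact (Metric.closedBall x 1 ×ˢ Icc (0 : ℝ) 1) :=
      (isCompact_closedBall x 1).prod isCompact_Icc
    obtain ⟨M, hM⟩ := hK.exists_bound_of_continuousOn hGc.continuousOn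
    refine intervalIntegral.hasFDerivAt_integral_of_dominated_of_fderiv_le (s := Metric.ball x 1)
      (F := fun x t => F (x, t)) (F' := fun x t => G (x, t)) (bound := fun _ => M)
      (Metric.ball_mem_nhds x one_pos) ?_ ?_ ?_ ?_ ?_ ?_
    · exact Filter.Eventually.of_forall fun y =>
        (hc.comp (Continuous.prodMk_right y)).aestronglyMeasurable
    · exact (hc.comp (Continuous.prodMk_right x)).intervalIntegrable _ _
    · exact (hGc.comp (Continuous.prodMk_right x)).aestronglyMeasurable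
    · refine ae_of_all _ fun t ht y hy => hM (y, t) ⟨Metric.ball_subset_closedBall hy, ?_⟩
      rw [uIoc_of_le zero_le_one] at ht
      exact ⟨ht.1.le, ht.2⟩
    · exact intervalIntegrable_const
    · refine ae_of_all _ fun t ht y hy => ?_
      have h1 : HasFDerivAt F (fderiv ℝ F (y, t)) (y, t) :=
        (hF.differentiable (by simp)).differentiableAt.hasFDerivAt
      have h2 : HasFDerivAt (fun y : ℝ × ℝ => (y, t)) (ContinuousLinearMap.inl ℝ (ℝ × ℝ) ℝ) y :=
        hasFDerivAt_prodMk_left y t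
      exact h1.comp y h2

private theorem cd_param_top {F : (ℝ × ℝ) × ℝ → ℝ} (hF : ContDiff ℝ ∞ F) :
    ContDiff ℝ ∞ (fun x : ℝ × ℝ => ∫ t in (0 : ℝ)..1, F (x, t)) := by
  rw [contDiff_infty]
  intro n
  exact cd_param n F (hF.of_le (by exact_mod_cast le_top))

namespace Adm

theorem norm_w_le (hc : c.Adm n) (z : ℂ) : ‖c.w z‖ ≤ 1 := by
  have h := hc.unit z
  nlinarith [sq_nonneg (c.h z), norm_nonneg (c.w z)]

theorem abs_h_le (hc : c.Adm n) (z : ℂ) : |c.h z| ≤ 1 := by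
  have h := hc.unit z
  rw [← sq_abs (c.h z)] at h
  nlinarith [abs_nonneg (c.h z), sq_nonneg (‖c.w z‖)]

theorem contDiff_Dw (hc : c.Adm n) : ContDiff ℝ ∞ fun q : ℂ × ℂ => c.Dw q.1 q.2 := by
  have h1 : ContDiff ℝ ∞ fun q : ℂ × ℂ => fderiv ℝ c.w q.1 q.2 :=
    ((hc.sw.fderiv_right (m := ∞) (by simp)).comp contDiff_fst).clm_apply contDiff_snd
  have hA : ContDiff ℝ ∞ fun q : ℂ × ℂ => c.A q.1 := hc.sA.comp contDiff_fst
  have hw : ContDiff ℝ ∞ fun q : ℂ × ℂ => c.w q.1 := hc.sw.comp contDiff_fst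
  have h2 : ContDiff ℝ ∞ fun q : ℂ × ℂ => ((ip (c.A q.1) q.2 : ℝ) : ℂ) := by
    refine Complex.ofRealCLM.contDiff.comp ?_
    exact ((Complex.reCLM.contDiff.comp hA).mul (Complex.reCLM.contDiff.comp contDiff_snd)).add
      ((Complex.imCLM.contDiff.comp hA).mul (Complex.imCLM.contDiff.comp contDiff_snd))
  exact h1.sub ((contDiff_const.mul h2).mul hw)

theorem contDiff_dh (hc : c.Adm n) : ContDiff ℝ ∞ fun q : ℂ × ℂ => c.dh q.1 q.2 :=
  ((hc.sh.fderiv_right (m := ∞) (by simp)).comp contDiff_fst).clm_apply contDiff_snd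

theorem contDiff_nsq (hc : c.Adm n) : ContDiff ℝ ∞ fun q : ℂ × ℂ => c.nsq q.1 q.2 :=
  (hc.contDiff_Dw.norm_sq ℝ).add (hc.contDiff_dh.pow 2)

theorem contDiff_F (hc : c.Adm n) : ContDiff ℝ ∞ c.F := by
  have h1 : ∀ v : ℂ, ContDiff ℝ ∞ fun z : ℂ => fderiv ℝ c.A z v := fun v =>
    (hc.sA.fderiv_right (m := ∞) (by simp)).clm_apply contDiff_const
  exact (Complex.imCLM.contDiff.comp (h1 1)).sub (Complex.reCLM.contDiff.comp (h1 Complex.I))

theorem contDiff_grad (hc : c.Adm n) : ContDiff ℝ ∞ c.grad := by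
  have h1 : ∀ v : ℂ, ContDiff ℝ ∞ fun z : ℂ => c.nsq z v := fun v =>
    hc.contDiff_nsq.comp (contDiff_id.prodMk contDiff_const)
  exact (h1 1).add (h1 Complex.I)

theorem contDiff_dens (hc : c.Adm n) : ContDiff ℝ ∞ c.dens :=
  (hc.contDiff_grad.add ((contDiff_const.sub hc.sh).pow 2)).add (hc.contDiff_F.pow 2)

theorem int_grad (hc : c.Adm n) : Integrable c.grad := by
  refine hc.fin.mono' hc.contDiff_grad.continuous.aestronglyMeasurable (ae_of_all _ fun z => ?_)
  rw [Real.norm_eq_abs, abs_of_nonneg (c.grad_nonneg z)]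
  unfold dens
  nlinarith [sq_nonneg (1 - c.h z), sq_nonneg (c.F z)]

theorem int_pot (hc : c.Adm n) : Integrable fun z => (1 - c.h z) ^ 2 := by
  refine hc.fin.mono' ((contDiff_const.sub hc.sh).pow 2).continuous.aestronglyMeasurable
    (ae_of_all _ fun z => ?_)
  rw [Real.norm_eq_abs, abs_of_nonneg (sq_nonneg _)]
  unfold dens
  nlinarith [c.grad_nonneg z, sq_nonneg (c.F z)]

theorem int_F (hc : c.Adm n) : Integrable fun z => c.F z ^ 2 := by
  refine hc.fin.mono' (hc.contDiff_F.pow 2).continuous.aestronglyMeasurable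
    (ae_of_all _ fun z => ?_)
  rw [Real.norm_eq_abs, abs_of_nonneg (sq_nonneg _)]
  unfold dens
  nlinarith [c.grad_nonneg z, sq_nonneg (1 - c.h z)]

theorem E_eq (hc : c.Adm n) : 2 * c.E =
    (∫ z, c.grad z) + (∫ z, (1 - c.h z) ^ 2) + ∫ z, c.F z ^ 2 := by
  have e : ∫ z, c.dens z = (∫ z, c.grad z) + (∫ z, (1 - c.h z) ^ 2) + ∫ z, c.F z ^ 2 := by
    rw [← integral_add hc.int_grad hc.int_pot]
    exact integral_add (hc.int_grad.add hc.int_pot) hc.int_F
  rw [← e]
  unfold E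
  ring

theorem E_nonneg (c : Cf) : 0 ≤ c.E := by
  unfold E
  have := integral_nonneg (μ := volume) (f := c.dens) (fun z => c.dens_nonneg z)
  positivity

/-- the tangency relation `Re (conj w D_v w) + h ∂_v h = 0` -/
theorem tan (hc : c.Adm n) (z v : ℂ) : (star (c.w z) * c.Dw z v).re + c.h z * c.dh z v = 0 := by
  have hw : HasFDerivAt c.w (fderiv ℝ c.w z) z :=
    (hc.sw.differentiable (by simp)).differentiableAt.hasFDerivAt
  have hh : HasFDerivAt c.h (fderiv ℝ c.h z) z :=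
    (hc.sh.differentiable (by simp)).differentiableAt.hasFDerivAt
  have h1 := hw.norm_sq.add (hh.pow 2)
  have h2 : (fun x => ‖c.w x‖ ^ 2 + c.h x ^ 2) = fun _ => (1 : ℝ) := funext hc.unit
  have h3 : HasFDerivAt (fun x => ‖c.w x‖ ^ 2 + c.h x ^ 2) (0 : ℂ →L[ℝ] ℝ) z := by
    rw [h2]; exact hasFDerivAt_const _ _
  have h4 := congrArg (fun L : ℂ →L[ℝ] ℝ => L v) (h1.unique h3)
  simp at h4
  have h5 : (star (c.w z) * c.Dw z v).re =
      (fderiv ℝ c.w z v).re * (c.w z).re + (fderiv ℝ c.w z v).im * (c.w z).im := by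
    unfold Dw
    simp
    ring
  rw [h5]
  unfold dh
  linarith

/-- `|∂_v h| ≤ |w| |D_v φ|` -/
theorem dh_le_w (hc : c.Adm n) (z v : ℂ) : c.dh z v ^ 2 ≤ ‖c.w z‖ ^ 2 * c.nsq z v := by
  have h1 := hc.tan z v
  have h2 := hc.unit z
  have h3 : (star (c.w z) * c.Dw z v).re ^ 2 ≤ ‖c.w z‖ ^ 2 * ‖c.Dw z v‖ ^ 2 := by
    have h5 : |(star (c.w z) * c.Dw z v).re| ≤ ‖c.w z‖ * ‖c.Dw z v‖ := by
      refine (Complex.abs_re_le_norm _).trans ?_
      rw [norm_mul, norm_star]
    rw [← sq_abs, ← mul_pow]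
    exact pow_le_pow_left₀ (abs_nonneg _) h5 2
  have h4 : (c.h z * c.dh z v) ^ 2 = (star (c.w z) * c.Dw z v).re ^ 2 := by
    have : c.h z * c.dh z v = -(star (c.w z) * c.Dw z v).re := by linarith
    rw [this]; ring
  have h6 : c.dh z v ^ 2 = (‖c.w z‖ ^ 2 + c.h z ^ 2) * c.dh z v ^ 2 := by rw [h2, one_mul]
  rw [h6]
  unfold nsq
  nlinarith

private theorem rot_aux {f : ℂ → ℂ} (hf : Differentiable ℝ f) {ζ : ℂ} (h : ∀ z, f (ζ * z) = ζ * f z)
    (z v : ℂ) : fderiv ℝ f (ζ * z) (ζ * v) = ζ * fderiv ℝ f z v := by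
  have h1 : HasFDerivAt (fun y : ℂ => ζ * y) (ζ • (ContinuousLinearMap.id ℝ ℂ)) z :=
    (hasFDerivAt_id z).const_mul ζ
  have h2 : HasFDerivAt (fun y => f (ζ * y)) ((fderiv ℝ f (ζ * z)).comp (ζ • (ContinuousLinearMap.id ℝ ℂ))) z :=
    (hf (ζ * z)).hasFDerivAt.comp z h1
  have h3 : HasFDerivAt (fun y => f (ζ * y)) (ζ • fderiv ℝ f z) z := by
    have : (fun y => f (ζ * y)) = fun y => ζ * f y := funext h
    rw [this]
    exact (hf z).hasFDerivAt.const_mul ζ
  have h4 := congrArg (fun L : ℂ →L[ℝ] ℂ => L v) (h2.unique h3)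
  simpa using h4

private theorem rot_aux_r {f : ℂ → ℝ} (hf : Differentiable ℝ f) {ζ : ℂ} (h : ∀ z, f (ζ * z) = f z)
    (z v : ℂ) : fderiv ℝ f (ζ * z) (ζ * v) = fderiv ℝ f z v := by
  have h1 : HasFDerivAt (fun y : ℂ => ζ * y) (ζ • (ContinuousLinearMap.id ℝ ℂ)) z :=
    (hasFDerivAt_id z).const_mul ζ
  have h2 : HasFDerivAt (fun y => f (ζ * y)) ((fderiv ℝ f (ζ * z)).comp (ζ • (ContinuousLinearMap.id ℝ ℂ))) z :=
    (hf (ζ * z)).hasFDerivAt.comp z h1
  have h3 : HasFDerivAt (fun y => f (ζ * y)) (fderiv ℝ f z) z := by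
    have : (fun y => f (ζ * y)) = f := funext h
    rw [this]
    exact (hf z).hasFDerivAt
  have h4 := congrArg (fun L : ℂ →L[ℝ] ℝ => L v) (h2.unique h3)
  simpa using h4

private theorem hasFDerivAt_star' (z : ℂ) :
    HasFDerivAt (fun y : ℂ => star y) ((Complex.conjCLE : ℂ ≃L[ℝ] ℂ) : ℂ →L[ℝ] ℂ) z :=
  (Complex.conjCLE : ℂ ≃L[ℝ] ℂ).hasFDerivAt

private theorem star_aux {f : ℂ → ℂ} (hf : Differentiable ℝ f) (h : ∀ z, f (star z) = star (f z))
    (z v : ℂ) : fderiv ℝ f (star z) (star v) = star (fderiv ℝ f z v) := by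
  have h2 : HasFDerivAt (fun y => f (star y)) ((fderiv ℝ f (star z)).comp
      ((Complex.conjCLE : ℂ ≃L[ℝ] ℂ) : ℂ →L[ℝ] ℂ)) z :=
    (hf (star z)).hasFDerivAt.comp z (hasFDerivAt_star' z)
  have h3 : HasFDerivAt (fun y => f (star y)) (((Complex.conjCLE : ℂ ≃L[ℝ] ℂ) : ℂ →L[ℝ] ℂ).comp
      (fderiv ℝ f z)) z := by
    have : (fun y => f (star y)) = fun y => star (f y) := funext h
    rw [this]
    exact (hasFDerivAt_star' (f z)).comp z (hf z).hasFDerivAt
  have h4 := congrArg (fun L : ℂ →L[ℝ] ℂ => L v) (h2.unique h3)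
  simpa using h4

private theorem star_aux_r {f : ℂ → ℝ} (hf : Differentiable ℝ f) (h : ∀ z, f (star z) = f z)
    (z v : ℂ) : fderiv ℝ f (star z) (star v) = fderiv ℝ f z v := by
  have h2 : HasFDerivAt (fun y => f (star y)) ((fderiv ℝ f (star z)).comp
      ((Complex.conjCLE : ℂ ≃L[ℝ] ℂ) : ℂ →L[ℝ] ℂ)) z :=
    (hf (star z)).hasFDerivAt.comp z (hasFDerivAt_star' z)
  have h3 : HasFDerivAt (fun y => f (star y)) (fderiv ℝ f z) z := by
    have : (fun y => f (star y)) = f := funext h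
    rw [this]
    exact (hf z).hasFDerivAt
  have h4 := congrArg (fun L : ℂ →L[ℝ] ℝ => L v) (h2.unique h3)
  simpa using h4

theorem Dw_rot (hc : c.Adm n) (z v : ℂ) : c.Dw (ze n * z) (ze n * v) = ze n * c.Dw z v := by
  unfold Dw
  rw [rot_aux (hc.sw.differentiable (by simp)) hc.rw, hc.rA, hc.rw, ip_mul _ _ _ (norm_ze n)]
  ring

theorem Dw_star (hc : c.Adm n) (z v : ℂ) : c.Dw (star z) (star v) = star (c.Dw z v) := by
  unfold Dw
  have e : ip (-star (c.A z)) (star v) = -ip (c.A z) v := by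
    simp [ip]
    ring
  rw [star_aux (hc.sw.differentiable (by simp)) hc.cw, hc.cA, hc.cw, e]
  simp

theorem dh_rot (hc : c.Adm n) (z v : ℂ) : c.dh (ze n * z) (ze n * v) = c.dh z v :=
  rot_aux_r (hc.sh.differentiable (by simp)) hc.rh z v

theorem dh_star (hc : c.Adm n) (z v : ℂ) : c.dh (star z) (star v) = c.dh z v :=
  star_aux_r (hc.sh.differentiable (by simp)) hc.ch z v

theorem nsq_rot (hc : c.Adm n) (z v : ℂ) : c.nsq (ze n * z) (ze n * v) = c.nsq z v := by
  unfold nsq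
  rw [hc.Dw_rot, hc.dh_rot, norm_mul, norm_ze, one_mul]

theorem nsq_star (hc : c.Adm n) (z v : ℂ) : c.nsq (star z) (star v) = c.nsq z v := by
  unfold nsq
  rw [hc.Dw_star, hc.dh_star, norm_star]

theorem F_rot (hc : c.Adm n) (z : ℂ) : c.F (ze n * z) = c.F z := by
  have hd : Differentiable ℝ c.A := hc.sA.differentiable (by simp)
  have h1 := rot_aux hd hc.rA z 1
  have h2 := rot_aux hd hc.rA z Complex.I
  rw [lin_aux (fderiv ℝ c.A (ze n * z)) (ze n * 1)] at h1
  rw [lin_aux (fderiv ℝ c.A (ze n * z)) (ze n * Complex.I)] at h2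
  have hu : (ze n).re ^ 2 + (ze n).im ^ 2 = 1 := by
    have := Complex.sq_norm (ze n)
    rw [norm_ze, Complex.normSq_apply] at this
    nlinarith
  unfold F
  generalize fderiv ℝ c.A (ze n * z) 1 = L1 at *
  generalize fderiv ℝ c.A (ze n * z) Complex.I = L2 at *
  generalize fderiv ℝ c.A z 1 = M1 at *
  generalize fderiv ℝ c.A z Complex.I = M2 at *
  generalize ze n = ζ at *
  rw [Complex.ext_iff] at h1 h2
  simp at h1 h2
  obtain ⟨a1, a2⟩ := h1
  obtain ⟨b1, b2⟩ := h2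
  linear_combination ζ.re * a2 - ζ.im * b2 - ζ.im * a1 - ζ.re * b1 -
    (L1.im - L2.re - M1.im + M2.re) * hu

theorem F_star (hc : c.Adm n) (z : ℂ) : c.F (star z) = c.F z := by
  have hd : Differentiable ℝ c.A := hc.sA.differentiable (by simp)
  have hd' : Differentiable ℝ fun z => Complex.I * c.A z := hd.const_mul Complex.I
  have hs : ∀ z, Complex.I * c.A (star z) = star (Complex.I * c.A z) := by
    intro z
    rw [hc.cA]
    simp
  have e : ∀ z v, fderiv ℝ (fun z => Complex.I * c.A z) z v = Complex.I * fderiv ℝ c.A z v := by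
    intro z v
    rw [((hd z).hasFDerivAt.const_mul Complex.I).fderiv]
    simp
  have h1 := star_aux hd' hs z 1
  have h2 := star_aux hd' hs z Complex.I
  rw [e, e] at h1 h2
  unfold F
  rw [lin_aux (fderiv ℝ c.A (star z)) (star 1)] at h1
  rw [lin_aux (fderiv ℝ c.A (star z)) (star Complex.I)] at h2
  generalize fderiv ℝ c.A (star z) 1 = L1 at *
  generalize fderiv ℝ c.A (star z) Complex.I = L2 at *
  generalize fderiv ℝ c.A z 1 = M1 at *
  generalize fderiv ℝ c.A z Complex.I = M2 at *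
  rw [Complex.ext_iff] at h1 h2
  simp at h1 h2
  linarith [h1.1, h1.2, h2.1, h2.2]

theorem grad_rot (hc : c.Adm n) (z : ℂ) : c.grad (ze n * z) = c.grad z := by
  rw [grad_frame c (ze n * z) (ze n) (norm_ze n)]
  have h1 := hc.nsq_rot z 1
  have h2 := hc.nsq_rot z Complex.I
  rw [mul_one] at h1
  rw [mul_comm (ze n) Complex.I] at h2
  rw [h1, h2]
  rfl

theorem grad_star (hc : c.Adm n) (z : ℂ) : c.grad (star z) = c.grad z := by
  have h1 := hc.nsq_star z 1
  have h2 := hc.nsq_star z Complex.I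
  have h3 := c.nsq_smul (star z) Complex.I (-1)
  rw [star_one] at h1
  have e : star Complex.I = ((-1 : ℝ) : ℂ) * Complex.I := by simp
  rw [e, h3] at h2
  unfold grad
  rw [h1]
  linarith

theorem dens_rot (hc : c.Adm n) (z : ℂ) : c.dens (ze n * z) = c.dens z := by
  unfold dens
  rw [hc.grad_rot, hc.rh, hc.F_rot]

theorem dens_star (hc : c.Adm n) (z : ℂ) : c.dens (star z) = c.dens z := by
  unfold dens
  rw [hc.grad_star, hc.ch, hc.F_star]

theorem w_zero (hn : 2 ≤ n) (hc : c.Adm n) : c.w 0 = 0 := by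
  have h := hc.rw 0
  rw [mul_zero] at h
  have h2 : (1 - ze n) * c.w 0 = 0 := by linear_combination h
  rcases mul_eq_zero.1 h2 with h3 | h3
  · exact absurd (sub_eq_zero.1 h3).symm (ze_ne_one hn)
  · exact h3

theorem h_zero (hn : 2 ≤ n) (hc : c.Adm n) : c.h 0 = 1 ∨ c.h 0 = -1 := by
  have h := hc.unit 0
  rw [hc.w_zero hn, norm_zero] at h
  have h2 : c.h 0 ^ 2 = 1 := by linarith
  have h3 : (c.h 0 - 1) * (c.h 0 + 1) = 0 := by linear_combination h2
  rcases mul_eq_zero.1 h3 with h4 | h4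
  · exact Or.inl (by linarith)
  · exact Or.inr (by linarith)

theorem w_ray0 (hc : c.Adm n) (r : ℝ) : (c.w (pt r 0)).im = 0 := by
  have h := hc.cw (pt r 0)
  rw [star_pt, neg_zero] at h
  have h2 := congrArg Complex.im h
  rw [Complex.star_def, Complex.conj_im] at h2
  linarith

theorem w_ray1 (hn : 0 < n) (hc : c.Adm n) (r : ℝ) :
    ∃ y : ℝ, c.w (pt r (al n)) = er (al n) * y := by
  have h1 := hc.cw (pt r (al n))
  have h2 := hc.rw (pt r (-al n))
  rw [star_pt] at h1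
  rw [ze_mul_pt, h1] at h2
  have e : -al n + 2 * al n = al n := by ring
  rw [e, ze_eq] at h2
  have e2 : er (2 * al n) = er (al n) * er (al n) := by
    unfold er
    rw [← Complex.exp_add]
    congr 1
    push_cast
    ring
  have e3 : er (al n) * er (-al n) = 1 := by
    unfold er
    rw [← Complex.exp_add]
    simp
  have h3 : star (er (-al n) * c.w (pt r (al n))) = er (-al n) * c.w (pt r (al n)) := by
    rw [star_mul', star_er, neg_neg]
    rw [e2] at h2
    conv_rhs => rw [h2]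
    linear_combination (-(er (al n) * star (c.w (pt r (al n))))) * e3
  have h4 : (er (-al n) * c.w (pt r (al n))).im = 0 := by
    have := congrArg Complex.im h3
    rw [Complex.star_def, Complex.conj_im] at this
    linarith
  refine ⟨(er (-al n) * c.w (pt r (al n))).re, ?_⟩
  have h5 : (((er (-al n) * c.w (pt r (al n))).re : ℝ) : ℂ) = er (-al n) * c.w (pt r (al n)) :=
    Complex.ext (by simp) (by rw [h4]; simp)
  rw [h5, ← mul_assoc, e3, one_mul]

theorem b_rot (hc : c.Adm n) (r χ : ℝ) : c.b r (χ + 2 * al n) = c.b r χ := by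
  unfold b
  rw [← ze_mul_pt, hc.rA]
  have e : Complex.I * (ze n * pt r χ) = ze n * (Complex.I * pt r χ) := by ring
  rw [e, ip_mul _ _ _ (norm_ze n)]

theorem b_star (hc : c.Adm n) (r χ : ℝ) : c.b r (-χ) = c.b r χ := by
  unfold b
  rw [← star_pt, hc.cA]
  simp [ip]

theorem contDiff_b (hc : c.Adm n) : ContDiff ℝ ∞ fun q : ℝ × ℝ => c.b q.1 q.2 := by
  have hp : ContDiff ℝ ∞ fun q : ℝ × ℝ => pt q.1 q.2 := contDiff_pt
  have hA : ContDiff ℝ ∞ fun q : ℝ × ℝ => c.A (pt q.1 q.2) := hc.sA.comp hp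
  have hI : ContDiff ℝ ∞ fun q : ℝ × ℝ => Complex.I * pt q.1 q.2 := contDiff_const.mul hp
  exact ((Complex.reCLM.contDiff.comp hA).mul (Complex.reCLM.contDiff.comp hI)).add
      ((Complex.imCLM.contDiff.comp hA).mul (Complex.imCLM.contDiff.comp hI))

theorem contDiff_B (hc : c.Adm n) : ContDiff ℝ ∞ fun q : ℝ × ℝ => c.B q.1 q.2 := by
  have e : (fun q : ℝ × ℝ => c.B q.1 q.2) =
      fun q : ℝ × ℝ => q.2 * ∫ t in (0 : ℝ)..1, c.b q.1 (q.2 * t) := by
    funext q
    unfold B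
    have := intervalIntegral.mul_integral_comp_mul_left (a := 0) (b := 1) (f := fun t => c.b q.1 t) q.2
    rw [mul_zero, mul_one] at this
    exact this.symm
  rw [e]
  refine contDiff_snd.mul ?_
  have h1 : ContDiff ℝ ∞ fun y : (ℝ × ℝ) × ℝ => c.b y.1.1 (y.1.2 * y.2) :=
    hc.contDiff_b.comp ((contDiff_fst.comp contDiff_fst).prodMk
      ((contDiff_snd.comp contDiff_fst).mul contDiff_snd))
  exact cd_param_top h1

/-- `B (r, χ + 2 α) = B (r, χ) + 2 α β (r)` -/
theorem B_rot (hn : 0 < n) (hc : c.Adm n) (r χ : ℝ) :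
    c.B r (χ + 2 * al n) = c.B r χ + 2 * al n * c.beta n r := by
  have hb : Continuous (c.b r) := hc.contDiff_b.continuous.comp (Continuous.prodMk_right r)
  have hi : ∀ x y, IntervalIntegrable (c.b r) volume x y := fun x y => hb.intervalIntegrable x y
  have hp : Function.Periodic (c.b r) (2 * al n) := fun χ => hc.b_rot r χ
  have ha : al n ≠ 0 := (al_pos hn).ne'
  have h1 : c.B r (χ + 2 * al n) = c.B r χ + ∫ t in χ..χ + 2 * al n, c.b r t := by
    unfold B
    rw [intervalIntegral.integral_add_adjacent_intervals (hi _ _) (hi _ _)]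
  have h2 := hp.intervalIntegral_add_eq χ (-al n)
  have e : -al n + 2 * al n = al n := by ring
  rw [e] at h2
  have h3 : ∫ t in -al n..al n, c.b r t = 2 * c.B r (al n) := by
    rw [← intervalIntegral.integral_add_adjacent_intervals (hi (-al n) 0) (hi 0 (al n))]
    have h4 : ∫ t in -al n..0, c.b r t = ∫ t in (0 : ℝ)..al n, c.b r t := by
      have h5 := intervalIntegral.integral_comp_neg (a := 0) (b := al n) (fun t => c.b r t)
      rw [neg_zero] at h5
      rw [← h5]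
      exact intervalIntegral.integral_congr fun t _ => hc.b_star r t
    rw [h4]
    unfold B
    ring
  rw [h1, h2, h3]
  unfold beta
  field_simp

end Adm

end Cf

end GO3
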