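import Mathlib

/-! # Gauged O(3) sigma model: definitions for the existence proof (MP_5f0afd_mp)

Proof text: /team-store/o3_proof.md. The plane is `ℂ`; a configuration is `(w, h, A)` with
`w = φ₁ + i φ₂`, `h = φ₃`, `A = A₁ + i A₂`; sign convention `D = ∂ - i A`. The symmetry group is the
dihedral group of order `2 n ^ 3`. -/

open MeasureTheory Filter Topology Set
open scoped ContDiff Real

noncomputable section

namespace GO3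

/-- `ζ = exp (2 π i / n ^ 3)` -/
def ze (n : ℕ) : ℂ := Complex.exp (2 * π * Complex.I / (n : ℂ) ^ 3)

/-- `α = π / n ^ 3` -/
def al (n : ℕ) : ℝ := π / (n : ℝ) ^ 3

/-- the real inner product of `ℂ` -/
def ip (a b : ℂ) : ℝ := a.re * b.re + a.im * b.im

/-- `r e^{i χ}` -/
def pt (r χ : ℝ) : ℂ := r * Complex.exp (χ * Complex.I)

/-- `e^{i χ}` -/
def er (χ : ℝ) : ℂ := Complex.exp (χ * Complex.I)

/-- smooth with compact support -/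
def Tst {V : Type*} [NormedAddCommGroup V] [NormedSpace ℝ V] (f : ℂ → V) : Prop :=
  ContDiff ℝ ∞ f ∧ HasCompactSupport f

/-- the cut-off `ψ`: `1` for `|x - π| ≤ π / 8`, `0` for `|x - π| ≥ π / 4` -/
def psi (x : ℝ) : ℝ := max 0 (min 1 (2 - (8 / π) * |x - π|))

/-- a configuration `(w, h, A)` -/
structure Cf where
  w : ℂ → ℂ
  h : ℂ → ℝ
  A : ℂ → ℂ

namespace Cf

variable (c : Cf)

/-- covariant derivative `D_v w = ∂_v w - i ⟨A, v⟩ w` at `z` -/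
def Dw (z v : ℂ) : ℂ := fderiv ℝ c.w z v - Complex.I * (ip (c.A z) v : ℂ) * c.w z

/-- `∂_v h` at `z` -/
def dh (z v : ℂ) : ℝ := fderiv ℝ c.h z v

/-- `|D_v φ| ^ 2` at `z` -/
def nsq (z v : ℂ) : ℝ := ‖c.Dw z v‖ ^ 2 + c.dh z v ^ 2

/-- the curvature `∂₁ A₂ - ∂₂ A₁` -/
def F (z : ℂ) : ℝ := (fderiv ℝ c.A z 1).im - (fderiv ℝ c.A z Complex.I).re

/-- `|D₁ φ| ^ 2 + |D₂ φ| ^ 2` -/
def grad (z : ℂ) : ℝ := c.nsq z 1 + c.nsq z Complex.I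

/-- twice the energy density -/
def dens (z : ℂ) : ℝ := c.grad z + (1 - c.h z) ^ 2 + c.F z ^ 2

/-- the energy -/
def E : ℝ := 1 / 2 * ∫ z, c.dens z

/-- `j_v = Im (conj w D_v w)` -/
def j (z v : ℂ) : ℝ := (star (c.w z) * c.Dw z v).im

/-- `p_v = h D_v w - w ∂_v h` -/
def p (z v : ℂ) : ℂ := c.h z * c.Dw z v - c.w z * c.dh z v

/-- smooth, unit, finite energy, invariant under the dihedral group of order `2 n ^ 3` -/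
structure Adm (n : ℕ) : Prop where
  sw : ContDiff ℝ ∞ c.w
  sh : ContDiff ℝ ∞ c.h
  sA : ContDiff ℝ ∞ c.A
  unit : ∀ z, ‖c.w z‖ ^ 2 + c.h z ^ 2 = 1
  fin : Integrable c.dens
  rw : ∀ z, c.w (ze n * z) = ze n * c.w z
  rh : ∀ z, c.h (ze n * z) = c.h z
  rA : ∀ z, c.A (ze n * z) = ze n * c.A z
  cw : ∀ z, c.w (star z) = star (c.w z)
  ch : ∀ z, c.h (star z) = c.h z
  cA : ∀ z, c.A (star z) = -star (c.A z)

/-- radial gauge: `A z = i z G z` with `G` real and smooth -/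
def Rad : Prop := ∃ G : ℂ → ℝ, ContDiff ℝ ∞ G ∧ ∀ z, c.A z = Complex.I * z * (G z : ℂ)

/-! ### one-dimensional data -/

/-- `b (r, χ) = ⟨A z, i z⟩`, `z = r e^{i χ}` -/
def b (r χ : ℝ) : ℝ := ip (c.A (pt r χ)) (Complex.I * pt r χ)

/-- `B (r, χ) = ∫_0^χ b (r, t) dt` -/
def B (r χ : ℝ) : ℝ := ∫ t in (0 : ℝ)..χ, c.b r t

/-- the flux through the disc of radius `r` divided by `2 π` -/
def beta (n : ℕ) (r : ℝ) : ℝ := c.B r (al n) / al n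

/-- `a = α (β - 1)` -/
def aa (n : ℕ) (r : ℝ) : ℝ := al n * (c.beta n r - 1)

/-- average of `h` -/
def cc (n : ℕ) (r : ℝ) : ℝ := 1 / al n * ∫ χ in (0 : ℝ)..al n, c.h (pt r χ)

/-- gauge invariant average of `w` -/
def V (n : ℕ) (r : ℝ) : ℂ := ((1 / al n : ℝ) : ℂ) *
  ∫ χ in (0 : ℝ)..al n, c.w (pt r χ) * Complex.exp (-(c.B r χ : ℂ) * Complex.I)

/-- the closed curve whose winding number defines the class -/
def Z (n : ℕ) (r : ℝ) : ℂ :=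
  1 + (psi (c.aa n r) : ℂ) * ((c.cc n r : ℂ) + Complex.I * ((c.V n r).re : ℂ) - 1)

/-- the curve `Z` winds once around the origin -/
def Wind (n : ℕ) : Prop := ∃ Θ : ℝ → ℝ, ContinuousOn Θ (Ici 0) ∧ Θ 0 = 0 ∧
  (∀ r, 0 ≤ r → c.Z n r = (‖c.Z n r‖ : ℂ) * Complex.exp (Θ r * Complex.I)) ∧
  Tendsto Θ atTop (𝓝 (2 * π))

/-- the class `(n, σ)`, `σ = ± 1` -/
def Cls (n : ℕ) (σ : ℝ) : Prop := c.Adm n ∧ c.Wind n ∧ c.h 0 = σ

/-- almost minimisers of the class in radial gauge -/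
def Alm (K : ℝ) (n : ℕ) (σ δ : ℝ) : Prop :=
  c.Cls n σ ∧ c.Rad ∧ c.E ≤ K * n ^ 2 ∧ ∀ c' : Cf, c'.Cls n σ → c.E ≤ c'.E + δ

/-- minimisers of the class in radial gauge -/
def Mini (n : ℕ) (σ : ℝ) : Prop :=
  c.Cls n σ ∧ c.Rad ∧ ∀ c' : Cf, c'.Cls n σ → c.E ≤ c'.E

/-- `D_j p_j` -/
def divp (z : ℂ) : ℂ :=
  (fderiv ℝ (fun y => c.p y 1) z 1 - Complex.I * (ip (c.A z) 1 : ℂ) * c.p z 1) +
  (fderiv ℝ (fun y => c.p y Complex.I) z Complex.I -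
    Complex.I * (ip (c.A z) Complex.I : ℂ) * c.p z Complex.I)

/-- the Euler-Lagrange equations -/
structure EL : Prop where
  eqF1 : ∀ z, fderiv ℝ c.F z 1 = -c.j z Complex.I
  eqF2 : ∀ z, fderiv ℝ c.F z Complex.I = c.j z 1
  eqp : ∀ z, c.divp z = ((1 - c.h z : ℝ) : ℂ) * c.w z

/-- the degree density `φ · (∂₁ φ × ∂₂ φ)` -/
def J (z : ℂ) : ℝ :=
  (c.w z).re * ((fderiv ℝ c.w z 1).im * fderiv ℝ c.h z Complex.I
      - fderiv ℝ c.h z 1 * (fderiv ℝ c.w z Complex.I).im)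
    + (c.w z).im * (fderiv ℝ c.h z 1 * (fderiv ℝ c.w z Complex.I).re
      - (fderiv ℝ c.w z 1).re * fderiv ℝ c.h z Complex.I)
    + c.h z * ((fderiv ℝ c.w z 1).re * (fderiv ℝ c.w z Complex.I).im
      - (fderiv ℝ c.w z 1).im * (fderiv ℝ c.w z Complex.I).re)

/-! ### wedge quantities (arc `0 ≤ χ ≤ α`) and circle quantities -/

/-- `∫_0^α |∂_r φ|²` -/
def T (n : ℕ) (r : ℝ) : ℝ := ∫ χ in (0 : ℝ)..al n, c.nsq (pt r χ) (er χ)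
/-- `∫_0^α |D_χ φ|²` -/
def X (n : ℕ) (r : ℝ) : ℝ := ∫ χ in (0 : ℝ)..al n, c.nsq (pt r χ) (Complex.I * pt r χ)
/-- `∫_0^α F²` -/
def Y (n : ℕ) (r : ℝ) : ℝ := ∫ χ in (0 : ℝ)..al n, c.F (pt r χ) ^ 2
/-- `∫_0^α (1 - h)²` -/
def U (n : ℕ) (r : ℝ) : ℝ := ∫ χ in (0 : ℝ)..al n, (1 - c.h (pt r χ)) ^ 2

/-- `∫_0^{2π} |D_χ φ|²` -/
def Xo (r : ℝ) : ℝ := ∫ χ in (0 : ℝ)..2 * π, c.nsq (pt r χ) (Complex.I * pt r χ)

/-- energy in a set -/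
def EOn (S : Set ℂ) : ℝ := 1 / 2 * ∫ z in S, c.dens z

/-- gradient energy in a disc, `1/2 ∫_{B_s(p)} |Dφ|²` -/
def ee (q : ℂ) (s : ℝ) : ℝ := 1 / 2 * ∫ z in Metric.ball q s, c.grad z

end Cf

/-- `ρ_n = 4000 K n²`: beyond this radius `cc ≥ 99/100`, `|Z - 1| ≤ 1/5` -/
def rp (K : ℝ) (n : ℕ) : ℝ := 4000 * K * n ^ 2

/-- `ρ_- = n² / √K`: up to this radius `β ≤ n ^ 3 / 2` and `Z = 1` -/
def rm (K : ℝ) (n : ℕ) : ℝ := n ^ 2 / Real.sqrt K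

/-- `1 / (2 n √K)`: up to this radius `|β| ≤ 1/2` -/
def rz (K : ℝ) (n : ℕ) : ℝ := 1 / (2 * n * Real.sqrt K)

/-- the growth exponent -/
def kap : ℝ := 13 / 25

/-- the radial gauge potential of a field: `G z = ∫_0^1 F (t z) t dt` -/
def Gof (F : ℂ → ℝ) (z : ℂ) : ℝ := ∫ t in (0 : ℝ)..1, F (t * z) * t

/-- `A z = i z G z` -/
def Aof (F : ℂ → ℝ) (z : ℂ) : ℂ := Complex.I * z * (Gof F z : ℂ)

/-- A weak solution with growth (the limit of almost minimisers): `W₁, W₂` are the covariant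
derivatives of `w`, `H₁, H₂` the derivatives of `h`. -/
structure WSol (w : ℂ → ℂ) (h F : ℂ → ℝ) (W1 W2 : ℂ → ℂ) (H1 H2 : ℂ → ℝ) : Prop where
  mw : AEStronglyMeasurable w
  mh : AEStronglyMeasurable h
  mF : MemLp F 2
  mW1 : MemLp W1 2
  mW2 : MemLp W2 2
  mH1 : MemLp H1 2
  mH2 : MemLp H2 2
  unit : ∀ᵐ z, ‖w z‖ ^ 2 + h z ^ 2 = 1
  tan1 : ∀ᵐ z, (star (w z) * W1 z).re + h z * H1 z = 0
  tan2 : ∀ᵐ z, (star (w z) * W2 z).re + h z * H2 z = 0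
  dh1 : ∀ f : ℂ → ℝ, Tst f → ∫ z, h z * fderiv ℝ f z 1 = -∫ z, H1 z * f z
  dh2 : ∀ f : ℂ → ℝ, Tst f → ∫ z, h z * fderiv ℝ f z Complex.I = -∫ z, H2 z * f z
  dw1 : ∀ f : ℂ → ℝ, Tst f → ∫ z, w z * (fderiv ℝ f z 1 : ℂ) =
    -∫ z, (W1 z + Complex.I * (ip (Aof F z) 1 : ℂ) * w z) * (f z : ℂ)
  dw2 : ∀ f : ℂ → ℝ, Tst f → ∫ z, w z * (fderiv ℝ f z Complex.I : ℂ) =
    -∫ z, (W2 z + Complex.I * (ip (Aof F z) Complex.I : ℂ) * w z) * (f z : ℂ)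
  eqp : ∀ f : ℂ → ℂ, Tst f → ∫ z, ((star (h z * W1 z - w z * H1 z) *
      (fderiv ℝ f z 1 - Complex.I * (ip (Aof F z) 1 : ℂ) * f z)).re +
    (star (h z * W2 z - w z * H2 z) *
      (fderiv ℝ f z Complex.I - Complex.I * (ip (Aof F z) Complex.I : ℂ) * f z)).re +
    (1 - h z) * (star (w z) * f z).re) = 0
  eqA : ∀ f : ℂ → ℂ, Tst f → ∫ z, (F z * ((fderiv ℝ f z 1).im - (fderiv ℝ f z Complex.I).re) -
    ((f z).re * (star (w z) * W1 z).im + (f z).im * (star (w z) * W2 z).im)) = 0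
  growth : ∀ R : ℝ, ∃ C : ℝ, ∀ q ∈ Metric.ball (0 : ℂ) R, ∀ r ∈ Ioc (0 : ℝ) 1,
    ∫ z in Metric.ball q r, (‖W1 z‖ ^ 2 + ‖W2 z‖ ^ 2 + H1 z ^ 2 + H2 z ^ 2) ≤ C * r ^ kap

end GO3
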