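import Pool.Agent.GO3.Rd

/-! GO3 / Der: derivatives in `r` of the one-dimensional data (radial gauge).

Proofs. Differentiation under the integral sign (all integrands are smooth in `(r, χ)`), then
Cauchy-Schwarz over `[0, α]`.
`β' = (1/α) ∫_0^α r F dχ`; `cc' = (1/α) ∫_0^α dh(er)`;
`∂_r (w e^{-iB}) = (∂_r w - i (∫_0^χ r F dt) w) e^{-iB}`, `|∂_r w|² ≤ nsq (er)` (`Rad.Dw_er`),
`|∫_0^χ r F| ≤ |r| (α Y)^{1/2}`, `|w| ≤ 1`, `(x + y)² ≤ 2 x² + 2 y²`. -/

open MeasureTheory Filter Topology Set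
open scoped ContDiff Real

noncomputable section

namespace GO3

/-! ### tools -/

private theorem d_par {E : Type*} [NormedAddCommGroup E] [NormedSpace ℝ E]
    {f f' : ℝ → ℝ → E} (hf : Continuous (Function.uncurry f))
    (hf' : Continuous (Function.uncurry f'))
    (hd : ∀ r χ, HasDerivAt (fun r => f r χ) (f' r χ) r) (a b r : ℝ) :
    HasDerivAt (fun r => ∫ χ in a..b, f r χ) (∫ χ in a..b, f' r χ) r := by
  have hK : IsCompact (Metric.closedBall r 1 ×ˢ uIcc a b) :=
    (isCompact_closedBall r 1).prod isCompact_uIcc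
  obtain ⟨C, hC⟩ := hK.exists_bound_of_continuousOn hf'.continuousOn
  have hcf : ∀ x, Continuous (f x) := fun x => hf.comp (Continuous.prodMk_right x)
  have hcf' : ∀ x, Continuous (f' x) := fun x => hf'.comp (Continuous.prodMk_right x)
  refine (intervalIntegral.hasDerivAt_integral_of_dominated_loc_of_deriv_le
    (μ := volume) (F := f) (F' := f') (s := Metric.closedBall r 1) (bound := fun _ => C)
    (Metric.closedBall_mem_nhds r one_pos)
    (Filter.Eventually.of_forall fun x => (hcf x).aestronglyMeasurable)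
    ((hcf r).intervalIntegrable a b) (hcf' r).aestronglyMeasurable
    (Filter.Eventually.of_forall fun t ht x hx => ?_)
    intervalIntegrable_const
    (Filter.Eventually.of_forall fun t _ x _ => hd x t)).2
  exact hC (x, t) ⟨hx, uIoc_subset_uIcc ht⟩

private theorem c_par {E : Type*} [NormedAddCommGroup E] [NormedSpace ℝ E]
    {f : ℝ → ℝ → E} (hf : Continuous (Function.uncurry f)) (a b : ℝ) :
    Continuous fun r => ∫ χ in a..b, f r χ :=
  intervalIntegral.continuous_parametric_intervalIntegral_of_continuous' hf a b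

/-- Cauchy-Schwarz. -/
private theorem cs_par {g : ℝ → ℝ} (hg : Continuous g) {a b : ℝ} (hab : a ≤ b) :
    (∫ χ in a..b, g χ) ^ 2 ≤ (b - a) * ∫ χ in a..b, g χ ^ 2 := by
  rcases hab.eq_or_lt with rfl | hlt
  · simp
  · have hL : 0 < b - a := sub_pos.2 hlt
    set I := ∫ χ in a..b, g χ with hI
    set J := ∫ χ in a..b, g χ ^ 2 with hJ
    have h0 : 0 ≤ ∫ χ in a..b, (g χ - I / (b - a)) ^ 2 :=
      intervalIntegral.integral_nonneg hab fun χ _ => sq_nonneg _
    have h1 : (∫ χ in a..b, (g χ - I / (b - a)) ^ 2) =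
        J - 2 * (I / (b - a)) * I + (I / (b - a)) ^ 2 * (b - a) := by
      have e : ∀ χ, (g χ - I / (b - a)) ^ 2 =
          (g χ ^ 2 - 2 * (I / (b - a)) * g χ) + (I / (b - a)) ^ 2 := fun χ => by ring
      have i1 : IntervalIntegrable (fun χ => g χ ^ 2) volume a b :=
        (hg.pow 2).intervalIntegrable a b
      have i2 : IntervalIntegrable (fun χ => 2 * (I / (b - a)) * g χ) volume a b :=
        (continuous_const.mul hg).intervalIntegrable a b
      simp only [e]
      rw [intervalIntegral.integral_add (i1.sub i2) intervalIntegrable_const,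
        intervalIntegral.integral_sub i1 i2, intervalIntegral.integral_const_mul,
        intervalIntegral.integral_const, smul_eq_mul, ← hI, ← hJ]
      ring
    rw [h1] at h0
    have h2 : (b - a) * (J - 2 * (I / (b - a)) * I + (I / (b - a)) ^ 2 * (b - a)) =
        (b - a) * J - I ^ 2 := by
      field_simp
      ring
    have h3 := mul_nonneg hL.le h0
    rw [h2] at h3
    linarith

private theorem csc_par {g : ℝ → ℂ} (hg : Continuous g) {a b : ℝ} (hab : a ≤ b) :
    ‖∫ χ in a..b, g χ‖ ^ 2 ≤ (b - a) * ∫ χ in a..b, ‖g χ‖ ^ 2 := by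
  have h1 : ‖∫ χ in a..b, g χ‖ ≤ ∫ χ in a..b, ‖g χ‖ :=
    intervalIntegral.norm_integral_le_integral_norm hab
  exact (pow_le_pow_left₀ (norm_nonneg _) h1 2).trans (cs_par hg.norm hab)

private theorem c_pt : Continuous fun q : ℝ × ℝ => pt q.1 q.2 := by
  unfold pt
  fun_prop

private theorem c_er : Continuous er := by
  unfold er
  fun_prop

private theorem d_pt (r χ : ℝ) : HasDerivAt (fun r => pt r χ) (er χ) r := by
  unfold pt er
  have h := ((hasDerivAt_id r).ofReal_comp).mul_const (Complex.exp (χ * Complex.I))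
  simpa using h

namespace Cf

variable {c : Cf} {n : ℕ}

private theorem c_b (hc : c.Adm n) : Continuous (Function.uncurry c.b) :=
  hc.contDiff_b.continuous

private theorem c_B (hc : c.Adm n) : Continuous (Function.uncurry c.B) :=
  hc.contDiff_B.continuous

private theorem c_rF (hc : c.Adm n) :
    Continuous (Function.uncurry fun r χ => r * c.F (pt r χ)) :=
  continuous_fst.mul (hc.contDiff_F.continuous.comp c_pt)

private theorem c_Ft (hc : c.Adm n) (r : ℝ) : Continuous fun χ => r * c.F (pt r χ) :=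
  (c_rF hc).comp (Continuous.prodMk_right r)

/-- the derivative of `B` -/
private theorem d_B (hc : c.Adm n) (hr : c.Rad) (r χ : ℝ) :
    HasDerivAt (fun r => c.B r χ) (∫ t in (0 : ℝ)..χ, r * c.F (pt r t)) r :=
  d_par (c_b hc) (c_rF hc) (fun r χ => hr.hasDerivAt_b r χ) 0 χ r

private theorem rF_sq (hn : 0 < n) (hc : c.Adm n) (r : ℝ) {χ : ℝ} (h0 : 0 ≤ χ) (h1 : χ ≤ al n) :
    (∫ t in (0 : ℝ)..χ, r * c.F (pt r t)) ^ 2 ≤ al n * (r ^ 2 * c.Y n r) := by
  have h2 := cs_par (c_Ft hc r) h0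
  have h3 : (∫ t in (0 : ℝ)..χ, (r * c.F (pt r t)) ^ 2) ≤
      ∫ t in (0 : ℝ)..al n, (r * c.F (pt r t)) ^ 2 :=
    intervalIntegral.integral_mono_interval le_rfl h0 h1
      (Filter.Eventually.of_forall fun t => sq_nonneg _)
      (((c_Ft hc r).pow 2).intervalIntegrable 0 (al n))
  have h4 : (∫ t in (0 : ℝ)..al n, (r * c.F (pt r t)) ^ 2) = r ^ 2 * c.Y n r := by
    unfold Y
    rw [← intervalIntegral.integral_const_mul]
    congr 1
    funext t
    ring
  rw [h4] at h3
  rw [sub_zero] at h2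
  have h5 : 0 ≤ ∫ t in (0 : ℝ)..χ, (r * c.F (pt r t)) ^ 2 :=
    intervalIntegral.integral_nonneg h0 fun t _ => sq_nonneg _
  calc _ ≤ χ * ∫ t in (0 : ℝ)..χ, (r * c.F (pt r t)) ^ 2 := h2
    _ ≤ al n * (r ^ 2 * c.Y n r) := mul_le_mul h1 h3 h5 (al_pos hn).le

theorem der_beta (hn : 0 < n) (hc : c.Adm n) (hr : c.Rad) : ∃ b' : ℝ → ℝ, Continuous b' ∧
    (∀ r, HasDerivAt (c.beta n) (b' r) r) ∧ (∀ r, b' r ^ 2 ≤ r ^ 2 * c.Y n r / al n) ∧
    ∀ r, b' r = 1 / al n * ∫ χ in (0 : ℝ)..al n, r * c.F (pt r χ) := by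
  have ha := al_pos hn
  refine ⟨fun r => 1 / al n * ∫ χ in (0 : ℝ)..al n, r * c.F (pt r χ),
    continuous_const.mul (c_par (c_rF hc) 0 (al n)), fun r => ?_, fun r => ?_, fun r => rfl⟩
  · have h := (d_B hc hr r (al n)).div_const (al n)
    have e : 1 / al n * (∫ χ in (0 : ℝ)..al n, r * c.F (pt r χ)) =
        (∫ χ in (0 : ℝ)..al n, r * c.F (pt r χ)) / al n := by ring
    have h' : HasDerivAt (c.beta n) ((∫ χ in (0 : ℝ)..al n, r * c.F (pt r χ)) / al n) r := h
    rw [← e] at h'
    exact h'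
  · have h := rF_sq hn hc r ha.le le_rfl
    have e : r ^ 2 * c.Y n r / al n = (1 / al n) ^ 2 * (al n * (r ^ 2 * c.Y n r)) := by
      field_simp
    rw [mul_pow, e]
    exact mul_le_mul_of_nonneg_left h (sq_nonneg _)

theorem der_aa (hn : 0 < n) (hc : c.Adm n) (hr : c.Rad) : ∃ a' : ℝ → ℝ, Continuous a' ∧
    (∀ r, HasDerivAt (c.aa n) (a' r) r) ∧ ∀ r, a' r ^ 2 ≤ al n * (r ^ 2 * c.Y n r) := by
  have ha := al_pos hn
  obtain ⟨b', h1, h2, h3, -⟩ := der_beta hn hc hr
  refine ⟨fun r => al n * b' r, continuous_const.mul h1, fun r => ?_, fun r => ?_⟩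
  · exact ((h2 r).sub_const 1).const_mul (al n)
  · have h4 := h3 r
    have e : al n * (r ^ 2 * c.Y n r) = al n ^ 2 * (r ^ 2 * c.Y n r / al n) := by
      field_simp
    rw [mul_pow, e]
    exact mul_le_mul_of_nonneg_left h4 (sq_nonneg _)

private theorem c_hpt (hc : c.Adm n) : Continuous (Function.uncurry fun r χ => c.h (pt r χ)) :=
  hc.sh.continuous.comp c_pt

private theorem c_wpt (hc : c.Adm n) : Continuous (Function.uncurry fun r χ => c.w (pt r χ)) :=
  hc.sw.continuous.comp c_pt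

private theorem c_nsqr (hc : c.Adm n) (r : ℝ) : Continuous fun χ => c.nsq (pt r χ) (er χ) := by
  have h1 : Continuous fun χ : ℝ => (pt r χ, er χ) :=
    (c_pt.comp (Continuous.prodMk_right r)).prodMk c_er
  have h2 := hc.contDiff_nsq.continuous
  generalize c.nsq = f at h2 ⊢
  exact h2.comp h1

theorem der_cc (hn : 0 < n) (hc : c.Adm n) : ∃ c' : ℝ → ℝ, Continuous c' ∧
    (∀ r, HasDerivAt (c.cc n) (c' r) r) ∧ ∀ r, c' r ^ 2 ≤ c.T n r / al n := by
  have ha := al_pos hn
  have hcd : Continuous (Function.uncurry fun r χ => c.dh (pt r χ) (er χ)) :=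
    hc.contDiff_dh.continuous.comp (c_pt.prodMk (c_er.comp continuous_snd))
  have hd : ∀ r χ, HasDerivAt (fun r => c.h (pt r χ)) (c.dh (pt r χ) (er χ)) r := by
    intro r χ
    have h1 : HasFDerivAt c.h (fderiv ℝ c.h (pt r χ)) (pt r χ) :=
      ((hc.sh.differentiable (by simp)) (pt r χ)).hasFDerivAt
    exact h1.comp_hasDerivAt r (d_pt r χ)
  refine ⟨fun r => 1 / al n * ∫ χ in (0 : ℝ)..al n, c.dh (pt r χ) (er χ),
    continuous_const.mul (c_par hcd 0 (al n)), fun r => ?_, fun r => ?_⟩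
  · exact (d_par (c_hpt hc) hcd hd 0 (al n) r).const_mul (1 / al n)
  · have hcr : Continuous fun χ => c.dh (pt r χ) (er χ) := hcd.comp (Continuous.prodMk_right r)
    have h1 := cs_par hcr ha.le
    have h2 : (∫ χ in (0 : ℝ)..al n, c.dh (pt r χ) (er χ) ^ 2) ≤ c.T n r := by
      unfold T
      refine intervalIntegral.integral_mono_on ha.le ((hcr.pow 2).intervalIntegrable _ _) ?_
        fun χ _ => dh_le c (pt r χ) (er χ)
      exact (c_nsqr hc r).intervalIntegrable _ _
    rw [sub_zero] at h1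
    have e : c.T n r / al n = (1 / al n) ^ 2 * (al n * c.T n r) := by
      field_simp
    rw [mul_pow, e]
    exact mul_le_mul_of_nonneg_left (h1.trans (mul_le_mul_of_nonneg_left h2 ha.le)) (sq_nonneg _)

private theorem c_Vint (hc : c.Adm n) : Continuous (Function.uncurry fun r χ =>
    c.w (pt r χ) * Complex.exp (-(c.B r χ : ℂ) * Complex.I)) := by
  have h1 := c_wpt hc
  have h2 := c_B hc
  refine h1.mul (Complex.continuous_exp.comp ?_)
  exact ((Complex.continuous_ofReal.comp h2).neg).mul continuous_const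

theorem der_V (hn : 0 < n) (hc : c.Adm n) (hr : c.Rad) : ∃ V' : ℝ → ℂ, Continuous V' ∧
    (∀ r, HasDerivAt (c.V n) (V' r) r) ∧
    ∀ r, ‖V' r‖ ^ 2 ≤ 2 * c.T n r / al n + 2 * al n * (r ^ 2 * c.Y n r) := by
  have ha := al_pos hn
  have cBr : Continuous (Function.uncurry fun r χ => ∫ t in (0 : ℝ)..χ, r * c.F (pt r t)) := by
    have h1 : Continuous (Function.uncurry fun (q : ℝ × ℝ) (t : ℝ) => q.1 * c.F (pt q.1 t)) := by
      have h2 := (c_rF hc).comp ((continuous_fst.comp continuous_fst).prodMk continuous_snd :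
        Continuous fun q : (ℝ × ℝ) × ℝ => (q.1.1, q.2))
      exact h2
    exact intervalIntegral.continuous_parametric_intervalIntegral_of_continuous h1 continuous_snd
  have cD : Continuous (Function.uncurry fun r χ => c.Dw (pt r χ) (er χ)) :=
    hc.contDiff_Dw.continuous.comp (c_pt.prodMk (c_er.comp continuous_snd))
  have cE : Continuous (Function.uncurry fun r χ => Complex.exp (-(c.B r χ : ℂ) * Complex.I)) :=
    Complex.continuous_exp.comp (((Complex.continuous_ofReal.comp (c_B hc)).neg).mul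
      continuous_const)
  have cG : Continuous (Function.uncurry fun r χ => (c.Dw (pt r χ) (er χ) -
      Complex.I * ((∫ t in (0 : ℝ)..χ, r * c.F (pt r t) : ℝ) : ℂ) * c.w (pt r χ)) *
      Complex.exp (-(c.B r χ : ℂ) * Complex.I)) :=
    (cD.sub ((continuous_const.mul (Complex.continuous_ofReal.comp cBr)).mul (c_wpt hc))).mul cE
  have hd : ∀ r χ, HasDerivAt (fun r => c.w (pt r χ) *
      Complex.exp (-(c.B r χ : ℂ) * Complex.I)) ((c.Dw (pt r χ) (er χ) -
      Complex.I * ((∫ t in (0 : ℝ)..χ, r * c.F (pt r t) : ℝ) : ℂ) * c.w (pt r χ)) *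
      Complex.exp (-(c.B r χ : ℂ) * Complex.I)) r := by
    intro r χ
    have h1 : HasFDerivAt c.w (fderiv ℝ c.w (pt r χ)) (pt r χ) :=
      ((hc.sw.differentiable (by simp)) (pt r χ)).hasFDerivAt
    have h2 : HasDerivAt (fun r => c.w (pt r χ)) (fderiv ℝ c.w (pt r χ) (er χ)) r :=
      h1.comp_hasDerivAt r (d_pt r χ)
    have h3 := ((d_B hc hr r χ).ofReal_comp.neg.mul_const Complex.I).cexp
    rw [hr.Dw_er]
    refine (h2.mul h3).congr_deriv ?_
    simp only [Pi.neg_apply]
    ring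
  refine ⟨fun r => ((1 / al n : ℝ) : ℂ) * ∫ χ in (0 : ℝ)..al n, (c.Dw (pt r χ) (er χ) -
      Complex.I * ((∫ t in (0 : ℝ)..χ, r * c.F (pt r t) : ℝ) : ℂ) * c.w (pt r χ)) *
      Complex.exp (-(c.B r χ : ℂ) * Complex.I),
    continuous_const.mul (c_par cG 0 (al n)), fun r => ?_, fun r => ?_⟩
  · exact (d_par (c_Vint hc) cG hd 0 (al n) r).const_mul ((1 / al n : ℝ) : ℂ)
  · have hcr := cG.comp (Continuous.prodMk_right r)
    have h1 := csc_par hcr ha.le
    have cN := c_nsqr hc r
    have h2 : (∫ χ in (0 : ℝ)..al n, ‖(Function.uncurry (fun r χ => (c.Dw (pt r χ) (er χ) -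
      Complex.I * ((∫ t in (0 : ℝ)..χ, r * c.F (pt r t) : ℝ) : ℂ) * c.w (pt r χ)) *
      Complex.exp (-(c.B r χ : ℂ) * Complex.I)) ∘ fun χ => (r, χ)) χ‖ ^ 2) ≤
        ∫ χ in (0 : ℝ)..al n, (2 * c.nsq (pt r χ) (er χ) + 2 * (al n * (r ^ 2 * c.Y n r))) := by
      refine intervalIntegral.integral_mono_on ha.le ((hcr.norm.pow 2).intervalIntegrable _ _)
        (((continuous_const.mul cN).add continuous_const).intervalIntegrable _ _) fun χ hχ => ?_
      simp only [Function.comp, Function.uncurry]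
      have h3 : ‖Complex.exp (-(c.B r χ : ℂ) * Complex.I)‖ = 1 := by
        rw [← Complex.ofReal_neg]
        exact Complex.norm_exp_ofReal_mul_I _
      rw [norm_mul, h3, mul_one]
      have h4 : ‖c.Dw (pt r χ) (er χ) -
          Complex.I * ((∫ t in (0 : ℝ)..χ, r * c.F (pt r t) : ℝ) : ℂ) * c.w (pt r χ)‖ ≤
          ‖c.Dw (pt r χ) (er χ)‖ + |∫ t in (0 : ℝ)..χ, r * c.F (pt r t)| := by
        refine (norm_sub_le _ _).trans (add_le_add le_rfl ?_)
        rw [norm_mul, norm_mul, Complex.norm_I, one_mul, Complex.norm_real, Real.norm_eq_abs]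
        exact mul_le_of_le_one_right (abs_nonneg _) (hc.norm_w_le _)
      have h5 := norm_Dw_le c (pt r χ) (er χ)
      have h6 := rF_sq hn hc r hχ.1 hχ.2
      have h7 : |∫ t in (0 : ℝ)..χ, r * c.F (pt r t)| ^ 2 =
          (∫ t in (0 : ℝ)..χ, r * c.F (pt r t)) ^ 2 := sq_abs _
      calc _ ≤ (‖c.Dw (pt r χ) (er χ)‖ + |∫ t in (0 : ℝ)..χ, r * c.F (pt r t)|) ^ 2 :=
            pow_le_pow_left₀ (norm_nonneg _) h4 2
        _ ≤ 2 * ‖c.Dw (pt r χ) (er χ)‖ ^ 2 +
            2 * |∫ t in (0 : ℝ)..χ, r * c.F (pt r t)| ^ 2 := by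
          nlinarith [sq_nonneg (‖c.Dw (pt r χ) (er χ)‖ - |∫ t in (0 : ℝ)..χ, r * c.F (pt r t)|)]
        _ ≤ _ := by rw [h7]; linarith
    have h8 : (∫ χ in (0 : ℝ)..al n, (2 * c.nsq (pt r χ) (er χ) +
        2 * (al n * (r ^ 2 * c.Y n r)))) = 2 * c.T n r + al n * (2 * (al n * (r ^ 2 * c.Y n r))) := by
      have cN2 : Continuous fun χ => 2 * c.nsq (pt r χ) (er χ) := continuous_const.mul cN
      rw [intervalIntegral.integral_add (cN2.intervalIntegrable _ _)
        intervalIntegrable_const, intervalIntegral.integral_const_mul,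
        intervalIntegral.integral_const, smul_eq_mul, sub_zero]
      rfl
    rw [h8] at h2
    rw [sub_zero] at h1
    rw [norm_mul, mul_pow, Complex.norm_real, Real.norm_eq_abs, sq_abs]
    have e : 2 * c.T n r / al n + 2 * al n * (r ^ 2 * c.Y n r) =
        (1 / al n) ^ 2 * (al n * (2 * c.T n r + al n * (2 * (al n * (r ^ 2 * c.Y n r))))) := by
      field_simp
    rw [e]
    exact mul_le_mul_of_nonneg_left (h1.trans (mul_le_mul_of_nonneg_left h2 ha.le)) (sq_nonneg _)

/-- continuity (every gauge) -/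
theorem continuous_beta (hn : 0 < n) (hc : c.Adm n) : Continuous (c.beta n) := by
  have h : Continuous fun r => c.B r (al n) :=
    (c_B hc).comp (continuous_id.prodMk continuous_const : Continuous fun r : ℝ => (r, al n))
  exact h.div_const (al n)

theorem continuous_aa (hn : 0 < n) (hc : c.Adm n) : Continuous (c.aa n) := by
  exact continuous_const.mul ((continuous_beta hn hc).sub continuous_const)

theorem continuous_cc (hn : 0 < n) (hc : c.Adm n) : Continuous (c.cc n) := by
  exact continuous_const.mul (c_par (c_hpt hc) 0 (al n))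

theorem continuous_V (hn : 0 < n) (hc : c.Adm n) : Continuous (c.V n) := by
  exact continuous_const.mul (c_par (c_Vint hc) 0 (al n))

theorem continuous_psi : Continuous psi := by
  unfold psi
  fun_prop

theorem continuous_Z (hn : 0 < n) (hc : c.Adm n) : Continuous (c.Z n) := by
  have h1 := continuous_psi.comp (continuous_aa hn hc)
  have h2 := continuous_cc hn hc
  have h3 := Complex.continuous_re.comp (continuous_V hn hc)
  unfold Z
  exact continuous_const.add ((Complex.continuous_ofReal.comp h1).mul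
    (((Complex.continuous_ofReal.comp h2).add
      (continuous_const.mul (Complex.continuous_ofReal.comp h3))).sub continuous_const))

/-- values at `0` -/
theorem data_zero (hn : 2 ≤ n) (hc : c.Adm n) : c.beta n 0 = 0 ∧ c.aa n 0 = -al n ∧
    c.cc n 0 = c.h 0 ∧ c.V n 0 = 0 ∧ c.Z n 0 = 1 := by
  have ha : 0 < al n := al_pos (by omega)
  have hpt : ∀ χ, pt 0 χ = 0 := fun χ => by simp [pt]
  have h1 : c.beta n 0 = 0 := by
    unfold beta B b
    simp [hpt, ip]
  have h2 : c.aa n 0 = -al n := by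
    unfold aa
    rw [h1]
    ring
  refine ⟨h1, h2, ?_, ?_, ?_⟩
  · unfold cc
    simp only [hpt, intervalIntegral.integral_const, smul_eq_mul, sub_zero]
    field_simp
  · unfold V
    simp only [hpt, hc.w_zero hn, zero_mul, intervalIntegral.integral_zero, mul_zero]
  · have h3 : psi (-al n) = 0 := by
      unfold psi
      have h4 : |-al n - π| = al n + π := by
        rw [abs_of_nonpos (by linarith [Real.pi_pos])]
        ring
      have h5 : 2 - 8 / π * (al n + π) ≤ 0 := by
        have h6 : 8 / π * (al n + π) = 8 / π * al n + 8 := by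
          field_simp
        have h7 : 0 ≤ 8 / π * al n := by positivity
        linarith
      rw [h4]
      exact max_eq_left ((min_le_right _ _).trans h5)
    unfold Z
    rw [h2, h3]
    simp

theorem abs_cc_le (hn : 0 < n) (hc : c.Adm n) (r : ℝ) : |c.cc n r| ≤ 1 := by
  have ha := al_pos hn
  unfold cc
  have h1 : ‖∫ χ in (0 : ℝ)..al n, c.h (pt r χ)‖ ≤ 1 * |al n - 0| :=
    intervalIntegral.norm_integral_le_of_norm_le_const fun χ _ => by
      rw [Real.norm_eq_abs]
      exact hc.abs_h_le _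
  rw [sub_zero, one_mul, abs_of_pos ha, Real.norm_eq_abs] at h1
  rw [abs_mul, abs_of_pos (by positivity : 0 < 1 / al n)]
  calc _ ≤ 1 / al n * al n := mul_le_mul_of_nonneg_left h1 (by positivity)
    _ = 1 := by field_simp

theorem norm_V_le (hn : 0 < n) (hc : c.Adm n) (r : ℝ) : ‖c.V n r‖ ≤ 1 := by
  have ha := al_pos hn
  unfold V
  have h1 : ‖∫ χ in (0 : ℝ)..al n, c.w (pt r χ) *
      Complex.exp (-(c.B r χ : ℂ) * Complex.I)‖ ≤ 1 * |al n - 0| :=
    intervalIntegral.norm_integral_le_of_norm_le_const fun χ _ => by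
      have h3 : ‖Complex.exp (-(c.B r χ : ℂ) * Complex.I)‖ = 1 := by
        rw [← Complex.ofReal_neg]
        exact Complex.norm_exp_ofReal_mul_I _
      rw [norm_mul, h3, mul_one]
      exact hc.norm_w_le _
  rw [sub_zero, one_mul, abs_of_pos ha] at h1
  rw [norm_mul, Complex.norm_real, Real.norm_eq_abs, abs_of_pos (by positivity : 0 < 1 / al n)]
  calc _ ≤ 1 / al n * al n := mul_le_mul_of_nonneg_left h1 (by positivity)
    _ = 1 := by field_simp

end Cf

end GO3
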