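import Pool.Agent.GO3.Rng
import Pool.Agent.GO3.Sym

/-! GO3 / Fin0: the logical skeleton: existence of a minimiser of the class `(n, -1)`. -/

open MeasureTheory Filter Topology Set
open scoped ContDiff Real

noncomputable section

namespace GO3

/-- Statement of part B -/
def StAlt : Prop := ∀ K : ℝ, 1 ≤ K → ∃ n₀ : ℕ, 2 ≤ n₀ ∧ ∀ n : ℕ, n₀ ≤ n → ∀ σ : ℝ,
  (σ = 1 ∨ σ = -1) → ∀ c₀ : Cf, c₀.Cls n σ → c₀.E < K * n ^ 2 →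
  (∃ c : Cf, c.Mini n σ ∧ c.EL) ∨
  (∀ ε : ℝ, 0 < ε → ∀ c : Cf, c.Cls n σ → ∃ c' : Cf, c'.Cls n (-σ) ∧ c'.E ≤ c.E - 4 * π + ε)

/-- Statement of part V -/
def StV : Prop := ∀ K : ℝ, 1 ≤ K → ∃ n₀ : ℕ, 2 ≤ n₀ ∧ ∀ n : ℕ, n₀ ≤ n → ∀ c : Cf, c.Mini n 1 →
  c.EL → c.E ≤ K * n ^ 2 → 0 < c.F 0

/-- Statement of part I -/
def StI : Prop := ∀ n : ℕ, 2 ≤ n → ∀ c : Cf, c.Cls n 1 → c.Rad → 0 < c.F 0 →
  ∃ c' : Cf, c'.Cls n (-1) ∧ c'.E < c.E + 4 * π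

theorem exists_min (hB : StAlt) (hV : StV) (hI : StI) : ∃ K : ℝ, 1 ≤ K ∧ ∃ n₀ : ℕ, 2 ≤ n₀ ∧
    ∀ n : ℕ, n₀ ≤ n → ∃ c : Cf, c.Mini n (-1) ∧ c.EL ∧ c.E ≤ K * n ^ 2 := by
  obtain ⟨K₀, hK₀, hring⟩ := ring
  set K := K₀ + 100 with hKdef
  have hK : 1 ≤ K := by linarith
  obtain ⟨n₁, hn₁, hB⟩ := hB K hK
  obtain ⟨n₂, hn₂, hV⟩ := hV K hK
  refine ⟨K, hK, max n₁ n₂, le_trans hn₁ (le_max_left _ _), fun n hn => ?_⟩
  have h1 : n₁ ≤ n := (le_max_left _ _).trans hn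
  have h2 : n₂ ≤ n := (le_max_right _ _).trans hn
  have hn2 : 2 ≤ n := hn₁.trans h1
  have hnR : (2 : ℝ) ≤ n := by exact_mod_cast hn2
  have hpi : π < 4 := by linarith [Real.pi_lt_d2]
  have hpi0 : 3 < π := Real.pi_gt_three
  have hbig : K₀ * (n : ℝ) ^ 2 + 50 < K * (n : ℝ) ^ 2 := by
    rw [hKdef]
    nlinarith
  have hB1 := hB n h1 1 (Or.inl rfl)
  have hB2 := hB n h1 (-1) (Or.inr rfl)
  obtain ⟨c₀, hc₀, hr₀, hE₀⟩ := hring n hn2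
  -- a minimiser of the class -1 exists
  suffices h : ∃ c : Cf, c.Mini n (-1) ∧ c.EL ∧ ∃ c' : Cf, c'.Cls n (-1) ∧ c'.E < K * n ^ 2 by
    obtain ⟨c, hm, hel, c', hc', hE'⟩ := h
    exact ⟨c, hm, hel, (hm.2.2 c' hc').trans hE'.le⟩
  rcases hB1 c₀ hc₀ (by linarith) with ⟨c, hm, hel⟩ | hcon
  · -- the class +1 has a minimiser
    have hE : c.E ≤ K₀ * n ^ 2 := (hm.2.2 c₀ hc₀).trans hE₀
    have hF := hV n h2 c hm hel (by nlinarith)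
    obtain ⟨c', hc', hE'⟩ := hI n hn2 c hm.1 hm.2.1 hF
    have hE'2 : c'.E < K * n ^ 2 := by linarith
    rcases hB2 c' hc' hE'2 with ⟨d, hd, hdel⟩ | hcon
    · exact ⟨d, hd, hdel, c', hc', hE'2⟩
    · exfalso
      have hgap : 0 < c.E + 4 * π - c'.E := by linarith
      obtain ⟨d, hd, hdE⟩ := hcon ((c.E + 4 * π - c'.E) / 2) (by linarith) c' hc'
      rw [neg_neg] at hd
      have := hm.2.2 d hd
      linarith
  · -- concentration in the class +1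
    obtain ⟨c', hc', hE'⟩ := hcon 1 one_pos c₀ hc₀
    have hE'2 : c'.E < K * n ^ 2 := by linarith
    rcases hB2 c' hc' hE'2 with ⟨d, hd, hdel⟩ | hcon2
    · exact ⟨d, hd, hdel, c', hc', hE'2⟩
    · exfalso
      -- the infimum of the energy over the class +1
      have hne : Set.Nonempty {e : ℝ | ∃ c : Cf, c.Cls n 1 ∧ c.E = e} := ⟨c₀.E, c₀, hc₀, rfl⟩
      have hbd : BddBelow {e : ℝ | ∃ c : Cf, c.Cls n 1 ∧ c.E = e} := by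
        refine ⟨0, ?_⟩
        rintro e ⟨c, _, rfl⟩
        exact Cf.Adm.E_nonneg c
      obtain ⟨e, ⟨c, hc, rfl⟩, he⟩ := exists_lt_of_csInf_lt hne
        (lt_add_one (sInf {e : ℝ | ∃ c : Cf, c.Cls n 1 ∧ c.E = e}))
      obtain ⟨c1, hc1, hE1⟩ := hcon 1 one_pos c hc
      obtain ⟨c2, hc2, hE2⟩ := hcon2 1 one_pos c1 hc1
      rw [neg_neg] at hc2
      have := csInf_le hbd ⟨c2, hc2, rfl⟩
      linarith

end GO3
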