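import Pool.Agent.GO3.Fin0
import Pool.Agent.GO3.Cnv

/-! GO3 / Fin1: the final statement from the statements of the parts. -/

open MeasureTheory Filter Topology Set
open scoped ContDiff Real

noncomputable section

namespace GO3

/-- Statement of part D -/
def StD : Prop := ∀ K : ℝ, 1 ≤ K → ∃ n₀ : ℕ, 2 ≤ n₀ ∧ ∀ n : ℕ, n₀ ≤ n → ∀ c : Cf,
  c.Mini n (-1) → c.EL → c.E ≤ K * n ^ 2 →
  Tendsto c.h (cocompact ℂ) (𝓝 1) ∧ Integrable c.J ∧ ∫ z, c.J z = -4 * π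

theorem final (hB : StAlt) (hV : StV) (hI : StI) (hD : StD) :
    ∃ d : O3.Conf, d.Critical ∧ Integrable d.degDensity ∧ d.degree = 1 := by
  obtain ⟨K, hK, n₀, hn₀, h⟩ := exists_min hB hV hI
  obtain ⟨n₁, hn₁, hD⟩ := hD K hK
  obtain ⟨c, hm, hel, hE⟩ := h (max n₀ n₁) (le_max_left _ _)
  obtain ⟨h1, h2, h3⟩ := hD (max n₀ n₁) (le_max_right _ _) c hm hel hE
  have ha := hm.1.1
  exact conv ha.sw ha.sh ha.sA ha.unit ha.fin hel ha.contDiff_F h1 h2 h3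

end GO3
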