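import Pool.Agent.GO3.Fin1
import Pool.Agent.GO3.B.Alt
import Pool.Agent.GO3.V.Fpos
import Pool.Agent.GO3.I.Cl
import Pool.Agent.GO3.D.Deg

/-! GO3 / Fin2: the final theorem. -/

open MeasureTheory Filter Topology Set
open scoped ContDiff Real

noncomputable section

namespace GO3

theorem main : ∃ d : O3.Conf, d.Critical ∧ Integrable d.degDensity ∧ d.degree = 1 := by
  refine final alternative F_pos ?_ degree_part
  intro n hn c hc hr hF
  obtain ⟨c', h1, _, h2⟩ := I.ins_class n hn c hc hr hF
  exact ⟨c', h1, h2⟩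

end GO3
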