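import Pool.Agent.GO3.Pol

/-! GO3 / Fro: the frozen map `cone` (tool for all competitors in discs and annuli).

`cone f q m τ κ` has the value `m + τ(ρ) (f (q + κ(ρ) e^{iχ}) - m)` at `q + ρ e^{iχ}`.
Proofs. Away from `q` the map is a composition of smooth maps (`‖z - q‖` is smooth for `z ≠ q`); near `q` it is
constant because `τ = 0` on `(-∞, a]`, `a > 0`. The derivatives follow from the chain rule (in the
direction `er χ` the norm has derivative `1`, the direction `(z - q)/‖z - q‖` does not change; in the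
direction `i (z - q)` the norm does not change). Symmetry: `‖u z‖ = ‖z‖`. -/

open MeasureTheory Filter Topology Set
open scoped ContDiff Real

noncomputable section

namespace GO3

variable {V : Type*} [NormedAddCommGroup V] [NormedSpace ℝ V]

/-- the frozen map -/
def cone (f : ℂ → V) (q : ℂ) (m : V) (τ κ : ℝ → ℝ) (z : ℂ) : V :=
  m + τ ‖z - q‖ • (f (q + ((κ ‖z - q‖ / ‖z - q‖ : ℝ) : ℂ) * (z - q)) - m)

variable {f : ℂ → V} {q : ℂ} {m : V} {τ κ : ℝ → ℝ}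

theorem cone_pt (f : ℂ → V) (q : ℂ) (m : V) (τ κ : ℝ → ℝ) {ρ : ℝ} (hρ : 0 < ρ) (χ : ℝ) :
    cone f q m τ κ (q + pt ρ χ) = m + τ ρ • (f (q + pt (κ ρ) χ) - m) := by
  unfold cone
  have h1 : q + pt ρ χ - q = pt ρ χ := by ring
  have h2 : ‖pt ρ χ‖ = ρ := by rw [norm_pt, abs_of_pos hρ]
  have h3 : ((κ ρ / ρ : ℝ) : ℂ) * pt ρ χ = pt (κ ρ) χ := by
    rw [pt_eq, pt_eq]
    push_cast
    have : (ρ : ℂ) ≠ 0 := by exact_mod_cast hρ.ne'
    field_simp
  rw [h1, h2, h3]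

private theorem cone_at (hf : ContDiff ℝ ∞ f) (hτ : ContDiff ℝ ∞ τ) (hκ : ContDiff ℝ ∞ κ) {z : ℂ}
    (hz : z ≠ q) : ContDiffAt ℝ ∞ (cone f q m τ κ) z := by
  have hne : z - q ≠ 0 := sub_ne_zero.2 hz
  have hsub : ContDiffAt ℝ ∞ (fun z : ℂ => z - q) z := contDiffAt_id.sub contDiffAt_const
  have hn : ContDiffAt ℝ ∞ (fun z : ℂ => ‖z - q‖) z := (contDiffAt_norm ℝ hne).comp z hsub
  have hn0 : ‖z - q‖ ≠ 0 := norm_ne_zero_iff.2 hne
  have hq : ContDiffAt ℝ ∞ (fun z : ℂ => κ ‖z - q‖ / ‖z - q‖) z :=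
    ((hκ.contDiffAt (x := ‖z - q‖)).comp z hn).div hn hn0
  have hq' : ContDiffAt ℝ ∞ (fun z : ℂ => ((κ ‖z - q‖ / ‖z - q‖ : ℝ) : ℂ)) z :=
    Complex.ofRealCLM.contDiff.contDiffAt.comp z hq
  have hin : ContDiffAt ℝ ∞ (fun z : ℂ => q + ((κ ‖z - q‖ / ‖z - q‖ : ℝ) : ℂ) * (z - q)) z :=
    contDiffAt_const.add (hq'.mul hsub)
  have hτ' : ContDiffAt ℝ ∞ (fun z : ℂ => τ ‖z - q‖) z :=
    (hτ.contDiffAt (x := ‖z - q‖)).comp z hn
  exact contDiffAt_const.add (hτ'.smul ((hf.contDiffAt.comp z hin).sub contDiffAt_const))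

theorem cone_smooth (hf : ContDiff ℝ ∞ f) (hτ : ContDiff ℝ ∞ τ) (hκ : ContDiff ℝ ∞ κ) {a : ℝ}
    (ha : 0 < a) (h0 : ∀ x, x ≤ a → τ x = 0) : ContDiff ℝ ∞ (cone f q m τ κ) := by
  rw [contDiff_iff_contDiffAt]
  intro z
  by_cases hz : z = q
  · have hev : cone f q m τ κ =ᶠ[𝓝 z] fun _ => m := by
      have hb : Metric.ball q a ∈ 𝓝 z := by
        rw [hz]
        exact Metric.ball_mem_nhds q ha
      filter_upwards [hb] with y hy
      have : τ ‖y - q‖ = 0 := h0 _ (by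
        have := mem_ball_iff_norm.1 hy
        exact this.le)
      unfold cone
      rw [this, zero_smul, add_zero]
    exact contDiffAt_const.congr_of_eventuallyEq hev
  · exact cone_at hf hτ hκ hz

theorem cone_eq_self {z : ℂ} (h1 : τ ‖z - q‖ = 1) (h2 : κ ‖z - q‖ = ‖z - q‖) (h3 : z ≠ q) :
    cone f q m τ κ z = f z := by
  unfold cone
  have hne : ‖z - q‖ ≠ 0 := norm_ne_zero_iff.2 (sub_ne_zero.2 h3)
  rw [h1, h2, one_smul, div_self hne]
  simp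

theorem cone_eq_const {z : ℂ} (h1 : τ ‖z - q‖ = 0) : cone f q m τ κ z = m := by
  unfold cone
  rw [h1, zero_smul, add_zero]

private theorem pt_ne {ρ : ℝ} (hρ : 0 < ρ) (χ : ℝ) : q + pt ρ χ ≠ q := by
  intro h
  have h1 : pt ρ χ = 0 := by simpa using h
  have h2 : ‖pt ρ χ‖ = ρ := by rw [norm_pt, abs_of_pos hρ]
  rw [h1, norm_zero] at h2
  exact hρ.ne h2

theorem cone_dr (hf : ContDiff ℝ ∞ f) (hτ : ContDiff ℝ ∞ τ) (hκ : ContDiff ℝ ∞ κ) {ρ : ℝ}
    (hρ : 0 < ρ) (χ : ℝ) : fderiv ℝ (cone f q m τ κ) (q + pt ρ χ) (er χ) =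
      deriv τ ρ • (f (q + pt (κ ρ) χ) - m) +
        (τ ρ * deriv κ ρ) • fderiv ℝ f (q + pt (κ ρ) χ) (er χ) := by
  have hd : DifferentiableAt ℝ (cone f q m τ κ) (q + pt ρ χ) :=
    (cone_at hf hτ hκ (pt_ne hρ χ)).differentiableAt (by simp)
  have hγ : HasDerivAt (fun r => q + pt r χ) (er χ) ρ := (hasDerivAt_pt_r ρ χ).const_add q
  have h1 : HasDerivAt (fun r => cone f q m τ κ (q + pt r χ))
      (fderiv ℝ (cone f q m τ κ) (q + pt ρ χ) (er χ)) ρ :=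
    HasFDerivAt.comp_hasDerivAt (f := fun r => q + pt r χ) ρ hd.hasFDerivAt hγ
  have hτ1 : HasDerivAt τ (deriv τ ρ) ρ := (hτ.differentiable (by simp)).differentiableAt.hasDerivAt
  have hκ1 : HasDerivAt κ (deriv κ ρ) ρ := (hκ.differentiable (by simp)).differentiableAt.hasDerivAt
  have hg : HasDerivAt (fun r => q + pt (κ r) χ) (deriv κ ρ • er χ) ρ :=
    ((hasDerivAt_pt_r (κ ρ) χ).scomp ρ hκ1).const_add q
  have hf1 : HasFDerivAt f (fderiv ℝ f (q + pt (κ ρ) χ)) (q + pt (κ ρ) χ) :=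
    (hf.differentiable (by simp)).differentiableAt.hasFDerivAt
  have h2 : HasDerivAt (fun r => f (q + pt (κ r) χ))
      (fderiv ℝ f (q + pt (κ ρ) χ) (deriv κ ρ • er χ)) ρ := hf1.comp_hasDerivAt ρ hg
  have h3 := (hτ1.smul (h2.sub_const m)).const_add m
  have hev : (fun r => cone f q m τ κ (q + pt r χ)) =ᶠ[𝓝 ρ]
      fun r => m + τ r • (f (q + pt (κ r) χ) - m) := by
    filter_upwards [Ioi_mem_nhds hρ] with r hr
    exact cone_pt f q m τ κ hr χ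
  have h4 := (h3.congr_of_eventuallyEq hev).unique h1
  rw [← h4, map_smul, smul_smul]
  abel

theorem cone_dchi (hf : ContDiff ℝ ∞ f) (hτ : ContDiff ℝ ∞ τ) (hκ : ContDiff ℝ ∞ κ) {ρ : ℝ}
    (hρ : 0 < ρ) (χ : ℝ) :
    fderiv ℝ (cone f q m τ κ) (q + pt ρ χ) (Complex.I * pt ρ χ) =
      τ ρ • fderiv ℝ f (q + pt (κ ρ) χ) (Complex.I * pt (κ ρ) χ) := by
  have hd : DifferentiableAt ℝ (cone f q m τ κ) (q + pt ρ χ) :=
    (cone_at hf hτ hκ (pt_ne hρ χ)).differentiableAt (by simp)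
  have hγ : HasDerivAt (fun t => q + pt ρ t) (Complex.I * pt ρ χ) χ :=
    (hasDerivAt_pt_chi ρ χ).const_add q
  have h1 : HasDerivAt (fun t => cone f q m τ κ (q + pt ρ t))
      (fderiv ℝ (cone f q m τ κ) (q + pt ρ χ) (Complex.I * pt ρ χ)) χ :=
    HasFDerivAt.comp_hasDerivAt (f := fun t => q + pt ρ t) χ hd.hasFDerivAt hγ
  have hg : HasDerivAt (fun t => q + pt (κ ρ) t) (Complex.I * pt (κ ρ) χ) χ :=
    (hasDerivAt_pt_chi (κ ρ) χ).const_add q
  have hf1 : HasFDerivAt f (fderiv ℝ f (q + pt (κ ρ) χ)) (q + pt (κ ρ) χ) :=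
    (hf.differentiable (by simp)).differentiableAt.hasFDerivAt
  have h2 : HasDerivAt (fun t => f (q + pt (κ ρ) t))
      (fderiv ℝ f (q + pt (κ ρ) χ) (Complex.I * pt (κ ρ) χ)) χ := hf1.comp_hasDerivAt χ hg
  have h3 := ((h2.sub_const m).const_smul (τ ρ)).const_add m
  have hev : (fun t => cone f q m τ κ (q + pt ρ t)) =
      fun t => m + τ ρ • (f (q + pt (κ ρ) t) - m) := by
    funext t
    exact cone_pt f q m τ κ hρ t
  rw [hev] at h1
  exact h1.unique h3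

/-- rotations about `q` -/
theorem cone_rot {u : ℂ} (hu : ‖u‖ = 1) (L : V →ₗ[ℝ] V) (hm : L m = m)
    (hf : ∀ z, f (q + u * z) = L (f (q + z))) (z : ℂ) :
    cone f q m τ κ (q + u * z) = L (cone f q m τ κ (q + z)) := by
  unfold cone
  have h1 : q + u * z - q = u * z := by ring
  have h2 : q + z - q = z := by ring
  have h3 : ‖u * z‖ = ‖z‖ := by rw [norm_mul, hu, one_mul]
  have h4 : ((κ ‖z‖ / ‖z‖ : ℝ) : ℂ) * (u * z) = u * (((κ ‖z‖ / ‖z‖ : ℝ) : ℂ) * z) := by ring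
  rw [h1, h2, h3, h4, hf, map_add, map_smul, map_sub, hm]

/-- reflections about a line through `q` -/
theorem cone_refl {u : ℂ} (hu : ‖u‖ = 1) (L : V →ₗ[ℝ] V) (hm : L m = m)
    (hf : ∀ z, f (q + u * star z) = L (f (q + z))) (z : ℂ) :
    cone f q m τ κ (q + u * star z) = L (cone f q m τ κ (q + z)) := by
  unfold cone
  have h1 : q + u * star z - q = u * star z := by ring
  have h2 : q + z - q = z := by ring
  have h3 : ‖u * star z‖ = ‖z‖ := by rw [norm_mul, hu, one_mul, norm_star]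
  have h4 : ((κ ‖z‖ / ‖z‖ : ℝ) : ℂ) * (u * star z) = u * star (((κ ‖z‖ / ‖z‖ : ℝ) : ℂ) * z) := by
    rw [star_mul', Complex.star_def, Complex.conj_ofReal]
    ring
  rw [h1, h2, h3, h4, hf, map_add, map_smul, map_sub, hm]

end GO3
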