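import Pool.Agent.GO3.Gau

/-! GO3 / Gap: radial gauge at a point `q` (G4 of the proof text).

`omq c q z = - ∫_0^1 ip (A (q + t (z - q))) (z - q) dt`. Poincare lemma as in Gau.exists_rad:
`A z + ∇ omq z = i (z - q) Gq F q z`. Symmetry: substitute in the integral.
`Gq_L2`: Minkowski / Cauchy-Schwarz: `Gq² ≤ (∫_0^1 t^{1/2}... )`: simplest is
`Gq(z)² ≤ (∫_0^1 t dt) ∫_0^1 t F(q + t (z - q))² dt = 1/2 ∫_0^1 t F² dt` and
`∫_{B_R(q)} ∫_0^1 t F(q + t(z-q))² dt dz = ∫_0^1 t⁻¹ ∫_{B_{tR}(q)} F² dt`, which diverges logarithmically; use instead the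
weights `Gq² ≤ (∫_0^1 t^{1/2} dt)(∫_0^1 t^{3/2} F² dt) = (2/3) ∫_0^1 t^{3/2} F²`,
`∫_{B_R} t^{3/2} F(q + t(z - q))² dz = t^{-1/2} ∫_{B_{tR}} F² ≤ t^{-1/2} ∫_{B_R} F²`, `∫_0^1 t^{-1/2} = 2`: constant `4/3`. -/

open MeasureTheory Filter Topology Set
open scoped ContDiff Real

noncomputable section

namespace GO3

private theorem gap_smooth {h : ℂ → ℝ → ℝ} (hh : ContDiff ℝ ∞ (fun q : ℂ × ℝ => h q.1 q.2)) :
    ContDiff ℝ ∞ (fun p => ∫ t in (0 : ℝ)..1, h p t) := by
  let b : ContDiffBump (-1 / 2 : ℝ) := ⟨1, 2, one_pos, by norm_num⟩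
  let g : ℂ → ℝ → ℝ := fun p x => b x * h p (-x)
  let f : ℝ → ℝ := (Ioc (0 : ℝ) 1).indicator (fun _ => (1 : ℝ))
  have hf : LocallyIntegrable f volume := by
    apply Integrable.locallyIntegrable
    exact (integrable_indicator_iff measurableSet_Ioc).2 (integrableOn_const (by simp))
  have hg : ContDiffOn ℝ ∞ (fun q : ℂ × ℝ => g q.1 q.2) ((univ : Set ℂ) ×ˢ univ) := by
    apply ContDiffOn.mul
    · exact b.contDiff.comp_contDiffOn contDiff_snd.contDiffOn
    · have h1 : ContDiff ℝ ∞ (fun q : ℂ × ℝ => (q.1, -q.2)) :=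
        contDiff_fst.prodMk contDiff_snd.neg
      exact (hh.comp h1).contDiffOn
  have hgs : ∀ p, ∀ x, p ∈ (univ : Set ℂ) → x ∉ Metric.closedBall (-1 / 2 : ℝ) 2 →
      g p x = 0 := by
    intro p x _ hx
    have : b x = 0 := by
      apply b.zero_of_le_dist
      have h2 : ¬ dist x (-1 / 2) ≤ 2 := hx
      exact (not_le.1 h2).le
    simp only [g, this, zero_mul]
  have key := contDiffOn_convolution_right_with_param_comp (μ := (volume : Measure ℝ)) (n := ⊤)
    (ContinuousLinearMap.mul ℝ ℝ) (s := (univ : Set ℂ)) (v := fun _ : ℂ => (0 : ℝ))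
    contDiffOn_const (f := f) (g := g) (k := Metric.closedBall (-1 / 2 : ℝ) 2) isOpen_univ
    (isCompact_closedBall _ _) hgs hf hg
  rw [← contDiffOn_univ]
  refine key.congr (fun p hp => ?_)
  rw [convolution_def, intervalIntegral.integral_of_le zero_le_one,
    ← integral_indicator measurableSet_Ioc]
  congr 1
  funext t
  by_cases ht : t ∈ Ioc (0 : ℝ) 1
  · have h3 : b (0 - t) = 1 := by
      apply b.one_of_mem_closedBall
      rw [Metric.mem_closedBall, Real.dist_eq, abs_le]
      constructor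
      · show -1 ≤ 0 - t - -1 / 2
        linarith [ht.2]
      · show 0 - t - -1 / 2 ≤ 1
        linarith [ht.1]
    simp only [f, g, indicator_of_mem ht, ContinuousLinearMap.mul_apply', h3]
    simp
  · simp only [f, indicator_of_notMem ht, ContinuousLinearMap.mul_apply', zero_mul]

private theorem gap_deriv {h : ℂ → ℝ → ℝ} (hh : ContDiff ℝ ∞ (fun q : ℂ × ℝ => h q.1 q.2))
    (p v : ℂ) : fderiv ℝ (fun p => ∫ t in (0 : ℝ)..1, h p t) p v =
      ∫ t in (0 : ℝ)..1, fderiv ℝ (fun p => h p t) p v := by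
  obtain ⟨H, hH⟩ : ∃ H : ℂ × ℝ → ℝ, H = fun q => h q.1 q.2 := ⟨_, rfl⟩
  rw [← hH] at hh
  have hd : ∀ (q : ℂ) (t : ℝ), fderiv ℝ (fun p => h p t) q v = fderiv ℝ H (q, t) (v, 0) := by
    intro q t
    have h1 : HasFDerivAt H (fderiv ℝ H (q, t)) (q, t) :=
      (hh.differentiable (by simp) (q, t)).hasFDerivAt
    have h2 : HasFDerivAt (fun p : ℂ => (p, t)) (ContinuousLinearMap.inl ℝ ℂ ℝ) q :=
      hasFDerivAt_prodMk_left q t
    have h3 : HasFDerivAt (fun p => h p t) ((fderiv ℝ H (q, t)).comp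
        (ContinuousLinearMap.inl ℝ ℂ ℝ)) q := by
      have := h1.comp q h2
      rw [hH] at this ⊢
      exact this
    rw [h3.fderiv]
    rfl
  have hfd : Continuous (fun q => fderiv ℝ H q (v, 0)) :=
    (hh.continuous_fderiv (by simp)).clm_apply continuous_const
  have hF'c : Continuous (fun q : ℝ × ℝ => fderiv ℝ H (p + q.1 • v, q.2) (v, 0)) :=
    hfd.comp (by fun_prop)
  obtain ⟨C, hC⟩ := (isCompact_Icc.prod isCompact_Icc :
    IsCompact (Icc (-1 : ℝ) 1 ×ˢ Icc (0 : ℝ) 1)).exists_bound_of_continuousOn hF'c.continuousOn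
  have hda := intervalIntegral.hasDerivAt_integral_of_dominated_loc_of_deriv_le
    (μ := volume) (a := 0) (b := 1) (F := fun (r : ℝ) t => h (p + r • v) t)
    (F' := fun (r : ℝ) t => fderiv ℝ H (p + r • v, t) (v, 0)) (x₀ := (0 : ℝ))
    (s := Icc (-1) 1) (bound := fun _ => C)
    (Icc_mem_nhds (by norm_num) (by norm_num)) ?_ ?_ ?_ ?_ ?_ ?_
  · have hsm : ContDiff ℝ ∞ (fun p => ∫ t in (0 : ℝ)..1, h p t) :=
      gap_smooth (by rw [← hH]; exact hh)
    have h1 : HasDerivAt (fun r : ℝ => p + r • v) v 0 := by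
      have := ((hasDerivAt_id (0 : ℝ)).smul_const v).const_add p
      simpa using this
    have h2 : HasFDerivAt (fun p => ∫ t in (0 : ℝ)..1, h p t)
        (fderiv ℝ (fun p => ∫ t in (0 : ℝ)..1, h p t) p) (p + (0 : ℝ) • v) := by
      rw [zero_smul, add_zero]
      exact (hsm.differentiable (by simp) p).hasFDerivAt
    have h3 := h2.comp_hasDerivAt (0 : ℝ) h1
    have h4 := h3.unique hda.2
    rw [h4]
    apply intervalIntegral.integral_congr
    intro t _
    simp only [zero_smul, add_zero]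
    exact (hd p t).symm
  · refine Eventually.of_forall fun r => ?_
    have hc : Continuous (fun t => h (p + r • v) t) := by
      have : Continuous (fun t : ℝ => H (p + r • v, t)) := hh.continuous.comp (by fun_prop)
      rwa [hH] at this
    exact hc.aestronglyMeasurable
  · have hc : Continuous (fun t => h (p + (0 : ℝ) • v) t) := by
      have : Continuous (fun t : ℝ => H (p + (0 : ℝ) • v, t)) := hh.continuous.comp (by fun_prop)
      rwa [hH] at this
    exact hc.intervalIntegrable _ _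
  · have hc : Continuous (fun t => fderiv ℝ H (p + (0 : ℝ) • v, t) (v, 0)) :=
      hfd.comp (by fun_prop)
    exact hc.aestronglyMeasurable
  · refine Eventually.of_forall (fun t ht r hr => ?_)
    apply hC (r, t) ⟨hr, ?_⟩
    rw [uIoc_of_le zero_le_one] at ht
    exact ⟨ht.1.le, ht.2⟩
  · exact intervalIntegrable_const
  · refine Eventually.of_forall (fun t _ r hr => ?_)
    have h1 : HasDerivAt (fun r : ℝ => (p + r • v, t)) (v, (0 : ℝ)) r := by
      have h2 : HasDerivAt (fun r : ℝ => p + r • v) v r := by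
        have := ((hasDerivAt_id r).smul_const v).const_add p
        simpa using this
      exact h2.prodMk (hasDerivAt_const r t)
    have h3 := (hh.differentiable (by simp) (p + r • v, t)).hasFDerivAt.comp_hasDerivAt r h1
    rw [hH] at h3 ⊢
    exact h3

/-- `∫_0^1 F (q + t (z - q)) t dt` -/
def Gq (F : ℂ → ℝ) (q z : ℂ) : ℝ := ∫ t in (0 : ℝ)..1, F (q + t * (z - q)) * t

private theorem pair_q (q : ℂ) : ContDiff ℝ ∞ fun p : ℂ × ℝ => q + (p.2 : ℂ) * (p.1 - q) :=
  contDiff_const.add ((Complex.ofRealCLM.contDiff.comp contDiff_snd).mul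
    (contDiff_fst.sub contDiff_const))

theorem Gq_smooth {F : ℂ → ℝ} (hF : ContDiff ℝ ∞ F) (q : ℂ) : ContDiff ℝ ∞ (Gq F q) := by
  refine gap_smooth (h := fun z t => F (q + t * (z - q)) * t) ?_
  exact (hF.comp (pair_q q)).mul contDiff_snd

private theorem Gq_sq {F : ℂ → ℝ} (hF : Continuous F) (q z : ℂ) :
    Gq F q z ^ 2 ≤ 2 / 3 * ∫ t in (0 : ℝ)..1, t * Real.sqrt t * F (q + t * (z - q)) ^ 2 := by
  have hc : Continuous fun t : ℝ => F (q + t * (z - q)) := hF.comp (by fun_prop)
  have hs : Continuous fun t : ℝ => Real.sqrt t := Real.continuous_sqrt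
  obtain ⟨s, hs'⟩ : ∃ s, s = 3 / 2 * Gq F q z := ⟨_, rfl⟩
  have h0 : 0 ≤ ∫ t in (0 : ℝ)..1, Real.sqrt t * (s - Real.sqrt t * F (q + t * (z - q))) ^ 2 := by
    apply intervalIntegral.integral_nonneg zero_le_one
    intro t _
    positivity
  have h1 : ∫ t in (0 : ℝ)..1, Real.sqrt t * (s - Real.sqrt t * F (q + t * (z - q))) ^ 2 =
      s ^ 2 * (∫ t in (0 : ℝ)..1, Real.sqrt t) - 2 * s * Gq F q z +
        ∫ t in (0 : ℝ)..1, t * Real.sqrt t * F (q + t * (z - q)) ^ 2 := by
    unfold Gq
    rw [← intervalIntegral.integral_const_mul, ← intervalIntegral.integral_const_mul,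
      ← intervalIntegral.integral_sub, ← intervalIntegral.integral_add]
    · refine intervalIntegral.integral_congr fun t ht => ?_
      rw [uIcc_of_le zero_le_one] at ht
      have h2 := Real.mul_self_sqrt ht.1
      obtain ⟨x, hx⟩ : ∃ x, x = Real.sqrt t := ⟨_, rfl⟩
      simp only [← hx] at h2 ⊢
      rw [← h2]
      ring
    · apply Continuous.intervalIntegrable
      fun_prop
    · apply Continuous.intervalIntegrable
      fun_prop
    · apply Continuous.intervalIntegrable
      fun_prop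
    · apply Continuous.intervalIntegrable
      fun_prop
  have h2 : ∫ t in (0 : ℝ)..1, Real.sqrt t = 2 / 3 := by
    have h3 : ∫ t in (0 : ℝ)..1, Real.sqrt t = ∫ t in (0 : ℝ)..1, t ^ (1 / 2 : ℝ) := by
      refine intervalIntegral.integral_congr fun t _ => ?_
      exact Real.sqrt_eq_rpow t
    rw [h3, integral_rpow (Or.inl (by norm_num))]
    norm_num
  rw [h1, h2, hs'] at h0
  nlinarith

private theorem scale_q {g : ℂ → ℝ} (hg : Continuous g) (h0 : ∀ z, 0 ≤ g z) (q : ℂ) {R t : ℝ}
    (hR : 0 ≤ R) (ht : 0 < t) (ht1 : t ≤ 1) :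
    ∫ z in Metric.ball q R, g (q + t * (z - q)) ≤ (t ^ 2)⁻¹ * ∫ z in Metric.ball q R, g z := by
  have tr : ∀ k : ℂ → ℝ, ∫ z in Metric.ball q R, k z = ∫ y in Metric.ball 0 R, k (q + y) := by
    intro k
    have h1 := (measurePreserving_add_left (volume : Measure ℂ) q).setIntegral_preimage_emb
      (measurableEmbedding_addLeft q) k (Metric.ball q R)
    rw [← h1]
    have h2 : (fun y => q + y) ⁻¹' Metric.ball q R = Metric.ball 0 R := by
      ext y
      simp [dist_eq_norm]
    rw [h2]
  rw [tr, tr]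
  have h3 : ∀ y : ℂ, g (q + t * (q + y - q)) = g (q + t • y) := by
    intro y
    rw [Complex.real_smul]
    congr 2
    ring
  simp only [h3]
  have h4 := Measure.setIntegral_comp_smul_of_pos (volume : Measure ℂ) (fun y => g (q + y))
    (Metric.ball (0 : ℂ) R) ht
  rw [h4, Complex.finrank_real_complex, smul_eq_mul]
  apply mul_le_mul_of_nonneg_left _ (by positivity)
  have hgc : Continuous fun y => g (q + y) := by fun_prop
  apply setIntegral_mono_set
  · exact (hgc.continuousOn.integrableOn_compact (isCompact_closedBall (0 : ℂ) R)).mono_set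
      Metric.ball_subset_closedBall
  · exact Eventually.of_forall fun y => h0 _
  · apply LE.le.eventuallyLE
    rintro y ⟨x, hx, rfl⟩
    simp only [Metric.mem_ball, dist_zero_right] at hx ⊢
    rw [norm_smul, Real.norm_eq_abs, abs_of_pos ht]
    nlinarith [norm_nonneg x]

theorem Gq_L2 {F : ℂ → ℝ} (hF : ContDiff ℝ ∞ F) (q : ℂ) {R : ℝ} (hR : 0 ≤ R) :
    ∫ z in Metric.ball q R, Gq F q z ^ 2 ≤ 4 / 3 * ∫ z in Metric.ball q R, F z ^ 2 := by
  have hc := hF.continuous
  have hG := (Gq_smooth hF q).continuous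
  have hI : ∀ {k : ℂ → ℝ}, Continuous k → IntegrableOn k (Metric.ball q R) := fun hk =>
    (hk.continuousOn.integrableOn_compact (isCompact_closedBall q R)).mono_set
      Metric.ball_subset_closedBall
  have hpair : Continuous fun p : ℂ × ℝ => p.2 * Real.sqrt p.2 * F (q + p.2 * (p.1 - q)) ^ 2 := by
    have := hc.comp (pair_q q).continuous
    have h1 : Continuous fun p : ℂ × ℝ => F (q + p.2 * (p.1 - q)) := this
    have h2 : Continuous fun p : ℂ × ℝ => Real.sqrt p.2 := Real.continuous_sqrt.comp continuous_snd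
    fun_prop
  have hint : Integrable (Function.uncurry fun (z : ℂ) (t : ℝ) =>
      t * Real.sqrt t * F (q + t * (z - q)) ^ 2)
      ((volume.restrict (Metric.ball q R)).prod (volume.restrict (Ioc (0 : ℝ) 1))) := by
    rw [Measure.prod_restrict]
    have h1 : IntegrableOn (fun p : ℂ × ℝ => p.2 * Real.sqrt p.2 * F (q + p.2 * (p.1 - q)) ^ 2)
        (Metric.closedBall q R ×ˢ Icc (0 : ℝ) 1) (volume.prod volume) :=
      hpair.continuousOn.integrableOn_compact ((isCompact_closedBall q R).prod isCompact_Icc)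
    exact h1.mono_set (prod_mono Metric.ball_subset_closedBall Ioc_subset_Icc_self)
  have h1 : ∫ z in Metric.ball q R, Gq F q z ^ 2 ≤
      ∫ z in Metric.ball q R, 2 / 3 * ∫ t in Ioc (0 : ℝ) 1,
        t * Real.sqrt t * F (q + t * (z - q)) ^ 2 := by
    apply integral_mono (hI (hG.pow 2))
    · exact (hint.integral_prod_left).const_mul _
    · intro z
      have := Gq_sq hc q z
      rw [intervalIntegral.integral_of_le zero_le_one] at this
      exact this
  have h2 : ∫ z in Metric.ball q R, ∫ t in Ioc (0 : ℝ) 1,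
        t * Real.sqrt t * F (q + t * (z - q)) ^ 2 =
      ∫ t in Ioc (0 : ℝ) 1, ∫ z in Metric.ball q R,
        t * Real.sqrt t * F (q + t * (z - q)) ^ 2 := integral_integral_swap hint
  have h3 : ∫ t in Ioc (0 : ℝ) 1, ∫ z in Metric.ball q R,
        t * Real.sqrt t * F (q + t * (z - q)) ^ 2 ≤
      ∫ t in Ioc (0 : ℝ) 1, t ^ (-1 / 2 : ℝ) * ∫ z in Metric.ball q R, F z ^ 2 := by
    have hr : IntervalIntegrable (fun t : ℝ => t ^ (-1 / 2 : ℝ)) volume 0 1 :=
      intervalIntegral.intervalIntegrable_rpow' (by norm_num)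
    rw [intervalIntegrable_iff_integrableOn_Ioc_of_le zero_le_one] at hr
    apply setIntegral_mono_on hint.integral_prod_right (hr.mul_const _) measurableSet_Ioc
    intro t ht
    change ∫ z in Metric.ball q R, t * Real.sqrt t * F (q + t * (z - q)) ^ 2 ≤ _
    rw [integral_const_mul]
    have h4 := scale_q (g := fun z => F z ^ 2) (by fun_prop) (fun z => sq_nonneg _) q hR ht.1 ht.2
    have h5 : t ^ (-1 / 2 : ℝ) = t * Real.sqrt t * (t ^ 2)⁻¹ := by
      have h6 := Real.mul_self_sqrt ht.1.le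
      have h7 : 0 < Real.sqrt t := Real.sqrt_pos.2 ht.1
      rw [show (-1 / 2 : ℝ) = -(1 / 2) by norm_num, Real.rpow_neg ht.1.le, ← Real.sqrt_eq_rpow]
      obtain ⟨x, hx⟩ : ∃ x, x = Real.sqrt t := ⟨_, rfl⟩
      rw [← hx] at h6 h7 ⊢
      rw [← h6]
      field_simp
    rw [h5, mul_assoc (t * Real.sqrt t) (t ^ 2)⁻¹]
    exact mul_le_mul_of_nonneg_left h4 (mul_nonneg ht.1.le (Real.sqrt_nonneg _))
  have h4 : ∫ t in Ioc (0 : ℝ) 1, t ^ (-1 / 2 : ℝ) = 2 := by
    rw [← intervalIntegral.integral_of_le zero_le_one, integral_rpow (Or.inl (by norm_num))]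
    norm_num
  rw [integral_mul_const, h4] at h3
  rw [integral_const_mul, h2] at h1
  linarith

private theorem gap_ip_add (a b v : ℂ) : ip (a + b) v = ip a v + ip b v := by
  unfold ip
  rw [Complex.add_re, Complex.add_im]
  ring

private theorem gap_ip_ext {a b : ℂ} (h : ∀ v, ip a v = ip b v) : a = b := by
  have h1 := h 1
  have h2 := h Complex.I
  unfold ip at h1 h2
  simp only [Complex.one_re, Complex.one_im, Complex.I_re, Complex.I_im, mul_one, mul_zero,
    add_zero, zero_add] at h1 h2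
  exact Complex.ext h1 h2

private theorem reC : ContDiff ℝ ∞ fun z : ℂ => z.re := Complex.reCLM.contDiff

private theorem imC : ContDiff ℝ ∞ fun z : ℂ => z.im := Complex.imCLM.contDiff

private theorem hasF_q (q : ℂ) (t : ℝ) (z : ℂ) :
    HasFDerivAt (fun z : ℂ => q + (t : ℂ) * (z - q)) ((t : ℂ) • ContinuousLinearMap.id ℝ ℂ) z :=
  (((hasFDerivAt_id z).sub_const q).const_mul (t : ℂ)).const_add q

namespace Cf

/-- the gauge function of the radial gauge at `q` -/
def omq (c : Cf) (q z : ℂ) : ℝ := -∫ t in (0 : ℝ)..1, ip (c.A (q + t * (z - q))) (z - q)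

variable {c : Cf} {n : ℕ}

private theorem smooth_int (hA : ContDiff ℝ ∞ c.A) (q : ℂ) :
    ContDiff ℝ ∞ (fun p : ℂ × ℝ => ip (c.A (q + p.2 * (p.1 - q))) (p.1 - q)) := by
  unfold ip
  have h1 : ContDiff ℝ ∞ fun p : ℂ × ℝ => c.A (q + p.2 * (p.1 - q)) := hA.comp (pair_q q)
  have h2 : ContDiff ℝ ∞ fun p : ℂ × ℝ => p.1 - q := contDiff_fst.sub contDiff_const
  exact ((reC.comp h1).mul (reC.comp h2)).add ((imC.comp h1).mul (imC.comp h2))

theorem omq_smooth (hA : ContDiff ℝ ∞ c.A) (q : ℂ) : ContDiff ℝ ∞ (c.omq q) := by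
  have h1 := gap_smooth (h := fun z t => ip (c.A (q + t * (z - q))) (z - q)) (smooth_int hA q)
  exact h1.neg

theorem omq_A (hA : ContDiff ℝ ∞ c.A) (q z : ℂ) :
    (c.gt (c.omq q)).A z = Complex.I * (z - q) * (Gq c.F q z : ℂ) := by
  change c.A z + nab (c.omq q) z = Complex.I * (z - q) * (Gq c.F q z : ℂ)
  apply gap_ip_ext
  intro v
  rw [gap_ip_add, ip_nab (omq_smooth hA q)]
  have hAd : ∀ y, HasFDerivAt c.A (fderiv ℝ c.A y) y := fun y =>
    (hA.differentiable (by simp) y).hasFDerivAt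
  obtain ⟨y, hy⟩ : ∃ y : ℝ → ℂ, y = fun t : ℝ => q + (t : ℂ) * (z - q) := ⟨_, rfl⟩
  have hyt : ∀ t : ℝ, q + t * (z - q) = y t := fun t => by rw [hy]
  have hyc : Continuous y := by
    rw [hy]
    fun_prop
  have h1 : fderiv ℝ (c.omq q) z v = -∫ t in (0 : ℝ)..1,
      (ip (t * fderiv ℝ c.A (y t) v) (z - q) + ip (c.A (y t)) v) := by
    have k0 : fderiv ℝ (c.omq q) z v = -(fderiv ℝ
        (fun z => ∫ t in (0 : ℝ)..1, ip (c.A (q + t * (z - q))) (z - q)) z v) := by
      unfold omq
      rw [fderiv_fun_neg]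
      rfl
    rw [k0, gap_deriv (h := fun z t => ip (c.A (q + t * (z - q))) (z - q)) (smooth_int hA q)]
    congr 1
    refine intervalIntegral.integral_congr fun t _ => ?_
    have k1 := (hAd (q + t * (z - q))).comp z (hasF_q q t z)
    have k2 := Complex.reCLM.hasFDerivAt.comp z k1
    have k3 := Complex.imCLM.hasFDerivAt.comp z k1
    have m0 : HasFDerivAt (fun z : ℂ => z - q) (ContinuousLinearMap.id ℝ ℂ) z :=
      (hasFDerivAt_id z).sub_const q
    have m1 := Complex.reCLM.hasFDerivAt.comp z m0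
    have m2 := Complex.imCLM.hasFDerivAt.comp z m0
    have k4 := (k2.mul m1).add (k3.mul m2)
    have k5 : fderiv ℝ (fun z => ip (c.A (q + t * (z - q))) (z - q)) z v = _ :=
      congrArg (fun L : ℂ →L[ℝ] ℝ => L v) k4.fderiv
    rw [k5]
    have k6 : (t : ℂ) * v = t • v := by rw [Complex.real_smul]
    simp only [Function.comp_apply, add_apply, smul_apply,
      ContinuousLinearMap.comp_apply, Complex.reCLM_apply, Complex.imCLM_apply, smul_eq_mul,
      ContinuousLinearMap.id_apply, k6, map_smul, ip, hyt,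
      Complex.mul_re, Complex.mul_im, Complex.ofReal_re, Complex.ofReal_im]
    ring
  have h2 : ip (c.A z) v = ∫ t in (0 : ℝ)..1,
      (ip (c.A (y t)) v + t * ip (fderiv ℝ c.A (y t) (z - q)) v) := by
    have k1 : ∀ t : ℝ, HasDerivAt (fun t : ℝ => t * ip (c.A (y t)) v)
        (ip (c.A (y t)) v + t * ip (fderiv ℝ c.A (y t) (z - q)) v) t := by
      intro t
      have k2 : HasDerivAt y (z - q) t := by
        rw [hy]
        have := ((Complex.ofRealCLM.hasDerivAt (x := t)).mul_const (z - q)).const_add q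
        simpa using this
      have k3 := (hAd (y t)).comp_hasDerivAt t k2
      have k4 := Complex.reCLM.hasFDerivAt.comp_hasDerivAt t k3
      have k5 := Complex.imCLM.hasFDerivAt.comp_hasDerivAt t k3
      have k6 : HasDerivAt (fun t : ℝ => ip (c.A (y t)) v)
          (ip (fderiv ℝ c.A (y t) (z - q)) v) t :=
        (k4.mul_const v.re).add (k5.mul_const v.im)
      have k7 := (hasDerivAt_id t).mul k6
      have e : ip (c.A (y t)) v + t * ip (fderiv ℝ c.A (y t) (z - q)) v =
          1 * ip (c.A (y t)) v + id t * ip (fderiv ℝ c.A (y t) (z - q)) v := by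
        rw [one_mul]
        rfl
      rw [e]
      exact k7
    have k8 : Continuous fun t : ℝ =>
        ip (c.A (y t)) v + t * ip (fderiv ℝ c.A (y t) (z - q)) v := by
      have m2 : Continuous fun t : ℝ => c.A (y t) := hA.continuous.comp hyc
      have m3 : Continuous fun t : ℝ => fderiv ℝ c.A (y t) (z - q) :=
        ((hA.continuous_fderiv (by simp)).comp hyc).clm_apply continuous_const
      unfold ip
      fun_prop
    have k9 := intervalIntegral.integral_eq_sub_of_hasDerivAt (a := 0) (b := 1)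
      (fun t _ => k1 t) (k8.intervalIntegrable _ _)
    rw [k9, hy]
    simp
  have hc2 : Continuous fun t : ℝ => c.A (y t) := hA.continuous.comp hyc
  have hc3 : ∀ u, Continuous fun t : ℝ => fderiv ℝ c.A (y t) u := fun u =>
    ((hA.continuous_fderiv (by simp)).comp hyc).clm_apply continuous_const
  rw [h1, h2, ← sub_eq_add_neg, ← intervalIntegral.integral_sub]
  · have h3 : ip (Complex.I * (z - q) * (Gq c.F q z : ℂ)) v =
        ((z - q).re * v.im - (z - q).im * v.re) * Gq c.F q z := by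
      unfold ip
      simp only [Complex.mul_re, Complex.mul_im, Complex.I_re, Complex.I_im, Complex.ofReal_re,
        Complex.ofReal_im]
      ring
    rw [h3]
    unfold Gq
    rw [← intervalIntegral.integral_const_mul]
    refine intervalIntegral.integral_congr fun t _ => ?_
    have k1 : ∀ u : ℂ, fderiv ℝ c.A (y t) u =
        (u.re : ℂ) * fderiv ℝ c.A (y t) 1 + (u.im : ℂ) * fderiv ℝ c.A (y t) Complex.I := by
      intro u
      have k2 : u = (u.re : ℝ) • (1 : ℂ) + (u.im : ℝ) • Complex.I := by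
        apply Complex.ext <;> simp
      conv_lhs => rw [k2]
      rw [map_add, map_smul, map_smul, Complex.real_smul, Complex.real_smul]
    change ip (c.A (y t)) v + t * ip (fderiv ℝ c.A (y t) (z - q)) v -
      (ip (t * fderiv ℝ c.A (y t) v) (z - q) + ip (c.A (y t)) v) =
      ((z - q).re * v.im - (z - q).im * v.re) *
        (((fderiv ℝ c.A (q + t * (z - q)) 1).im -
          (fderiv ℝ c.A (q + t * (z - q)) Complex.I).re) * t)
    rw [hyt, k1 (z - q), k1 v]
    unfold ip
    simp only [Complex.mul_re, Complex.mul_im, Complex.add_re, Complex.add_im, Complex.ofReal_re,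
        Complex.ofReal_im]
    ring
  · apply Continuous.intervalIntegrable
    unfold ip
    have := hc3 (z - q)
    fun_prop
  · apply Continuous.intervalIntegrable
    unfold ip
    have := hc3 v
    fun_prop

theorem omq_refl (hA : ContDiff ℝ ∞ c.A) {q u : ℂ} (hu : ‖u‖ = 1) (hq : u * star q = q)
    (hs : ∀ z, c.A (u * star z) = -(u * star (c.A z))) (z : ℂ) :
    c.omq q (u * star z) = -c.omq q z := by
  unfold omq
  rw [neg_neg, ← intervalIntegral.integral_neg]
  refine intervalIntegral.integral_congr fun t _ => ?_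
  change -ip (c.A (q + t * (u * star z - q))) (u * star z - q) =
    ip (c.A (q + t * (z - q))) (z - q)
  have e1 : u * star z - q = u * star (z - q) := by
    rw [star_sub, mul_sub, hq]
  have e2 : q + t * (u * star z - q) = u * star (q + t * (z - q)) := by
    rw [star_add, star_mul', mul_add, hq, e1]
    have e3 : star (t : ℂ) = t := by rw [Complex.star_def, Complex.conj_ofReal]
    rw [e3]
    ring
  have e4 : ∀ a b : ℂ, ip (-a) b = -ip a b := by
    intro a b
    unfold ip
    rw [Complex.neg_re, Complex.neg_im]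
    ring
  rw [e2, e1, hs, e4, ip_mul _ _ _ hu, ip_star, neg_neg]

theorem omq_zero (hr : c.Rad) (z : ℂ) : c.omq 0 z = 0 := by
  obtain ⟨G, _, hG⟩ := hr
  unfold omq
  rw [neg_eq_zero]
  have h1 : ∀ t : ℝ, ip (c.A (0 + t * (z - 0))) (z - 0) = 0 := by
    intro t
    rw [hG]
    unfold ip
    simp only [Complex.mul_re, Complex.mul_im, Complex.I_re, Complex.I_im, Complex.ofReal_re,
      Complex.ofReal_im, zero_add, sub_zero]
    ring
  simp only [h1]
  simp

end Cf

end GO3
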