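import Pool.Agent.GO3.Grs

/-! GO3 / Grh: integration and iteration of the growth inequality (G6 of the proof text).

`halving` (pure calculus): `e` nondecreasing, `e' ` continuous derivative, `e s ≤ (3/2) s e' s + g s + δ` on
`(0, R)`. Divide by `s` and integrate over `[R/2, R]`:
`e(R/2) log 2 ≤ (3/2)(e R - e (R/2)) + ∫ g/s + δ log 2`; `θ = 1.5 / (1.5 + log 2) ≤ 0.685`.
`iteration`: `e (R 2^{-j}) ≤ θ^j (e R + 3 D R²) + 4 δ` from `e(r/2) ≤ θ e(r) + D r² + δ` for `r ≤ R`, `θ = 0.685`: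
`Σ θ^{j-1-i} 4^{-i} ≤ θ^j / (θ - 1/4) ≤ 3 θ^j`, `1/(1 - θ) ≤ 4`; and `θ ≤ 2^{-kap}` (`kap = 13/25`,
`0.685^25 ≤ 2^{-13}`), monotonicity for `r` between two dyadic radii (factor 2).
`growth_iter`: `e = c.ee q`, `e' s = (1/2) s ∮ grad` (`polar_ball`), `g s = 7 (s⁴ ∮ G² + s² ∫_{B_s} G²) + 7 s²`,
`∫_{R/2}^R s⁴ ∮ G² ds/s ≤ R² ∫_{B_R} G²`, `Gq_L2`, `∫ F² ≤ 2 E ≤ 2 K n²`: `D = 12 K n² + 2`, `3 D ≤ 100 K n²`. -/

open MeasureTheory Filter Topology Set
open scoped ContDiff Real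

noncomputable section

namespace GO3

theorem halving {e e' g : ℝ → ℝ} {R δ Γ : ℝ} (hR : 0 < R) (hδ : 0 ≤ δ) (hΓ : 0 ≤ Γ)
    (he : ∀ s, 0 < s → HasDerivAt e (e' s) s) (hc : Continuous e') (h0 : ∀ s, 0 ≤ e' s)
    (hp : ∀ s, 0 ≤ e s)
    (hg : Continuous g) (hgi : ∫ s in (R / 2)..R, g s / s ≤ Γ)
    (h : ∀ s, 0 < s → s < R → e s ≤ 3 / 2 * s * e' s + g s + δ) :
    e (R / 2) ≤ 137 / 200 * e R + Γ / 2 + δ := by
  have hR2 : 0 < R / 2 := by positivity
  have hRR : R / 2 ≤ R := by linarith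
  have hint : ∀ s, R / 2 ≤ s → ∫ x in (R / 2)..s, e' x = e s - e (R / 2) := by
    intro s hs
    refine intervalIntegral.integral_eq_sub_of_hasDerivAt (fun x hx => he x ?_) (hc.intervalIntegrable _ _)
    rw [uIcc_of_le hs] at hx
    linarith [hx.1]
  have hmono : ∀ s, R / 2 ≤ s → e (R / 2) ≤ e s := by
    intro s hs
    have h1 := hint s hs
    have h2 : 0 ≤ ∫ x in (R / 2)..s, e' x := intervalIntegral.integral_nonneg hs fun x _ => h0 x
    linarith
  have hne : ∀ x ∈ uIcc (R / 2) R, x ≠ 0 := by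
    intro x hx
    rw [uIcc_of_le hRR] at hx
    exact (lt_of_lt_of_le hR2 hx.1).ne'
  have i1 : IntervalIntegrable (fun s => g s / s) volume (R / 2) R :=
    (hg.continuousOn.div continuousOn_id hne).intervalIntegrable
  have i2 : IntervalIntegrable (fun s : ℝ => s⁻¹) volume (R / 2) R :=
    (continuousOn_id.inv₀ hne).intervalIntegrable
  have i3 : IntervalIntegrable e' volume (R / 2) R := hc.intervalIntegrable _ _
  have hlog : ∫ s in (R / 2)..R, s⁻¹ = Real.log 2 := by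
    rw [integral_inv_of_pos hR2 hR]
    congr 1
    field_simp
  have key : ∫ s in (R / 2)..R, e (R / 2) * s⁻¹ ≤
      ∫ s in (R / 2)..R, (3 / 2 * e' s + g s / s + δ * s⁻¹) := by
    refine intervalIntegral.integral_mono_on_of_le_Ioo hRR (i2.const_mul _)
      (((i3.const_mul _).add i1).add (i2.const_mul _)) fun s hs => ?_
    have hs0 : 0 < s := lt_trans hR2 hs.1
    have h1 := h s hs0 hs.2
    have h2 := hmono s hs.1.le
    have h3 : e (R / 2) * s⁻¹ ≤ (3 / 2 * s * e' s + g s + δ) * s⁻¹ :=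
      mul_le_mul_of_nonneg_right (h2.trans h1) (inv_pos.2 hs0).le
    refine h3.trans (le_of_eq ?_)
    field_simp
  rw [intervalIntegral.integral_const_mul, hlog, intervalIntegral.integral_add
    ((i3.const_mul _).add i1) (i2.const_mul _), intervalIntegral.integral_add (i3.const_mul _) i1,
    intervalIntegral.integral_const_mul, intervalIntegral.integral_const_mul, hlog, hint R hRR] at key
  have hl1 := Real.log_two_gt_d9
  have hl2 := Real.log_two_lt_d9
  have hp1 := hp R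
  have hp2 := hp (R / 2)
  -- key : e (R/2) * log 2 ≤ 3/2 (e R - e (R/2)) + ∫ + δ log 2
  have k1 : e (R / 2) * (21931 / 10000) ≤ 3 / 2 * e R + Γ + δ * Real.log 2 := by
    have : e (R / 2) * (6931 / 10000) ≤ e (R / 2) * Real.log 2 :=
      mul_le_mul_of_nonneg_left (by linarith) hp2
    linarith
  have k2 : δ * Real.log 2 ≤ δ := mul_le_of_le_one_right hδ (by linarith)
  linarith

private theorem kap_pow : (137 / 200 : ℝ) ≤ (1 / 2 : ℝ) ^ kap := by
  have h1 : ((1 / 2 : ℝ) ^ kap) ^ (25 : ℕ) = (1 / 2 : ℝ) ^ (13 : ℕ) := by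
    rw [← Real.rpow_natCast, ← Real.rpow_mul (by norm_num), ← Real.rpow_natCast]
    congr 1
    unfold kap
    norm_num
  have h2 : (137 / 200 : ℝ) ^ 25 ≤ (1 / 2 : ℝ) ^ 13 := by norm_num
  rw [← h1] at h2
  exact le_of_pow_le_pow_left₀ (by norm_num) (by positivity) h2

theorem iteration {e : ℝ → ℝ} (hm : Monotone e) (hp : ∀ s, 0 ≤ e s) {R D δ : ℝ} (hR : 0 < R)
    (hD : 0 ≤ D) (hδ : 0 ≤ δ)
    (h : ∀ r, 0 < r → r ≤ R → e (r / 2) ≤ 137 / 200 * e r + D * r ^ 2 + δ) :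
    ∀ r, 0 < r → r ≤ R → e r ≤ 2 * (r / R) ^ kap * (e R + 3 * D * R ^ 2) + 4 * δ := by
  have hj : ∀ j : ℕ, e (R * (1 / 2) ^ j) ≤ (137 / 200) ^ j * e R +
      D * R ^ 2 * (((137 / 200) ^ j - (1 / 4) ^ j) * (200 / 87)) + δ * ((1 - (137 / 200) ^ j) * (200 / 63)) := by
    intro j
    induction j with
    | zero => simp
    | succ j ih =>
      have h1 := h (R * (1 / 2) ^ j) (by positivity) (by
        have : (1 / 2 : ℝ) ^ j ≤ 1 := pow_le_one₀ (by norm_num) (by norm_num)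
        nlinarith)
      have e1 : R * (1 / 2) ^ j / 2 = R * (1 / 2) ^ (j + 1) := by rw [pow_succ]; ring
      have e2 : (R * (1 / 2 : ℝ) ^ j) ^ 2 = R ^ 2 * (1 / 4) ^ j := by
        rw [mul_pow, ← pow_mul, mul_comm j 2, pow_mul]
        norm_num
      rw [e1, e2] at h1
      refine h1.trans ?_
      have h2 := mul_le_mul_of_nonneg_left ih (by norm_num : (0 : ℝ) ≤ 137 / 200)
      rw [pow_succ (137 / 200 : ℝ) j, pow_succ (1 / 4 : ℝ) j]
      linarith
  intro r hr hrR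
  have hx : 0 < r / R := by positivity
  have hx1 : r / R ≤ 1 := (div_le_one hR).2 hrR
  -- the dyadic level of r
  obtain ⟨j, hj1, hj2⟩ : ∃ j : ℕ, r / R ≤ (1 / 2) ^ j ∧ (1 / 2) ^ (j + 1) < r / R := by
    have hex : ∃ j : ℕ, (1 / 2 : ℝ) ^ (j + 1) < r / R := by
      obtain ⟨j, hj⟩ := exists_pow_lt_of_lt_one hx (by norm_num : (1 / 2 : ℝ) < 1)
      exact ⟨j, lt_of_le_of_lt (pow_le_pow_of_le_one (by norm_num) (by norm_num) (Nat.le_succ j)) hj⟩
    classical
    refine ⟨Nat.find hex, ?_, Nat.find_spec hex⟩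
    rcases Nat.eq_zero_or_pos (Nat.find hex) with h0 | h0
    · rw [h0, pow_zero]
      exact hx1
    · have h1 := Nat.find_min hex (Nat.sub_lt h0 one_pos)
      have h2 : Nat.find hex - 1 + 1 = Nat.find hex := by omega
      rw [h2] at h1
      exact not_lt.1 h1
  have hr1 : r ≤ R * (1 / 2) ^ j := by
    rw [div_le_iff₀ hR] at hj1
    linarith
  have h1 := (hm hr1).trans (hj j)
  have hq0 : (0 : ℝ) < (137 / 200) ^ j := by positivity
  have hq1 : (137 / 200 : ℝ) ^ j ≤ 2 * (r / R) ^ kap := by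
    have a1 : (137 / 200 : ℝ) ^ j ≤ ((1 / 2 : ℝ) ^ kap) ^ j := pow_le_pow_left₀ (by norm_num) kap_pow j
    have a2 : ((1 / 2 : ℝ) ^ kap) ^ j = ((1 / 2 : ℝ) ^ j) ^ kap := by
      rw [← Real.rpow_natCast, ← Real.rpow_natCast, ← Real.rpow_mul (by norm_num), ← Real.rpow_mul (by norm_num),
        mul_comm]
    have a3 : ((1 / 2 : ℝ) ^ j) ≤ 2 * (r / R) := by
      rw [pow_succ] at hj2
      linarith
    have hk0 : (0 : ℝ) ≤ kap := by unfold kap; norm_num
    have hk1 : kap ≤ 1 := by unfold kap; norm_num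
    calc (137 / 200 : ℝ) ^ j ≤ ((1 / 2 : ℝ) ^ j) ^ kap := by rw [← a2]; exact a1
      _ ≤ (2 * (r / R)) ^ kap := Real.rpow_le_rpow (by positivity) a3 hk0
      _ = 2 ^ kap * (r / R) ^ kap := Real.mul_rpow (by norm_num) hx.le
      _ ≤ 2 * (r / R) ^ kap := by
          refine mul_le_mul_of_nonneg_right ?_ (by positivity)
          calc (2 : ℝ) ^ kap ≤ 2 ^ (1 : ℝ) := Real.rpow_le_rpow_of_exponent_le (by norm_num) hk1
            _ = 2 := Real.rpow_one 2
  have hpR := hp R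
  have hDR : 0 ≤ D * R ^ 2 := by positivity
  have b1 : D * R ^ 2 * (((137 / 200) ^ j - (1 / 4) ^ j) * (200 / 87)) ≤ (137 / 200) ^ j * (3 * D * R ^ 2) := by
    have : (0 : ℝ) < (1 / 4) ^ j := by positivity
    have c1 : ((137 / 200 : ℝ) ^ j - (1 / 4) ^ j) * (200 / 87) ≤ 3 * (137 / 200) ^ j := by linarith
    calc _ ≤ D * R ^ 2 * (3 * (137 / 200) ^ j) := mul_le_mul_of_nonneg_left c1 hDR
      _ = _ := by ring
  have b2 : δ * ((1 - (137 / 200) ^ j) * (200 / 63)) ≤ 4 * δ := by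
    have c1 : (1 - (137 / 200 : ℝ) ^ j) * (200 / 63) ≤ 4 := by linarith
    calc _ ≤ δ * 4 := mul_le_mul_of_nonneg_left c1 hδ
      _ = _ := by ring
  have b3 : (137 / 200) ^ j * (e R + 3 * D * R ^ 2) ≤ 2 * (r / R) ^ kap * (e R + 3 * D * R ^ 2) :=
    mul_le_mul_of_nonneg_right hq1 (by positivity)
  linarith

private theorem ee_mono {n : ℕ} {c : Cf} (hc : c.Adm n) (q : ℂ) : Monotone (c.ee q) := by
  intro a b hab
  unfold Cf.ee
  have h1 : ∫ z in Metric.ball q a, c.grad z ≤ ∫ z in Metric.ball q b, c.grad z :=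
    setIntegral_mono_set (Cf.Adm.int_grad hc).integrableOn (Eventually.of_forall fun z => c.grad_nonneg z)
      (Metric.ball_subset_ball hab).eventuallyLE
  linarith

private theorem ee_nonneg (c : Cf) (q : ℂ) (s : ℝ) : 0 ≤ c.ee q s := by
  unfold Cf.ee
  have := setIntegral_nonneg (μ := volume) (s := Metric.ball q s) measurableSet_ball fun z _ => c.grad_nonneg z
  linarith

theorem growth_iter {K : ℝ} (hK : 1 ≤ K) {n : ℕ} (hn : 2 ≤ n) {c : Cf} (hc : c.Adm n) (hr : c.Rad)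
    (hE : c.E ≤ K * n ^ 2) {q : ℂ} {R δ : ℝ} (hR : 0 < R) (hδ : 0 ≤ δ)
    (hL : c.LocMin n q R δ) (he : c.ee q R ≤ 1 / 100000)
    (h0 : q = 0 → ∀ r, 0 ≤ r → r ≤ R → |c.beta n r| ≤ 1 / 2) :
    ∀ r, 0 < r → r ≤ R →
      c.ee q r ≤ 2 * (r / R) ^ kap * (c.ee q R + 100 * K * n ^ 2 * R ^ 2) + 4 * δ := by
  have hcg : Continuous c.grad := (Cf.Adm.contDiff_grad hc).continuous
  have hcG : Continuous (Gq c.F q) := (Gq_smooth (Cf.Adm.contDiff_F hc) q).continuous
  have hKn : 4 ≤ K * (n : ℝ) ^ 2 := by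
    have h1 : (2 : ℝ) ≤ n := by exact_mod_cast hn
    have h2 : (2 : ℝ) ^ 2 ≤ (n : ℝ) ^ 2 := pow_le_pow_left₀ (by norm_num) h1 2
    nlinarith
  set P : ℝ → ℝ := fun s => ∫ χ in (0 : ℝ)..2 * π, c.grad (q + pt s χ) with hP
  have hcP : Continuous P := continuous_circle c.grad hcg q 0 (2 * π)
  set G2 : ℝ → ℝ := fun s => ∫ χ in (0 : ℝ)..2 * π, Gq c.F q (q + pt s χ) ^ 2 with hG2
  have hcG2 : Continuous G2 := continuous_circle (fun z => Gq c.F q z ^ 2) (hcG.pow 2) q 0 (2 * π)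
  set W : ℝ → ℝ := fun s => ∫ x in (0 : ℝ)..s, x * G2 x with hW
  have hcxG : Continuous fun x => x * G2 x := continuous_id.mul hcG2
  have hcW : Continuous W := intervalIntegral.continuous_primitive (fun a b => hcxG.intervalIntegrable a b) 0
  have hP0 : ∀ s, 0 ≤ P s := fun s =>
    intervalIntegral.integral_nonneg (by positivity) fun χ _ => c.grad_nonneg _
  have hG0 : ∀ s, 0 ≤ G2 s := fun s =>
    intervalIntegral.integral_nonneg (by positivity) fun χ _ => sq_nonneg _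
  have hball : ∀ s, 0 ≤ s → ∫ z in Metric.ball q s, Gq c.F q z ^ 2 = W s := fun s hs =>
    polar_ball (fun z => Gq c.F q z ^ 2) (hcG.pow 2) q hs
  have heq : ∀ s, 0 ≤ s → c.ee q s = 1 / 2 * ∫ x in (0 : ℝ)..s, x * P x := fun s hs => by
    unfold Cf.ee
    rw [polar_ball c.grad hcg q hs]
  have hder : ∀ s, 0 < s → HasDerivAt (c.ee q) (1 / 2 * |s| * P s) s := by
    intro s hs
    have h1 : HasDerivAt (fun s => 1 / 2 * ∫ x in (0 : ℝ)..s, x * P x) (1 / 2 * (s * P s)) s :=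
      (((continuous_id.mul hcP).integral_hasStrictDerivAt 0 s).hasDerivAt).const_mul _
    rw [abs_of_pos hs, mul_assoc]
    refine h1.congr_of_eventuallyEq ?_
    filter_upwards [lt_mem_nhds hs] with x hx
    exact heq x hx.le
  -- L² bound
  have hF2 : ∀ s, 0 ≤ s → W s ≤ 8 / 3 * (K * n ^ 2) := by
    intro s hs
    rw [← hball s hs]
    have h1 := Gq_L2 (Cf.Adm.contDiff_F hc) q hs
    have h2 : ∫ z in Metric.ball q s, c.F z ^ 2 ≤ ∫ z, c.F z ^ 2 :=
      setIntegral_le_integral (Cf.Adm.int_F hc) (Eventually.of_forall fun z => sq_nonneg _)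
    have h3 := Cf.Adm.E_eq hc
    have h4 : 0 ≤ ∫ z, c.grad z := integral_nonneg fun z => c.grad_nonneg z
    have h5 : 0 ≤ ∫ z, (1 - c.h z) ^ 2 := integral_nonneg fun z => sq_nonneg _
    linarith
  have hWmono : ∀ a b, 0 ≤ a → a ≤ b → W a ≤ W b := by
    intro a b ha hab
    have h1 : W b - W a = ∫ x in a..b, x * G2 x := by
      rw [hW]
      exact intervalIntegral.integral_interval_sub_left (hcxG.intervalIntegrable _ _)
        (hcxG.intervalIntegrable _ _)
    have h2 : 0 ≤ ∫ x in a..b, x * G2 x := intervalIntegral.integral_nonneg hab fun x hx =>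
      mul_nonneg (ha.trans hx.1) (hG0 x)
    linarith
  have hW0 : ∀ a, 0 ≤ a → 0 ≤ W a := fun a ha => by
    have h1 := hWmono 0 a le_rfl ha
    have h2 : W 0 = 0 := by rw [hW]; simp
    linarith
  have hstep : ∀ r, 0 < r → r ≤ R →
      c.ee q (r / 2) ≤ 137 / 200 * c.ee q r + (14 * (K * n ^ 2) + 2) * r ^ 2 + δ := by
    intro r hr0 hrR
    have hr2 : 0 < r / 2 := by positivity
    have hg : Continuous fun s => 7 * (s ^ 4 * G2 s + s ^ 2 * W s) + 7 * s ^ 2 := by fun_prop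
    have hΓ : ∫ s in (r / 2)..r, (7 * (s ^ 4 * G2 s + s ^ 2 * W s) + 7 * s ^ 2) / s ≤
        (28 * (K * n ^ 2) + 7 / 2) * r ^ 2 := by
      have hWr := hF2 r hr0.le
      have hWr0 := hW0 r hr0.le
      have e1 : ∫ s in (r / 2)..r, (7 * (s ^ 4 * G2 s + s ^ 2 * W s) + 7 * s ^ 2) / s ≤
          ∫ s in (r / 2)..r, (7 * r ^ 2 * (s * G2 s) + (7 * r * W r + 7 * r)) := by
        refine intervalIntegral.integral_mono_on (by linarith) ?_
          (((hcxG.const_mul (7 * r ^ 2)).add continuous_const).intervalIntegrable _ _) fun s hs => ?_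
        · refine (hg.continuousOn.div continuousOn_id fun x hx => ?_).intervalIntegrable
          rw [uIcc_of_le (by linarith)] at hx
          exact (lt_of_lt_of_le hr2 hx.1).ne'
        · have hs0 : 0 < s := lt_of_lt_of_le hr2 hs.1
          have f1 : (7 * (s ^ 4 * G2 s + s ^ 2 * W s) + 7 * s ^ 2) / s =
              7 * (s ^ 2 * (s * G2 s)) + 7 * (s * W s) + 7 * s := by
            field_simp
          rw [f1]
          have f2 : s ^ 2 * (s * G2 s) ≤ r ^ 2 * (s * G2 s) :=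
            mul_le_mul_of_nonneg_right (pow_le_pow_left₀ hs0.le hs.2 2) (mul_nonneg hs0.le (hG0 s))
          have f3 : s * W s ≤ r * W r := mul_le_mul hs.2 (hWmono s r hs0.le hs.2) (hW0 s hs0.le) hr0.le
          linarith [hs.2]
      rw [intervalIntegral.integral_add ((hcxG.const_mul (7 * r ^ 2)).intervalIntegrable _ _)
        intervalIntegrable_const, intervalIntegral.integral_const_mul, intervalIntegral.integral_const,
        smul_eq_mul] at e1
      have e2 : ∫ s in (r / 2)..r, s * G2 s ≤ W r := by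
        have h1 : W r - W (r / 2) = ∫ x in (r / 2)..r, x * G2 x := by
          rw [hW]
          exact intervalIntegral.integral_interval_sub_left (hcxG.intervalIntegrable _ _)
            (hcxG.intervalIntegrable _ _)
        have h2 := hW0 (r / 2) hr2.le
        linarith
      have e3 : 7 * r ^ 2 * (∫ s in (r / 2)..r, s * G2 s) ≤ 7 * r ^ 2 * W r :=
        mul_le_mul_of_nonneg_left e2 (by positivity)
      have e4 : 7 * r ^ 2 * W r ≤ 7 * r ^ 2 * (8 / 3 * (K * n ^ 2)) :=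
        mul_le_mul_of_nonneg_left hWr (by positivity)
      nlinarith
    have hh := halving (e := c.ee q) (e' := fun s => 1 / 2 * |s| * P s)
      (g := fun s => 7 * (s ^ 4 * G2 s + s ^ 2 * W s) + 7 * s ^ 2) (δ := δ) hr0 hδ
      (by positivity : 0 ≤ (28 * (K * n ^ 2) + 7 / 2) * r ^ 2) hder (by fun_prop)
      (fun s => mul_nonneg (by positivity) (hP0 s)) (ee_nonneg c q) hg hΓ (fun s hs hsr => by
        have h1 := growth_step hn hc hr hδ hL he h0 hs (hsr.trans_le hrR)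
        rw [hball s hs.le] at h1
        rw [abs_of_pos hs]
        refine h1.trans (le_of_eq ?_)
        ring)
    have : 0 ≤ r ^ 2 := by positivity
    linarith
  intro r hr0 hrR
  have h1 := iteration (ee_mono hc q) (ee_nonneg c q) hR (by positivity) hδ hstep r hr0 hrR
  refine h1.trans ?_
  have hx : 0 ≤ 2 * (r / R) ^ kap := by positivity
  have h2 : c.ee q R + 3 * (14 * (K * n ^ 2) + 2) * R ^ 2 ≤ c.ee q R + 100 * K * n ^ 2 * R ^ 2 := by
    have : 0 ≤ R ^ 2 := by positivity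
    nlinarith
  have h3 := mul_le_mul_of_nonneg_left h2 hx
  linarith

end GO3
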