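import Pool.Agent.GO3.Smo

/-! GO3 / Lam: local almost minimality in discs (second half of G3 of the proof text).

`locmin_of_alm`, three kinds of discs.
(i) `q = 0`, `R ≤ rz K n`: `c' = c.rep u v` is itself in the class: symmetric under `ζ` (`rot`) and under `conj`
(`refl` with `k = 0`), `c'.h 0 = c.h 0` (`ctr`), and `c'.Z = c.Z`: for `r ≥ s` all data agree (same potential,
same field on the circle), for `r ≤ s ≤ rm` both are `1` because `a` is the same and `psi (a) = 0` (`psi_small`;
the value of `Z` is then `1` by definition). (ii) centre on a ray: `Mod` with `S = closedBall q s`.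
(iii) disc disjoint from its mirror image: `S = closedBall q s ∪ mirror`, the field `u` in the disc and its mirror
image `rfl' (u (rfl' z))` in the mirror disc (sum of differences); the two integrals are equal; divide by 2.
In all cases if the competitor has energy `> K n²` the inequality is trivial (`alm_mod` contains this for
(ii), (iii)). The integrals over `ball` and `closedBall` agree (spheres are null sets). -/

open MeasureTheory Filter Topology Set
open scoped ContDiff Real

noncomputable section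

namespace GO3

namespace Cf

/-- admissible local competitors in the disc of radius `s` around `q` -/
structure Cmp (c : Cf) (n : ℕ) (q : ℂ) (s : ℝ) (u : ℂ → ℂ) (v : ℂ → ℝ) : Prop where
  su : ContDiff ℝ ∞ u
  sv : ContDiff ℝ ∞ v
  unit : ∀ z, ‖u z‖ ^ 2 + v z ^ 2 = 1
  off : ∀ z, s ≤ ‖z - q‖ → u z = c.w z ∧ v z = c.h z
  refl : ∀ k : ℤ, rfl' n k q = q → ∀ z, u (rfl' n k z) = rfl' n k (u z) ∧ v (rfl' n k z) = v z
  rot : q = 0 → ∀ z, u (ze n * z) = ze n * u z ∧ v (ze n * z) = v z
  ctr : q = 0 → v 0 = c.h 0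

/-- local almost minimality in the disc of radius `R` around `q` -/
def LocMin (c : Cf) (n : ℕ) (q : ℂ) (R δ : ℝ) : Prop := ∀ s, 0 < s → s < R →
  ∀ (u : ℂ → ℂ) (v : ℂ → ℝ), c.Cmp n q s u v →
    ∫ z in Metric.ball q s, c.dens z ≤ (∫ z in Metric.ball q s, (c.rep u v).dens z) + 2 * δ

end Cf

/-- good discs -/
def Good (K : ℝ) (n : ℕ) (q : ℂ) (R : ℝ) : Prop := (q = 0 ∧ R ≤ rz K n) ∨
  (∃ k : ℤ, rfl' n k q = q ∧ Metric.ball q R ⊆ Sec n k) ∨
  (∃ k : ℤ, Metric.ball q R ⊆ Sec n k ∧ ∀ z ∈ Metric.ball q R, rfl' n k z ∉ Metric.ball q R)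

/-- the reflection as a continuous linear map -/
private def lamL (e : ℂ) : ℂ →L[ℝ] ℂ :=
  (ContinuousLinearMap.mul ℝ ℂ e).comp (Complex.conjCLE : ℂ →L[ℝ] ℂ)

private theorem lamL_apply (e z : ℂ) : lamL e z = e * star z := rfl

private theorem lam_fd {f : ℂ → ℂ} (hf : ContDiff ℝ ∞ f) (L M : ℂ →L[ℝ] ℂ)
    (h : ∀ z, f (L z) = M (f z)) (z v : ℂ) : fderiv ℝ f (L z) (L v) = M (fderiv ℝ f z v) := by
  have h1 : HasFDerivAt (fun z => f (L z)) ((fderiv ℝ f (L z)).comp L) z :=
    HasFDerivAt.comp z (hf.differentiable (by simp)).differentiableAt.hasFDerivAt L.hasFDerivAt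
  have h2 : HasFDerivAt (fun z => M (f z)) (M.comp (fderiv ℝ f z)) z :=
    HasFDerivAt.comp z M.hasFDerivAt (hf.differentiable (by simp)).differentiableAt.hasFDerivAt
  have h3 : (fun z => f (L z)) = fun z => M (f z) := funext h
  rw [h3] at h1
  have h4 := h1.unique h2
  exact congrArg (fun T => T v) h4

private theorem lam_fd' {f : ℂ → ℝ} (hf : ContDiff ℝ ∞ f) (L : ℂ →L[ℝ] ℂ)
    (h : ∀ z, f (L z) = f z) (z v : ℂ) : fderiv ℝ f (L z) (L v) = fderiv ℝ f z v := by
  have h1 : HasFDerivAt (fun z => f (L z)) ((fderiv ℝ f (L z)).comp L) z :=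
    HasFDerivAt.comp z (hf.differentiable (by simp)).differentiableAt.hasFDerivAt L.hasFDerivAt
  have h2 : HasFDerivAt f (fderiv ℝ f z) z :=
    (hf.differentiable (by simp)).differentiableAt.hasFDerivAt
  have h3 : (fun z => f (L z)) = f := funext h
  rw [h3] at h1
  have h4 := h1.unique h2
  exact congrArg (fun T => T v) h4

private theorem lam_lin {E : Type*} [NormedAddCommGroup E] [NormedSpace ℝ E] (L : ℂ →L[ℝ] E) (v : ℂ) :
    L v = v.re • L 1 + v.im • L Complex.I := by
  conv_lhs => rw [show v = v.re • (1 : ℂ) + v.im • Complex.I by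
    apply Complex.ext <;> simp]
  rw [map_add, map_smul, map_smul]

private theorem lam_dens {c : Cf} (sw : ContDiff ℝ ∞ c.w) (sh : ContDiff ℝ ∞ c.h)
    (sA : ContDiff ℝ ∞ c.A) {e : ℂ} (he : ‖e‖ = 1) (hw : ∀ z, c.w (e * star z) = e * star (c.w z))
    (hh : ∀ z, c.h (e * star z) = c.h z) (hA : ∀ z, c.A (e * star z) = -(e * star (c.A z))) (z : ℂ) :
    c.dens (e * star z) = c.dens z := by
  have hee : e * star e = 1 := by
    rw [Complex.star_def, Complex.mul_conj, Complex.normSq_eq_norm_sq, he]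
    norm_num
  have hpq : e.re ^ 2 + e.im ^ 2 = 1 := by
    have := Complex.sq_norm e
    rw [he, Complex.normSq_apply] at this
    linarith
  have fw : ∀ v, fderiv ℝ c.w (e * star z) (e * star v) = e * star (fderiv ℝ c.w z v) :=
    fun v => lam_fd sw (lamL e) (lamL e) hw z v
  have fh : ∀ v, fderiv ℝ c.h (e * star z) (e * star v) = fderiv ℝ c.h z v :=
    fun v => lam_fd' sh (lamL e) hh z v
  have fA : ∀ v, fderiv ℝ c.A (e * star z) (e * star v) = -(e * star (fderiv ℝ c.A z v)) :=
    fun v => lam_fd sA (lamL e) (-(lamL e)) hA z v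
  have hip : ∀ v, ip (c.A (e * star z)) (e * star v) = -ip (c.A z) v := by
    intro v
    rw [hA]
    have h1 : ip (-(e * star (c.A z))) (e * star v) = -ip (e * star (c.A z)) (e * star v) := by
      unfold ip
      simp
      ring
    rw [h1, ip_mul _ _ _ he, ip_star]
  have hD : ∀ v, c.Dw (e * star z) (e * star v) = e * star (c.Dw z v) := by
    intro v
    unfold Cf.Dw
    rw [fw, hip, hw, star_sub, star_mul', star_mul']
    simp only [Complex.star_def, Complex.conj_I, Complex.conj_ofReal]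
    push_cast
    ring
  have hn : ∀ v, c.nsq (e * star z) (e * star v) = c.nsq z v := by
    intro v
    unfold Cf.nsq Cf.dh
    rw [hD, fh, norm_mul, he, one_mul, norm_star]
  have hg : c.grad (e * star z) = c.grad z := by
    rw [Cf.grad_frame c (e * star z) e he]
    have h1 : c.nsq (e * star z) e = c.nsq z 1 := by
      have := hn 1
      rwa [star_one, mul_one] at this
    have h2 : c.nsq (e * star z) (Complex.I * e) = c.nsq z Complex.I := by
      have h3 := hn Complex.I
      have h4 : e * star Complex.I = ((-1 : ℝ) : ℂ) * (Complex.I * e) := by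
        rw [Complex.star_def, Complex.conj_I]
        push_cast
        ring
      rw [h4, Cf.nsq_smul] at h3
      linarith
    rw [h1, h2]
    rfl
  have hF : c.F (e * star z) = c.F z := by
    have a1 : fderiv ℝ c.A (e * star z) 1 = -(e * star (fderiv ℝ c.A z e)) := by
      have := fA e
      rwa [hee] at this
    have a2 : fderiv ℝ c.A (e * star z) Complex.I = -(e * star (fderiv ℝ c.A z (-(Complex.I * e)))) := by
      have := fA (-(Complex.I * e))
      have h5 : e * star (-(Complex.I * e)) = Complex.I := by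
        have h6 : star Complex.I = -Complex.I := by rw [Complex.star_def, Complex.conj_I]
        rw [star_neg, star_mul', h6]
        linear_combination Complex.I * hee
      rwa [h5] at this
    have b1 := lam_lin (fderiv ℝ c.A z) e
    have b2 := lam_lin (fderiv ℝ c.A z) (-(Complex.I * e))
    unfold Cf.F
    rw [a1, a2, b1, b2]
    set x := fderiv ℝ c.A z 1
    set y := fderiv ℝ c.A z Complex.I
    simp only [Complex.star_def, map_add, Complex.neg_im, Complex.neg_re, Complex.mul_im,
      Complex.mul_re, Complex.add_re, Complex.add_im, Complex.conj_re, Complex.conj_im,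
      Complex.real_smul, Complex.ofReal_re, Complex.ofReal_im, Complex.I_re, Complex.I_im]
    linear_combination (x.im - y.re) * hpq
  unfold Cf.dens
  rw [hg, hF, hh]

private theorem lam_cont {c : Cf} (sw : ContDiff ℝ ∞ c.w) (sh : ContDiff ℝ ∞ c.h)
    (sA : ContDiff ℝ ∞ c.A) : Continuous c.dens := by
  have h1 : Continuous (fderiv ℝ c.w) := sw.continuous_fderiv (by simp)
  have h2 : Continuous (fderiv ℝ c.h) := sh.continuous_fderiv (by simp)
  have h3 : Continuous (fderiv ℝ c.A) := sA.continuous_fderiv (by simp)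
  have hw := sw.continuous
  have hh := sh.continuous
  have hA := sA.continuous
  have k1 : ∀ v, Continuous fun z => fderiv ℝ c.w z v := fun v => h1.clm_apply continuous_const
  have k2 : ∀ v, Continuous fun z => fderiv ℝ c.h z v := fun v => h2.clm_apply continuous_const
  have k3 : ∀ v, Continuous fun z => fderiv ℝ c.A z v := fun v => h3.clm_apply continuous_const
  unfold Cf.dens Cf.grad Cf.nsq Cf.F Cf.dh Cf.Dw ip
  have := k1 1
  have := k1 Complex.I
  have := k2 1
  have := k2 Complex.I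
  have := k3 1
  have := k3 Complex.I
  fun_prop


private theorem lam_ball (g : ℂ → ℝ) (q : ℂ) (s : ℝ) :
    ∫ z in Metric.closedBall q s, g z = ∫ z in Metric.ball q s, g z := by
  apply setIntegral_congr_set
  rw [ae_eq_set]
  constructor
  · rw [Metric.closedBall_sdiff_ball]
    exact Measure.addHaar_sphere _ _ _
  · rw [sdiff_eq_empty.2 Metric.ball_subset_closedBall]
    exact measure_empty

private theorem lam_loc {c c' : Cf} (hA : c'.A = c.A) {O : Set ℂ} (hO : IsOpen O)
    (hw : ∀ z ∈ O, c'.w z = c.w z) (hh : ∀ z ∈ O, c'.h z = c.h z) {z : ℂ} (hz : z ∈ O) :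
    c'.dens z = c.dens z := by
  have e1 : c'.w =ᶠ[𝓝 z] c.w := by
    filter_upwards [hO.mem_nhds hz] with y hy using hw y hy
  have e2 : c'.h =ᶠ[𝓝 z] c.h := by
    filter_upwards [hO.mem_nhds hz] with y hy using hh y hy
  unfold Cf.dens Cf.grad Cf.nsq Cf.F Cf.dh Cf.Dw
  rw [e1.fderiv_eq, e2.fderiv_eq, hA, hw z hz, hh z hz]

private theorem lam_rfl (n : ℕ) (k : ℤ) (z : ℂ) : rfl' n k z = er (2 * k * al n) * star z := rfl

private theorem lam_norm (n : ℕ) (k : ℤ) (z : ℂ) : ‖rfl' n k z‖ = ‖z‖ := by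
  rw [lam_rfl, norm_mul, norm_er, one_mul, norm_star]

private theorem lam_add (n : ℕ) (k : ℤ) (x y : ℂ) : rfl' n k (x + y) = rfl' n k x + rfl' n k y := by
  rw [lam_rfl, lam_rfl, lam_rfl, star_add, mul_add]

private theorem lam_sub (n : ℕ) (k : ℤ) (x y : ℂ) : rfl' n k (x - y) = rfl' n k x - rfl' n k y := by
  rw [lam_rfl, lam_rfl, lam_rfl, star_sub, mul_sub]

private theorem lam_sm (n : ℕ) (k : ℤ) : ContDiff ℝ ∞ (rfl' n k) := by
  have h1 : rfl' n k = fun z => lamL (er (2 * k * al n)) z := by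
    funext z
    rfl
  rw [h1]
  exact (lamL (er (2 * k * al n))).contDiff

/-- gradient energy in a disc inside a sector -/
theorem ee_small {n : ℕ} (hn : 2 ≤ n) {c : Cf} (hc : c.Adm n) {K : ℝ} (hE : c.E ≤ K * n ^ 2)
    {q : ℂ} {R : ℝ} {k : ℤ} (h : Metric.ball q R ⊆ Sec n k) : c.ee q R ≤ K / n := by
  have hn0 : (0 : ℝ) < n := by
    have : 0 < n := by omega
    exact_mod_cast this
  have h1 : ∫ z in Metric.ball q R, c.grad z ≤ ∫ z in Metric.ball q R, c.dens z := by
    apply setIntegral_mono hc.int_grad.integrableOn hc.fin.integrableOn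
    intro z
    unfold Cf.dens
    nlinarith [sq_nonneg (1 - c.h z), sq_nonneg (c.F z)]
  have h2 : ∫ z in Metric.ball q R, c.dens z ≤ ∫ z in Sec n k, c.dens z := by
    apply setIntegral_mono_set hc.fin.integrableOn
    · exact Eventually.of_forall fun z => Cf.dens_nonneg c z
    · exact h.eventuallyLE
  have h3 := hc.int_Sec hn k
  have h4 : c.ee q R ≤ 1 / 2 * ∫ z in Sec n k, c.dens z := by
    unfold Cf.ee
    linarith
  have h5 : (n : ℝ) ^ 3 * c.ee q R ≤ K * n ^ 2 := by
    have : (n : ℝ) ^ 3 * c.ee q R ≤ (n : ℝ) ^ 3 * (1 / 2 * ∫ z in Sec n k, c.dens z) :=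
      mul_le_mul_of_nonneg_left h4 (by positivity)
    linarith
  rw [le_div_iff₀ hn0]
  have h6 : (n : ℝ) ^ 2 * (c.ee q R * n) ≤ (n : ℝ) ^ 2 * K := by nlinarith
  exact le_of_mul_le_mul_left h6 (by positivity)

/-- case (i): the origin -/
private theorem lam_case1 {K : ℝ} (hK : 1 ≤ K) {n : ℕ} (hn : 2 ≤ n) {σ δ : ℝ} {c : Cf}
    (hc : c.Alm K n σ δ) {R : ℝ} (hR : R ≤ rz K n) {s : ℝ} (hs : 0 < s) (hsR : s < R)
    {u : ℂ → ℂ} {v : ℂ → ℝ} (H : c.Cmp n 0 s u v) :
    ∫ z in Metric.ball (0 : ℂ) s, c.dens z ≤ (∫ z in Metric.ball (0 : ℂ) s, (c.rep u v).dens z) + 2 * δ := by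
  obtain ⟨⟨hA, hW, h0⟩, hr, hE, hmin⟩ := hc
  set c' : Cf := c.rep u v with hc'
  have hout : ∀ z : ℂ, s ≤ ‖z‖ → u z = c.w z ∧ v z = c.h z := fun z hz =>
    H.off z (by rwa [sub_zero])
  have hr0 : rfl' n 0 0 = 0 := by rw [lam_rfl, star_zero, mul_zero]
  have hs0 : ∀ z, rfl' n 0 z = star z := by
    intro z
    rw [lam_rfl]
    have : er (2 * ((0 : ℤ) : ℝ) * al n) = 1 := by
      unfold er
      simp
    rw [this, one_mul]
  have hopen : IsOpen {z : ℂ | s < ‖z‖} := isOpen_lt continuous_const continuous_norm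
  have hdo : ∀ z : ℂ, s < ‖z‖ → c'.dens z = c.dens z := fun z hz =>
    lam_loc (c := c) (c' := c') rfl hopen (fun y hy => (hout y (le_of_lt hy)).1) (fun y hy => (hout y (le_of_lt hy)).2) hz
  have hcont : Continuous c'.dens := lam_cont (c := c') H.su H.sv hA.sA
  have hfin : Integrable c'.dens := by
    have h1 : IntegrableOn c'.dens (Metric.closedBall 0 s) :=
      hcont.continuousOn.integrableOn_compact (isCompact_closedBall 0 s)
    have h2 : IntegrableOn c'.dens (Metric.closedBall 0 s)ᶜ := by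
      have h3 : IntegrableOn c.dens (Metric.closedBall 0 s)ᶜ := hA.fin.integrableOn
      refine h3.congr_fun (fun z hz => ?_) Metric.isClosed_closedBall.measurableSet.compl
      have : s < ‖z‖ := by
        rw [mem_compl_iff, mem_closedBall_zero_iff, not_le] at hz
        exact hz
      exact (hdo z this).symm
    have := h1.union h2
    rwa [union_compl_self, integrableOn_univ] at this
  have hAdm : c'.Adm n := by
    refine ⟨H.su, H.sv, hA.sA, H.unit, hfin, fun z => (H.rot rfl z).1, fun z => (H.rot rfl z).2, hA.rA,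
      fun z => ?_, fun z => ?_, hA.cA⟩
    · have := (H.refl 0 hr0 z).1
      rw [hs0, hs0] at this
      exact this
    · have := (H.refl 0 hr0 z).2
      rw [hs0] at this
      exact this
  have hrm := Cf.rz_le_rm hn hK
  have hZ : ∀ r, 0 ≤ r → c'.Z n r = c.Z n r := by
    intro r hr0
    have hb : c'.b = c.b := rfl
    have haa : c'.aa n r = c.aa n r := rfl
    rcases le_or_gt s r with h | h
    · have hw : ∀ χ, c'.w (pt r χ) = c.w (pt r χ) := fun χ =>
        (hout (pt r χ) (by rw [norm_pt, abs_of_nonneg hr0]; exact h)).1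
      have hh : ∀ χ, c'.h (pt r χ) = c.h (pt r χ) := fun χ =>
        (hout (pt r χ) (by rw [norm_pt, abs_of_nonneg hr0]; exact h)).2
      have hB : ∀ χ, c'.B r χ = c.B r χ := fun χ => rfl
      have h1 : c'.cc n r = c.cc n r := by
        unfold Cf.cc
        simp_rw [hh]
      have h2 : c'.V n r = c.V n r := by
        unfold Cf.V
        simp_rw [hw, hB]
      unfold Cf.Z
      rw [haa, h1, h2]
    · have hrr : r ≤ rm K n := by linarith [hrm.1]
      obtain ⟨p1, p2⟩ := Cf.psi_small hn hA hr hK hE hr0 hrr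
      rw [p2]
      unfold Cf.Z
      rw [haa, p1]
      simp
  have hcls : c'.Cls n σ := by
    refine ⟨hAdm, ?_, ?_⟩
    · rw [wind_iff]
      exact Wd_congr hZ ((wind_iff _ _).1 hW)
    · have : c'.h 0 = c.h 0 := H.ctr rfl
      rw [this, h0]
  have hmin' := hmin c' hcls
  unfold Cf.E at hmin'
  have hm : MeasurableSet (Metric.closedBall (0 : ℂ) s) := Metric.isClosed_closedBall.measurableSet
  have e1 := integral_add_compl hm hA.fin
  have e2 := integral_add_compl hm hfin
  have e3 : ∫ z in (Metric.closedBall (0 : ℂ) s)ᶜ, c'.dens z =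
      ∫ z in (Metric.closedBall (0 : ℂ) s)ᶜ, c.dens z := by
    apply setIntegral_congr_fun hm.compl
    intro z hz
    have : s < ‖z‖ := by
      rw [mem_compl_iff, mem_closedBall_zero_iff, not_le] at hz
      exact hz
    exact hdo z this
  rw [lam_ball] at e1 e2
  linarith

/-- case (iii): a disc disjoint from its mirror image -/
private theorem lam_case3 {n : ℕ} (hn : 2 ≤ n) {K σ δ : ℝ} {c : Cf} (hδ : 0 ≤ δ)
    (hc : c.Alm K n σ δ)
    (hmod : ∀ (k : ℤ) (S : Set ℂ) (u : ℂ → ℂ) (v : ℂ → ℝ), c.Mod n k S u v →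
      ∫ z in S, c.dens z ≤ (∫ z in S, (c.rep u v).dens z) + 2 * δ)
    {q : ℂ} {R : ℝ} {k : ℤ} (hsub : Metric.ball q R ⊆ Sec n k)
    (hdis : ∀ z ∈ Metric.ball q R, rfl' n k z ∉ Metric.ball q R) {s : ℝ} (hs : 0 < s) (hsR : s < R)
    {u : ℂ → ℂ} {v : ℂ → ℝ} (H : c.Cmp n q s u v) :
    ∫ z in Metric.ball q s, c.dens z ≤ (∫ z in Metric.ball q s, (c.rep u v).dens z) + 2 * δ := by
  obtain ⟨⟨hA, hW, h0⟩, hr, hE, hmin⟩ := hc
  have hrr : ∀ z, rfl' n k (rfl' n k z) = z := rfl'_rfl' k
  have hcw : ∀ z, c.w (rfl' n k z) = rfl' n k (c.w z) := fun z => (hA.refl_k hn k z).1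
  have hch : ∀ z, c.h (rfl' n k z) = c.h z := fun z => (hA.refl_k hn k z).2.1
  have hcA : ∀ z, c.A (rfl' n k z) = -rfl' n k (c.A z) := fun z => (hA.refl_k hn k z).2.2.1
  have hcd : ∀ z, c.dens (rfl' n k z) = c.dens z := fun z => (hA.refl_k hn k z).2.2.2
  set B : Set ℂ := Metric.closedBall q s with hB
  have hBR : B ⊆ Metric.ball q R := Metric.closedBall_subset_ball hsR
  -- the symmetric field
  set u' : ℂ → ℂ := fun z => u z + rfl' n k (u (rfl' n k z)) - c.w z with hu'
  set v' : ℂ → ℝ := fun z => v z + v (rfl' n k z) - c.h z with hv'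
  have hin : ∀ z ∈ Metric.ball q R, u' z = u z ∧ v' z = v z := by
    intro z hz
    have h1 : s ≤ ‖rfl' n k z - q‖ := by
      have h2 := hdis z hz
      rw [mem_ball_iff_norm, not_lt] at h2
      linarith
    obtain ⟨h3, h4⟩ := H.off _ h1
    constructor
    · show u z + rfl' n k (u (rfl' n k z)) - c.w z = u z
      rw [h3, hcw, hrr]; ring
    · show v z + v (rfl' n k z) - c.h z = v z
      rw [h4, hch]; ring
  have hout : ∀ z, z ∉ Metric.ball q R → u' z = rfl' n k (u (rfl' n k z)) ∧ v' z = v (rfl' n k z) := by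
    intro z hz
    have h1 : s ≤ ‖z - q‖ := by
      rw [mem_ball_iff_norm, not_lt] at hz
      linarith
    obtain ⟨h3, h4⟩ := H.off _ h1
    constructor
    · show u z + rfl' n k (u (rfl' n k z)) - c.w z = _
      rw [h3]; ring
    · show v z + v (rfl' n k z) - c.h z = _
      rw [h4]; ring
  set S : Set ℂ := B ∪ rfl' n k ⁻¹' B with hS
  have hcr : Continuous (rfl' n k) := (lam_sm n k).continuous
  have hpre : IsCompact (rfl' n k ⁻¹' B) := by
    have h1 : rfl' n k ⁻¹' B = rfl' n k '' B := by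
      ext z
      constructor
      · intro hz
        exact ⟨rfl' n k z, hz, hrr z⟩
      · rintro ⟨y, hy, rfl⟩
        show rfl' n k (rfl' n k y) ∈ B
        rw [hrr]
        exact hy
    rw [h1]
    exact (isCompact_closedBall q s).image hcr
  have hM : c.Mod n k S u' v' := by
    refine ⟨?_, ?_, ?_, ?_, ?_, ?_, ?_⟩
    · exact (H.su.add ((lam_sm n k).comp (H.su.comp (lam_sm n k)))).sub hA.sw
    · exact (H.sv.add (H.sv.comp (lam_sm n k))).sub hA.sh
    · intro z
      by_cases hz : z ∈ Metric.ball q R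
      · rw [(hin z hz).1, (hin z hz).2]
        exact H.unit z
      · rw [(hout z hz).1, (hout z hz).2, lam_norm]
        exact H.unit _
    · exact (isCompact_closedBall q s).union hpre
    · rintro z (hz | hz)
      · exact hsub (hBR hz)
      · have := hsub (hBR hz)
        exact (Sec_refl hn k z).1 this
    · intro z hz
      rw [hS, mem_union, not_or] at hz
      have h1 : s ≤ ‖z - q‖ := by
        have := hz.1
        rw [hB, mem_closedBall_iff_norm, not_le] at this
        exact this.le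
      have h2 : s ≤ ‖rfl' n k z - q‖ := by
        have : rfl' n k z ∉ B := hz.2
        rw [hB, mem_closedBall_iff_norm, not_le] at this
        exact this.le
      obtain ⟨a1, a2⟩ := H.off _ h1
      obtain ⟨b1, b2⟩ := H.off _ h2
      constructor
      · show u z + rfl' n k (u (rfl' n k z)) - c.w z = c.w z
        rw [a1, b1, hcw, hrr]; ring
      · show v z + v (rfl' n k z) - c.h z = c.h z
        rw [a2, b2, hch]; ring
    · intro z
      constructor
      · show u (rfl' n k z) + rfl' n k (u (rfl' n k (rfl' n k z))) - c.w (rfl' n k z) =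
          rfl' n k (u z + rfl' n k (u (rfl' n k z)) - c.w z)
        rw [hrr, lam_sub, lam_add, hrr, hcw]
        ring
      · show v (rfl' n k z) + v (rfl' n k (rfl' n k z)) - c.h (rfl' n k z) =
          v z + v (rfl' n k z) - c.h z
        rw [hrr, hch]
        ring
  have key := hmod k S u' v' hM
  set d' := (c.rep u' v').dens with hd'
  have hsd : ∀ z, d' (rfl' n k z) = d' z := fun z =>
    lam_dens (c := c.rep u' v') hM.su hM.sv hA.sA (norm_er _) (fun z => (hM.sym z).1)
      (fun z => (hM.sym z).2) hcA z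
  have hcont' : Continuous d' := lam_cont (c := c.rep u' v') hM.su hM.sv hA.sA
  have hcont : Continuous c.dens := lam_cont hA.sw hA.sh hA.sA
  -- the mirror image
  have hBm : MeasurableSet B := Metric.isClosed_closedBall.measurableSet
  have hPm : MeasurableSet (rfl' n k ⁻¹' B) := hcr.measurable hBm
  have hdisj : Disjoint B (rfl' n k ⁻¹' B) := by
    rw [Set.disjoint_left]
    intro z hz hz'
    exact hdis z (hBR hz) (hBR hz')
  have hmp : MeasurePreserving (rfl' n k) volume volume := by
    have h1 : (rfl' n k : ℂ → ℂ) = fun z =>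
        (rotation (Circle.exp (2 * k * al n)) : ℂ ≃ₗᵢ[ℝ] ℂ) (Complex.conjLIE z) := by
      funext z
      rw [lam_rfl]
      simp [rotation_apply, Circle.coe_exp, er]
    rw [h1]
    exact ((rotation (Circle.exp (2 * k * al n)) : ℂ ≃ₗᵢ[ℝ] ℂ).measurePreserving).comp
      (Complex.conjLIE.measurePreserving)
  have hemb : MeasurableEmbedding (rfl' n k) := by
    have h1 : (rfl' n k : ℂ → ℂ) = fun z =>
        (rotation (Circle.exp (2 * k * al n)) : ℂ ≃ₗᵢ[ℝ] ℂ) (Complex.conjLIE z) := by
      funext z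
      rw [lam_rfl]
      simp [rotation_apply, Circle.coe_exp, er]
    rw [h1]
    exact ((Complex.conjLIE.trans
      (rotation (Circle.exp (2 * k * al n)) : ℂ ≃ₗᵢ[ℝ] ℂ)).toHomeomorph).measurableEmbedding
  have hmir : ∀ g : ℂ → ℝ, (∀ z, g (rfl' n k z) = g z) →
      ∫ z in rfl' n k ⁻¹' B, g z = ∫ z in B, g z := by
    intro g hg
    have h1 := hmp.setIntegral_preimage_emb hemb g B
    have h2 : ∀ z, g (rfl' n k z) = g z := hg
    simp_rw [h2] at h1
    exact h1
  have hu : ∀ g : ℂ → ℝ, Continuous g → (∀ z, g (rfl' n k z) = g z) → ∫ z in S, g z = 2 * ∫ z in B, g z := by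
    intro g hg hg'
    rw [hS, setIntegral_union hdisj hPm (hg.continuousOn.integrableOn_compact (isCompact_closedBall q s))
      (hg.continuousOn.integrableOn_compact hpre), hmir g hg']
    ring
  rw [hu _ hcont hcd, hu _ hcont' hsd, hB, lam_ball, lam_ball] at key
  have heq : ∫ z in Metric.ball q s, d' z = ∫ z in Metric.ball q s, (c.rep u v).dens z := by
    apply setIntegral_congr_fun Metric.isOpen_ball.measurableSet
    intro z hz
    exact lam_loc (c := c.rep u v) (c' := c.rep u' v') rfl Metric.isOpen_ball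
      (fun y hy => (hin y hy).1) (fun y hy => (hin y hy).2)
      (Metric.ball_subset_ball hsR.le hz)
  rw [heq] at key
  linarith

theorem locmin_of_alm (K : ℝ) (hK : 1 ≤ K) : ∃ n₀ : ℕ, 2 ≤ n₀ ∧ ∀ n : ℕ, n₀ ≤ n →
    ∀ (σ δ : ℝ) (c : Cf), 0 ≤ δ → c.Alm K n σ δ → ∀ (q : ℂ) (R : ℝ), 0 < R → Good K n q R →
    c.LocMin n q R δ := by
  obtain ⟨n₀, h2, hmod⟩ := Cf.alm_mod K hK
  refine ⟨n₀, h2, fun n hn σ δ c hδ hc q R hR hG s hs hsR u v H => ?_⟩
  have hn2 : 2 ≤ n := h2.trans hn
  rcases hG with ⟨hq, hRz⟩ | ⟨k, hk, hsub⟩ | ⟨k, hsub, hdis⟩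
  · subst hq
    exact lam_case1 hK hn2 hc hRz hs hsR H
  · have hM : c.Mod n k (Metric.closedBall q s) u v := by
      refine ⟨H.su, H.sv, H.unit, isCompact_closedBall q s,
        (Metric.closedBall_subset_ball hsR).trans hsub, fun z hz => H.off z ?_, H.refl k hk⟩
      rw [mem_closedBall_iff_norm, not_le] at hz
      exact hz.le
    have key := hmod n hn σ δ c hδ hc k _ u v hM
    rwa [lam_ball, lam_ball] at key
  · exact lam_case3 hn2 hδ hc (fun k S u v hM => hmod n hn σ δ c hδ hc k S u v hM) hsub hdis hs hsR H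

end GO3
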