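import Pool.Agent.GO3.Cne
import Pool.Agent.GO3.Gap
import Pool.Agent.GO3.Lam
import Pool.Agent.GO3.B.B2

/-! GO3 / Grs: the differential inequality for the gradient energy (G5 of the proof text).

Let `om = c.omq q`, `w^ = e^{i om} w`, `G = Gq c.F q`, `A^ = i (z - q) G` (`omq_A`), `Q = ∮ |∂_χ (w^, h)|²` on the
circle of radius `s` (i.e. `psq w^ h (q + pt s χ) (i pt s χ)`).
1. `∂_v w^ = D^_v w^ + i ip(A^) v w^`, `|D^ w^| = |D w|` (`gt_Dw`), `ip (A^) (i pt s χ) = s² G`; with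
`(x + y)² ≤ 1.1 x² + 11 y²`, `|w| ≤ 1`: `Q ≤ 1.1 Xs + 11 s⁴ ∮ G²`, where
`Xs = ∮ nsq (i pt s χ) ≤ s² ∮ grad` (`grad_frame`, `nsq_smul`).
2. If `Q > 10⁻⁴`: `ee q s ≤ ee q R ≤ 10⁻⁵ < Q / 10 ≤ 0.11 s² ∮ grad + 1.1 s⁴ ∮ G²`, done.
3. If `Q ≤ 10⁻⁴`: `cone_lemma` for `(w^, h)` gives `(a, v)`; the competitor is `u = e^{-i om} a`, `v`, which is `Cmp`
(`refl`: `omq_refl` gives `w^ (rfl' z) = rfl' (w^ z)`, write `rfl' n k z = q + er(2kα) conj (z - q)`; `rot` for
`q = 0`: `omq_zero`; `ctr`: `w' (0) = 0` by symmetry so `v 0 = ±1`; by `ee_ge` with `t = 1/2`,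
`|cc s - h 0| ≤ 10⁻⁵/π`, and on the circle `|h - cc| ≤ √(2π Q) ≤ 0.03`, hence `h(0) h ≥ 1/2` there).
`rep` has `|D u|² ≤ 1.1 psq a v + 11 |A^|²`, and `(1 - v)² ≤ 4`:
`LocMin`: `ee q s ≤ 1/2 ∫ (grad_rep) + 1/2 ∫ (1-v)² + δ ≤ 1.1 (11/20 Q + ε) + (11/2) s² ∫ G² + 2 π s² + δ`, and
`0.605 Q ≤ 0.605 (1.1 s² ∮ grad + 11 s⁴ ∮ G²) ≤ (3/4) s² ∮ grad + 7 s⁴ ∮ G²`. Let `ε → 0`. -/

open MeasureTheory Filter Topology Set
open scoped ContDiff Real

noncomputable section

namespace GO3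

private theorem gs_sq (x y : ℝ) : (x + y) ^ 2 ≤ 11 / 10 * x ^ 2 + 11 * y ^ 2 := by
  nlinarith [sq_nonneg (x - 10 * y)]

private theorem gs_ip_mul (a b : ℂ) (t : ℝ) : ip (a * (t : ℂ)) b = t * ip a b := by
  unfold ip
  simp
  ring

private theorem gs_ip_sq (a : ℂ) : ip a 1 ^ 2 + ip a Complex.I ^ 2 = ‖a‖ ^ 2 := by
  rw [Complex.sq_norm, Complex.normSq_apply]
  unfold ip
  simp
  ring

/-- ordinary derivatives from covariant ones -/
private theorem gs_le1 (c : Cf) (z v : ℂ) (h : ‖c.w z‖ ≤ 1) :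
    psq c.w c.h z v ≤ 11 / 10 * c.nsq z v + 11 * ip (c.A z) v ^ 2 := by
  unfold psq Cf.nsq Cf.dh
  have e : fderiv ℝ c.w z v = c.Dw z v + Complex.I * (ip (c.A z) v : ℂ) * c.w z := by
    unfold Cf.Dw
    ring
  have h1 : ‖fderiv ℝ c.w z v‖ ≤ ‖c.Dw z v‖ + |ip (c.A z) v| := by
    rw [e]
    refine (norm_add_le _ _).trans ?_
    rw [norm_mul, norm_mul, Complex.norm_I, one_mul, Complex.norm_real, Real.norm_eq_abs]
    have := mul_le_mul_of_nonneg_left h (abs_nonneg (ip (c.A z) v))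
    linarith
  have h2 := pow_le_pow_left₀ (norm_nonneg _) h1 2
  have h3 := gs_sq ‖c.Dw z v‖ |ip (c.A z) v|
  rw [sq_abs] at h3
  have h4 := sq_nonneg (fderiv ℝ c.h z v)
  linarith

private theorem gs_le2 (c : Cf) (z v : ℂ) (h : ‖c.w z‖ ≤ 1) :
    c.nsq z v ≤ 11 / 10 * psq c.w c.h z v + 11 * ip (c.A z) v ^ 2 := by
  unfold psq Cf.nsq Cf.dh
  have h1 : ‖c.Dw z v‖ ≤ ‖fderiv ℝ c.w z v‖ + |ip (c.A z) v| := by
    unfold Cf.Dw
    refine (norm_sub_le _ _).trans ?_
    rw [norm_mul, norm_mul, Complex.norm_I, one_mul, Complex.norm_real, Real.norm_eq_abs]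
    have := mul_le_mul_of_nonneg_left h (abs_nonneg (ip (c.A z) v))
    linarith
  have h2 := pow_le_pow_left₀ (norm_nonneg _) h1 2
  have h3 := gs_sq ‖fderiv ℝ c.w z v‖ |ip (c.A z) v|
  rw [sq_abs] at h3
  have h4 := sq_nonneg (fderiv ℝ c.h z v)
  linarith

private theorem gs_er (x : ℝ) : er x * er (-x) = 1 := by
  unfold er
  rw [← Complex.exp_add]
  have : (x : ℂ) * Complex.I + ((-x : ℝ) : ℂ) * Complex.I = 0 := by push_cast; ring
  rw [this, Complex.exp_zero]

private theorem gs_er_smooth {f : ℂ → ℝ} (hf : ContDiff ℝ ∞ f) : ContDiff ℝ ∞ fun z => er (f z) := by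
  unfold er
  exact ((Complex.ofRealCLM.contDiff.comp hf).mul contDiff_const).cexp

/-- the inequality for `Q` -/
private theorem gs_Q {n : ℕ} {c : Cf} (hc : c.Adm n) (q : ℂ) (s : ℝ) :
    ∫ χ in (0 : ℝ)..2 * π, psq (c.gt (c.omq q)).w c.h (q + pt s χ) (Complex.I * pt s χ) ≤
      11 / 10 * s ^ 2 * (∫ χ in (0 : ℝ)..2 * π, c.grad (q + pt s χ)) +
      11 * s ^ 4 * ∫ χ in (0 : ℝ)..2 * π, Gq c.F q (q + pt s χ) ^ 2 := by
  have hom := Cf.omq_smooth hc.sA q
  have hws : ContDiff ℝ ∞ (c.gt (c.omq q)).w := (gs_er_smooth hom).mul hc.sw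
  have hcpt : Continuous fun χ : ℝ => pt s χ := continuous_pt.comp (by fun_prop : Continuous fun χ : ℝ => (s, χ))
  have c1 : Continuous fun χ : ℝ => psq (c.gt (c.omq q)).w c.h (q + pt s χ) (Complex.I * pt s χ) :=
    (continuous_psq hws hc.sh).comp (by fun_prop : Continuous fun χ : ℝ => (q + pt s χ, Complex.I * pt s χ))
  have c2 : Continuous fun χ : ℝ => c.grad (q + pt s χ) :=
    (Cf.Adm.contDiff_grad hc).continuous.comp (by fun_prop)
  have c3 : Continuous fun χ : ℝ => Gq c.F q (q + pt s χ) ^ 2 :=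
    ((Gq_smooth (Cf.Adm.contDiff_F hc) q).continuous.comp (by fun_prop : Continuous fun χ : ℝ => q + pt s χ)).pow 2
  rw [← intervalIntegral.integral_const_mul, ← intervalIntegral.integral_const_mul,
    ← intervalIntegral.integral_add ((c2.const_mul _).intervalIntegrable _ _) ((c3.const_mul _).intervalIntegrable _ _)]
  refine intervalIntegral.integral_mono_on (by positivity) (c1.intervalIntegrable _ _)
    (((c2.const_mul _).add (c3.const_mul _)).intervalIntegrable _ _) fun χ _ => ?_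
  have hn1 : ‖(c.gt (c.omq q)).w (q + pt s χ)‖ ≤ 1 := by
    have : (c.gt (c.omq q)).w (q + pt s χ) = er (c.omq q (q + pt s χ)) * c.w (q + pt s χ) := rfl
    rw [this, norm_mul, norm_er, one_mul]
    exact Cf.Adm.norm_w_le hc _
  have h1 := gs_le1 (c.gt (c.omq q)) (q + pt s χ) (Complex.I * pt s χ) hn1
  rw [Cf.gt_nsq hom hc.sw, Cf.omq_A hc.sA] at h1
  have e1 : ip (Complex.I * (q + pt s χ - q) * (Gq c.F q (q + pt s χ) : ℂ)) (Complex.I * pt s χ) =
      s ^ 2 * Gq c.F q (q + pt s χ) := by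
    rw [add_sub_cancel_left, gs_ip_mul, ip_self, norm_mul, Complex.norm_I, one_mul, norm_pt, sq_abs]
    ring
  rw [e1] at h1
  have e2 : Complex.I * pt s χ = (s : ℂ) * (Complex.I * er χ) := by
    rw [pt_eq]
    ring
  have h2 : c.nsq (q + pt s χ) (Complex.I * pt s χ) ≤ s ^ 2 * c.grad (q + pt s χ) := by
    rw [e2, Cf.nsq_smul]
    refine mul_le_mul_of_nonneg_left ?_ (sq_nonneg s)
    rw [Cf.grad_frame c (q + pt s χ) (er χ) (norm_er χ)]
    have := c.nsq_nonneg (q + pt s χ) (er χ)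
    linarith
  have h3 : (c.gt (c.omq q)).h = c.h := rfl
  rw [h3] at h1
  nlinarith

private theorem gs_star_er (x : ℝ) : star (er x) = er (-x) := star_er x

/-- the competitor is admissible -/
private theorem gs_cmp {n : ℕ} (hn : 2 ≤ n) {c : Cf} (hc : c.Adm n) (hr : c.Rad) {q : ℂ} {s : ℝ}
    {a : ℂ → ℂ} {v : ℂ → ℝ} (ha : ContDiff ℝ ∞ a) (hv : ContDiff ℝ ∞ v)
    (hu : ∀ z, ‖a z‖ ^ 2 + v z ^ 2 = 1)
    (ho : ∀ z, s ≤ ‖z - q‖ → a z = (c.gt (c.omq q)).w z ∧ v z = c.h z)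
    (hrot : ∀ u : ℂ, ‖u‖ = 1 → (∀ z, (c.gt (c.omq q)).w (q + u * z) = u * (c.gt (c.omq q)).w (q + z) ∧
      c.h (q + u * z) = c.h (q + z)) → ∀ z, a (q + u * z) = u * a (q + z) ∧ v (q + u * z) = v (q + z))
    (href : ∀ u : ℂ, ‖u‖ = 1 → (∀ z, (c.gt (c.omq q)).w (q + u * star z) =
      u * star ((c.gt (c.omq q)).w (q + z)) ∧ c.h (q + u * star z) = c.h (q + z)) →
      ∀ z, a (q + u * star z) = u * star (a (q + z)) ∧ v (q + u * star z) = v (q + z))
    (hctr : ∀ σ : ℝ, σ = 1 ∨ σ = -1 → (∀ χ, 1 / 2 ≤ σ * c.h (q + pt s χ)) → 0 < σ * v q)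
    (hh : q = 0 → ∀ χ, 1 / 2 ≤ c.h 0 * c.h (q + pt s χ)) :
    c.Cmp n q s (fun z => er (-(c.omq q z)) * a z) v := by
  have hom := Cf.omq_smooth hc.sA q
  have hwdef : ∀ z, (c.gt (c.omq q)).w z = er (c.omq q z) * c.w z := fun z => rfl
  have hw0 : q = 0 → ∀ z, (c.gt (c.omq q)).w z = c.w z := by
    intro h0 z
    rw [hwdef, h0, Cf.omq_zero hr]
    unfold er
    simp
  have hrot0 : q = 0 → ∀ z, a (ze n * z) = ze n * a z ∧ v (ze n * z) = v z := by
    intro h0 z
    have h1 := hrot (ze n) (norm_ze n) (fun z => by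
      rw [hw0 h0, hw0 h0, h0, zero_add, zero_add]
      exact ⟨hc.rw z, hc.rh z⟩) z
    rw [h0, zero_add, zero_add] at h1
    exact h1
  refine ⟨(gs_er_smooth hom.neg).mul ha, hv, ?_, ?_, ?_, ?_, ?_⟩
  · intro z
    rw [norm_mul, norm_er, one_mul]
    exact hu z
  · intro z hz
    obtain ⟨h1, h2⟩ := ho z hz
    refine ⟨?_, h2⟩
    rw [h1, hwdef, ← mul_assoc, mul_comm (er (-c.omq q z)), gs_er, one_mul]
  · intro k hk z
    have hk' : er (2 * k * al n) * star q = q := hk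
    have hA : ∀ z, c.A (er (2 * k * al n) * star z) = -(er (2 * k * al n) * star (c.A z)) :=
      fun z => (Cf.Adm.refl_k hn hc k z).2.2.1
    have hom' := Cf.omq_refl hc.sA (norm_er (2 * k * al n)) hk' hA
    have h1 := href (er (2 * k * al n)) (norm_er _) (fun y => by
      have e : q + er (2 * k * al n) * star y = er (2 * k * al n) * star (q + y) := by
        rw [star_add, mul_add, hk']
      rw [e, hwdef, hwdef, hom']
      obtain ⟨f1, f2, -⟩ := Cf.Adm.refl_k hn hc k (q + y)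
      have f1' : c.w (er (2 * k * al n) * star (q + y)) = er (2 * k * al n) * star (c.w (q + y)) := f1
      have f2' : c.h (er (2 * k * al n) * star (q + y)) = c.h (q + y) := f2
      refine ⟨?_, f2'⟩
      rw [f1', star_mul', gs_star_er]
      ring) (z - q)
    have e : q + er (2 * k * al n) * star (z - q) = er (2 * k * al n) * star z := by
      rw [star_sub, mul_sub, hk']
      ring
    rw [e, add_sub_cancel] at h1
    change er (-(c.omq q (er (2 * k * al n) * star z))) * a (er (2 * k * al n) * star z) =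
      er (2 * k * al n) * star (er (-(c.omq q z)) * a z) ∧ v (er (2 * k * al n) * star z) = v z
    rw [hom' z, h1.1, star_mul', gs_star_er]
    refine ⟨?_, h1.2⟩
    ring
  · intro h0 z
    obtain ⟨h1, h2⟩ := hrot0 h0 z
    refine ⟨?_, h2⟩
    have e1 : ∀ z, er (-(c.omq q z)) = 1 := fun z => by
      rw [h0, Cf.omq_zero hr]
      unfold er
      simp
    simp only [e1, one_mul]
    exact h1
  · intro h0
    have h1 : a 0 = 0 := by
      have h2 := (hrot0 h0 0).1
      rw [mul_zero] at h2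
      have h3 : (1 - ze n) * a 0 = 0 := by linear_combination h2
      rcases mul_eq_zero.1 h3 with h4 | h4
      · exact absurd (sub_eq_zero.1 h4).symm (ze_ne_one hn)
      · exact h4
    have h2 := hu 0
    rw [h1, norm_zero] at h2
    have hσ := Cf.Adm.h_zero hn hc
    have h3 := hctr (c.h 0) hσ (hh h0)
    rw [h0] at h3
    have h4 : v 0 * v 0 = 1 := by nlinarith
    rcases mul_self_eq_one_iff.1 h4 with h5 | h5 <;> rcases hσ with h6 | h6 <;>
      rw [h5, h6] at h3 ⊢ <;> norm_num at h3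

/-- oscillation of `h` on the circle -/
private theorem gs_osc {h : ℂ → ℝ} {w : ℂ → ℂ} (hh : ContDiff ℝ ∞ h) (hw : ContDiff ℝ ∞ w) {s χ₁ χ₂ : ℝ}
    (h0 : 0 ≤ χ₁) (h12 : χ₁ ≤ χ₂) (h2 : χ₂ ≤ 2 * π) : (h (pt s χ₂) - h (pt s χ₁)) ^ 2 ≤
      2 * π * ∫ χ in (0 : ℝ)..2 * π, psq w h (pt s χ) (Complex.I * pt s χ) := by
  have hcpt : Continuous fun χ : ℝ => pt s χ := continuous_pt.comp (by fun_prop : Continuous fun χ : ℝ => (s, χ))
  have c1 : Continuous fun χ : ℝ => psq w h (pt s χ) (Complex.I * pt s χ) :=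
    (continuous_psq hw hh).comp (by fun_prop : Continuous fun χ : ℝ => (pt s χ, Complex.I * pt s χ))
  have c2 : Continuous fun χ : ℝ => fderiv ℝ h (pt s χ) (Complex.I * pt s χ) := by
    have h1 := (hh.continuous_fderiv (by simp)).comp hcpt
    exact h1.clm_apply (by fun_prop)
  have hdh : ∀ χ, HasDerivAt (fun χ => h (pt s χ)) (fderiv ℝ h (pt s χ) (Complex.I * pt s χ)) χ := fun χ =>
    ((hh.differentiable (by simp)).differentiableAt.hasFDerivAt).comp_hasDerivAt χ (hasDerivAt_pt_chi s χ)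
  have e2 : ∫ χ in χ₁..χ₂, fderiv ℝ h (pt s χ) (Complex.I * pt s χ) = h (pt s χ₂) - h (pt s χ₁) :=
    intervalIntegral.integral_eq_sub_of_hasDerivAt (fun χ _ => hdh χ) (c2.intervalIntegrable _ _)
  have h3 : |∫ χ in χ₁..χ₂, fderiv ℝ h (pt s χ) (Complex.I * pt s χ)| ≤
      ∫ χ in (0 : ℝ)..2 * π, |fderiv ℝ h (pt s χ) (Complex.I * pt s χ)| := by
    refine (intervalIntegral.abs_integral_le_integral_abs h12).trans ?_
    exact intervalIntegral.integral_mono_interval h0 h12 h2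
      (Eventually.of_forall fun χ => abs_nonneg _) (c2.abs.intervalIntegrable _ _)
  rw [← e2, ← sq_abs]
  refine (pow_le_pow_left₀ (abs_nonneg _) h3 2).trans ?_
  -- Cauchy-Schwarz
  set g : ℝ → ℝ := fun χ => |fderiv ℝ h (pt s χ) (Complex.I * pt s χ)| with hg
  have cg : Continuous g := c2.abs
  set I0 := ∫ χ in (0 : ℝ)..2 * π, g χ with hI0
  have hpi : 0 < 2 * π := by positivity
  have k1 : 0 ≤ ∫ χ in (0 : ℝ)..2 * π, (g χ - I0 / (2 * π)) ^ 2 :=
    intervalIntegral.integral_nonneg hpi.le fun _ _ => sq_nonneg _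
  have k2 : ∫ χ in (0 : ℝ)..2 * π, (g χ - I0 / (2 * π)) ^ 2 =
      (∫ χ in (0 : ℝ)..2 * π, g χ ^ 2) - 2 * (I0 / (2 * π)) * I0 + (I0 / (2 * π)) ^ 2 * (2 * π) := by
    have e : ∀ x, (g x - I0 / (2 * π)) ^ 2 = g x ^ 2 - 2 * (I0 / (2 * π)) * g x + (I0 / (2 * π)) ^ 2 := fun x => by ring
    have i1 : IntervalIntegrable (fun x => g x ^ 2) volume 0 (2 * π) := (cg.pow 2).intervalIntegrable _ _
    have i2 : IntervalIntegrable (fun x => 2 * (I0 / (2 * π)) * g x) volume 0 (2 * π) :=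
      (cg.const_mul _).intervalIntegrable _ _
    simp_rw [e]
    rw [intervalIntegral.integral_add (i1.sub i2) intervalIntegrable_const, intervalIntegral.integral_sub i1 i2,
      intervalIntegral.integral_const_mul, intervalIntegral.integral_const, smul_eq_mul]
    ring
  have k3 : ∫ χ in (0 : ℝ)..2 * π, g χ ^ 2 ≤ ∫ χ in (0 : ℝ)..2 * π, psq w h (pt s χ) (Complex.I * pt s χ) := by
    refine intervalIntegral.integral_mono_on hpi.le ((cg.pow 2).intervalIntegrable _ _)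
      (c1.intervalIntegrable _ _) fun χ _ => ?_
    simp only [hg, sq_abs]
    unfold psq
    have := sq_nonneg ‖fderiv ℝ w (pt s χ) (Complex.I * pt s χ)‖
    linarith
  have k4 : I0 ^ 2 ≤ 2 * π * ∫ χ in (0 : ℝ)..2 * π, g χ ^ 2 := by
    rw [k2] at k1
    have k5 := mul_nonneg hpi.le k1
    have k6 : 2 * π * ((∫ χ in (0 : ℝ)..2 * π, g χ ^ 2) - 2 * (I0 / (2 * π)) * I0 + (I0 / (2 * π)) ^ 2 * (2 * π)) =
        2 * π * (∫ χ in (0 : ℝ)..2 * π, g χ ^ 2) - I0 ^ 2 := by
      field_simp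
      ring
    linarith
  exact k4.trans (mul_le_mul_of_nonneg_left k3 hpi.le)

private theorem gs_ctr {n : ℕ} (hn : 2 ≤ n) {c : Cf} (hc : c.Adm n) (hr : c.Rad) {s : ℝ} (hs : 0 < s)
    (hb : ∀ r, 0 ≤ r → r ≤ s → |c.beta n r| ≤ 1 / 2) (he : c.ee 0 s ≤ 1 / 100000)
    (hQ : ∫ χ in (0 : ℝ)..2 * π, psq c.w c.h (pt s χ) (Complex.I * pt s χ) ≤ 1 / 10000) (χ : ℝ) :
    1 / 2 ≤ c.h 0 * c.h (pt s χ) := by
  have hn0 : 0 < n := by omega
  have hα := al_pos hn0
  have hpi := Real.pi_pos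
  have hpi4 := Real.pi_lt_d2
  have hpi3 := Real.pi_gt_three
  have hch : Continuous fun χ : ℝ => c.h (pt s χ) :=
    hc.sh.continuous.comp (continuous_pt.comp (by fun_prop : Continuous fun χ : ℝ => (s, χ)))
  -- all values on the circle are close
  have h1 : ∀ χ₁ ∈ Icc (0 : ℝ) (2 * π), ∀ χ₂ ∈ Icc (0 : ℝ) (2 * π),
      |c.h (pt s χ₁) - c.h (pt s χ₂)| ≤ 3 / 100 := by
    have h2 : ∀ χ₁ χ₂ : ℝ, 0 ≤ χ₁ → χ₁ ≤ χ₂ → χ₂ ≤ 2 * π → |c.h (pt s χ₂) - c.h (pt s χ₁)| ≤ 3 / 100 := by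
      intro χ₁ χ₂ h0 h12 h3
      have h4 := gs_osc hc.sh hc.sw (s := s) h0 h12 h3
      refine abs_le_of_sq_le_sq ?_ (by norm_num)
      refine h4.trans ?_
      calc 2 * π * ∫ χ in (0 : ℝ)..2 * π, psq c.w c.h (pt s χ) (Complex.I * pt s χ)
          ≤ 2 * π * (1 / 10000) := mul_le_mul_of_nonneg_left hQ (by positivity)
        _ ≤ (3 / 100) ^ 2 := by linarith
    intro χ₁ h3 χ₂ h4
    rcases le_total χ₁ χ₂ with h | h
    · rw [abs_sub_comm]
      exact h2 _ _ h3.1 h h4.2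
    · exact h2 _ _ h4.1 h h3.2
  have hα2 : al n ≤ 2 * π := by
    have h2 : (1 : ℝ) ≤ (n : ℝ) ^ 3 := one_le_pow₀ (by exact_mod_cast hn0)
    have h3 : al n ≤ π := by
      unfold al
      exact div_le_self hpi.le h2
    linarith
  -- reduce the angle
  obtain ⟨χ', hχ', hpt⟩ : ∃ χ' ∈ Icc (0 : ℝ) (2 * π), c.h (pt s χ) = c.h (pt s χ') := by
    have hper : Function.Periodic (fun χ => c.h (pt s χ)) (2 * π) := fun χ => by
      simp only [pt_add_two_pi]
    obtain ⟨y, hy, hyy⟩ := hper.exists_mem_Ico (by positivity) χ 0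
    rw [zero_add] at hy
    exact ⟨y, ⟨hy.1, hy.2.le⟩, hyy⟩
  have hcc : |c.cc n s - c.h (pt s χ')| ≤ 3 / 100 := by
    have e : c.cc n s - c.h (pt s χ') = (1 / al n) * ∫ t in (0 : ℝ)..al n, (c.h (pt s t) - c.h (pt s χ')) := by
      unfold Cf.cc
      rw [intervalIntegral.integral_sub (hch.intervalIntegrable _ _) intervalIntegrable_const,
        intervalIntegral.integral_const, smul_eq_mul, sub_zero]
      field_simp
    have h2 : ‖∫ t in (0 : ℝ)..al n, (c.h (pt s t) - c.h (pt s χ'))‖ ≤ 3 / 100 * |al n - 0| := by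
      refine intervalIntegral.norm_integral_le_of_norm_le_const fun t ht => ?_
      rw [uIoc_of_le hα.le] at ht
      rw [Real.norm_eq_abs]
      exact h1 t ⟨ht.1.le, ht.2.trans hα2⟩ χ' hχ'
    rw [sub_zero, abs_of_pos hα, Real.norm_eq_abs] at h2
    rw [e, abs_mul, abs_of_pos (by positivity)]
    calc 1 / al n * |∫ t in (0 : ℝ)..al n, (c.h (pt s t) - c.h (pt s χ'))| ≤ 1 / al n * (3 / 100 * al n) := by gcongr
      _ = 3 / 100 := by field_simp
  have hee := ee_ge hn hc hr hs hb (by norm_num)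
  have h0 : c.cc n 0 = c.h 0 := by
    unfold Cf.cc
    have : ∀ t : ℝ, pt 0 t = 0 := fun t => by unfold pt; simp
    simp_rw [this]
    rw [intervalIntegral.integral_const, smul_eq_mul, sub_zero]
    field_simp
  rw [h0] at hee
  have h2 : |c.cc n s - c.h 0| ≤ 1 / 100 := by
    have : 3 * |c.cc n s - c.h 0| ≤ 2 * π * (1 - 1 / 2) * |c.cc n s - c.h 0| :=
      mul_le_mul_of_nonneg_right (by linarith) (abs_nonneg _)
    linarith
  rw [hpt]
  have a1 := abs_le.1 hcc
  have a2 := abs_le.1 h2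
  rcases Cf.Adm.h_zero hn hc with h6 | h6 <;> rw [h6] at a2 ⊢ <;> linarith [a1.1, a1.2, a2.1, a2.2]

theorem growth_step {n : ℕ} (hn : 2 ≤ n) {c : Cf} (hc : c.Adm n) (hr : c.Rad) {q : ℂ} {R δ : ℝ}
    (hδ : 0 ≤ δ) (hL : c.LocMin n q R δ) (he : c.ee q R ≤ 1 / 100000)
    (h0 : q = 0 → ∀ r, 0 ≤ r → r ≤ R → |c.beta n r| ≤ 1 / 2) {s : ℝ} (hs : 0 < s) (hsR : s < R) :
    c.ee q s ≤ 3 / 4 * s ^ 2 * (∫ χ in (0 : ℝ)..2 * π, c.grad (q + pt s χ)) +
      7 * (s ^ 4 * (∫ χ in (0 : ℝ)..2 * π, Gq c.F q (q + pt s χ) ^ 2) +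
        s ^ 2 * ∫ z in Metric.ball q s, Gq c.F q z ^ 2) + 7 * s ^ 2 + δ := by
  have hom := Cf.omq_smooth hc.sA q
  have hws : ContDiff ℝ ∞ (c.gt (c.omq q)).w := (gs_er_smooth hom).mul hc.sw
  have hwdef : ∀ z, (c.gt (c.omq q)).w z = er (c.omq q z) * c.w z := fun z => rfl
  set Q : ℝ := ∫ χ in (0 : ℝ)..2 * π, psq (c.gt (c.omq q)).w c.h (q + pt s χ) (Complex.I * pt s χ) with hQdef
  set P : ℝ := ∫ χ in (0 : ℝ)..2 * π, c.grad (q + pt s χ) with hPdef
  set G2 : ℝ := ∫ χ in (0 : ℝ)..2 * π, Gq c.F q (q + pt s χ) ^ 2 with hG2def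
  set GB : ℝ := ∫ z in Metric.ball q s, Gq c.F q z ^ 2 with hGBdef
  have hP0 : 0 ≤ P := intervalIntegral.integral_nonneg (by positivity) fun χ _ => c.grad_nonneg _
  have hG20 : 0 ≤ G2 := intervalIntegral.integral_nonneg (by positivity) fun χ _ => sq_nonneg _
  have hGB0 : 0 ≤ GB := setIntegral_nonneg measurableSet_ball fun z _ => sq_nonneg _
  have hQ := gs_Q hc q s
  rw [← hQdef, ← hPdef, ← hG2def] at hQ
  have hcg : Continuous c.grad := (Cf.Adm.contDiff_grad hc).continuous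
  have hcG : Continuous (Gq c.F q) := (Gq_smooth (Cf.Adm.contDiff_F hc) q).continuous
  have hcF : Continuous c.F := (Cf.Adm.contDiff_F hc).continuous
  have hees : c.ee q s ≤ 1 / 100000 := by
    refine le_trans ?_ he
    unfold Cf.ee
    have h1 : ∫ z in Metric.ball q s, c.grad z ≤ ∫ z in Metric.ball q R, c.grad z :=
      setIntegral_mono_set (Cf.Adm.int_grad hc).integrableOn (Eventually.of_forall fun z => c.grad_nonneg z)
        (Metric.ball_subset_ball hsR.le).eventuallyLE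
    linarith
  rcases le_or_gt Q (1 / 10000) with hQ1 | hQ1
  swap
  · have e1 : 0 ≤ s ^ 2 * P := by positivity
    have e2 : 0 ≤ s ^ 4 * G2 := by positivity
    have e3 : 0 ≤ s ^ 2 * GB := by positivity
    have e4 : 0 ≤ s ^ 2 := by positivity
    linarith
  -- the comparison map
  refine le_of_forall_pos_le_add fun ε hε => ?_
  obtain ⟨a, v, ha, hv, hu, ho, hen, hrot, href, hctr⟩ := cone_lemma hws hc.sh (fun z => by
    rw [hwdef, norm_mul, norm_er, one_mul]
    exact hc.unit z) q hs hQdef.symm hQ1 (by positivity : 0 < ε / 2)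
  have hcmp : c.Cmp n q s (fun z => er (-(c.omq q z)) * a z) v := by
    refine gs_cmp hn hc hr ha hv hu ho hrot href hctr fun hq0 χ => ?_
    rw [hq0, zero_add]
    refine gs_ctr hn hc hr hs (fun r h1 h2 => h0 hq0 r h1 (h2.trans hsR.le)) (by rw [← hq0]; exact hees) ?_ χ
    have e : (c.gt (c.omq q)).w = c.w := by
      funext z
      rw [hwdef, hq0, Cf.omq_zero hr]
      unfold er
      simp
    rw [hQdef, e, hq0] at hQ1
    simpa using hQ1
  obtain ⟨u, hudef⟩ : ∃ u : ℂ → ℂ, u = fun z => er (-(c.omq q z)) * a z := ⟨_, rfl⟩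
  rw [← hudef] at hcmp
  have hmin := hL s hs hsR u v hcmp
  -- the gauge transform of the competitor
  have hgw : ((c.rep u v).gt (c.omq q)).w = a := by
    funext z
    have : ((c.rep u v).gt (c.omq q)).w z = er (c.omq q z) * u z := rfl
    rw [this, hudef, ← mul_assoc, gs_er, one_mul]
  have hna : ∀ z, ‖a z‖ ≤ 1 := fun z => by
    have h1 := hu z
    have h2 := sq_nonneg (v z)
    exact (sq_le_one_iff₀ (norm_nonneg _)).1 (by linarith)
  have hnv : ∀ z, (1 - v z) ^ 2 ≤ 4 := fun z => by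
    have h1 := hu z
    have h2 := sq_nonneg ‖a z‖
    have h3 : |v z| ≤ 1 := abs_le_one_iff_mul_self_le_one.2 (by nlinarith)
    have h4 := abs_le.1 h3
    nlinarith
  have hAA : ∀ z, ((c.rep u v).gt (c.omq q)).A z = Complex.I * (z - q) * (Gq c.F q z : ℂ) :=
    fun z => Cf.omq_A hc.sA q z
  have hgrad : ∀ z ∈ Metric.ball q s, (c.rep u v).grad z ≤
      11 / 10 * (psq a v z 1 + psq a v z Complex.I) + 11 * s ^ 2 * Gq c.F q z ^ 2 := by
    intro z hz
    have h1 := gs_le2 ((c.rep u v).gt (c.omq q)) z 1 (by rw [hgw]; exact hna z)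
    have h2 := gs_le2 ((c.rep u v).gt (c.omq q)) z Complex.I (by rw [hgw]; exact hna z)
    rw [Cf.gt_nsq hom (c := c.rep u v) hcmp.su, hgw] at h1 h2
    have h3 := gs_ip_sq (((c.rep u v).gt (c.omq q)).A z)
    have h4 : ‖((c.rep u v).gt (c.omq q)).A z‖ ^ 2 ≤ s ^ 2 * Gq c.F q z ^ 2 := by
      rw [hAA, norm_mul, norm_mul, Complex.norm_I, one_mul, Complex.norm_real, Real.norm_eq_abs, mul_pow, sq_abs]
      refine mul_le_mul_of_nonneg_right ?_ (sq_nonneg _)
      have h5 : ‖z - q‖ < s := by rw [← dist_eq_norm]; exact hz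
      exact pow_le_pow_left₀ (norm_nonneg _) h5.le 2
    have h6 : ((c.rep u v).gt (c.omq q)).h = v := rfl
    rw [h6] at h1 h2
    unfold Cf.grad
    linarith
  -- integrals
  have hio : ∀ f : ℂ → ℝ, Continuous f → IntegrableOn f (Metric.ball q s) := fun f hf =>
    (hf.continuousOn.integrableOn_compact (isCompact_closedBall q s)).mono_set Metric.ball_subset_closedBall
  have hcpsq : ∀ v' : ℂ, Continuous fun z => psq a v z v' := fun v' =>
    (continuous_psq ha hv).comp (by fun_prop : Continuous fun z : ℂ => (z, v'))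
  have hcrep : Continuous (c.rep u v).dens := by
    have hcA : Continuous c.A := hc.sA.continuous
    have hcu : Continuous u := hcmp.su.continuous
    have hcv : Continuous v := hv.continuous
    have hfu : Continuous (fderiv ℝ u) := hcmp.su.continuous_fderiv (by simp)
    have hfv : Continuous (fderiv ℝ v) := hv.continuous_fderiv (by simp)
    have hip : ∀ b : ℂ, Continuous fun z => ip (c.A z) b := fun b => by
      unfold ip
      exact ((Complex.continuous_re.comp hcA).mul continuous_const).add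
        ((Complex.continuous_im.comp hcA).mul continuous_const)
    have hDw : ∀ b : ℂ, Continuous fun z => (c.rep u v).Dw z b := fun b => by
      have e : (fun z => (c.rep u v).Dw z b) = fun z => fderiv ℝ u z b - Complex.I * (ip (c.A z) b : ℂ) * u z := rfl
      rw [e]
      exact (hfu.clm_apply continuous_const).sub ((continuous_const.mul
        (Complex.continuous_ofReal.comp (hip b))).mul hcu)
    have hdh : ∀ b : ℂ, Continuous fun z => (c.rep u v).dh z b := fun b => hfv.clm_apply continuous_const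
    have e : (c.rep u v).dens = fun z => ((‖(c.rep u v).Dw z 1‖ ^ 2 + (c.rep u v).dh z 1 ^ 2) +
        (‖(c.rep u v).Dw z Complex.I‖ ^ 2 + (c.rep u v).dh z Complex.I ^ 2)) + (1 - v z) ^ 2 + c.F z ^ 2 := rfl
    rw [e]
    exact ((((((hDw 1).norm.pow 2).add ((hdh 1).pow 2)).add (((hDw Complex.I).norm.pow 2).add
      ((hdh Complex.I).pow 2)))).add ((continuous_const.sub hcv).pow 2)).add (hcF.pow 2)
  have up : ∫ z in Metric.ball q s, (c.rep u v).dens z ≤
      11 / 10 * (∫ z in Metric.ball q s, (psq a v z 1 + psq a v z Complex.I)) + 11 * s ^ 2 * GB +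
        4 * (π * s ^ 2) + ∫ z in Metric.ball q s, c.F z ^ 2 := by
    have i1 : IntegrableOn (fun z => psq a v z 1 + psq a v z Complex.I) (Metric.ball q s) :=
      hio _ ((hcpsq 1).add (hcpsq Complex.I))
    have i2 : IntegrableOn (fun z => Gq c.F q z ^ 2) (Metric.ball q s) := hio _ (hcG.pow 2)
    have i3 : IntegrableOn (fun z => c.F z ^ 2) (Metric.ball q s) := hio _ (hcF.pow 2)
    have i12 : IntegrableOn (fun z => 11 / 10 * (psq a v z 1 + psq a v z Complex.I) +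
        11 * s ^ 2 * Gq c.F q z ^ 2) (Metric.ball q s) := (i1.const_mul _).add (i2.const_mul _)
    have i4 : IntegrableOn (fun _ : ℂ => (4 : ℝ)) (Metric.ball q s) := hio _ continuous_const
    have i124 : IntegrableOn (fun z => 11 / 10 * (psq a v z 1 + psq a v z Complex.I) +
        11 * s ^ 2 * Gq c.F q z ^ 2 + 4) (Metric.ball q s) := i12.add i4
    have e1 : ∫ z in Metric.ball q s, (4 : ℝ) = 4 * (π * s ^ 2) := by
      rw [setIntegral_const, smul_eq_mul, Measure.real, Complex.volume_ball]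
      rw [ENNReal.toReal_mul, ENNReal.toReal_pow, ENNReal.toReal_ofReal hs.le]
      have : (NNReal.pi : ENNReal).toReal = π := rfl
      rw [this]
      ring
    have e2 : ∫ z in Metric.ball q s, (11 / 10 * (psq a v z 1 + psq a v z Complex.I) +
        11 * s ^ 2 * Gq c.F q z ^ 2 + 4 + c.F z ^ 2) =
        11 / 10 * (∫ z in Metric.ball q s, (psq a v z 1 + psq a v z Complex.I)) + 11 * s ^ 2 * GB +
        4 * (π * s ^ 2) + ∫ z in Metric.ball q s, c.F z ^ 2 := by
      rw [integral_add i124 i3, integral_add i12 i4,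
        integral_add (i1.const_mul _) (i2.const_mul _), integral_const_mul, integral_const_mul, e1]
    rw [← e2]
    refine setIntegral_mono_on (hio _ hcrep) (i124.add i3) measurableSet_ball fun z hz => ?_
    have h1 := hgrad z hz
    have h2 := hnv z
    have e : (c.rep u v).dens z = (c.rep u v).grad z + (1 - v z) ^ 2 + c.F z ^ 2 := rfl
    rw [e]
    linarith
  have low : (∫ z in Metric.ball q s, c.grad z) + ∫ z in Metric.ball q s, c.F z ^ 2 ≤
      ∫ z in Metric.ball q s, c.dens z := by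
    have i3 : IntegrableOn (fun z => c.F z ^ 2) (Metric.ball q s) := hio _ (hcF.pow 2)
    rw [← integral_add (hio _ hcg) i3]
    refine setIntegral_mono_on ((hio _ hcg).add i3)
      (hio _ (Cf.Adm.contDiff_dens hc).continuous) measurableSet_ball fun z _ => ?_
    unfold Cf.dens
    have := sq_nonneg (1 - c.h z)
    linarith
  have hpi := Real.pi_lt_d2
  have hs2 : 0 < s ^ 2 := by positivity
  have hps : π * s ^ 2 ≤ 7 / 2 * s ^ 2 := mul_le_mul_of_nonneg_right (by linarith) hs2.le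
  have f1 : 0 ≤ s ^ 2 * P := by positivity
  have f2 : 0 ≤ s ^ 4 * G2 := by positivity
  have f3 : 0 ≤ s ^ 2 * GB := by positivity
  unfold Cf.ee
  linarith

end GO3
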