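import Pool.Agent.GO3.Defs

/-! GO3 / Pol: polar coordinates and the points `r e^{i χ}`.

Proofs. `polar_integral`: Mathlib has `Complex.polarCoord` (`Complex.integral_comp_polarCoord_symm`,
target `Ioi 0 × Ioo (-π) π`) and Fubini; translate by `q`; move the angular interval from
`(-π, π)` to `(0, 2π)` by periodicity (`Function.Periodic.intervalIntegral_add_eq`).
`wedge_circle`: the function `f` is even and `2 α`-periodic, `2 π = 2 n ^ 3 α`: the integral over
`[0, 2π]` is `n ^ 3` times the integral over a period `[-α, α]`, which is twice the one over `[0, α]`. -/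

open MeasureTheory Filter Topology Set
open scoped ContDiff Real

noncomputable section

namespace GO3

theorem norm_pt (r χ : ℝ) : ‖pt r χ‖ = |r| := by
  unfold pt
  rw [norm_mul, Complex.norm_exp_ofReal_mul_I, mul_one, Complex.norm_real, Real.norm_eq_abs]

theorem norm_er (χ : ℝ) : ‖er χ‖ = 1 := by
  unfold er
  exact Complex.norm_exp_ofReal_mul_I χ

theorem pt_eq (r χ : ℝ) : pt r χ = r * er χ := rfl

theorem al_pos {n : ℕ} (hn : 0 < n) : 0 < al n := by
  unfold al
  have : (0 : ℝ) < n := by exact_mod_cast hn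
  positivity

theorem ze_eq (n : ℕ) : ze n = er (2 * al n) := by
  unfold ze er al
  congr 1
  push_cast
  ring

theorem norm_ze (n : ℕ) : ‖ze n‖ = 1 := by
  rw [ze_eq, norm_er]

theorem ze_pow {n : ℕ} (hn : 0 < n) : ze n ^ (n ^ 3) = 1 := by
  unfold ze
  rw [← Complex.exp_nat_mul]
  have h : ((n : ℂ)) ^ 3 ≠ 0 := by
    have : (n : ℂ) ≠ 0 := by exact_mod_cast hn.ne'
    exact pow_ne_zero 3 this
  push_cast
  rw [mul_div_cancel₀ _ h]
  exact Complex.exp_two_pi_mul_I

private theorem pol_im (θ : ℝ) : (er θ).im = Real.sin θ := by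
  unfold er
  exact Complex.exp_ofReal_mul_I_im θ

private theorem pol_al {n : ℕ} (hn : 2 ≤ n) : 0 < al n ∧ al n ≤ π / 8 := by
  refine ⟨al_pos (by omega), ?_⟩
  unfold al
  have h : (2 : ℝ) ≤ n := by exact_mod_cast hn
  have h3 : (8 : ℝ) ≤ (n : ℝ) ^ 3 := by
    calc (8 : ℝ) = 2 ^ 3 := by norm_num
      _ ≤ (n : ℝ) ^ 3 := by gcongr
  exact div_le_div_of_nonneg_left Real.pi_pos.le (by norm_num) h3

theorem ze_ne_one {n : ℕ} (hn : 2 ≤ n) : ze n ≠ 1 := by
  intro h
  have h1 : (ze n).im = 0 := by rw [h]; simp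
  rw [ze_eq, pol_im] at h1
  have := pol_al hn
  have h2 := Real.sin_pos_of_pos_of_lt_pi (x := 2 * al n) (by linarith) (by
    have := Real.pi_pos
    linarith)
  linarith

private theorem er_add (a b : ℝ) : er (a + b) = er a * er b := by
  unfold er
  rw [← Complex.exp_add]
  congr 1
  push_cast
  ring

/-- `ζ ≠ -1`, so `ζ ^ 2 ≠ 1` -/
theorem ze_sq_ne_one {n : ℕ} (hn : 2 ≤ n) : ze n ^ 2 ≠ 1 := by
  intro h
  have h1 : (ze n ^ 2).im = 0 := by rw [h]; simp
  rw [ze_eq, sq, ← er_add, pol_im] at h1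
  have := pol_al hn
  have h2 := Real.sin_pos_of_pos_of_lt_pi (x := 2 * al n + 2 * al n) (by linarith) (by
    have := Real.pi_pos
    linarith)
  linarith

theorem ze_mul_pt (n : ℕ) (r χ : ℝ) : ze n * pt r χ = pt r (χ + 2 * al n) := by
  rw [ze_eq, pt_eq, pt_eq, er_add]
  ring

theorem star_er (χ : ℝ) : star (er χ) = er (-χ) := by
  unfold er
  rw [Complex.star_def, ← Complex.exp_conj]
  congr 1
  simp

theorem star_pt (r χ : ℝ) : star (pt r χ) = pt r (-χ) := by
  rw [pt_eq, pt_eq, ← star_er, Complex.star_def, map_mul, Complex.conj_ofReal]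

theorem pt_add_two_pi (r χ : ℝ) : pt r (χ + 2 * π) = pt r χ := by
  rw [pt_eq, pt_eq, er_add]
  have : er (2 * π) = 1 := by
    unfold er
    push_cast
    exact Complex.exp_two_pi_mul_I
  rw [this, mul_one]

theorem exists_pt (z : ℂ) : ∃ χ ∈ Ico (0 : ℝ) (2 * π), z = pt ‖z‖ χ := by
  have h := Complex.norm_mul_exp_arg_mul_I z
  have h1 := Complex.neg_pi_lt_arg z
  have h2 := Complex.arg_le_pi z
  have hp := Real.pi_pos
  by_cases h0 : 0 ≤ z.arg
  · exact ⟨z.arg, ⟨h0, by linarith⟩, h.symm⟩
  · refine ⟨z.arg + 2 * π, ⟨by linarith, by linarith⟩, ?_⟩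
    rw [pt_add_two_pi]
    exact h.symm

theorem continuous_pt : Continuous fun p : ℝ × ℝ => pt p.1 p.2 := by
  unfold pt
  fun_prop

theorem contDiff_pt : ContDiff ℝ ∞ fun p : ℝ × ℝ => pt p.1 p.2 := by
  unfold pt
  have h1 : ContDiff ℝ ∞ (fun p : ℝ × ℝ => (p.1 : ℂ)) := Complex.ofRealCLM.contDiff.comp contDiff_fst
  have h2 : ContDiff ℝ ∞ (fun p : ℝ × ℝ => (p.2 : ℂ)) := Complex.ofRealCLM.contDiff.comp contDiff_snd
  have h3 : ContDiff ℝ ∞ Complex.exp := Complex.contDiff_exp
  exact h1.mul (h3.comp (h2.mul contDiff_const))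

theorem hasDerivAt_pt_r (r χ : ℝ) : HasDerivAt (fun r => pt r χ) (er χ) r := by
  have h := ((hasDerivAt_id r).ofReal_comp).mul_const (er χ)
  refine (h.congr_deriv ?_).congr_of_eventuallyEq (Filter.Eventually.of_forall fun x => ?_)
  · simp
  · rfl

theorem hasDerivAt_pt_chi (r χ : ℝ) : HasDerivAt (fun χ => pt r χ) (Complex.I * pt r χ) χ := by
  have h := ((hasDerivAt_id χ).ofReal_comp).mul_const Complex.I
  have h2 := h.cexp.const_mul (r : ℂ)
  refine h2.congr_deriv ?_
  unfold pt
  simp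
  ring

/-- `|a|² = ⟨a, 1⟩² + ⟨a, i⟩²` and `ip` in terms of norms -/
theorem ip_self (a : ℂ) : ip a a = ‖a‖ ^ 2 := by
  unfold ip
  rw [Complex.sq_norm, Complex.normSq_apply]

theorem abs_ip_le (a b : ℂ) : |ip a b| ≤ ‖a‖ * ‖b‖ := by
  have h : ip a b = (star a * b).re := by
    unfold ip
    simp [Complex.mul_re]
  rw [h]
  refine (Complex.abs_re_le_norm _).trans ?_
  rw [norm_mul, norm_star]

theorem ip_mul (u a b : ℂ) (hu : ‖u‖ = 1) : ip (u * a) (u * b) = ip a b := by
  have h : u.re * u.re + u.im * u.im = 1 := by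
    rw [← Complex.normSq_apply, ← Complex.sq_norm, hu, one_pow]
  unfold ip
  simp only [Complex.mul_re, Complex.mul_im]
  linear_combination (a.re * b.re + a.im * b.im) * h

theorem ip_star (a b : ℂ) : ip (star a) (star b) = ip a b := by
  unfold ip
  simp

private theorem pol_symm (p : ℝ × ℝ) : Complex.polarCoord.symm p = pt p.1 p.2 := by
  rw [Complex.polarCoord_symm_apply]
  unfold pt
  rw [Complex.exp_mul_I, Complex.ofReal_cos, Complex.ofReal_sin]

private theorem pol_per (f : ℂ → ℝ) (q : ℂ) (r : ℝ) :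
    ∫ χ in (0 : ℝ)..2 * π, f (q + pt r χ) = ∫ χ in Ioo (-π) π, f (q + pt r χ) := by
  have hper : Function.Periodic (fun χ => f (q + pt r χ)) (2 * π) := by
    intro χ
    simp only [pt_add_two_pi]
  have h := hper.intervalIntegral_add_eq 0 (-π)
  rw [zero_add, show -π + 2 * π = π by ring] at h
  rw [h, intervalIntegral.integral_of_le (by linarith [Real.pi_pos]), integral_Ioc_eq_integral_Ioo]

private theorem pol_meas : (volume : Measure (ℝ × ℝ)).restrict polarCoord.target =
    (volume.restrict (Ioi (0 : ℝ))).prod (volume.restrict (Ioo (-π) π)) := by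
  have htarget : polarCoord.target = Ioi (0 : ℝ) ×ˢ Ioo (-π) π := rfl
  rw [htarget, Measure.prod_restrict]
  rfl

private theorem pol_iff (f : ℂ → ℝ) : Integrable f ↔
    IntegrableOn (fun p : ℝ × ℝ => p.1 * f (pt p.1 p.2)) polarCoord.target := by
  have hmeas : MeasurableSet polarCoord.target := polarCoord.open_target.measurableSet
  have h0 : Integrable f ↔ Integrable (fun p : ℝ × ℝ => f (Complex.measurableEquivRealProd.symm p)) :=
    ((Complex.volume_preserving_equiv_real_prod.symm).integrable_comp_emb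
      Complex.measurableEquivRealProd.symm.measurableEmbedding).symm
  have h1 := integrableOn_image_iff_integrableOn_abs_det_fderiv_smul (volume : Measure (ℝ × ℝ)) hmeas
      (fun p _ => (hasFDerivAt_polarCoord_symm p).hasFDerivWithinAt)
      polarCoord.symm.injOn (fun p : ℝ × ℝ => f (Complex.measurableEquivRealProd.symm p))
  have h2 : polarCoord.symm '' polarCoord.target = polarCoord.source :=
    polarCoord.symm_image_target_eq_source
  rw [h2] at h1
  have h3 : IntegrableOn (fun p : ℝ × ℝ => f (Complex.measurableEquivRealProd.symm p))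
      polarCoord.source ↔ Integrable (fun p : ℝ × ℝ => f (Complex.measurableEquivRealProd.symm p)) := by
    rw [IntegrableOn, Measure.restrict_congr_set polarCoord_source_ae_eq_univ, Measure.restrict_univ]
  rw [h0, ← h3, h1]
  refine integrableOn_congr_fun ?_ hmeas
  intro p hp
  have hp1 : 0 < p.1 := hp.1
  simp only [det_fderivPolarCoordSymm, smul_eq_mul]
  rw [Complex.measurableEquivRealProd_symm_polarCoord_symm_apply, pol_symm, abs_of_pos hp1]

private theorem pol_inner (f : ℂ → ℝ) (q : ℂ) (r : ℝ) :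
    ∫ χ in Ioo (-π) π, r * f (q + pt r χ) = r * ∫ χ in (0 : ℝ)..2 * π, f (q + pt r χ) := by
  rw [pol_per, integral_const_mul]

private theorem pol_prod (f : ℂ → ℝ) (hf : Integrable f) (q : ℂ) :
    Integrable (fun p : ℝ × ℝ => p.1 * f (q + pt p.1 p.2))
      ((volume.restrict (Ioi (0 : ℝ))).prod (volume.restrict (Ioo (-π) π))) := by
  have h := (pol_iff (fun z => f (q + z))).1 (hf.comp_add_left q)
  rw [IntegrableOn, pol_meas] at h
  exact h

/-- polar coordinates around `q` -/
theorem polar_integral (f : ℂ → ℝ) (hf : Integrable f) (q : ℂ) :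
    ∫ z, f z = ∫ r in Ioi (0 : ℝ), r * ∫ χ in (0 : ℝ)..2 * π, f (q + pt r χ) := by
  have h := pol_prod f hf q
  rw [← integral_add_left_eq_self f q, ← Complex.integral_comp_polarCoord_symm]
  have e1 : (∫ p in polarCoord.target, p.1 • f (q + Complex.polarCoord.symm p)) =
      ∫ p in polarCoord.target, p.1 * f (q + pt p.1 p.2) := by
    refine setIntegral_congr_fun polarCoord.open_target.measurableSet fun p _ => ?_
    simp only [smul_eq_mul, pol_symm]
  rw [e1, pol_meas, integral_prod _ h]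
  refine setIntegral_congr_fun measurableSet_Ioi fun r _ => ?_
  exact pol_inner f q r

theorem polar_integrableOn (f : ℂ → ℝ) (hf : Integrable f) (q : ℂ) :
    IntegrableOn (fun r => r * ∫ χ in (0 : ℝ)..2 * π, f (q + pt r χ)) (Ioi 0) := by
  have h := (pol_prod f hf q).integral_prod_left
  refine h.congr (Filter.Eventually.of_forall fun r => ?_)
  exact pol_inner f q r

/-- converse for nonnegative continuous functions -/
theorem polar_integrable (f : ℂ → ℝ) (hf : Continuous f) (h0 : ∀ z, 0 ≤ f z) (q : ℂ)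
    (hi : IntegrableOn (fun r => r * ∫ χ in (0 : ℝ)..2 * π, f (q + pt r χ)) (Ioi 0)) :
    Integrable f := by
  have hc : Continuous fun p : ℝ × ℝ => p.1 * f (q + pt p.1 p.2) :=
    continuous_fst.mul (hf.comp (continuous_const.add continuous_pt))
  have h1 : Integrable (fun p : ℝ × ℝ => p.1 * f (q + pt p.1 p.2))
      ((volume.restrict (Ioi (0 : ℝ))).prod (volume.restrict (Ioo (-π) π))) := by
    rw [integrable_prod_iff hc.aestronglyMeasurable]
    constructor
    · refine Filter.Eventually.of_forall fun r => ?_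
      have hcr : Continuous fun χ : ℝ => r * f (q + pt r χ) :=
        hc.comp (Continuous.prodMk_right r)
      exact (hcr.integrableOn_Icc (a := -π) (b := π)).mono_set Ioo_subset_Icc_self
    · refine hi.congr ?_
      filter_upwards [ae_restrict_mem measurableSet_Ioi] with r hr
      rw [← pol_inner]
      refine setIntegral_congr_fun measurableSet_Ioo fun χ _ => ?_
      rw [Real.norm_eq_abs, abs_of_nonneg (mul_nonneg (le_of_lt hr) (h0 _))]
  have h2 : Integrable (fun z => f (q + z)) := by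
    rw [pol_iff, IntegrableOn, pol_meas]
    exact h1
  have h3 := h2.comp_add_left (-q)
  refine h3.congr (Filter.Eventually.of_forall fun z => ?_)
  simp

private theorem pol_ball_ind (f : ℂ → ℝ) (q : ℂ) (R r χ : ℝ) (hr : 0 < r) :
    (Metric.ball q R).indicator f (q + pt r χ) = if r < R then f (q + pt r χ) else 0 := by
  have h : q + pt r χ ∈ Metric.ball q R ↔ r < R := by
    rw [mem_ball_iff_norm, add_sub_cancel_left, norm_pt, abs_of_pos hr]
  by_cases h1 : r < R
  · rw [Set.indicator_of_mem (h.2 h1), if_pos h1]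
  · rw [Set.indicator_of_notMem (fun h2 => h1 (h.1 h2)), if_neg h1]

theorem polar_ball (f : ℂ → ℝ) (hf : Continuous f) (q : ℂ) {R : ℝ} (hR : 0 ≤ R) :
    ∫ z in Metric.ball q R, f z = ∫ r in (0 : ℝ)..R, r * ∫ χ in (0 : ℝ)..2 * π, f (q + pt r χ) := by
  have hi : IntegrableOn f (Metric.ball q R) :=
    (hf.continuousOn.integrableOn_compact (isCompact_closedBall q R)).mono_set
      Metric.ball_subset_closedBall
  rw [← integral_indicator Metric.isOpen_ball.measurableSet,
    polar_integral _ ((integrable_indicator_iff Metric.isOpen_ball.measurableSet).2 hi) q,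
    intervalIntegral.integral_of_le hR, integral_Ioc_eq_integral_Ioo]
  have e : ∀ r ∈ Ioi (0 : ℝ), r * ∫ χ in (0 : ℝ)..2 * π, (Metric.ball q R).indicator f (q + pt r χ) =
      (Ioo (0 : ℝ) R).indicator (fun r => r * ∫ χ in (0 : ℝ)..2 * π, f (q + pt r χ)) r := by
    intro r hr
    simp only [pol_ball_ind f q R r _ hr]
    by_cases h1 : r < R
    · rw [Set.indicator_of_mem (show r ∈ Ioo (0 : ℝ) R from ⟨hr, h1⟩)]
      simp only [if_pos h1]
    · rw [Set.indicator_of_notMem (show r ∉ Ioo (0 : ℝ) R from fun h => h1 h.2)]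
      simp only [if_neg h1, intervalIntegral.integral_zero, mul_zero]
  rw [setIntegral_congr_fun measurableSet_Ioi e, setIntegral_indicator measurableSet_Ioo]
  congr 2
  ext r
  simp only [mem_inter_iff, mem_Ioi, mem_Ioo]
  tauto

theorem polar_compl_ball (f : ℂ → ℝ) (hf : Continuous f) (hi : Integrable f) (q : ℂ) {R : ℝ}
    (hR : 0 ≤ R) : ∫ z in (Metric.ball q R)ᶜ, f z =
      ∫ r in Ioi R, r * ∫ χ in (0 : ℝ)..2 * π, f (q + pt r χ) := by
  have h1 : ∫ z in (Metric.ball q R)ᶜ, f z = (∫ z, f z) - ∫ z in Metric.ball q R, f z := by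
    have := integral_add_compl (μ := volume) (f := f) (Metric.isOpen_ball (x := q) (ε := R)).measurableSet hi
    linarith
  have h2 := polar_integrableOn f hi q
  have h3 : (∫ r in Ioi (0 : ℝ), r * ∫ χ in (0 : ℝ)..2 * π, f (q + pt r χ)) =
      (∫ r in Ioc (0 : ℝ) R, r * ∫ χ in (0 : ℝ)..2 * π, f (q + pt r χ)) +
      ∫ r in Ioi R, r * ∫ χ in (0 : ℝ)..2 * π, f (q + pt r χ) := by
    rw [← Ioc_union_Ioi_eq_Ioi hR]
    exact setIntegral_union (Set.Ioc_disjoint_Ioi le_rfl) measurableSet_Ioi
      (h2.mono_set Ioc_subset_Ioi_self) (h2.mono_set (Ioi_subset_Ioi hR))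
  rw [h1, polar_integral f hi q, polar_ball f hf q hR, h3, intervalIntegral.integral_of_le hR]
  ring

/-- the function `r ↦ ∫ f (q + r e^{iχ}) dχ` is continuous -/
theorem continuous_circle (f : ℂ → ℝ) (hf : Continuous f) (q : ℂ) (a b : ℝ) :
    Continuous fun r => ∫ χ in a..b, f (q + pt r χ) := by
  refine intervalIntegral.continuous_parametric_intervalIntegral_of_continuous' ?_ a b
  exact hf.comp (continuous_const.add continuous_pt)

/-- circle integral of a symmetric function in terms of the wedge integral -/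
theorem wedge_circle {n : ℕ} (hn : 0 < n) (f : ℝ → ℝ) (hc : Continuous f)
    (h1 : ∀ χ, f (χ + 2 * al n) = f χ) (h2 : ∀ χ, f (-χ) = f χ) :
    ∫ χ in (0 : ℝ)..2 * π, f χ = 2 * (n : ℝ) ^ 3 * ∫ χ in (0 : ℝ)..al n, f χ := by
  have hper : Function.Periodic f (2 * al n) := h1
  have h3 := hper.intervalIntegral_add_zsmul_eq ((n ^ 3 : ℕ) : ℤ) 0
    (fun a b => hc.intervalIntegrable a b)
  have hn0 : (n : ℝ) ≠ 0 := by exact_mod_cast hn.ne'
  have h4 : (((n ^ 3 : ℕ) : ℤ) • (2 * al n) : ℝ) = 2 * π := by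
    rw [zsmul_eq_mul]
    unfold al
    push_cast
    field_simp
  rw [zero_add, h4, zero_add] at h3
  have h5 : ∫ χ in (0 : ℝ)..2 * al n, f χ = ∫ χ in (-al n)..al n, f χ := by
    have := hper.intervalIntegral_add_eq 0 (-al n)
    rw [zero_add, show -al n + 2 * al n = al n by ring] at this
    exact this
  have h6 : ∫ χ in (-al n)..0, f χ = ∫ χ in (0 : ℝ)..al n, f χ := by
    have := intervalIntegral.integral_comp_neg (a := 0) (b := al n) f
    simp only [neg_zero] at this
    rw [← this]
    exact intervalIntegral.integral_congr fun χ _ => h2 χ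
  have h7 : ∫ χ in (-al n)..al n, f χ = (∫ χ in (-al n)..0, f χ) + ∫ χ in (0 : ℝ)..al n, f χ :=
    (intervalIntegral.integral_add_adjacent_intervals (hc.intervalIntegrable _ _)
      (hc.intervalIntegrable _ _)).symm
  rw [h3, h5, h7, h6, zsmul_eq_mul]
  push_cast
  ring

end GO3
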