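import Pool.Agent.GO3.Der

/-! GO3 / Rng: the ring configuration: the class `(n, 1)` is not empty, with energy `≤ K n²`.

Let `σ = Real.smoothTransition` (`0` for `x ≤ 0`, `1` for `x ≥ 1`), `N = n³ + 1`, `R = n²`, `n ≥ 2`,
`f r = 2 π σ ((r - R + 1)/2)`, `w (r e^{iχ}) = sin (f r) e^{i N χ}`, `h = cos (f r)`,
`b (r) = N σ (4 r / R - 1)`, `A z = i z b(|z|)/|z|²`. All smooth (`w = 0` and `b = 0` near `0`; in the plane
`e^{iNχ} = (z/|z|)^N`). Symmetry: `ζ^N = ζ` as `ζ^{n³} = 1`. On the support of `w` (`R - 1 ≤ r ≤ R + 1`, and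
`R - 1 ≥ R/2`) `b = N`, so `D_χ w = i (N - b) w = 0`: `dens = f'² + (1 - cos f)² + (b'/r)²`.
`∫ dens = 2π ∫ (f'² + (1 - cos f)²) r dr + 2π ∫ b'²/r dr ≤ C R + C N²/R² ≤ K n²` with absolute constants
(`b' = (4N/R) σ'(4r/R - 1)` supported in `[R/4, R/2]`).
Data: `B = b χ`, `V = sin f` (real) where `f ≠ 0` because there `b = N` and `w e^{-iNχ} = sin f`; `cc = cos f`; `β = b`,
`a = α (N - 1) = π` there, `psi = 1`, `Z = e^{i f}`; elsewhere `cc + i Re V - 1 = 0`, `Z = 1`. So `Θ = f`. -/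

open MeasureTheory Filter Topology Set
open scoped ContDiff Real

noncomputable section

namespace GO3

private def rg_f (n : ℕ) (r : ℝ) : ℝ := 2 * π * Real.smoothTransition ((r - (n : ℝ) ^ 2 + 1) / 2)

private def rg_b (n : ℕ) (r : ℝ) : ℝ := ((n : ℝ) ^ 3 + 1) * Real.smoothTransition (4 * r / (n : ℝ) ^ 2 - 1)

private def rg_G (n : ℕ) (z : ℂ) : ℝ := rg_b n ‖z‖ * (‖z‖ ^ 2)⁻¹

private def rg_c (n : ℕ) : Cf where
  w := fun z => (Real.sin (rg_f n ‖z‖) : ℂ) * (((‖z‖⁻¹ : ℝ) : ℂ) * z) ^ (n ^ 3 + 1)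
  h := fun z => Real.cos (rg_f n ‖z‖)
  A := fun z => Complex.I * z * (rg_G n z : ℂ)

private theorem rg_sq {n : ℕ} (hn : 2 ≤ n) : (4 : ℝ) ≤ (n : ℝ) ^ 2 := by
  have h : (2 : ℝ) ≤ n := by exact_mod_cast hn
  nlinarith

private theorem rg_f_zero {n : ℕ} {r : ℝ} (h : r ≤ (n : ℝ) ^ 2 - 1) : rg_f n r = 0 := by
  unfold rg_f
  rw [Real.smoothTransition.zero_of_nonpos (by linarith), mul_zero]

private theorem rg_f_late {n : ℕ} {r : ℝ} (h : (n : ℝ) ^ 2 + 1 ≤ r) : rg_f n r = 2 * π := by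
  unfold rg_f
  rw [Real.smoothTransition.one_of_one_le (by linarith), mul_one]

private theorem rg_b_zero {n : ℕ} (hn : 2 ≤ n) {r : ℝ} (h : r ≤ (n : ℝ) ^ 2 / 4) : rg_b n r = 0 := by
  unfold rg_b
  have h4 := rg_sq hn
  rw [Real.smoothTransition.zero_of_nonpos, mul_zero]
  rw [sub_nonpos, div_le_one (by linarith)]
  linarith

private theorem rg_b_one {n : ℕ} (hn : 2 ≤ n) {r : ℝ} (h : (n : ℝ) ^ 2 / 2 ≤ r) :
    rg_b n r = (n : ℝ) ^ 3 + 1 := by
  unfold rg_b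
  have h4 := rg_sq hn
  rw [Real.smoothTransition.one_of_one_le, mul_one]
  rw [le_sub_iff_add_le, le_div_iff₀ (by linarith)]
  linarith

private theorem rg_contDiff_f (n : ℕ) : ContDiff ℝ ∞ (rg_f n) := by
  unfold rg_f
  exact contDiff_const.mul (Real.smoothTransition.contDiff.comp (by fun_prop))

private theorem rg_contDiff_b (n : ℕ) : ContDiff ℝ ∞ (rg_b n) := by
  unfold rg_b
  refine contDiff_const.mul (Real.smoothTransition.contDiff.comp ?_)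
  exact ((contDiff_const.mul contDiff_id).div_const _).sub contDiff_const

private theorem rg_smooth {V : Type*} [NormedAddCommGroup V] [NormedSpace ℝ V] (g : ℂ → V)
    (h1 : ∀ z, z ≠ 0 → ContDiffAt ℝ ∞ g z) (h2 : ∀ z, ‖z‖ < 1 → g z = g 0) : ContDiff ℝ ∞ g := by
  rw [contDiff_iff_contDiffAt]
  intro z
  by_cases hz : z = 0
  · have : g =ᶠ[𝓝 z] fun _ => g 0 := by
      have hb : Metric.ball (0 : ℂ) 1 ∈ 𝓝 z := by
        rw [hz]
        exact Metric.ball_mem_nhds 0 one_pos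
      filter_upwards [hb] with y hy
      exact h2 y (mem_ball_zero_iff.1 hy)
    exact contDiffAt_const.congr_of_eventuallyEq this
  · exact h1 z hz

private theorem rg_norm {z : ℂ} (hz : z ≠ 0) : ContDiffAt ℝ ∞ (fun z : ℂ => ‖z‖) z :=
  contDiffAt_norm ℝ hz

private theorem rg_ofReal {g : ℂ → ℝ} {z : ℂ} (hg : ContDiffAt ℝ ∞ g z) :
    ContDiffAt ℝ ∞ (fun z => (g z : ℂ)) z :=
  Complex.ofRealCLM.contDiff.contDiffAt.comp z hg

private theorem rg_sw {n : ℕ} (hn : 2 ≤ n) : ContDiff ℝ ∞ (rg_c n).w := by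
  have h4 := rg_sq hn
  refine rg_smooth _ (fun z hz => ?_) (fun z hz => ?_)
  · have h1 := rg_norm hz
    have h2 : ContDiffAt ℝ ∞ (fun z : ℂ => Real.sin (rg_f n ‖z‖)) z :=
      (Real.contDiff_sin.comp (rg_contDiff_f n)).contDiffAt.comp z h1
    have h3 : ContDiffAt ℝ ∞ (fun z : ℂ => ‖z‖⁻¹) z := h1.inv (norm_ne_zero_iff.2 hz)
    exact (rg_ofReal h2).mul (((rg_ofReal h3).mul contDiffAt_id).pow _)
  · have h0 : ∀ y : ℂ, ‖y‖ < 1 → (rg_c n).w y = 0 := by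
      intro y hy
      show (Real.sin (rg_f n ‖y‖) : ℂ) * _ = 0
      rw [rg_f_zero (by linarith), Real.sin_zero, Complex.ofReal_zero, zero_mul]
    rw [h0 z hz, h0 0 (by simp)]

private theorem rg_sh {n : ℕ} (hn : 2 ≤ n) : ContDiff ℝ ∞ (rg_c n).h := by
  have h4 := rg_sq hn
  refine rg_smooth _ (fun z hz => ?_) (fun z hz => ?_)
  · exact (Real.contDiff_cos.comp (rg_contDiff_f n)).contDiffAt.comp z (rg_norm hz)
  · have h0 : ∀ y : ℂ, ‖y‖ < 1 → (rg_c n).h y = 1 := by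
      intro y hy
      show Real.cos (rg_f n ‖y‖) = 1
      rw [rg_f_zero (by linarith), Real.cos_zero]
    rw [h0 z hz, h0 0 (by simp)]

private theorem rg_sG {n : ℕ} (hn : 2 ≤ n) : ContDiff ℝ ∞ (rg_G n) := by
  have h4 := rg_sq hn
  refine rg_smooth _ (fun z hz => ?_) (fun z hz => ?_)
  · have h1 := rg_norm hz
    exact ((rg_contDiff_b n).contDiffAt.comp z h1).mul
      ((h1.pow 2).inv (pow_ne_zero 2 (norm_ne_zero_iff.2 hz)))
  · have h0 : ∀ y : ℂ, ‖y‖ < 1 → rg_G n y = 0 := by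
      intro y hy
      show rg_b n ‖y‖ * _ = 0
      rw [rg_b_zero hn (by linarith), zero_mul]
    rw [h0 z hz, h0 0 (by simp)]

private theorem rg_sA {n : ℕ} (hn : 2 ≤ n) : ContDiff ℝ ∞ (rg_c n).A :=
  (contDiff_const.mul contDiff_id).mul (Complex.ofRealCLM.contDiff.comp (rg_sG hn))

private theorem rg_rad {n : ℕ} (hn : 2 ≤ n) : (rg_c n).Rad := ⟨rg_G n, rg_sG hn, fun _ => rfl⟩

private theorem rg_er_pow (χ : ℝ) (N : ℕ) : er χ ^ N = er (N * χ) := by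
  unfold er
  rw [← Complex.exp_nat_mul]
  congr 1
  push_cast
  ring

private theorem rg_w_pt {n : ℕ} {r : ℝ} (hr : 0 < r) (χ : ℝ) :
    (rg_c n).w (pt r χ) = (Real.sin (rg_f n r) : ℂ) * er (((n ^ 3 + 1 : ℕ) : ℝ) * χ) := by
  show (Real.sin (rg_f n ‖pt r χ‖) : ℂ) * (((‖pt r χ‖⁻¹ : ℝ) : ℂ) * pt r χ) ^ (n ^ 3 + 1) = _
  rw [norm_pt, abs_of_pos hr, ← rg_er_pow, pt_eq, ← mul_assoc, ← Complex.ofReal_mul,
    inv_mul_cancel₀ hr.ne', Complex.ofReal_one, one_mul]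

private theorem rg_h_pt {n : ℕ} {r : ℝ} (hr : 0 ≤ r) (χ : ℝ) :
    (rg_c n).h (pt r χ) = Real.cos (rg_f n r) := by
  show Real.cos (rg_f n ‖pt r χ‖) = _
  rw [norm_pt, abs_of_nonneg hr]

private theorem rg_b_pt {n : ℕ} {r : ℝ} (hr : 0 < r) (χ : ℝ) : (rg_c n).b r χ = rg_b n r := by
  show ip (Complex.I * pt r χ * (rg_G n (pt r χ) : ℂ)) (Complex.I * pt r χ) = _
  have h1 : ip (Complex.I * pt r χ * (rg_G n (pt r χ) : ℂ)) (Complex.I * pt r χ) =
      rg_G n (pt r χ) * ip (Complex.I * pt r χ) (Complex.I * pt r χ) := by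
    unfold ip
    simp only [Complex.mul_re, Complex.mul_im, Complex.ofReal_re, Complex.ofReal_im]
    ring
  rw [h1, ip_self, norm_mul, Complex.norm_I, one_mul, norm_pt, abs_of_pos hr]
  unfold rg_G
  rw [norm_pt, abs_of_pos hr]
  have : r ^ 2 ≠ 0 := pow_ne_zero 2 hr.ne'
  field_simp

/-! derivatives of the profile -/

private theorem rg_sig_diff : Differentiable ℝ Real.smoothTransition :=
  (Real.smoothTransition.contDiff (n := 1)).differentiable one_ne_zero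

private theorem rg_sig_zero {x : ℝ} (hx : x ≤ 0 ∨ 1 ≤ x) : deriv Real.smoothTransition x = 0 := by
  rcases hx with h | h
  · have h1 : IsLocalMin Real.smoothTransition x := by
      refine Filter.Eventually.of_forall fun y => ?_
      rw [Real.smoothTransition.zero_of_nonpos h]
      exact Real.smoothTransition.nonneg y
    exact h1.deriv_eq_zero
  · have h1 : IsLocalMax Real.smoothTransition x := by
      refine Filter.Eventually.of_forall fun y => ?_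
      rw [Real.smoothTransition.one_of_one_le h]
      exact Real.smoothTransition.le_one y
    exact h1.deriv_eq_zero

private theorem rg_sig_bound : ∃ S : ℝ, 1 ≤ S ∧ ∀ x, |deriv Real.smoothTransition x| ≤ S := by
  have hc : Continuous (deriv Real.smoothTransition) :=
    (Real.smoothTransition.contDiff (n := 1)).continuous_deriv le_rfl
  obtain ⟨M, hM⟩ := (isCompact_Icc (a := (0 : ℝ)) (b := 1)).exists_bound_of_continuousOn hc.continuousOn
  refine ⟨max 1 M, le_max_left _ _, fun x => ?_⟩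
  by_cases h : x ∈ Icc (0 : ℝ) 1
  · exact (hM x h).trans (le_max_right _ _)
  · have h1 : x ≤ 0 ∨ 1 ≤ x := by
      by_contra h2
      push Not at h2
      exact h ⟨h2.1.le, h2.2.le⟩
    rw [rg_sig_zero h1, abs_zero]
    exact zero_le_one.trans (le_max_left _ _)

private def rg_f' (n : ℕ) (r : ℝ) : ℝ := π * deriv Real.smoothTransition ((r - (n : ℝ) ^ 2 + 1) / 2)

private def rg_b' (n : ℕ) (r : ℝ) : ℝ :=
  ((n : ℝ) ^ 3 + 1) * (4 / (n : ℝ) ^ 2) * deriv Real.smoothTransition (4 * r / (n : ℝ) ^ 2 - 1)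

private theorem rg_hf (n : ℕ) (r : ℝ) : HasDerivAt (rg_f n) (rg_f' n r) r := by
  have h1 : HasDerivAt (fun r : ℝ => (r - (n : ℝ) ^ 2 + 1) / 2) (1 / 2) r :=
    (((hasDerivAt_id r).sub_const _).add_const _).div_const 2
  have h2 := ((rg_sig_diff _).hasDerivAt.comp r h1).const_mul (2 * π)
  refine h2.congr_deriv ?_
  unfold rg_f'
  ring

private theorem rg_hb (n : ℕ) (r : ℝ) : HasDerivAt (rg_b n) (rg_b' n r) r := by
  have h1 : HasDerivAt (fun r : ℝ => 4 * r / (n : ℝ) ^ 2 - 1) (4 * 1 / (n : ℝ) ^ 2) r :=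
    (((hasDerivAt_id r).const_mul 4).div_const _).sub_const _
  have h2 := ((rg_sig_diff _).hasDerivAt.comp r h1).const_mul ((n : ℝ) ^ 3 + 1)
  refine h2.congr_deriv ?_
  unfold rg_b'
  ring

private theorem rg_disj {n : ℕ} (hn : 2 ≤ n) (r : ℝ) : rg_f n r = 0 ∨ rg_b n r = (n : ℝ) ^ 3 + 1 := by
  have h4 := rg_sq hn
  rcases le_total r ((n : ℝ) ^ 2 - 1) with h | h
  · exact Or.inl (rg_f_zero h)
  · exact Or.inr (rg_b_one hn (by linarith))

/-! the energy density -/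

private theorem rg_Dw_er {n : ℕ} (hn : 2 ≤ n) {r : ℝ} (hr : 0 < r) (χ : ℝ) :
    (rg_c n).Dw (pt r χ) (er χ) =
      ((Real.cos (rg_f n r) * rg_f' n r : ℝ) : ℂ) * er (((n ^ 3 + 1 : ℕ) : ℝ) * χ) := by
  rw [(rg_rad hn).Dw_er]
  have hd : DifferentiableAt ℝ (rg_c n).w (pt r χ) := ((rg_sw hn).differentiable (by simp)) _
  have h1 : HasDerivAt (fun s => (rg_c n).w (pt s χ)) (fderiv ℝ (rg_c n).w (pt r χ) (er χ)) r :=
    hd.hasFDerivAt.comp_hasDerivAt r (hasDerivAt_pt_r r χ)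
  have h2 : HasDerivAt (fun s => ((Real.sin (rg_f n s) : ℝ) : ℂ) * er (((n ^ 3 + 1 : ℕ) : ℝ) * χ))
      (((Real.cos (rg_f n r) * rg_f' n r : ℝ) : ℂ) * er (((n ^ 3 + 1 : ℕ) : ℝ) * χ)) r :=
    ((rg_hf n r).sin.ofReal_comp).mul_const _
  have h3 : (fun s => (rg_c n).w (pt s χ)) =ᶠ[𝓝 r]
      fun s => ((Real.sin (rg_f n s) : ℝ) : ℂ) * er (((n ^ 3 + 1 : ℕ) : ℝ) * χ) := by
    filter_upwards [Ioi_mem_nhds hr] with s hs
    exact rg_w_pt hs χ
  exact h1.unique (h2.congr_of_eventuallyEq h3)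

private theorem rg_Dw_chi {n : ℕ} (hn : 2 ≤ n) {r : ℝ} (hr : 0 < r) (χ : ℝ) :
    (rg_c n).Dw (pt r χ) (Complex.I * pt r χ) = 0 := by
  rw [Cf.Dw_chi]
  have hd : DifferentiableAt ℝ (rg_c n).w (pt r χ) := ((rg_sw hn).differentiable (by simp)) _
  have h1 : HasDerivAt (fun χ => (rg_c n).w (pt r χ))
      (fderiv ℝ (rg_c n).w (pt r χ) (Complex.I * pt r χ)) χ :=
    hd.hasFDerivAt.comp_hasDerivAt χ (hasDerivAt_pt_chi r χ)
  have h2 : HasDerivAt (fun χ => ((Real.sin (rg_f n r) : ℝ) : ℂ) * pt 1 (((n ^ 3 + 1 : ℕ) : ℝ) * χ))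
      (((Real.sin (rg_f n r) : ℝ) : ℂ) *
        ((((n ^ 3 + 1 : ℕ) : ℝ) * 1 : ℝ) • (Complex.I * pt 1 (((n ^ 3 + 1 : ℕ) : ℝ) * χ)))) χ :=
    ((hasDerivAt_pt_chi 1 _).scomp χ ((hasDerivAt_id χ).const_mul _)).const_mul _
  have h3 : (fun χ => (rg_c n).w (pt r χ)) =
      fun χ => ((Real.sin (rg_f n r) : ℝ) : ℂ) * pt 1 (((n ^ 3 + 1 : ℕ) : ℝ) * χ) := by
    funext χ
    rw [rg_w_pt hr χ, pt_eq, Complex.ofReal_one, one_mul]
  rw [h3] at h1
  rw [h1.unique h2, rg_b_pt hr, rg_w_pt hr, pt_eq, Complex.real_smul]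
  rcases rg_disj hn r with h | h
  · rw [h]
    simp
  · rw [h]
    push_cast
    ring

private theorem rg_dh_er {n : ℕ} (hn : 2 ≤ n) {r : ℝ} (hr : 0 < r) (χ : ℝ) :
    (rg_c n).dh (pt r χ) (er χ) = -Real.sin (rg_f n r) * rg_f' n r := by
  have hd : DifferentiableAt ℝ (rg_c n).h (pt r χ) := ((rg_sh hn).differentiable (by simp)) _
  have h1 : HasDerivAt (fun s => (rg_c n).h (pt s χ)) (fderiv ℝ (rg_c n).h (pt r χ) (er χ)) r :=
    hd.hasFDerivAt.comp_hasDerivAt r (hasDerivAt_pt_r r χ)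
  have h2 : HasDerivAt (fun s => Real.cos (rg_f n s)) (-Real.sin (rg_f n r) * rg_f' n r) r :=
    (rg_hf n r).cos
  have h3 : (fun s => (rg_c n).h (pt s χ)) =ᶠ[𝓝 r] fun s => Real.cos (rg_f n s) := by
    filter_upwards [Ioi_mem_nhds hr] with s hs
    exact rg_h_pt (le_of_lt hs) χ
  exact h1.unique (h2.congr_of_eventuallyEq h3)

private theorem rg_dh_chi {n : ℕ} (hn : 2 ≤ n) {r : ℝ} (hr : 0 < r) (χ : ℝ) :
    (rg_c n).dh (pt r χ) (Complex.I * pt r χ) = 0 := by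
  have hd : DifferentiableAt ℝ (rg_c n).h (pt r χ) := ((rg_sh hn).differentiable (by simp)) _
  have h1 : HasDerivAt (fun χ => (rg_c n).h (pt r χ))
      (fderiv ℝ (rg_c n).h (pt r χ) (Complex.I * pt r χ)) χ :=
    hd.hasFDerivAt.comp_hasDerivAt χ (hasDerivAt_pt_chi r χ)
  have h3 : (fun χ => (rg_c n).h (pt r χ)) = fun _ => Real.cos (rg_f n r) := by
    funext χ
    exact rg_h_pt hr.le χ
  rw [h3] at h1
  exact h1.unique (hasDerivAt_const χ _)

private theorem rg_F {n : ℕ} (hn : 2 ≤ n) {r : ℝ} (hr : 0 < r) (χ : ℝ) :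
    (rg_c n).F (pt r χ) = rg_b' n r / r := by
  have h1 := (rg_rad hn).hasDerivAt_b r χ
  have h3 : (fun r => (rg_c n).b r χ) =ᶠ[𝓝 r] rg_b n := by
    filter_upwards [Ioi_mem_nhds hr] with s hs
    exact rg_b_pt hs χ
  have h2 := h1.unique ((rg_hb n r).congr_of_eventuallyEq h3)
  rw [← h2]
  field_simp

private theorem rg_dens {n : ℕ} (hn : 2 ≤ n) {r : ℝ} (hr : 0 < r) (χ : ℝ) :
    (rg_c n).dens (pt r χ) = rg_f' n r ^ 2 + (1 - Real.cos (rg_f n r)) ^ 2 + (rg_b' n r / r) ^ 2 := by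
  unfold Cf.dens
  rw [Cf.grad_polar _ hr.ne' χ, rg_F hn hr, rg_h_pt hr.le]
  unfold Cf.nsq
  rw [rg_Dw_er hn hr, rg_Dw_chi hn hr, rg_dh_er hn hr, rg_dh_chi hn hr, norm_mul, norm_er, mul_one,
    Complex.norm_real, Real.norm_eq_abs, sq_abs, norm_zero]
  have := Real.sin_sq_add_cos_sq (rg_f n r)
  have h2 : (Real.cos (rg_f n r) * rg_f' n r) ^ 2 + (-Real.sin (rg_f n r) * rg_f' n r) ^ 2 =
      rg_f' n r ^ 2 := by
    linear_combination (rg_f' n r ^ 2) * this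
  rw [h2]
  ring

/-- the radial integrand -/
private def rg_D (n : ℕ) (r : ℝ) : ℝ := r * ∫ χ in (0 : ℝ)..2 * π, (rg_c n).dens (0 + pt r χ)

private theorem rg_D_eq {n : ℕ} (hn : 2 ≤ n) {r : ℝ} (hr : 0 < r) :
    rg_D n r = 2 * π * (r * (rg_f' n r ^ 2 + (1 - Real.cos (rg_f n r)) ^ 2) + rg_b' n r ^ 2 / r) := by
  unfold rg_D
  simp only [zero_add, rg_dens hn hr]
  rw [intervalIntegral.integral_const, smul_eq_mul]
  field_simp
  ring

private theorem rg_f'_zero {n : ℕ} {r : ℝ} (h : r ≤ (n : ℝ) ^ 2 - 1 ∨ (n : ℝ) ^ 2 + 1 ≤ r) :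
    rg_f' n r = 0 := by
  unfold rg_f'
  rw [rg_sig_zero, mul_zero]
  rcases h with h | h
  · left
    linarith
  · right
    linarith

private theorem rg_b'_zero {n : ℕ} (hn : 2 ≤ n) {r : ℝ} (h : r ≤ (n : ℝ) ^ 2 / 4 ∨ (n : ℝ) ^ 2 / 2 ≤ r) :
    rg_b' n r = 0 := by
  unfold rg_b'
  have h4 := rg_sq hn
  rw [rg_sig_zero, mul_zero]
  rcases h with h | h
  · left
    rw [sub_nonpos, div_le_one (by linarith)]
    linarith
  · right
    rw [le_sub_iff_add_le, le_div_iff₀ (by linarith)]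
    linarith

private theorem rg_cos {n : ℕ} {r : ℝ} (h : r ≤ (n : ℝ) ^ 2 - 1 ∨ (n : ℝ) ^ 2 + 1 ≤ r) :
    1 - Real.cos (rg_f n r) = 0 := by
  rcases h with h | h
  · rw [rg_f_zero h, Real.cos_zero, sub_self]
  · rw [rg_f_late h, Real.cos_two_pi, sub_self]

private theorem rg_D_zero1 {n : ℕ} (hn : 2 ≤ n) {r : ℝ} (hr : 0 < r) (h : r ≤ (n : ℝ) ^ 2 / 4) :
    rg_D n r = 0 := by
  have h4 := rg_sq hn
  have h1 : r ≤ (n : ℝ) ^ 2 - 1 := by linarith
  rw [rg_D_eq hn hr, rg_f'_zero (Or.inl h1), rg_b'_zero hn (Or.inl h), rg_cos (Or.inl h1)]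
  simp

private theorem rg_D_zero2 {n : ℕ} (hn : 2 ≤ n) {r : ℝ} (h : (n : ℝ) ^ 2 / 2 ≤ r)
    (h1 : r ≤ (n : ℝ) ^ 2 - 1) : rg_D n r = 0 := by
  have h4 := rg_sq hn
  rw [rg_D_eq hn (by linarith), rg_f'_zero (Or.inl h1), rg_b'_zero hn (Or.inr h), rg_cos (Or.inl h1)]
  simp

private theorem rg_D_zero3 {n : ℕ} (hn : 2 ≤ n) {r : ℝ} (h : (n : ℝ) ^ 2 + 1 ≤ r) : rg_D n r = 0 := by
  have h4 := rg_sq hn
  rw [rg_D_eq hn (by linarith), rg_f'_zero (Or.inr h), rg_b'_zero hn (Or.inr (by linarith)),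
    rg_cos (Or.inr h)]
  simp

private theorem rg_D_nonneg {n : ℕ} (hn : 2 ≤ n) {r : ℝ} (hr : 0 < r) : 0 ≤ rg_D n r := by
  rw [rg_D_eq hn hr]
  have := Real.pi_pos
  positivity

private theorem rg_D_b1 {n : ℕ} (hn : 2 ≤ n) {S : ℝ} (hS : ∀ x, |deriv Real.smoothTransition x| ≤ S)
    {r : ℝ} (h1 : (n : ℝ) ^ 2 / 4 < r) (h2 : r ≤ (n : ℝ) ^ 2 / 2) :
    |rg_D n r| ≤ 512 * π * S ^ 2 := by
  have h4 := rg_sq hn
  have hr : 0 < r := by linarith
  have hp := Real.pi_pos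
  have hf : r ≤ (n : ℝ) ^ 2 - 1 := by linarith
  rw [abs_of_nonneg (rg_D_nonneg hn hr), rg_D_eq hn hr, rg_f'_zero (Or.inl hf), rg_cos (Or.inl hf)]
  have hd : deriv Real.smoothTransition (4 * r / (n : ℝ) ^ 2 - 1) ^ 2 ≤ S ^ 2 := by
    rw [← sq_abs]
    have := hS (4 * r / (n : ℝ) ^ 2 - 1)
    have h0 := abs_nonneg (deriv Real.smoothTransition (4 * r / (n : ℝ) ^ 2 - 1))
    gcongr
  have hn0 : (0 : ℝ) < n := by
    have : (2 : ℝ) ≤ n := by exact_mod_cast hn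
    linarith
  have hN : (n : ℝ) ^ 3 + 1 ≤ 2 * (n : ℝ) ^ 3 := by
    have : (1 : ℝ) ≤ (n : ℝ) ^ 3 := one_le_pow₀ (by
      have : (2 : ℝ) ≤ n := by exact_mod_cast hn
      linarith)
    linarith
  have hb : rg_b' n r ^ 2 ≤ 64 * (n : ℝ) ^ 2 * S ^ 2 := by
    unfold rg_b'
    rw [mul_pow]
    have h5 : (((n : ℝ) ^ 3 + 1) * (4 / (n : ℝ) ^ 2)) ^ 2 ≤ 64 * (n : ℝ) ^ 2 := by
      have h6 : ((n : ℝ) ^ 3 + 1) * (4 / (n : ℝ) ^ 2) ≤ 8 * (n : ℝ) := by
        calc ((n : ℝ) ^ 3 + 1) * (4 / (n : ℝ) ^ 2) ≤ (2 * (n : ℝ) ^ 3) * (4 / (n : ℝ) ^ 2) := by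
              gcongr
          _ = 8 * (n : ℝ) := by
              field_simp
              ring
      have h7 : 0 ≤ ((n : ℝ) ^ 3 + 1) * (4 / (n : ℝ) ^ 2) := by positivity
      calc (((n : ℝ) ^ 3 + 1) * (4 / (n : ℝ) ^ 2)) ^ 2 ≤ (8 * (n : ℝ)) ^ 2 := by gcongr
        _ = 64 * (n : ℝ) ^ 2 := by ring
    calc _ ≤ (64 * (n : ℝ) ^ 2) * S ^ 2 := by gcongr
      _ = _ := by ring
  have h8 : rg_b' n r ^ 2 / r ≤ 256 * S ^ 2 := by
    rw [div_le_iff₀ hr]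
    have : 0 ≤ S ^ 2 := sq_nonneg S
    nlinarith
  have h9 : 2 * π * (r * (0 ^ 2 + 0 ^ 2) + rg_b' n r ^ 2 / r) = 2 * π * (rg_b' n r ^ 2 / r) := by ring
  rw [h9]
  nlinarith

private theorem rg_D_b2 {n : ℕ} (hn : 2 ≤ n) {S : ℝ} (hS : ∀ x, |deriv Real.smoothTransition x| ≤ S)
    {r : ℝ} (h1 : (n : ℝ) ^ 2 - 1 < r) (h2 : r ≤ (n : ℝ) ^ 2 + 1) :
    |rg_D n r| ≤ 4 * π * (n : ℝ) ^ 2 * (π ^ 2 * S ^ 2 + 4) := by
  have h4 := rg_sq hn
  have hr : 0 < r := by linarith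
  have hp := Real.pi_pos
  rw [abs_of_nonneg (rg_D_nonneg hn hr), rg_D_eq hn hr, rg_b'_zero hn (Or.inr (by linarith))]
  have hd : rg_f' n r ^ 2 ≤ π ^ 2 * S ^ 2 := by
    unfold rg_f'
    rw [mul_pow]
    have := hS ((r - (n : ℝ) ^ 2 + 1) / 2)
    have h0 := abs_nonneg (deriv Real.smoothTransition ((r - (n : ℝ) ^ 2 + 1) / 2))
    rw [← sq_abs (deriv Real.smoothTransition _)]
    gcongr
  have hc : (1 - Real.cos (rg_f n r)) ^ 2 ≤ 4 := by
    have := Real.neg_one_le_cos (rg_f n r)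
    have := Real.cos_le_one (rg_f n r)
    nlinarith
  have h5 : r ≤ 2 * (n : ℝ) ^ 2 := by linarith
  have h6 : r * (rg_f' n r ^ 2 + (1 - Real.cos (rg_f n r)) ^ 2) ≤
      2 * (n : ℝ) ^ 2 * (π ^ 2 * S ^ 2 + 4) := by
    have : 0 ≤ rg_f' n r ^ 2 + (1 - Real.cos (rg_f n r)) ^ 2 := by positivity
    calc _ ≤ 2 * (n : ℝ) ^ 2 * (rg_f' n r ^ 2 + (1 - Real.cos (rg_f n r)) ^ 2) := by gcongr
      _ ≤ _ := by gcongr
  have h7 : (0 : ℝ) ^ 2 / r = 0 := by simp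
  rw [h7, add_zero]
  nlinarith

private theorem rg_cD {n : ℕ} (hcd : Continuous (rg_c n).dens) : Continuous (rg_D n) :=
  continuous_id.mul (continuous_circle _ hcd 0 0 (2 * π))

private theorem rg_D_intOn {n : ℕ} (hn : 2 ≤ n) (hcd : Continuous (rg_c n).dens) :
    IntegrableOn (rg_D n) (Ioi 0) := by
  have h4 := rg_sq hn
  have h1 : IntegrableOn (rg_D n) (Ioc 0 ((n : ℝ) ^ 2 + 1)) :=
    ((rg_cD hcd).integrableOn_Icc).mono_set Ioc_subset_Icc_self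
  have h2 : IntegrableOn (rg_D n) (Ioi ((n : ℝ) ^ 2 + 1)) := by
    have h3 : IntegrableOn (fun _ : ℝ => (0 : ℝ)) (Ioi ((n : ℝ) ^ 2 + 1)) := integrableOn_zero
    exact h3.congr_fun (fun r hr => (rg_D_zero3 hn (le_of_lt hr)).symm) measurableSet_Ioi
  rw [← Ioc_union_Ioi_eq_Ioi (show (0 : ℝ) ≤ (n : ℝ) ^ 2 + 1 by positivity)]
  exact h1.union h2

private theorem rg_D_int {n : ℕ} (hn : 2 ≤ n) (hcd : Continuous (rg_c n).dens) {S : ℝ}
    (hS : ∀ x, |deriv Real.smoothTransition x| ≤ S) :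
    ∫ r in Ioi (0 : ℝ), rg_D n r ≤ (n : ℝ) ^ 2 * (128 * π * S ^ 2 + 8 * π * (π ^ 2 * S ^ 2 + 4)) := by
  have h4 := rg_sq hn
  have hc := rg_cD hcd
  have hI : ∀ a b, IntervalIntegrable (rg_D n) volume a b := fun a b => hc.intervalIntegrable a b
  have e1 : ∫ r in Ioi (0 : ℝ), rg_D n r = ∫ r in (0 : ℝ)..(n : ℝ) ^ 2 + 1, rg_D n r := by
    rw [intervalIntegral.integral_of_le (by positivity)]
    refine setIntegral_eq_of_subset_of_forall_sdiff_eq_zero measurableSet_Ioi Ioc_subset_Ioi_self ?_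
    intro r hr
    refine rg_D_zero3 hn ?_
    by_contra h
    exact hr.2 ⟨hr.1, le_of_lt (not_le.1 h)⟩
  have z1 : ∫ r in (0 : ℝ)..(n : ℝ) ^ 2 / 4, rg_D n r = 0 := by
    rw [intervalIntegral.integral_of_le (by positivity)]
    exact setIntegral_eq_zero_of_forall_eq_zero fun r hr => rg_D_zero1 hn hr.1 hr.2
  have z2 : ∫ r in (n : ℝ) ^ 2 / 2..(n : ℝ) ^ 2 - 1, rg_D n r = 0 := by
    rw [intervalIntegral.integral_of_le (by linarith)]
    exact setIntegral_eq_zero_of_forall_eq_zero fun r hr => rg_D_zero2 hn hr.1.le hr.2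
  have b1 : |∫ r in (n : ℝ) ^ 2 / 4..(n : ℝ) ^ 2 / 2, rg_D n r| ≤
      512 * π * S ^ 2 * |(n : ℝ) ^ 2 / 2 - (n : ℝ) ^ 2 / 4| := by
    have := intervalIntegral.norm_integral_le_of_norm_le_const (a := (n : ℝ) ^ 2 / 4)
      (b := (n : ℝ) ^ 2 / 2) (f := rg_D n) (C := 512 * π * S ^ 2) fun r hr => by
        rw [uIoc_of_le (by linarith)] at hr
        rw [Real.norm_eq_abs]
        exact rg_D_b1 hn hS hr.1 hr.2
    rwa [Real.norm_eq_abs] at this
  have b2 : |∫ r in (n : ℝ) ^ 2 - 1..(n : ℝ) ^ 2 + 1, rg_D n r| ≤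
      4 * π * (n : ℝ) ^ 2 * (π ^ 2 * S ^ 2 + 4) * |(n : ℝ) ^ 2 + 1 - ((n : ℝ) ^ 2 - 1)| := by
    have := intervalIntegral.norm_integral_le_of_norm_le_const (a := (n : ℝ) ^ 2 - 1)
      (b := (n : ℝ) ^ 2 + 1) (f := rg_D n) (C := 4 * π * (n : ℝ) ^ 2 * (π ^ 2 * S ^ 2 + 4)) fun r hr => by
        rw [uIoc_of_le (by linarith)] at hr
        rw [Real.norm_eq_abs]
        exact rg_D_b2 hn hS hr.1 hr.2
    rwa [Real.norm_eq_abs] at this
  have s1 := intervalIntegral.integral_add_adjacent_intervals (hI 0 ((n : ℝ) ^ 2 / 4))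
    (hI ((n : ℝ) ^ 2 / 4) ((n : ℝ) ^ 2 / 2))
  have s2 := intervalIntegral.integral_add_adjacent_intervals (hI 0 ((n : ℝ) ^ 2 / 2))
    (hI ((n : ℝ) ^ 2 / 2) ((n : ℝ) ^ 2 - 1))
  have s3 := intervalIntegral.integral_add_adjacent_intervals (hI 0 ((n : ℝ) ^ 2 - 1))
    (hI ((n : ℝ) ^ 2 - 1) ((n : ℝ) ^ 2 + 1))
  rw [abs_of_nonneg (show (0 : ℝ) ≤ (n : ℝ) ^ 2 / 2 - (n : ℝ) ^ 2 / 4 by linarith)] at b1
  rw [show (n : ℝ) ^ 2 + 1 - ((n : ℝ) ^ 2 - 1) = 2 by ring, abs_two] at b2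
  have c1 := (abs_le.1 b1).2
  have c2 := (abs_le.1 b2).2
  rw [e1, ← s3, ← s2, ← s1, z1, z2]
  linarith

private theorem rg_cdens {n : ℕ} (hn : 2 ≤ n) : Continuous (rg_c n).dens := by
  have hw := (rg_sw hn).continuous
  have hh := (rg_sh hn).continuous
  have hA := (rg_sA hn).continuous
  have hw' : ∀ v : ℂ, Continuous fun z => fderiv ℝ (rg_c n).w z v := fun v =>
    ((rg_sw hn).continuous_fderiv (by simp)).clm_apply continuous_const
  have hh' : ∀ v : ℂ, Continuous fun z => fderiv ℝ (rg_c n).h z v := fun v =>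
    ((rg_sh hn).continuous_fderiv (by simp)).clm_apply continuous_const
  have hA' : ∀ v : ℂ, Continuous fun z => fderiv ℝ (rg_c n).A z v := fun v =>
    ((rg_sA hn).continuous_fderiv (by simp)).clm_apply continuous_const
  have hip : ∀ v : ℂ, Continuous fun z => ip ((rg_c n).A z) v := by
    intro v
    unfold ip
    exact ((Complex.continuous_re.comp hA).mul continuous_const).add
      ((Complex.continuous_im.comp hA).mul continuous_const)
  have hD : ∀ v : ℂ, Continuous fun z => (rg_c n).Dw z v := by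
    intro v
    unfold Cf.Dw
    exact (hw' v).sub ((continuous_const.mul (Complex.continuous_ofReal.comp (hip v))).mul hw)
  have hN : ∀ v : ℂ, Continuous fun z => (rg_c n).nsq z v := by
    intro v
    unfold Cf.nsq
    exact ((hD v).norm.pow 2).add ((hh' v).pow 2)
  have hF : Continuous (rg_c n).F := by
    unfold Cf.F
    exact (Complex.continuous_im.comp (hA' 1)).sub (Complex.continuous_re.comp (hA' Complex.I))
  unfold Cf.dens Cf.grad
  exact (((hN 1).add (hN Complex.I)).add ((continuous_const.sub hh).pow 2)).add (hF.pow 2)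

private theorem rg_unit {n : ℕ} (hn : 2 ≤ n) (z : ℂ) : ‖(rg_c n).w z‖ ^ 2 + (rg_c n).h z ^ 2 = 1 := by
  have h4 := rg_sq hn
  obtain ⟨χ, -, hz⟩ := exists_pt z
  rcases (norm_nonneg z).eq_or_lt with h | h
  · have h0 : z = 0 := norm_eq_zero.1 h.symm
    rw [h0]
    have h1 : rg_f n ‖(0 : ℂ)‖ = 0 := rg_f_zero (by rw [norm_zero]; linarith)
    show ‖(Real.sin (rg_f n ‖(0 : ℂ)‖) : ℂ) * _‖ ^ 2 + Real.cos (rg_f n ‖(0 : ℂ)‖) ^ 2 = 1
    rw [h1, Real.sin_zero, Real.cos_zero, Complex.ofReal_zero, zero_mul, norm_zero]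
    norm_num
  · rw [hz, rg_w_pt h, rg_h_pt h.le, norm_mul, norm_er, mul_one, Complex.norm_real, Real.norm_eq_abs,
      sq_abs]
    exact Real.sin_sq_add_cos_sq _

private theorem rg_nze (n : ℕ) (z : ℂ) : ‖ze n * z‖ = ‖z‖ := by
  rw [norm_mul, norm_ze, one_mul]

private theorem rg_adm {n : ℕ} (hn : 2 ≤ n) : (rg_c n).Adm n where
  sw := rg_sw hn
  sh := rg_sh hn
  sA := rg_sA hn
  unit := rg_unit hn
  fin := polar_integrable _ (rg_cdens hn) (fun z => Cf.dens_nonneg _ z) 0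
    (rg_D_intOn hn (rg_cdens hn))
  rw := by
    intro z
    show (Real.sin (rg_f n ‖ze n * z‖) : ℂ) * (((‖ze n * z‖⁻¹ : ℝ) : ℂ) * (ze n * z)) ^ (n ^ 3 + 1) =
      ze n * ((Real.sin (rg_f n ‖z‖) : ℂ) * (((‖z‖⁻¹ : ℝ) : ℂ) * z) ^ (n ^ 3 + 1))
    rw [rg_nze, mul_left_comm _ (ze n) z, mul_pow, pow_succ (ze n), ze_pow (by omega), one_mul]
    ring
  rh := by
    intro z
    show Real.cos (rg_f n ‖ze n * z‖) = Real.cos (rg_f n ‖z‖)
    rw [rg_nze]
  rA := by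
    intro z
    show Complex.I * (ze n * z) * (rg_G n (ze n * z) : ℂ) = ze n * (Complex.I * z * (rg_G n z : ℂ))
    have : rg_G n (ze n * z) = rg_G n z := by
      unfold rg_G
      rw [rg_nze]
    rw [this]
    ring
  cw := by
    intro z
    show (Real.sin (rg_f n ‖star z‖) : ℂ) * (((‖star z‖⁻¹ : ℝ) : ℂ) * star z) ^ (n ^ 3 + 1) =
      star ((Real.sin (rg_f n ‖z‖) : ℂ) * (((‖z‖⁻¹ : ℝ) : ℂ) * z) ^ (n ^ 3 + 1))
    rw [norm_star, Complex.star_def, map_mul, map_pow, map_mul, Complex.conj_ofReal,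
      Complex.conj_ofReal]
  ch := by
    intro z
    show Real.cos (rg_f n ‖star z‖) = Real.cos (rg_f n ‖z‖)
    rw [norm_star]
  cA := by
    intro z
    show Complex.I * star z * (rg_G n (star z) : ℂ) = -star (Complex.I * z * (rg_G n z : ℂ))
    have : rg_G n (star z) = rg_G n z := by
      unfold rg_G
      rw [norm_star]
    rw [this, Complex.star_def, map_mul, map_mul, Complex.conj_ofReal, Complex.conj_I]
    ring

private theorem rg_cc {n : ℕ} (hn : 2 ≤ n) {r : ℝ} (hr : 0 ≤ r) :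
    (rg_c n).cc n r = Real.cos (rg_f n r) := by
  have hal := al_pos (show 0 < n by omega)
  unfold Cf.cc
  simp only [rg_h_pt hr]
  rw [intervalIntegral.integral_const, smul_eq_mul]
  field_simp
  ring

private theorem rg_B {n : ℕ} {r : ℝ} (hr : 0 < r) (χ : ℝ) : (rg_c n).B r χ = rg_b n r * χ := by
  unfold Cf.B
  simp only [rg_b_pt hr]
  rw [intervalIntegral.integral_const, smul_eq_mul]
  ring

private theorem rg_V {n : ℕ} (hn : 2 ≤ n) {r : ℝ} (hr : 0 ≤ r) :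
    (rg_c n).V n r = (Real.sin (rg_f n r) : ℂ) := by
  have h4 := rg_sq hn
  have hal := al_pos (show 0 < n by omega)
  have key : ∀ χ, (rg_c n).w (pt r χ) * Complex.exp (-((rg_c n).B r χ : ℂ) * Complex.I) =
      (Real.sin (rg_f n r) : ℂ) := by
    intro χ
    by_cases hf : rg_f n r = 0
    · have : (rg_c n).w (pt r χ) = 0 := by
        show (Real.sin (rg_f n ‖pt r χ‖) : ℂ) * _ = 0
        rw [norm_pt, abs_of_nonneg hr, hf, Real.sin_zero, Complex.ofReal_zero, zero_mul]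
      rw [this, hf]
      simp
    · have hr0 : 0 < r := by
        rcases hr.eq_or_lt with h | h
        · exact absurd (rg_f_zero (by rw [← h]; linarith)) hf
        · exact h
      have hb : rg_b n r = (n : ℝ) ^ 3 + 1 := (rg_disj hn r).resolve_left hf
      rw [rg_w_pt hr0, rg_B hr0, hb]
      unfold er
      rw [mul_assoc, ← Complex.exp_add]
      have : (((((n ^ 3 + 1 : ℕ) : ℝ) * χ : ℝ) : ℂ) * Complex.I +
          -((((n : ℝ) ^ 3 + 1) * χ : ℝ) : ℂ) * Complex.I) = 0 := by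
        push_cast
        ring
      rw [this, Complex.exp_zero, mul_one]
  unfold Cf.V
  simp only [key]
  rw [intervalIntegral.integral_const, sub_zero, Complex.real_smul, ← mul_assoc, ← Complex.ofReal_mul,
    one_div, inv_mul_cancel₀ hal.ne', Complex.ofReal_one, one_mul]

private theorem rg_aa {n : ℕ} (hn : 2 ≤ n) {r : ℝ} (h : (n : ℝ) ^ 2 - 1 < r) : (rg_c n).aa n r = π := by
  have h4 := rg_sq hn
  have hal := al_pos (show 0 < n by omega)
  have hr : 0 < r := by linarith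
  have hn0 : (n : ℝ) ≠ 0 := by
    have : (2 : ℝ) ≤ n := by exact_mod_cast hn
    linarith
  unfold Cf.aa Cf.beta
  rw [rg_B hr, rg_b_one hn (by linarith), mul_div_assoc, div_self hal.ne', mul_one, add_sub_cancel_right]
  unfold al
  field_simp

private theorem rg_psi : psi π = 1 := by
  unfold psi
  simp

private theorem rg_Z {n : ℕ} (hn : 2 ≤ n) {r : ℝ} (hr : 0 ≤ r) :
    (rg_c n).Z n r = Complex.exp (rg_f n r * Complex.I) := by
  unfold Cf.Z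
  rw [rg_cc hn hr, rg_V hn hr, Complex.ofReal_re]
  rcases le_or_gt r ((n : ℝ) ^ 2 - 1) with h | h
  · rw [rg_f_zero h]
    simp
  · rw [rg_aa hn h, rg_psi, Complex.exp_mul_I, ← Complex.ofReal_cos, ← Complex.ofReal_sin]
    push_cast
    ring

private theorem rg_wind {n : ℕ} (hn : 2 ≤ n) : (rg_c n).Wind n := by
  have h4 := rg_sq hn
  refine ⟨rg_f n, (rg_contDiff_f n).continuous.continuousOn, rg_f_zero (by linarith), ?_, ?_⟩
  · intro r hr
    rw [rg_Z hn hr, Complex.norm_exp_ofReal_mul_I, Complex.ofReal_one, one_mul]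
  · refine tendsto_const_nhds.congr' ?_
    filter_upwards [eventually_ge_atTop ((n : ℝ) ^ 2 + 1)] with r hr
    exact (rg_f_late hr).symm

theorem ring : ∃ K : ℝ, 1 ≤ K ∧ ∀ n : ℕ, 2 ≤ n → ∃ c : Cf, c.Cls n 1 ∧ c.Rad ∧ c.E ≤ K * n ^ 2 := by
  obtain ⟨S, hS1, hS⟩ := rg_sig_bound
  have hp := Real.pi_pos
  refine ⟨1 + (64 * π * S ^ 2 + 4 * π * (π ^ 2 * S ^ 2 + 4)), ?_, fun n hn => ⟨rg_c n, ?_, rg_rad hn, ?_⟩⟩
  · have : 0 ≤ 64 * π * S ^ 2 + 4 * π * (π ^ 2 * S ^ 2 + 4) := by positivity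
    linarith
  · refine ⟨rg_adm hn, rg_wind hn, ?_⟩
    have h4 := rg_sq hn
    show Real.cos (rg_f n ‖(0 : ℂ)‖) = 1
    rw [norm_zero, rg_f_zero (by linarith), Real.cos_zero]
  · unfold Cf.E
    rw [polar_integral _ (rg_adm hn).fin 0]
    have h := rg_D_int hn (rg_cdens hn) hS
    unfold rg_D at h
    have hn2 : 0 ≤ (n : ℝ) ^ 2 := sq_nonneg _
    nlinarith

end GO3
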