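import Pool.Agent.GO3.Sym

/-! GO3 / Sec: sectors `Sec n k = {r e^{iχ} : r > 0, |χ - k α| < α}` (`k ∈ ℤ`) around the ray `χ = k α`.

Elementary facts; `m = n³`, `α = π / m ≤ π / 8`. `Sec n k` is the image of the right sector `k = 0` under
multiplication by `er (k α)`; `z ∈ Sec n 0` iff `z.re > 0 ∧ |z.im| < tan α z.re` (or use `Complex.arg`).
Rotation by `ζ^l` maps `Sec n k` to `Sec n (k + 2 l)`; for `0 < l < m` these are disjoint; the reflection
`z ↦ er (2 k α) conj z` maps `Sec n k` to itself. The rays `χ = (k + 1 + 2 l) α` do not meet `Sec n k`.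
The distance of `pt ρ (k α)` to the boundary lines is `ρ sin α`. -/

open MeasureTheory Filter Topology Set
open scoped ContDiff Real

noncomputable section

namespace GO3

/-- the sector around the ray `χ = k α` -/
def Sec (n : ℕ) (k : ℤ) : Set ℂ := {z | ∃ r χ : ℝ, 0 < r ∧ |χ - k * al n| < al n ∧ z = pt r χ}

/-- the reflection at the ray `χ = k α` -/
def rfl' (n : ℕ) (k : ℤ) (z : ℂ) : ℂ := er (2 * k * al n) * star z

variable {n : ℕ}

private theorem s_er_add (a b : ℝ) : er (a + b) = er a * er b := by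
  unfold er
  rw [← Complex.exp_add]
  congr 1
  push_cast
  ring

private theorem s_er_zero : er 0 = 1 := by
  unfold er
  simp

private theorem s_er_neg (a : ℝ) : er (-a) * er a = 1 := by
  rw [← s_er_add, neg_add_cancel, s_er_zero]

private theorem s_er_pt (a r χ : ℝ) : er a * pt r χ = pt r (χ + a) := by
  rw [pt_eq, pt_eq, s_er_add]
  ring

private theorem s_er_re (a : ℝ) : (er a).re = Real.cos a := by
  unfold er
  exact Complex.exp_ofReal_mul_I_re a

private theorem s_er_im (a : ℝ) : (er a).im = Real.sin a := by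
  unfold er
  exact Complex.exp_ofReal_mul_I_im a

private theorem s_al (hn : 2 ≤ n) : 0 < al n ∧ al n ≤ π / 8 := by
  have h1 : (8 : ℝ) ≤ (n : ℝ) ^ 3 := by
    have h2 : (2 : ℝ) ≤ n := by exact_mod_cast hn
    calc (8 : ℝ) = 2 ^ 3 := by norm_num
      _ ≤ (n : ℝ) ^ 3 := by gcongr
  refine ⟨al_pos (by omega), ?_⟩
  unfold al
  gcongr

private theorem s_ze_zpow (n : ℕ) (l : ℤ) : ze n ^ l = er (2 * l * al n) := by
  have h1 : ze n = Complex.exp ((2 * al n : ℝ) * Complex.I) := ze_eq n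
  rw [h1, ← Complex.exp_int_mul]
  unfold er
  congr 1
  push_cast
  ring

/-- polar coordinates are unique up to multiples of `2 π = 2 n³ α` -/
private theorem s_pt_inj (hn : 2 ≤ n) {r r' χ χ' : ℝ} (hr : 0 < r) (hr' : 0 < r')
    (h : pt r χ = pt r' χ') : ∃ m : ℤ, χ = χ' + 2 * ((n : ℝ) ^ 3 * m) * al n := by
  have h1 : r = r' := by
    have := congrArg norm h
    rwa [norm_pt, norm_pt, abs_of_pos hr, abs_of_pos hr'] at this
  subst h1
  have h2 : Complex.exp (χ * Complex.I) = Complex.exp (χ' * Complex.I) := by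
    unfold pt at h
    exact mul_left_cancel₀ (by exact_mod_cast hr.ne') h
  obtain ⟨m, hm⟩ := Complex.exp_eq_exp_iff_exists_int.1 h2
  refine ⟨m, ?_⟩
  have h3 : (χ : ℂ) = χ' + m * (2 * π) := by
    have h4 : (χ : ℂ) * Complex.I = (χ' + m * (2 * π)) * Complex.I := by
      rw [hm]
      ring
    exact mul_right_cancel₀ Complex.I_ne_zero h4
  have h5 : χ = χ' + m * (2 * π) := by exact_mod_cast h3
  have hn3 : (n : ℝ) ^ 3 ≠ 0 := by positivity
  rw [h5]
  unfold al
  field_simp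

private theorem s_Sec_er (k j : ℤ) (z : ℂ) : er (j * al n) * z ∈ Sec n (k + j) ↔ z ∈ Sec n k := by
  constructor
  · rintro ⟨r, χ, hr, hχ, h⟩
    refine ⟨r, χ - j * al n, hr, ?_, ?_⟩
    · have e : χ - j * al n - k * al n = χ - (k + j : ℤ) * al n := by
        push_cast
        ring
      rwa [e]
    · have h1 : er (-(j * al n)) * (er (j * al n) * z) = z := by
        rw [← mul_assoc, s_er_neg, one_mul]
      rw [← h1, h, s_er_pt, sub_eq_add_neg]
  · rintro ⟨r, χ, hr, hχ, rfl⟩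
    refine ⟨r, χ + j * al n, hr, ?_, s_er_pt _ _ _⟩
    have e : χ + j * al n - (k + j : ℤ) * al n = χ - k * al n := by
      push_cast
      ring
    rwa [e]

/-- the linear description of the right sector -/
private theorem s_Sec0 (hn : 2 ≤ n) (z : ℂ) :
    z ∈ Sec n 0 ↔ |z.im| * Real.cos (al n) < z.re * Real.sin (al n) := by
  obtain ⟨ha, ha'⟩ := s_al hn
  have hπ := Real.pi_pos
  have hs : 0 < Real.sin (al n) := Real.sin_pos_of_pos_of_lt_pi ha (by linarith)
  have hc : 0 < Real.cos (al n) := Real.cos_pos_of_mem_Ioo ⟨by linarith, by linarith⟩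
  have hre : ∀ r χ : ℝ, (pt r χ).re = r * Real.cos χ := by
    intro r χ
    rw [pt_eq, Complex.re_ofReal_mul, s_er_re]
  have him : ∀ r χ : ℝ, (pt r χ).im = r * Real.sin χ := by
    intro r χ
    rw [pt_eq, Complex.im_ofReal_mul, s_er_im]
  constructor
  · rintro ⟨r, χ, hr, hχ, rfl⟩
    rw [hre, him]
    rw [Int.cast_zero, zero_mul, sub_zero] at hχ
    have h1 : |r * Real.sin χ| = r * Real.sin |χ| := by
      rw [abs_mul, abs_of_pos hr]
      congr 1
      rcases le_total 0 χ with h | h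
      · rw [abs_of_nonneg h] at hχ ⊢
        exact abs_of_nonneg (Real.sin_nonneg_of_nonneg_of_le_pi h (by linarith))
      · rw [abs_of_nonpos h] at hχ ⊢
        rw [Real.sin_neg]
        exact abs_of_nonpos (Real.sin_nonpos_of_nonpos_of_neg_pi_le h (by linarith))
    have h2 : Real.cos χ = Real.cos |χ| := (Real.cos_abs χ).symm
    rw [h1, h2]
    have h3 : Real.sin (|χ| - al n) < 0 :=
      Real.sin_neg_of_neg_of_neg_pi_lt (by linarith) (by have := abs_nonneg χ; linarith)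
    rw [Real.sin_sub] at h3
    nlinarith
  · intro h
    have h1 : 0 < z.re := by
      by_contra h2
      have h3 : z.re * Real.sin (al n) ≤ 0 := mul_nonpos_of_nonpos_of_nonneg (not_lt.1 h2) hs.le
      have h4 : 0 ≤ |z.im| * Real.cos (al n) := mul_nonneg (abs_nonneg _) hc.le
      linarith
    have h2 : |Complex.arg z| < π / 2 := Complex.abs_arg_lt_pi_div_two_iff.2 (Or.inl h1)
    have hz : z ≠ 0 := by
      rintro rfl
      simp at h1
    have hr : 0 < ‖z‖ := norm_pos_iff.2 hz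
    have h3 : z = pt ‖z‖ (Complex.arg z) := (Complex.norm_mul_exp_arg_mul_I z).symm
    refine ⟨‖z‖, Complex.arg z, hr, ?_, h3⟩
    rw [Int.cast_zero, zero_mul, sub_zero]
    obtain ⟨r, hr'⟩ : ∃ r, r = ‖z‖ := ⟨_, rfl⟩
    obtain ⟨χ, hχ⟩ : ∃ χ, χ = Complex.arg z := ⟨_, rfl⟩
    rw [← hr', ← hχ] at h3
    rw [← hχ] at h2 ⊢
    rw [← hr'] at hr
    rw [h3, hre, him] at h
    have h5 : |r * Real.sin χ| = r * Real.sin |χ| := by
      rw [abs_mul, abs_of_pos hr]
      congr 1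
      rcases le_total 0 χ with h | h
      · rw [abs_of_nonneg h] at h2 ⊢
        exact abs_of_nonneg (Real.sin_nonneg_of_nonneg_of_le_pi h (by linarith))
      · rw [abs_of_nonpos h] at h2 ⊢
        rw [Real.sin_neg]
        exact abs_of_nonpos (Real.sin_nonpos_of_nonpos_of_neg_pi_le h (by linarith))
    rw [h5, ← Real.cos_abs χ] at h
    by_contra h6
    have h7 : 0 ≤ Real.sin (|χ| - al n) :=
      Real.sin_nonneg_of_nonneg_of_le_pi (by linarith) (by linarith)
    rw [Real.sin_sub] at h7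
    nlinarith

private theorem s_Sec_iff (hn : 2 ≤ n) (k : ℤ) (z : ℂ) :
    z ∈ Sec n k ↔ |(er (-(k * al n)) * z).im| * Real.cos (al n) <
      (er (-(k * al n)) * z).re * Real.sin (al n) := by
  rw [← s_Sec0 hn]
  have h1 := s_Sec_er (n := n) k (-k) z
  rw [add_neg_cancel] at h1
  have e : er ((-k : ℤ) * al n) = er (-(k * al n)) := by
    congr 1
    push_cast
    ring
  rw [e] at h1
  exact h1.symm

theorem Sec_open (hn : 2 ≤ n) (k : ℤ) : IsOpen (Sec n k) := by
  have h : Sec n k = {z | |(er (-(k * al n)) * z).im| * Real.cos (al n) <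
      (er (-(k * al n)) * z).re * Real.sin (al n)} := Set.ext fun z => s_Sec_iff hn k z
  rw [h]
  apply isOpen_lt
  · exact ((Complex.continuous_im.comp (continuous_const.mul continuous_id)).abs).mul
      continuous_const
  · exact (Complex.continuous_re.comp (continuous_const.mul continuous_id)).mul continuous_const

theorem zero_notMem_Sec (k : ℤ) : (0 : ℂ) ∉ Sec n k := by
  rintro ⟨r, χ, hr, _, h⟩
  have h1 := congrArg norm h
  rw [norm_pt, norm_zero, abs_of_pos hr] at h1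
  exact hr.ne h1

theorem Sec_rot (hn : 2 ≤ n) (k l : ℤ) (z : ℂ) : ze n ^ l * z ∈ Sec n (k + 2 * l) ↔ z ∈ Sec n k := by
  have h := s_Sec_er (n := n) k (2 * l) z
  have e : er ((2 * l : ℤ) * al n) = ze n ^ l := by
    rw [s_ze_zpow]
    congr 1
    push_cast
    ring
  rwa [e] at h

theorem Sec_disj (hn : 2 ≤ n) (k : ℤ) {l l' : ℕ} (hl : l < n ^ 3) (hl' : l' < n ^ 3) (h : l ≠ l') :
    Disjoint (Sec n (k + 2 * (l : ℤ))) (Sec n (k + 2 * (l' : ℤ))) := by
  obtain ⟨ha, ha'⟩ := s_al hn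
  rw [Set.disjoint_left]
  rintro z ⟨r, χ, hr, hχ, h1⟩ ⟨r', χ', hr', hχ', h2⟩
  obtain ⟨m, hm⟩ := s_pt_inj hn hr hr' (h1.symm.trans h2)
  have h3 : |2 * ((n : ℝ) ^ 3 * m) * al n - (2 * (l : ℝ) - 2 * l') * al n| < 2 * al n := by
    push_cast at hχ hχ'
    rw [abs_lt] at hχ hχ' ⊢
    constructor <;> nlinarith
  have h4 : |((n : ℝ) ^ 3 * m) - ((l : ℝ) - l')| < 1 := by
    rw [abs_lt] at h3 ⊢
    constructor
    · by_contra h5
      push Not at h5
      nlinarith [h3.1]
    · by_contra h5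
      push Not at h5
      nlinarith [h3.2]
  have h5 : |(n : ℤ) ^ 3 * m - ((l : ℤ) - l')| < 1 := by exact_mod_cast h4
  have h6 : (n : ℤ) ^ 3 * m = (l : ℤ) - l' := by
    have := Int.abs_lt_one_iff.1 h5
    linarith
  have hl2 : (l : ℤ) < (n : ℤ) ^ 3 := by exact_mod_cast hl
  have hl2' : (l' : ℤ) < (n : ℤ) ^ 3 := by exact_mod_cast hl'
  have h7 : m = 0 := by
    rcases lt_trichotomy m 0 with hm0 | hm0 | hm0
    · have : m ≤ -1 := by omega
      nlinarith
    · exact hm0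
    · have : 1 ≤ m := by omega
      nlinarith
  rw [h7, mul_zero] at h6
  apply h
  omega

private theorem s_rfl_pt (k : ℤ) (r χ : ℝ) : rfl' n k (pt r χ) = pt r (2 * k * al n - χ) := by
  unfold rfl'
  rw [star_pt, s_er_pt]
  congr 1
  ring

theorem rfl'_rfl' (k : ℤ) (z : ℂ) : rfl' n k (rfl' n k z) = z := by
  unfold rfl'
  rw [star_mul', star_star, star_er, ← mul_assoc, mul_comm (er _), s_er_neg, one_mul]

private theorem s_refl_mem (k : ℤ) {z : ℂ} (h : z ∈ Sec n k) : rfl' n k z ∈ Sec n k := by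
  obtain ⟨r, χ, hr, hχ, rfl⟩ := h
  refine ⟨r, _, hr, ?_, s_rfl_pt k r χ⟩
  have e : 2 * k * al n - χ - k * al n = -(χ - k * al n) := by ring
  rwa [e, abs_neg]

theorem Sec_refl (hn : 2 ≤ n) (k : ℤ) (z : ℂ) : rfl' n k z ∈ Sec n k ↔ z ∈ Sec n k := by
  refine ⟨fun h => ?_, s_refl_mem k⟩
  have := s_refl_mem k h
  rwa [rfl'_rfl'] at this

/-- the rays of the other parity do not meet the sector -/
theorem ray_notMem (hn : 2 ≤ n) (k l : ℤ) {r : ℝ} (hr : 0 ≤ r) :
    pt r ((k + 1 + 2 * l : ℤ) * al n) ∉ Sec n k := by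
  obtain ⟨ha, ha'⟩ := s_al hn
  intro hmem
  rcases hr.eq_or_lt with h0 | h0
  · subst h0
    have : pt 0 ((k + 1 + 2 * l : ℤ) * al n) = 0 := by
      rw [pt_eq]
      simp
    rw [this] at hmem
    exact zero_notMem_Sec k hmem
  · obtain ⟨r', χ, hr', hχ, h⟩ := hmem
    obtain ⟨m, hm⟩ := s_pt_inj hn hr' h0 h.symm
    have h1 : |(1 + 2 * ((l : ℝ) + (n : ℝ) ^ 3 * m)) * al n| < al n := by
      have e : (1 + 2 * ((l : ℝ) + (n : ℝ) ^ 3 * m)) * al n = χ - k * al n := by
        rw [hm]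
        push_cast
        ring
      rwa [e]
    rw [abs_mul, abs_of_pos ha] at h1
    have h2 : |1 + 2 * ((l : ℝ) + (n : ℝ) ^ 3 * m)| < 1 := by
      by_contra h3
      push Not at h3
      nlinarith
    have h3 : |1 + 2 * ((l : ℤ) + (n : ℤ) ^ 3 * m)| < 1 := by exact_mod_cast h2
    have h4 := Int.abs_lt_one_iff.1 h3
    obtain ⟨j, hj⟩ : ∃ j, j = (n : ℤ) ^ 3 * m := ⟨_, rfl⟩
    rw [← hj] at h4
    omega

/-- a ball around a point of the right sector -/
private theorem s_ball0 (hn : 2 ≤ n) {a y : ℂ} {d : ℝ}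
    (ha : |a.im| * Real.cos (al n) + d ≤ a.re * Real.sin (al n)) (hy : ‖y - a‖ < d) :
    y ∈ Sec n 0 := by
  rw [s_Sec0 hn]
  obtain ⟨h0, h0'⟩ := s_al hn
  have hπ := Real.pi_pos
  have hs : 0 < Real.sin (al n) := Real.sin_pos_of_pos_of_lt_pi h0 (by linarith)
  have hc : 0 < Real.cos (al n) := Real.cos_pos_of_mem_Ioo ⟨by linarith, by linarith⟩
  have h1 : |y.im| ≤ |a.im| + |(y - a).im| := by
    have : y.im = a.im + (y - a).im := by simp
    rw [this]
    exact abs_add_le _ _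
  have h2 : y.re = a.re + (y - a).re := by simp
  have h3 : |(y - a).im| * Real.cos (al n) - (y - a).re * Real.sin (al n) ≤ ‖y - a‖ := by
    apply abs_le_of_sq_le_sq' _ (norm_nonneg _) |>.2
    rw [Complex.sq_norm, Complex.normSq_apply]
    have h4 := Real.sin_sq_add_cos_sq (al n)
    have h5 : |(y - a).im| ^ 2 = (y - a).im ^ 2 := sq_abs _
    nlinarith [sq_nonneg (|(y - a).im| * Real.sin (al n) + (y - a).re * Real.cos (al n))]
  have h6 : |y.im| * Real.cos (al n) ≤
      |a.im| * Real.cos (al n) + |(y - a).im| * Real.cos (al n) := by nlinarith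
  rw [h2]
  nlinarith

private theorem s_norm_rot (a : ℝ) (z w : ℂ) : ‖er a * z - er a * w‖ = ‖z - w‖ := by
  rw [← mul_sub, norm_mul, norm_er, one_mul]

private theorem s_Sec_back (k : ℤ) {z : ℂ} (h : er (-(k * al n)) * z ∈ Sec n 0) : z ∈ Sec n k := by
  have h1 := s_Sec_er (n := n) k (-k) z
  rw [add_neg_cancel] at h1
  have e : er ((-k : ℤ) * al n) = er (-(k * al n)) := by
    congr 1
    push_cast
    ring
  rw [e] at h1
  exact h1.1 h

theorem ball_Sec (hn : 2 ≤ n) (k : ℤ) {ρ : ℝ} (hρ : 0 < ρ) :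
    Metric.ball (pt ρ (k * al n)) (ρ * Real.sin (al n)) ⊆ Sec n k := by
  intro z hz
  rw [Metric.mem_ball, dist_eq_norm] at hz
  apply s_Sec_back
  have h1 : er (-(k * al n)) * pt ρ (k * al n) = ρ := by
    rw [s_er_pt, add_neg_cancel, pt_eq, s_er_zero, mul_one]
  rw [← s_norm_rot (-(k * al n)), h1] at hz
  refine s_ball0 hn ?_ hz
  simp

/-- a disc between two rays: centre `pt ρ (k α + θ)`, `0 < |θ| ≤ α / 2`, radius `ρ sin |θ|` -/
theorem ball_Sec' (hn : 2 ≤ n) (k : ℤ) {ρ θ : ℝ} (hρ : 0 < ρ) (h0 : θ ≠ 0)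
    (h1 : |θ| ≤ al n / 2) :
    Metric.ball (pt ρ (k * al n + θ)) (ρ * Real.sin |θ|) ⊆ Sec n k ∧
    ∀ z ∈ Metric.ball (pt ρ (k * al n + θ)) (ρ * Real.sin |θ|),
      rfl' n k z ∉ Metric.ball (pt ρ (k * al n + θ)) (ρ * Real.sin |θ|) := by
  obtain ⟨ha, ha'⟩ := s_al hn
  have hπ := Real.pi_pos
  have hθ : 0 < |θ| := abs_pos.2 h0
  have hrot : er (-(k * al n)) * pt ρ (k * al n + θ) = pt ρ θ := by
    rw [s_er_pt]
    congr 1
    ring
  have hre : (pt ρ θ).re = ρ * Real.cos θ := by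
    rw [pt_eq, Complex.re_ofReal_mul, s_er_re]
  have him : (pt ρ θ).im = ρ * Real.sin θ := by
    rw [pt_eq, Complex.im_ofReal_mul, s_er_im]
  have hsθ : |Real.sin θ| = Real.sin |θ| := by
    rcases le_total 0 θ with h | h
    · rw [abs_of_nonneg h] at h1 ⊢
      exact abs_of_nonneg (Real.sin_nonneg_of_nonneg_of_le_pi h (by linarith))
    · rw [abs_of_nonpos h] at h1 ⊢
      rw [Real.sin_neg]
      exact abs_of_nonpos (Real.sin_nonpos_of_nonpos_of_neg_pi_le h (by linarith))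
  constructor
  · intro z hz
    rw [Metric.mem_ball, dist_eq_norm] at hz
    apply s_Sec_back
    rw [← s_norm_rot (-(k * al n)), hrot] at hz
    refine s_ball0 hn ?_ hz
    rw [hre, him, abs_mul, abs_of_pos hρ, hsθ, ← Real.cos_abs θ]
    have h2 : Real.sin |θ| ≤ Real.sin (al n - |θ|) :=
      Real.sin_le_sin_of_le_of_le_pi_div_two (by linarith) (by linarith) (by linarith)
    rw [Real.sin_sub] at h2
    nlinarith
  · intro z hz hz'
    rw [Metric.mem_ball, dist_eq_norm] at hz hz'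
    rw [← s_norm_rot (-(k * al n)), hrot] at hz hz'
    have h3 : er (-(k * al n)) * rfl' n k z = star (er (-(k * al n)) * z) := by
      unfold rfl'
      rw [star_mul', star_er, neg_neg, ← mul_assoc, ← s_er_add]
      congr 2
      ring
    rw [h3] at hz'
    obtain ⟨y, hy⟩ : ∃ y, y = er (-(k * al n)) * z := ⟨_, rfl⟩
    rw [← hy] at hz hz'
    have h4 := (Complex.abs_im_le_norm _).trans_lt hz
    have h5 := (Complex.abs_im_le_norm _).trans_lt hz'
    rw [Complex.sub_im, him] at h4 h5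
    rw [Complex.star_def, Complex.conj_im] at h5
    have h6 : |ρ * Real.sin θ| = ρ * Real.sin |θ| := by
      rw [abs_mul, abs_of_pos hρ, hsθ]
    rw [← h6] at h4 h5
    obtain ⟨s, hs⟩ : ∃ s, s = ρ * Real.sin θ := ⟨_, rfl⟩
    rw [← hs] at h4 h5
    have h7 : |y.im - s + (-y.im - s)| < |s| + |s| :=
      (abs_add_le _ _).trans_lt (add_lt_add h4 h5)
    have h8 : y.im - s + (-y.im - s) = -(2 * s) := by ring
    rw [h8, abs_neg, abs_mul, abs_two] at h7
    linarith

/-- every point is `pt ρ (k α + θ)` with `|θ| ≤ α / 2` -/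
theorem exists_ray (hn : 2 ≤ n) (z : ℂ) : ∃ (k : ℤ) (θ : ℝ), |θ| ≤ al n / 2 ∧
    z = pt ‖z‖ (k * al n + θ) := by
  obtain ⟨ha, _⟩ := s_al hn
  refine ⟨round (Complex.arg z / al n), Complex.arg z - round (Complex.arg z / al n) * al n,
    ?_, ?_⟩
  · have h1 := abs_sub_round (Complex.arg z / al n)
    have h2 : Complex.arg z - round (Complex.arg z / al n) * al n =
        (Complex.arg z / al n - round (Complex.arg z / al n)) * al n := by
      rw [sub_mul, div_mul_cancel₀ _ ha.ne']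
    rw [h2, abs_mul, abs_of_pos ha]
    nlinarith
  · rw [add_sub_cancel]
    exact (Complex.norm_mul_exp_arg_mul_I z).symm

private theorem s_rot_c {f : ℂ → ℂ} {ζ : ℂ} (hζ : ζ ≠ 0) (h : ∀ z, f (ζ * z) = ζ * f z) (l : ℤ) :
    ∀ z, f (ζ ^ l * z) = ζ ^ l * f z := by
  induction l using Int.induction_on with
  | zero =>
    intro z
    simp
  | succ i hi =>
    intro z
    rw [zpow_add_one₀ hζ, mul_comm (ζ ^ (i : ℤ)), mul_assoc, h, hi, mul_assoc]
  | pred i hi =>
    intro z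
    have h1 := h (ζ ^ (-(i : ℤ) - 1) * z)
    have h2 : ζ * (ζ ^ (-(i : ℤ) - 1) * z) = ζ ^ (-(i : ℤ)) * z := by
      rw [← mul_assoc, zpow_sub_one₀ hζ]
      congr 1
      field_simp
    rw [h2, hi] at h1
    apply mul_left_cancel₀ hζ
    rw [← h1, ← mul_assoc, zpow_sub_one₀ hζ]
    congr 1
    field_simp

private theorem s_rot_r {f : ℂ → ℝ} {ζ : ℂ} (hζ : ζ ≠ 0) (h : ∀ z, f (ζ * z) = f z) (l : ℤ) :
    ∀ z, f (ζ ^ l * z) = f z := by
  induction l using Int.induction_on with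
  | zero =>
    intro z
    simp
  | succ i hi =>
    intro z
    rw [zpow_add_one₀ hζ, mul_comm (ζ ^ (i : ℤ)), mul_assoc, h, hi]
  | pred i hi =>
    intro z
    have h1 := h (ζ ^ (-(i : ℤ) - 1) * z)
    have h2 : ζ * (ζ ^ (-(i : ℤ) - 1) * z) = ζ ^ (-(i : ℤ)) * z := by
      rw [← mul_assoc, zpow_sub_one₀ hζ]
      congr 1
      field_simp
    rw [h2, hi] at h1
    exact h1.symm

private theorem s_ze_ne (n : ℕ) : ze n ≠ 0 := by
  rw [← norm_pos_iff, norm_ze]
  exact one_pos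

theorem Cf.Adm.rot_l {c : Cf} (hn : 2 ≤ n) (hc : c.Adm n) (l : ℤ) (z : ℂ) :
    c.w (ze n ^ l * z) = ze n ^ l * c.w z ∧ c.h (ze n ^ l * z) = c.h z ∧
    c.A (ze n ^ l * z) = ze n ^ l * c.A z ∧ c.dens (ze n ^ l * z) = c.dens z :=
  ⟨s_rot_c (s_ze_ne n) hc.rw l z, s_rot_r (s_ze_ne n) hc.rh l z, s_rot_c (s_ze_ne n) hc.rA l z,
    s_rot_r (s_ze_ne n) (hc.dens_rot) l z⟩

/-- symmetry of an `Adm` configuration under all reflections -/
theorem Cf.Adm.refl_k {c : Cf} (hn : 2 ≤ n) (hc : c.Adm n) (k : ℤ) (z : ℂ) :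
    c.w (rfl' n k z) = rfl' n k (c.w z) ∧ c.h (rfl' n k z) = c.h z ∧
    c.A (rfl' n k z) = -rfl' n k (c.A z) ∧ c.dens (rfl' n k z) = c.dens z := by
  unfold rfl'
  rw [← s_ze_zpow]
  obtain ⟨h1, h2, h3, h4⟩ := hc.rot_l hn k (star z)
  refine ⟨?_, ?_, ?_, ?_⟩
  · rw [h1, hc.cw]
  · rw [h2, hc.ch]
  · rw [h3, hc.cA, mul_neg]
  · rw [h4, hc.dens_star]

/-- the energy in one sector is at most `E / m`: `∫_{Sec} dens ≤ 2 E / m` -/
theorem Cf.Adm.int_Sec {c : Cf} (hn : 2 ≤ n) (hc : c.Adm n) (k : ℤ) :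
    (n : ℝ) ^ 3 * ∫ z in Sec n k, c.dens z ≤ 2 * c.E := by
  have h1 : ∀ l : ℕ, ∫ z in Sec n (k + 2 * (l : ℤ)), c.dens z = ∫ z in Sec n k, c.dens z := by
    intro l
    have hu : ze n ^ (l : ℤ) ∈ Submonoid.unitSphere ℂ := by
      rw [Submonoid.unitSphere, ← SetLike.mem_coe]
      show dist (ze n ^ (l : ℤ)) 0 = 1
      rw [dist_zero_right, norm_zpow, norm_ze, one_zpow]
    have hmp := (rotation (⟨ze n ^ (l : ℤ), hu⟩ : Circle)).measurePreserving
    have hemb := (rotation (⟨ze n ^ (l : ℤ), hu⟩ : Circle)).toHomeomorph.measurableEmbedding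
    have h2 := hmp.setIntegral_preimage_emb hemb c.dens (Sec n (k + 2 * (l : ℤ)))
    rw [← h2]
    have h3 : (rotation (⟨ze n ^ (l : ℤ), hu⟩ : Circle)) ⁻¹' (Sec n (k + 2 * (l : ℤ))) =
        Sec n k := by
      ext z
      exact Sec_rot hn k l z
    have h4 : ∀ z, c.dens ((rotation (⟨ze n ^ (l : ℤ), hu⟩ : Circle)) z) = c.dens z :=
      fun z => (hc.rot_l hn l z).2.2.2
    rw [h3]
    simp only [h4]
  have h2 := integral_biUnion_finset (μ := volume) (f := c.dens) (Finset.range (n ^ 3))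
    (s := fun l => Sec n (k + 2 * (l : ℤ)))
    (fun l _ => (Sec_open hn _).measurableSet)
    (fun l hl l' hl' hne => Sec_disj hn k (Finset.mem_range.1 (Finset.mem_coe.1 hl))
      (Finset.mem_range.1 (Finset.mem_coe.1 hl')) hne)
    (fun l _ => hc.fin.integrableOn)
  rw [Finset.sum_congr rfl (fun l _ => h1 l), Finset.sum_const, Finset.card_range,
    nsmul_eq_mul] at h2
  push_cast at h2
  rw [← h2]
  unfold Cf.E
  have h3 : 2 * (1 / 2 * ∫ z, c.dens z) = ∫ z, c.dens z := by ring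
  rw [h3]
  exact setIntegral_le_integral hc.fin (Eventually.of_forall fun z => Cf.dens_nonneg c z)

end GO3
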