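import Pool.Agent.GO3.Sec
import Pool.Agent.GO3.Lmo

/-! GO3 / Smo: symmetric modification in a sector (first half of G3 of the proof text).

`smod`: add `ζ^l (u - w)(ζ^{-l} z)`, `0 ≤ l < m`. The supports `ζ^l K ⊆ Sec n (k + 2 l)` are disjoint (`Sec_disj`),
so on `ζ^l K` the new field is `(ζ^l u(ζ^{-l} z), v(ζ^{-l} z))`, elsewhere `(w, h)`: unit, smooth (finite sum),
rotation invariant (shift of the index modulo `m`, `ze_pow`), reflection invariant (the reflection
`z ↦ conj z` maps `ζ^l Sec_k` to `ζ^{-l-k} Sec_k`, and `u` is invariant under `rfl' n k`, `rot_l`).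
Energy: `dens' - dens` is supported on the disjoint sets `ζ^l K` and is the rotated difference.
`smod_arc`: for `r ≥ 0` one of the points `pt r 0`, `pt r α` is on a ray of parity `k + 1`, hence outside all
`ζ^l K` (`ray_notMem`). `smod_wind`: `wind_local`. -/

open MeasureTheory Filter Topology Set
open scoped ContDiff Real

noncomputable section

namespace GO3

namespace Cf

/-- the same potential with another field -/
def rep (c : Cf) (u : ℂ → ℂ) (v : ℂ → ℝ) : Cf := ⟨u, v, c.A⟩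

/-- symmetric modification -/
def smod (c : Cf) (n : ℕ) (u : ℂ → ℂ) (v : ℂ → ℝ) : Cf :=
  ⟨fun z => c.w z + ∑ l ∈ Finset.range (n ^ 3),
      ze n ^ l * (u (ze n ^ (-(l : ℤ)) * z) - c.w (ze n ^ (-(l : ℤ)) * z)),
   fun z => c.h z + ∑ l ∈ Finset.range (n ^ 3),
      (v (ze n ^ (-(l : ℤ)) * z) - c.h (ze n ^ (-(l : ℤ)) * z)), c.A⟩

/-- hypotheses on the local field -/
structure Mod (c : Cf) (n : ℕ) (k : ℤ) (S : Set ℂ) (u : ℂ → ℂ) (v : ℂ → ℝ) : Prop where
  su : ContDiff ℝ ∞ u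
  sv : ContDiff ℝ ∞ v
  unit : ∀ z, ‖u z‖ ^ 2 + v z ^ 2 = 1
  cpt : IsCompact S
  sub : S ⊆ Sec n k
  off : ∀ z, z ∉ S → u z = c.w z ∧ v z = c.h z
  sym : ∀ z, u (rfl' n k z) = rfl' n k (u z) ∧ v (rfl' n k z) = v z

variable {c : Cf} {n : ℕ} {k : ℤ} {S : Set ℂ} {u : ℂ → ℂ} {v : ℂ → ℝ}

/-! #### powers of `ζ` -/

private theorem sm_add (a b : ℝ) : er (a + b) = er a * er b := by
  unfold er
  rw [← Complex.exp_add]
  congr 1
  push_cast
  ring

private theorem sm_zpow (n : ℕ) (l : ℤ) : ze n ^ l = er (2 * l * al n) := by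
  rw [ze_eq]
  unfold er
  rw [← Complex.exp_int_mul]
  congr 1
  push_cast
  ring

private theorem sm_ne (n : ℕ) : ze n ≠ 0 := fun h => by
  have := norm_ze n
  rw [h, norm_zero] at this
  exact zero_ne_one this

private theorem sm_norm (n : ℕ) (l : ℤ) : ‖ze n ^ l‖ = 1 := by
  rw [norm_zpow, norm_ze, one_zpow]

private theorem sm_star (n : ℕ) (l : ℤ) : star (ze n ^ l) = ze n ^ (-l) := by
  rw [sm_zpow, sm_zpow, star_er]
  congr 1
  push_cast
  ring

private theorem sm_rfl (n : ℕ) (k : ℤ) (z : ℂ) : rfl' n k z = ze n ^ k * star z := by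
  unfold rfl'
  rw [sm_zpow]

private theorem sm_cancel (n : ℕ) (l : ℤ) (z : ℂ) : ze n ^ l * (ze n ^ (-l) * z) = z := by
  rw [← mul_assoc, ← zpow_add₀ (sm_ne n), add_neg_cancel, zpow_zero, one_mul]

private theorem sm_cancel' (n : ℕ) (l : ℤ) (z : ℂ) : ze n ^ (-l) * (ze n ^ l * z) = z := by
  rw [← mul_assoc, ← zpow_add₀ (sm_ne n), neg_add_cancel, zpow_zero, one_mul]

/-! #### sums over a period -/

private theorem per1 {M : Type*} [AddCommGroup M] {m : ℕ} {f : ℤ → M}
    (hf : ∀ j, f (j + m) = f j) :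
    ∑ l ∈ Finset.range m, f ((l : ℤ) + 1) = ∑ l ∈ Finset.range m, f (l : ℤ) := by
  have h1 := Finset.sum_range_succ (fun l : ℕ => f (l : ℤ)) m
  have h2 := Finset.sum_range_succ' (fun l : ℕ => f (l : ℤ)) m
  rw [h1] at h2
  have h3 : f (m : ℤ) = f 0 := by
    have := hf 0
    rwa [zero_add] at this
  rw [h3] at h2
  push_cast at h2
  exact (add_right_cancel h2).symm

private theorem per2 {M : Type*} [AddCommGroup M] {m : ℕ} {f : ℤ → M}
    (hf : ∀ j, f (j + m) = f j) (j : ℤ) :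
    ∑ l ∈ Finset.range m, f ((l : ℤ) + j) = ∑ l ∈ Finset.range m, f (l : ℤ) := by
  induction j using Int.induction_on with
  | zero => simp
  | succ i ih =>
    have h := per1 (f := fun x => f (x + i)) (m := m) (fun x => by
      rw [add_right_comm]
      exact hf _)
    rw [← ih, ← h]
    refine Finset.sum_congr rfl fun l _ => ?_
    congr 1
    ring
  | pred i ih =>
    have h := per1 (f := fun x => f (x + (-(i : ℤ) - 1))) (m := m) (fun x => by
      rw [add_right_comm]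
      exact hf _)
    rw [← ih, ← h]
    refine Finset.sum_congr rfl fun l _ => ?_
    congr 1
    ring

private theorem per3 {M : Type*} [AddCommGroup M] {m : ℕ} {f : ℤ → M}
    (hf : ∀ j, f (j + m) = f j) (j : ℤ) :
    ∑ l ∈ Finset.range m, f (j - (l : ℤ)) = ∑ l ∈ Finset.range m, f (l : ℤ) := by
  rw [← Finset.sum_range_reflect, ← per2 hf (j - m + 1)]
  refine Finset.sum_congr rfl fun l hl => ?_
  rw [Finset.mem_range] at hl
  congr 1
  have : ((m - 1 - l : ℕ) : ℤ) = (m : ℤ) - 1 - l := by omega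
  rw [this]
  ring

/-! #### the terms of the modification -/

private def tw (c : Cf) (n : ℕ) (u : ℂ → ℂ) (z : ℂ) (l : ℤ) : ℂ :=
  ze n ^ l * (u (ze n ^ (-l) * z) - c.w (ze n ^ (-l) * z))

private def tv (c : Cf) (n : ℕ) (v : ℂ → ℝ) (z : ℂ) (l : ℤ) : ℝ :=
  v (ze n ^ (-l) * z) - c.h (ze n ^ (-l) * z)

private theorem smod_w (c : Cf) (n : ℕ) (u : ℂ → ℂ) (v : ℂ → ℝ) (z : ℂ) :
    (c.smod n u v).w z = c.w z + ∑ l ∈ Finset.range (n ^ 3), tw c n u z (l : ℤ) := by
  change c.w z + _ = _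
  congr 1

private theorem smod_h (c : Cf) (n : ℕ) (u : ℂ → ℂ) (v : ℂ → ℝ) (z : ℂ) :
    (c.smod n u v).h z = c.h z + ∑ l ∈ Finset.range (n ^ 3), tv c n v z (l : ℤ) := rfl

private theorem per_ze (hn : 0 < n) (j : ℤ) : ze n ^ (j + ((n ^ 3 : ℕ) : ℤ)) = ze n ^ j := by
  rw [zpow_add₀ (sm_ne n), zpow_natCast, ze_pow hn, mul_one]

private theorem per_ze' (hn : 0 < n) (j : ℤ) : ze n ^ (-(j + ((n ^ 3 : ℕ) : ℤ))) = ze n ^ (-j) := by
  rw [zpow_neg, per_ze hn, zpow_neg]

private theorem per_tw (hn : 0 < n) (c : Cf) (u : ℂ → ℂ) (z : ℂ) (j : ℤ) :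
    tw c n u z (j + ((n ^ 3 : ℕ) : ℤ)) = tw c n u z j := by
  unfold tw
  rw [per_ze hn, per_ze' hn]

private theorem per_tv (hn : 0 < n) (c : Cf) (v : ℂ → ℝ) (z : ℂ) (j : ℤ) :
    tv c n v z (j + ((n ^ 3 : ℕ) : ℤ)) = tv c n v z j := by
  unfold tv
  rw [per_ze' hn]

private theorem sm_shift (n : ℕ) (l : ℤ) (z : ℂ) :
    ze n ^ (-l) * (ze n * z) = ze n ^ (-(l + -1)) * z := by
  rw [← mul_assoc]
  congr 1
  have : -(l + -1) = -l + 1 := by ring
  rw [this, zpow_add₀ (sm_ne n), zpow_one]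

private theorem tw_rot (c : Cf) (n : ℕ) (u : ℂ → ℂ) (z : ℂ) (l : ℤ) :
    tw c n u (ze n * z) l = ze n * tw c n u z (l + -1) := by
  unfold tw
  rw [sm_shift, ← mul_assoc]
  congr 1
  have : ze n ^ l = ze n * ze n ^ (l + -1) := by
    rw [← zpow_one_add₀ (sm_ne n)]
    congr 1
    ring
  rw [this]

private theorem tv_rot (c : Cf) (n : ℕ) (v : ℂ → ℝ) (z : ℂ) (l : ℤ) :
    tv c n v (ze n * z) l = tv c n v z (l + -1) := by
  unfold tv
  rw [sm_shift]

/-- `ζ^{-l} conj z = rfl' (ζ^{l + k} z)` -/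
private theorem sm_conj (n : ℕ) (k l : ℤ) (z : ℂ) :
    ze n ^ (-l) * star z = rfl' n k (ze n ^ (-(-k - l)) * z) := by
  rw [sm_rfl, star_mul', sm_star, ← mul_assoc, ← zpow_add₀ (sm_ne n)]
  congr 2
  ring

private theorem tw_star (hn : 2 ≤ n) (hc : c.Adm n) (h : c.Mod n k S u v) (z : ℂ) (l : ℤ) :
    tw c n u (star z) l = star (tw c n u z (-k - l)) := by
  unfold tw
  rw [sm_conj n k l z, (h.sym _).1, (hc.refl_k hn k _).1, sm_rfl, sm_rfl, star_mul', sm_star,
    star_sub, ← mul_sub, ← mul_assoc, ← zpow_add₀ (sm_ne n)]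
  congr 2
  ring

private theorem tv_star (hn : 2 ≤ n) (hc : c.Adm n) (h : c.Mod n k S u v) (z : ℂ) (l : ℤ) :
    tv c n v (star z) l = tv c n v z (-k - l) := by
  unfold tv
  rw [sm_conj n k l z, (h.sym _).2, (hc.refl_k hn k _).2.1]

/-- at most one of the rotated points is in the sector -/
private theorem sec_uniq (hn : 2 ≤ n) {z : ℂ} {l l' : ℕ} (hl : l < n ^ 3) (hl' : l' < n ^ 3)
    (h : ze n ^ (-(l : ℤ)) * z ∈ Sec n k) (h' : ze n ^ (-(l' : ℤ)) * z ∈ Sec n k) : l = l' := by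
  by_contra hne
  have h1 := (Sec_rot hn k (l : ℤ) (ze n ^ (-(l : ℤ)) * z)).2 h
  have h2 := (Sec_rot hn k (l' : ℤ) (ze n ^ (-(l' : ℤ)) * z)).2 h'
  rw [sm_cancel] at h1 h2
  exact Set.disjoint_left.1 (Sec_disj hn k hl hl' hne) h1 h2

private theorem tw_zero (h : c.Mod n k S u v) {z : ℂ} {l : ℤ} (hz : ze n ^ (-l) * z ∉ S) :
    tw c n u z l = 0 := by
  unfold tw
  rw [(h.off _ hz).1, sub_self, mul_zero]

private theorem tv_zero (h : c.Mod n k S u v) {z : ℂ} {l : ℤ} (hz : ze n ^ (-l) * z ∉ S) :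
    tv c n v z l = 0 := by
  unfold tv
  rw [(h.off _ hz).2, sub_self]

private theorem smod_off (h : c.Mod n k S u v) {z : ℂ}
    (hz : ∀ l < n ^ 3, ze n ^ (-(l : ℤ)) * z ∉ S) :
    (c.smod n u v).w z = c.w z ∧ (c.smod n u v).h z = c.h z := by
  rw [smod_w, smod_h]
  constructor
  · rw [Finset.sum_eq_zero fun l hl => tw_zero h (hz l (Finset.mem_range.1 hl)), add_zero]
  · rw [Finset.sum_eq_zero fun l hl => tv_zero h (hz l (Finset.mem_range.1 hl)), add_zero]

private theorem smod_on (hn : 2 ≤ n) (hc : c.Adm n) (h : c.Mod n k S u v) {z : ℂ} {l : ℕ}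
    (hl : l < n ^ 3) (hz : ze n ^ (-(l : ℤ)) * z ∈ Sec n k) :
    (c.smod n u v).w z = ze n ^ (l : ℤ) * u (ze n ^ (-(l : ℤ)) * z) ∧
      (c.smod n u v).h z = v (ze n ^ (-(l : ℤ)) * z) := by
  have h1 := (hc.rot_l hn (l : ℤ) (ze n ^ (-(l : ℤ)) * z))
  rw [sm_cancel] at h1
  have hoth : ∀ l' ∈ Finset.range (n ^ 3), l' ≠ l → ze n ^ (-(l' : ℤ)) * z ∉ S := by
    intro l' hl' hne hS
    exact hne (sec_uniq hn (Finset.mem_range.1 hl') hl (h.sub hS) hz)
  rw [smod_w, smod_h]
  constructor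
  · rw [Finset.sum_eq_single_of_mem l (Finset.mem_range.2 hl)
      (fun l' hl' hne => tw_zero h (hoth l' hl' hne)), h1.1]
    unfold tw
    ring
  · rw [Finset.sum_eq_single_of_mem l (Finset.mem_range.2 hl)
      (fun l' hl' hne => tv_zero h (hoth l' hl' hne)), h1.2.1]
    unfold tv
    ring

/-! #### the density -/

private theorem cont_dens {c : Cf} (hw : ContDiff ℝ ∞ c.w) (hh : ContDiff ℝ ∞ c.h)
    (hA : ContDiff ℝ ∞ c.A) : Continuous c.dens := by
  have d1 : ∀ v : ℂ, Continuous fun z : ℂ => fderiv ℝ c.w z v := fun v =>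
    ((hw.fderiv_right (m := ∞) (by simp)).clm_apply contDiff_const).continuous
  have d2 : ∀ v : ℂ, Continuous fun z : ℂ => fderiv ℝ c.h z v := fun v =>
    ((hh.fderiv_right (m := ∞) (by simp)).clm_apply contDiff_const).continuous
  have d3 : ∀ v : ℂ, Continuous fun z : ℂ => fderiv ℝ c.A z v := fun v =>
    ((hA.fderiv_right (m := ∞) (by simp)).clm_apply contDiff_const).continuous
  have i1 : ∀ v : ℂ, Continuous fun z : ℂ => ((ip (c.A z) v : ℝ) : ℂ) := fun v => by
    refine Complex.continuous_ofReal.comp ?_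
    exact ((Complex.continuous_re.comp hA.continuous).mul continuous_const).add
      ((Complex.continuous_im.comp hA.continuous).mul continuous_const)
  have n1 : ∀ v : ℂ, Continuous fun z : ℂ => c.nsq z v := fun v =>
    ((((d1 v).sub ((continuous_const.mul (i1 v)).mul hw.continuous)).norm).pow 2).add
      ((d2 v).pow 2)
  have f1 : Continuous c.F := (Complex.continuous_im.comp (d3 1)).sub
    (Complex.continuous_re.comp (d3 Complex.I))
  exact (((n1 1).add (n1 Complex.I)).add ((continuous_const.sub hh.continuous).pow 2)).add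
    (f1.pow 2)

private theorem dens_congr {c c' : Cf} {z : ℂ} (hw : c'.w =ᶠ[𝓝 z] c.w) (hh : c'.h =ᶠ[𝓝 z] c.h)
    (hA : c'.A = c.A) : c'.dens z = c.dens z := by
  unfold dens grad nsq Dw dh F
  rw [hw.fderiv_eq, hh.fderiv_eq, hA, hw.eq_of_nhds, hh.eq_of_nhds]

/-- the union of the rotated supports -/
private def KK (n : ℕ) (S : Set ℂ) : Set ℂ :=
  ⋃ l ∈ Finset.range (n ^ 3), (fun z => ze n ^ (l : ℤ) * z) '' S

private theorem KK_compact (n : ℕ) (hS : IsCompact S) : IsCompact (KK n S) :=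
  (Finset.range (n ^ 3)).isCompact_biUnion fun l _ =>
    hS.image (continuous_const.mul continuous_id)

private theorem notMem_KK {z : ℂ} (hz : z ∉ KK n S) : ∀ l < n ^ 3, ze n ^ (-(l : ℤ)) * z ∉ S := by
  intro l hl hS
  apply hz
  unfold KK
  rw [Set.mem_iUnion₂]
  exact ⟨l, Finset.mem_range.2 hl, _, hS, sm_cancel n l z⟩

private theorem dens_off (h : c.Mod n k S u v) {z : ℂ} (hz : z ∉ KK n S) :
    (c.smod n u v).dens z = c.dens z := by
  have ho : (KK n S)ᶜ ∈ 𝓝 z := (KK_compact n h.cpt).isClosed.isOpen_compl.mem_nhds hz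
  refine dens_congr ?_ ?_ rfl
  · filter_upwards [ho] with y hy
    exact (smod_off h (notMem_KK hy)).1
  · filter_upwards [ho] with y hy
    exact (smod_off h (notMem_KK hy)).2

private theorem smod_sec (hn : 2 ≤ n) (hc : c.Adm n) (h : c.Mod n k S u v) {z : ℂ}
    (hz : z ∈ Sec n k) : (c.smod n u v).w z = u z ∧ (c.smod n u v).h z = v z := by
  have h3 : 0 < n ^ 3 := by positivity
  have h1 := smod_on hn hc h (z := z) (l := 0) h3 (by simpa using hz)
  simpa using h1

private theorem dens_sec (hn : 2 ≤ n) (hc : c.Adm n) (h : c.Mod n k S u v) {z : ℂ}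
    (hz : z ∈ Sec n k) : (c.smod n u v).dens z = (c.rep u v).dens z := by
  have ho : Sec n k ∈ 𝓝 z := (Sec_open hn k).mem_nhds hz
  refine dens_congr ?_ ?_ rfl
  · filter_upwards [ho] with y hy
    exact (smod_sec hn hc h hy).1
  · filter_upwards [ho] with y hy
    exact (smod_sec hn hc h hy).2

private theorem smod_sw (hc : c.Adm n) (h : c.Mod n k S u v) : ContDiff ℝ ∞ (c.smod n u v).w := by
  refine hc.sw.add (ContDiff.sum fun l _ => ?_)
  have hl : ContDiff ℝ ∞ fun z : ℂ => ze n ^ (-(l : ℤ)) * z := contDiff_const.mul contDiff_id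
  exact contDiff_const.mul ((h.su.comp hl).sub (hc.sw.comp hl))

private theorem smod_sh (hc : c.Adm n) (h : c.Mod n k S u v) : ContDiff ℝ ∞ (c.smod n u v).h := by
  refine hc.sh.add (ContDiff.sum fun l _ => ?_)
  have hl : ContDiff ℝ ∞ fun z : ℂ => ze n ^ (-(l : ℤ)) * z := contDiff_const.mul contDiff_id
  exact (h.sv.comp hl).sub (hc.sh.comp hl)

private theorem diff_cs (hc : c.Adm n) (h : c.Mod n k S u v) :
    Integrable fun z => (c.smod n u v).dens z - c.dens z := by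
  refine Continuous.integrable_of_hasCompactSupport ?_ ?_
  · exact (cont_dens (smod_sw hc h) (smod_sh hc h) hc.sA).sub (cont_dens hc.sw hc.sh hc.sA)
  · exact HasCompactSupport.intro (KK_compact n h.cpt) fun z hz => by
      rw [dens_off h hz, sub_self]

private theorem int_rot (a : ℂ) (ha : ‖a‖ = 1) (g : ℂ → ℝ) : ∫ z, g (a * z) = ∫ z, g z := by
  have hm : a ∈ Submonoid.unitSphere ℂ := mem_sphere_zero_iff_norm.2 ha
  have h1 := (rotation (⟨a, hm⟩ : Circle)).measurePreserving.integral_comp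
    (rotation (⟨a, hm⟩ : Circle)).toHomeomorph.measurableEmbedding g
  simpa [rotation_apply] using h1

theorem smod_adm (hn : 2 ≤ n) (hc : c.Adm n) (h : c.Mod n k S u v) : (c.smod n u v).Adm n := by
  have hn0 : 0 < n := by omega
  refine ⟨smod_sw hc h, smod_sh hc h, hc.sA, fun z => ?_, ?_, fun z => ?_, fun z => ?_, hc.rA,
    fun z => ?_, fun z => ?_, hc.cA⟩
  · by_cases hz : ∃ l < n ^ 3, ze n ^ (-(l : ℤ)) * z ∈ S
    · obtain ⟨l, hl, hz⟩ := hz
      obtain ⟨h1, h2⟩ := smod_on hn hc h hl (h.sub hz)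
      rw [h1, h2, norm_mul, sm_norm, one_mul]
      exact h.unit _
    · push Not at hz
      obtain ⟨h1, h2⟩ := smod_off h hz
      rw [h1, h2]
      exact hc.unit z
  · have h1 := hc.fin.add (diff_cs hc h)
    refine h1.congr (Filter.Eventually.of_forall fun z => ?_)
    simp
  · rw [smod_w, smod_w, hc.rw, mul_add, Finset.mul_sum]
    congr 1
    rw [← Finset.mul_sum, ← per2 (per_tw hn0 c u z) (-1), Finset.mul_sum]
    exact Finset.sum_congr rfl fun l _ => tw_rot c n u z l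
  · rw [smod_h, smod_h, hc.rh]
    congr 1
    rw [← per2 (per_tv hn0 c v z) (-1)]
    exact Finset.sum_congr rfl fun l _ => tv_rot c n v z l
  · rw [smod_w, smod_w, hc.cw, star_add, ← per3 (per_tw hn0 c u z) (-k), star_sum]
    congr 1
    exact Finset.sum_congr rfl fun l _ => tw_star hn hc h z l
  · rw [smod_h, smod_h, hc.ch, ← per3 (per_tv hn0 c v z) (-k)]
    congr 1
    exact Finset.sum_congr rfl fun l _ => tv_star hn hc h z l

theorem smod_E (hn : 2 ≤ n) (hc : c.Adm n) (h : c.Mod n k S u v) :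
    (c.smod n u v).E = c.E +
      (n : ℝ) ^ 3 * (1 / 2 * ((∫ z in S, (c.rep u v).dens z) - ∫ z in S, c.dens z)) := by
  have hc' := smod_adm hn hc h
  have k1 : Continuous (c.smod n u v).dens := cont_dens hc'.sw hc'.sh hc'.sA
  have k2 : Continuous c.dens := cont_dens hc.sw hc.sh hc.sA
  have hSm : MeasurableSet S := h.cpt.isClosed.measurableSet
  have j1 : IntegrableOn (c.smod n u v).dens S := k1.continuousOn.integrableOn_compact h.cpt
  have j2 : IntegrableOn c.dens S := k2.continuousOn.integrableOn_compact h.cpt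
  set G : ℂ → ℝ := fun z => (c.smod n u v).dens z - c.dens z with hG
  set g : ℂ → ℝ := S.indicator G with hg
  have hGi : Integrable G := diff_cs hc h
  have hgi : Integrable g := (integrable_indicator_iff hSm).2 hGi.integrableOn
  have hrot : ∀ (l : ℤ) (z : ℂ), G (ze n ^ (-l) * z) = G z := by
    intro l z
    simp only [hG]
    rw [(hc'.rot_l hn (-l) z).2.2.2, (hc.rot_l hn (-l) z).2.2.2]
  have hsum : ∀ z, G z = ∑ l ∈ Finset.range (n ^ 3), g (ze n ^ (-(l : ℤ)) * z) := by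
    intro z
    by_cases hz : ∃ l < n ^ 3, ze n ^ (-(l : ℤ)) * z ∈ S
    · obtain ⟨l, hl, hzl⟩ := hz
      rw [Finset.sum_eq_single_of_mem l (Finset.mem_range.2 hl)]
      · rw [hg, Set.indicator_of_mem hzl, hrot]
      · intro l' hl' hne
        rw [hg, Set.indicator_of_notMem]
        intro hS
        exact hne (sec_uniq hn (Finset.mem_range.1 hl') hl (h.sub hS) (h.sub hzl))
    · push Not at hz
      rw [Finset.sum_eq_zero fun l hl => by
        rw [hg, Set.indicator_of_notMem (hz l (Finset.mem_range.1 hl))]]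
      have hK : z ∉ KK n S := by
        intro hK
        unfold KK at hK
        rw [Set.mem_iUnion₂] at hK
        obtain ⟨l, hl, y, hy, hyz⟩ := hK
        refine hz l (Finset.mem_range.1 hl) ?_
        rw [← hyz]
        change ze n ^ (-(l : ℤ)) * (ze n ^ (l : ℤ) * y) ∈ S
        rw [sm_cancel']
        exact hy
      simp only [hG]
      rw [dens_off h hK, sub_self]
  have hint : ∫ z, G z = (n : ℝ) ^ 3 * ∫ z in S, G z := by
    calc ∫ z, G z = ∫ z, ∑ l ∈ Finset.range (n ^ 3), g (ze n ^ (-(l : ℤ)) * z) :=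
          integral_congr_ae (Filter.Eventually.of_forall hsum)
      _ = ∑ l ∈ Finset.range (n ^ 3), ∫ z, g (ze n ^ (-(l : ℤ)) * z) := by
          refine integral_finsetSum _ fun l _ => ?_
          have hm : ze n ^ (-(l : ℤ)) ∈ Submonoid.unitSphere ℂ :=
            mem_sphere_zero_iff_norm.2 (sm_norm n _)
          have h2 := (rotation (⟨_, hm⟩ : Circle)).measurePreserving.integrable_comp_emb
            (rotation (⟨_, hm⟩ : Circle)).toHomeomorph.measurableEmbedding (g := g)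
          exact h2.2 hgi
      _ = ∑ _l ∈ Finset.range (n ^ 3), ∫ z, g z :=
          Finset.sum_congr rfl fun l _ => int_rot _ (sm_norm n _) g
      _ = (n : ℝ) ^ 3 * ∫ z in S, G z := by
          rw [Finset.sum_const, Finset.card_range, nsmul_eq_mul, hg, integral_indicator hSm]
          push_cast
          ring
  have hS : ∫ z in S, G z = (∫ z in S, (c.rep u v).dens z) - ∫ z in S, c.dens z := by
    rw [← setIntegral_congr_fun hSm (f := fun z => (c.smod n u v).dens z)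
      (fun z hz => dens_sec hn hc h (h.sub hz))]
    exact integral_sub j1 j2
  have hE : ∫ z, (c.smod n u v).dens z = (∫ z, c.dens z) + ∫ z, G z := by
    rw [← integral_add hc.fin hGi]
    refine integral_congr_ae (Filter.Eventually.of_forall fun z => ?_)
    simp [hG]
  unfold E
  rw [hE, hint, hS]
  ring

theorem smod_arc (hn : 2 ≤ n) (hc : c.Adm n) (h : c.Mod n k S u v) {r : ℝ} (hr : 0 ≤ r) :
    ∃ χ ∈ Icc 0 (al n), (c.smod n u v).w (pt r χ) = c.w (pt r χ) ∧
      (c.smod n u v).h (pt r χ) = c.h (pt r χ) := by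
  have hn0 : 0 < n := by omega
  have _ := hc
  have hal := al_pos hn0
  have key : ∀ l : ℤ, ∀ j : ℕ, ze n ^ (-(j : ℤ)) * pt r ((k + 1 + 2 * l : ℤ) * al n) ∉ S := by
    intro l j hS
    have h1 := h.sub hS
    have e : ze n ^ (-(j : ℤ)) * pt r ((k + 1 + 2 * l : ℤ) * al n) =
        pt r ((k + 1 + 2 * (l - j) : ℤ) * al n) := by
      rw [sm_zpow, pt_eq, pt_eq, mul_left_comm, ← sm_add]
      congr 2
      push_cast
      ring
    rw [e] at h1
    exact ray_notMem hn k (l - j) hr h1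
  rcases Int.even_or_odd k with ⟨j, hj⟩ | ⟨j, hj⟩
  · refine ⟨al n, ⟨hal.le, le_rfl⟩, smod_off h fun l _ => ?_⟩
    have h1 := key (-j) l
    have e : ((k + 1 + 2 * (-j) : ℤ) : ℝ) * al n = al n := by
      rw [hj]
      push_cast
      ring
    rwa [e] at h1
  · refine ⟨0, ⟨le_rfl, hal.le⟩, smod_off h fun l _ => ?_⟩
    have h1 := key (-j - 1) l
    have e : ((k + 1 + 2 * (-j - 1) : ℤ) : ℝ) * al n = 0 := by
      rw [hj]
      push_cast
      ring
    rwa [e] at h1

theorem smod_zero (hn : 2 ≤ n) (hc : c.Adm n) (h : c.Mod n k S u v) :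
    (c.smod n u v).h 0 = c.h 0 := by
  have _ := hn
  have _ := hc
  refine (smod_off h fun l _ hS => ?_).2
  rw [mul_zero] at hS
  exact zero_notMem_Sec k (h.sub hS)

/-- local almost minimality in a sector -/
theorem alm_mod (K : ℝ) (hK : 1 ≤ K) : ∃ n₀ : ℕ, 2 ≤ n₀ ∧ ∀ n : ℕ, n₀ ≤ n → ∀ (σ δ : ℝ) (c : Cf),
    0 ≤ δ → c.Alm K n σ δ → ∀ (k : ℤ) (S : Set ℂ) (u : ℂ → ℂ) (v : ℂ → ℝ), c.Mod n k S u v →
    ∫ z in S, c.dens z ≤ (∫ z in S, (c.rep u v).dens z) + 2 * δ := by
  obtain ⟨n₀, h2, hwl⟩ := wind_local K hK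
  refine ⟨n₀, h2, fun n hn σ δ c hδ hc k S u v h => ?_⟩
  have hn2 : 2 ≤ n := le_trans h2 hn
  obtain ⟨⟨hadm, hwind, hh0⟩, hrad, hE, hmin⟩ := hc
  by_contra hcon
  push Not at hcon
  have hEs := smod_E hn2 hadm h
  have hn1 : (1 : ℝ) ≤ (n : ℝ) ^ 3 := one_le_pow₀ (by exact_mod_cast (by omega : 1 ≤ n))
  have hadm' := smod_adm hn2 hadm h
  have hlt : (∫ z in S, (c.rep u v).dens z) - ∫ z in S, c.dens z < -(2 * δ) := by linarith
  have h5 : (n : ℝ) ^ 3 * (1 / 2 * ((∫ z in S, (c.rep u v).dens z) - ∫ z in S, c.dens z)) <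
      -δ := by
    have h6 : (n : ℝ) ^ 3 * (1 / 2 * ((∫ z in S, (c.rep u v).dens z) - ∫ z in S, c.dens z)) ≤
        1 * (1 / 2 * ((∫ z in S, (c.rep u v).dens z) - ∫ z in S, c.dens z)) :=
      mul_le_mul_of_nonpos_right hn1 (by linarith)
    linarith
  have hE' : (c.smod n u v).E ≤ K * n ^ 2 := by linarith
  have hw' := hwl n hn c (c.smod n u v) hadm hadm' hrad rfl hE hE'
    (fun r hr => smod_arc hn2 hadm h (by
      have : 0 ≤ rm K n := by
        unfold rm
        positivity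
      exact this.trans hr.1)) hwind
  have h7 := hmin (c.smod n u v) ⟨hadm', hw', by rw [smod_zero hn2 hadm h, hh0]⟩
  linarith

end Cf

end GO3
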